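import Pool.Agent.Lib.MP_e005b4_ag.LD.SpecB
import Pool.Agent.Lib.MP_e005b4_ag.GP.Bb
import Pool.Agent.Lib.MP_e005b4_ag.GP.Bc

/-!
# Sections of large degree: the cone over the second Veronese embedding
-/

set_option autoImplicit false

namespace Pool.Agent.Lib.MP_e005b4_ag.LD

open MvPolynomial Pool.Agent.Lib.MP_e005b4_ag Pool.Agent.Lib.MP_e005b4_ag.GP
open scoped LinearAlgebra.Projectivization

private theorem B1_mono {ι : Type} [Fintype ι] {Y : Set (PSpace ι)} {m m' : ℕ}
    (h : DimLT Y m) (hm : m ≤ m') : DimLT Y m' := by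
  have hB := (gBc gBb).2.1
  exact (hB ι Y m').2 (((hB ι Y m).1 h).mono hm)

/-- If every point is in a secant set, the variety spans. -/
private theorem B1_spans {ι : Type} [Fintype ι] {Y : Set (PSpace ι)} {r : ℕ}
    (h : ∀ p, p ∈ secantSet Y r) : Spans Y := by
  unfold Spans
  rw [eq_top_iff]
  intro v _
  by_cases hv : v = 0
  · rw [hv]
    exact Submodule.zero_mem _
  · obtain ⟨x, hx, hp⟩ := h (Projectivization.mk ℂ v hv)
    have h1 : v ∈ (Projectivization.mk ℂ v hv).submodule := by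
      rw [Projectivization.submodule_mk]
      exact Submodule.mem_span_singleton_self _
    have h2 : (⨆ i, (x i).submodule) ≤ ⨆ p ∈ Y, Projectivization.submodule p :=
      iSup_le fun i => le_iSup₂_of_le (x i) (hx i) le_rfl
    exact h2 (hp h1)

private theorem B1_sm_rank_le {n : ℕ} (w : Option (Sym2 (Fin (n + 1))) → ℂ) :
    (sm w).rank ≤ n + 1 := by
  have h := (sm w).rank_le_card_width
  rwa [Fintype.card_fin] at h

/-- A vector with a matrix of rank at least three. -/
private theorem B1_diag {n : ℕ} (hn : 2 ≤ n) :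
    ∃ w : Option (Sym2 (Fin (n + 1))) → ℂ, w ≠ 0 ∧ ∀ c : ℂ, c ≠ 0 → 3 ≤ (sm (c • w)).rank := by
  classical
  let f : Fin (n + 1) → ℂ := fun i => if i.1 < 3 then 1 else 0
  let w : Option (Sym2 (Fin (n + 1))) → ℂ := fun o => match o with
    | none => 0
    | some s => Sym2.lift ⟨fun i j => if i = j then f i else 0, fun i j => by
        by_cases h : i = j
        · subst h
          rfl
        · show (if i = j then f i else 0) = if j = i then f j else 0
          rw [if_neg h, if_neg (Ne.symm h)]⟩ s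
  have hw : ∀ i j, w (some s(i, j)) = if i = j then f i else 0 := fun i j => rfl
  have h3 : ∀ c : ℂ, c ≠ 0 → 3 ≤ (sm (c • w)).rank := by
    intro c hc
    have h1 : sm (c • w) = Matrix.diagonal fun i => c * f i := by
      ext i j
      show c • w (some s(i, j)) = _
      rw [hw, Matrix.diagonal_apply]
      by_cases h : i = j
      · rw [if_pos h, if_pos h, smul_eq_mul]
      · rw [if_neg h, if_neg h, smul_zero]
    rw [h1, Matrix.rank_diagonal]
    have h2 : Fintype.card (Fin 3) ≤ Fintype.card {i : Fin (n + 1) // c * f i ≠ 0} := by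
      refine Fintype.card_le_of_injective (fun k : Fin 3 => ⟨⟨k.1, by omega⟩, ?_⟩) ?_
      · have : f ⟨k.1, by omega⟩ = 1 := if_pos k.2
        rw [this, mul_one]
        exact hc
      · intro a b hab
        have := congrArg (fun x => x.1.1) hab
        exact Fin.ext this
    rwa [Fintype.card_fin] at h2
  refine ⟨w, ?_, h3⟩
  rintro h0
  have h4 := h3 1 one_ne_zero
  rw [h0, smul_zero] at h4
  have h5 : sm (0 : Option (Sym2 (Fin (n + 1))) → ℂ) = 0 := rfl
  rw [h5, Matrix.rank_zero] at h4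
  omega

theorem lB1 (h0 : StMA) (h1 : StI1) (h2 : StS1) (h3 : StP1) (h4 : StXi) (h5 : StVa) (h6 : StVb)
    (h7 : StVc) (h8 : StT1T) (h9 : StDm) (h10 : StD1) (h11 : StE1) : StB1 := by
  classical
  intro n d hn hd
  have hd2 : 2 ≤ d := by omega
  obtain ⟨Φ0, hΦ0, hF0⟩ := h0 (Option (Sym2 (Fin (n + 1)))) d hd
  obtain ⟨ΦI, hΦI, hI⟩ := h1 n d hn hd2
  obtain ⟨ΦS, hΦS, hS⟩ := h2 n d (by omega)
  obtain ⟨Φ1, hΦ1, hF1⟩ := h3 n d ΦI hΦI
  obtain ⟨Φ2, hΦ2, hF2⟩ := h3 n d ΦS hΦS
  have ht0 : (Finsupp.single (none : Option (Sym2 (Fin (n + 1)))) d).degree = d := by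
    rw [Finsupp.degree_single]
  refine ⟨Φ0 * Φ1 * Φ2 * X ⟨Finsupp.single none d, ht0⟩, ?_, fun F hF hΦF => ?_⟩
  · exact mul_ne_zero (mul_ne_zero (mul_ne_zero hΦ0 hΦ1) hΦ2) (X_ne_zero _)
  rw [map_mul, map_mul, map_mul, eval_X] at hΦF
  have e3 := right_ne_zero_of_mul hΦF
  have e012 := left_ne_zero_of_mul hΦF
  have e2 := right_ne_zero_of_mul e012
  have e01 := left_ne_zero_of_mul e012
  have e1 := right_ne_zero_of_mul e01
  have e0 := left_ne_zero_of_mul e01
  obtain ⟨g1, hg1, hFg1⟩ := hF1 F hF e1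
  obtain ⟨g2, hg2, hFg2⟩ := hF2 F hF e2
  have hirr : Irreducible (aeval (r1 n) F) := by
    rw [hFg1]
    exact hI g1 hg1
  have hreg : Reg (U1 n) (aeval (r1 n) F) := by
    rw [hFg2]
    exact hS g2 hg2
  have hZ : IsProjectiveVariety (verCone n) := (h5 n).2
  have hZne : (verCone n).Nonempty := hZ.2.1
  obtain ⟨hrk, hsec⟩ := hF0 F hF e0 (verCone n) hZ (h6 n).2 (h7 n).1 (h7 n).2
  have hcutne : (cut (verCone n) F).Nonempty := by
    obtain ⟨p, hp⟩ := hZne
    have hp2 : p ∈ secantSet (verCone n) 2 :=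
      secantSet_mono ⟨p, hp⟩ (by norm_num : 1 ≤ 2) (by rw [secantSet_one]; exact hp)
    rw [← hsec 2 le_rfl] at hp2
    obtain ⟨x, hx, -⟩ := hp2
    exact ⟨x 0, hx 0⟩
  have hsv : secantVariety (cut (verCone n) F) 2 = secantVariety (verCone n) 2 := by
    unfold secantVariety
    rw [hsec 2 le_rfl]
  have hXi : IsProjectiveVariety (cut (verCone n) F) :=
    h4 _ _ (r1 n) (verCone n) d F (by omega) hF hZ.1 (h5 n).1 hirr hcutne
  refine ⟨hXi, h8 n d F (by omega) hF e3 hirr hreg, ⟨h11 n d F (by omega) hF e3, fun hlt => ?_⟩,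
    ⟨?_, fun hlt => ?_⟩, ?_, fun hn2 huniv => ?_, hrk⟩
  · have h := h9 _ (cut (verCone n) F) n hXi hlt
    rw [hsv] at h
    exact h10 n (B1_mono h (by omega))
  · have h := h9 _ (cut (verCone n) F) (n + 1) hXi (h11 n d F (by omega) hF e3)
    exact h
  · rw [hsv] at hlt
    exact h10 n hlt
  · refine B1_spans (r := n + 2) fun p => ?_
    rw [hsec (n + 2) (by omega)]
    have hmem : p.rep ∈ Sr (cone (verCone n)) (n + 2) :=
      ((h6 n).1 (n + 2) (by omega) p.rep).2 ((B1_sm_rank_le _).trans (by omega))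
    rw [← rep_mem_cone, (gBb _ (verCone n) hZne (n + 2)).1]
    exact hmem
  · rw [hsv] at huniv
    obtain ⟨w, hw0, hw⟩ := B1_diag hn2
    have hp : Projectivization.mk ℂ w hw0 ∈ secantVariety (verCone n) 2 := by
      rw [huniv]
      trivial
    have hb : xBorderRank (verCone n) (Projectivization.mk ℂ w hw0) ≤ (2 : ℕ) :=
      (xBorderRank_le_iff hZne).2 hp
    rw [← (h6 n).2] at hb
    have hs := (xRank_le_iff hZne).1 hb
    rw [← rep_mem_cone, (gBb _ (verCone n) hZne 2).1, (h6 n).1 2 (by norm_num)] at hs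
    obtain ⟨c, hc, hrep⟩ := rep_eq w hw0
    rw [hrep] at hs
    have := hw c hc
    omega

end Pool.Agent.Lib.MP_e005b4_ag.LD
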