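import Pool.Agent.Lib.MP_e005b4_ag.LD.SpecB

/-!
# Sections of large degree: assembly for the Segre varieties
-/

set_option autoImplicit false

namespace Pool.Agent.Lib.MP_e005b4_ag.LD

open MvPolynomial Pool.Agent.Lib.MP_e005b4_ag Pool.Agent.Lib.MP_e005b4_ag.GP
open scoped LinearAlgebra.Projectivization

section

variable {ι : Type} [Fintype ι]

private theorem B2_dim_mono {Y : Set (PSpace ι)} {m : ℕ} (h : DimLT Y m) : DimLT Y (m + 1) := by
  obtain ⟨M, hM⟩ := h
  refine ⟨fun k i => if hk : k.1 < m then M ⟨k.1, hk⟩ i else 0, fun p hp h0 => hM p hp ?_⟩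
  funext k
  have h1 := congrFun h0 ⟨k.1, lt_of_lt_of_le k.2 (Nat.le_succ m)⟩
  simpa [Matrix.mulVec, dotProduct, k.2] using h1

private theorem B2_spans {X : Set (PSpace ι)} {r : ℕ} (h : ∀ p, p ∈ secantSet X r) :
    Spans X := by
  unfold Spans
  rw [eq_top_iff]
  intro v _
  by_cases hv : v = 0
  · rw [hv]
    exact Submodule.zero_mem _
  · obtain ⟨x, hx, hp⟩ := h (Projectivization.mk ℂ v hv)
    have h1 : v ∈ (Projectivization.mk ℂ v hv).submodule := by
      rw [Projectivization.submodule_mk]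
      exact Submodule.mem_span_singleton_self _
    have h2 : (⨆ i, (x i).submodule) ≤ ⨆ p ∈ X, Projectivization.submodule p :=
      iSup_le fun i => le_iSup₂ (f := fun (p : PSpace ι) (_ : p ∈ X) =>
        Projectivization.submodule p) (x i) (hx i)
    exact h2 (hp h1)

omit [Fintype ι] in
private theorem B2_eval {σ : Type} (φ : ι → MvPolynomial σ ℂ) (F : MvPolynomial ι ℂ)
    (z : σ → ℂ) : eval z (aeval φ F) = eval (fun o => eval z (φ o)) F := by
  have h1 : (eval z : MvPolynomial σ ℂ →+* ℂ).comp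
      (aeval φ : MvPolynomial ι ℂ →ₐ[ℂ] MvPolynomial σ ℂ).toRingHom =
        eval (fun o => eval z (φ o)) := by
    refine MvPolynomial.ringHom_ext (fun c => ?_) fun k => ?_
    · simp
    · simp
  exact RingHom.congr_fun h1 F

private theorem B2_point {σ : Type} {φ : ι → MvPolynomial σ ℂ} {Z : Set (PSpace ι)}
    (hZ : ∀ w : ι → ℂ, w ∈ cone Z ↔ ∃ z : σ → ℂ, w = fun i => eval z (φ i)) {d : ℕ} (hd : 1 ≤ d)
    {F : MvPolynomial ι ℂ} (hF : F.IsHomogeneous d) (hne : aeval φ F ≠ 0) :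
    ∃ p ∈ Z, eval p.rep F ≠ 0 := by
  obtain ⟨z, hz⟩ : ∃ z, eval z (aeval φ F) ≠ 0 := by
    by_contra h
    push Not at h
    exact hne (MvPolynomial.funext fun z => by rw [h z, map_zero])
  rw [B2_eval] at hz
  set w : ι → ℂ := fun o => eval z (φ o) with hw
  have hw0 : w ≠ 0 := by
    intro h
    have h1 := eval_smul_hom hF 0 w
    rw [zero_pow (by omega), zero_mul, zero_smul, ← h] at h1
    exact hz h1
  have hwc : w ∈ cone Z := (hZ w).2 ⟨z, rfl⟩
  exact ⟨Projectivization.mk ℂ w hw0, hwc hw0, fun h => hz ((eval_rep_iff hF w hw0).1 h)⟩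

end

private theorem B2_rank {a b : ℕ} (ha : 2 ≤ a) (hb : 2 ≤ b) :
    3 ≤ (mat fun q : Fin (a + 1) × Fin (b + 1) => if q.1.val = q.2.val then (1 : ℂ) else 0).rank := by
  set M : Matrix (Fin (a + 1)) (Fin (b + 1)) ℂ :=
    mat fun q : Fin (a + 1) × Fin (b + 1) => if q.1.val = q.2.val then (1 : ℂ) else 0 with hM
  let P : Matrix (Fin 3) (Fin (a + 1)) ℂ := Matrix.of fun i j => if i.val = j.val then 1 else 0
  let R : Matrix (Fin (b + 1)) (Fin 3) ℂ := Matrix.of fun i j => if i.val = j.val then 1 else 0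
  have h1 : P * M * R = 1 := by
    ext i j
    have e1 : ∀ l, (P * M) i l = if i.val = l.val then 1 else 0 := by
      intro l
      rw [Matrix.mul_apply, Finset.sum_eq_single (⟨i.val, by omega⟩ : Fin (a + 1))]
      · simp [P, M, mat]
      · intro k _ hk
        have : ¬ i.val = k.val := fun h => hk (Fin.ext h.symm)
        simp [P, this]
      · intro h
        exact absurd (Finset.mem_univ _) h
    rw [Matrix.mul_apply, Finset.sum_eq_single (⟨i.val, by omega⟩ : Fin (b + 1))]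
    · rw [e1]
      by_cases hij : i = j
      · subst hij
        simp [R]
      · have : ¬ i.val = j.val := fun h => hij (Fin.ext h)
        simp [R, this, hij]
    · intro k _ hk
      have : ¬ i.val = k.val := fun h => hk (Fin.ext h.symm)
      rw [e1, if_neg this, zero_mul]
    · intro h
      exact absurd (Finset.mem_univ _) h
  have h2 : (P * M * R).rank = 3 := by
    rw [h1, Matrix.rank_one, Fintype.card_fin]
  rw [← h2]
  exact (Matrix.rank_mul_le_left _ _).trans (Matrix.rank_mul_le_right _ _)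

theorem lB2 (h0 : StMA) (h1 : StI2) (h2 : StS2) (h3 : StP2) (h4 : StXi) (h5 : StWa) (h6 : StWb)
    (h7 : StWc) (h8 : StT2T) (h9 : StDm) (h10 : StD2) (h11 : StE2) : StB2 := by
  intro a b k d ha hb hk hd
  obtain ⟨Φ0, hΦ0, H0⟩ := h0 (Fin (a + 1) × Fin (b + 1)) d hd
  obtain ⟨Ψ1, hΨ1, I1⟩ := h1 a b d ha hb (by omega)
  obtain ⟨Ψ2, hΨ2, I2⟩ := h2 a b d (by omega)
  obtain ⟨Φ1, hΦ1, H1⟩ := h3 a b d Ψ1 hΨ1
  obtain ⟨Φ2, hΦ2, H2⟩ := h3 a b d Ψ2 hΨ2
  refine ⟨Φ0 * Φ1 * Φ2, mul_ne_zero (mul_ne_zero hΦ0 hΦ1) hΦ2, fun F hF hev => ?_⟩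
  rw [map_mul, map_mul] at hev
  have e2 := right_ne_zero_of_mul hev
  have e1 := right_ne_zero_of_mul (left_ne_zero_of_mul hev)
  have e0 := left_ne_zero_of_mul (left_ne_zero_of_mul hev)
  obtain ⟨hcone, hZ⟩ := h5 a b
  obtain ⟨hSr, hrk⟩ := h6 a b
  obtain ⟨hline, hquad⟩ := h7 a b hb
  have hirr : Irreducible (aeval (r2 a b) F) := by
    obtain ⟨g, hg, he⟩ := H1 F hF e1
    rw [he]
    exact I1 g hg
  have hreg : Reg (U2 a b) (aeval (r2 a b) F) := by
    obtain ⟨g, hg, he⟩ := H2 F hF e2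
    rw [he]
    exact I2 g hg
  have hd1 : 1 ≤ d := by omega
  have hne : (segre a b).Nonempty := hZ.2.1
  obtain ⟨hrX, hsec⟩ := H0 F hF e0 (segre a b) hZ hrk hline hquad
  -- the section is not empty
  have hXne : (cut (segre a b) F).Nonempty := by
    obtain ⟨p0, hp0⟩ := hne
    have h12 : p0 ∈ secantSet (segre a b) 2 :=
      secantSet_mono ⟨p0, hp0⟩ (by norm_num : 1 ≤ 2) (by rw [secantSet_one]; exact hp0)
    rw [← hsec 2 le_rfl] at h12
    obtain ⟨x, hx, -⟩ := h12
    exact ⟨x 0, hx 0⟩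
  have hvar : IsProjectiveVariety (cut (segre a b) F) :=
    h4 _ _ (r2 a b) (segre a b) d F hd1 hF hZ.1 hcone hirr hXne
  have hsv : secantVariety (cut (segre a b) F) 2 = secantVariety (segre a b) 2 := by
    unfold secantVariety
    rw [hsec 2 le_rfl]
  have hdim : DimLT (cut (segre a b) F) (k + 1) := by
    rw [hk]
    exact h11 a b d F hd1 hF (B2_point hcone hd1 hF hirr.ne_zero)
  have hnd : ¬ DimLT (secantVariety (cut (segre a b) F) 2) (2 * k + 1) := by
    rw [hsv]
    exact h10 a b (2 * k + 1) ha hb (by omega)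
  have hrank2 : ∀ r p, p ∈ secantSet (segre a b) r → (mat p.rep).rank ≤ r := by
    intro r p hp
    obtain ⟨z, hz, hs⟩ := exists_sum_of_mem_secantSet hp
    exact (hSr r p.rep).1 ⟨z, hz, hs⟩
  refine ⟨hvar, h8 a b d k F hd1 hF hirr hreg hk, ⟨hdim, fun h => ?_⟩, ⟨?_, hnd⟩, ?_, ?_, hrX⟩
  · exact hnd (B2_dim_mono (h9 _ _ k hvar h))
  · have := h9 _ _ (k + 1) hvar hdim
    rwa [show 2 * k + 1 + 1 = 2 * (k + 1) by ring]
  · refine B2_spans (r := a + b + 2) fun p => ?_
    rw [hsec _ (by omega)]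
    obtain ⟨z, hz, hs⟩ := (hSr (a + b + 2) p.rep).2
      ((Matrix.rank_le_height (mat p.rep)).trans (by omega))
    exact mem_secantSet_of_sum' z hz p hs
  · intro ha2 hb2 huniv
    set w : Fin (a + 1) × Fin (b + 1) → ℂ := fun q => if q.1.val = q.2.val then (1 : ℂ) else 0
      with hw
    have hw3 : 3 ≤ (mat w).rank := B2_rank ha2 hb2
    have hw0 : w ≠ 0 := by
      intro h
      have h13 : w (⟨0, by omega⟩, ⟨0, by omega⟩) = 1 := by simp [hw]
      rw [h] at h13
      exact zero_ne_one h13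
    set p : PSpace (Fin (a + 1) × Fin (b + 1)) := Projectivization.mk ℂ w hw0 with hp
    have h14 : p ∈ secantVariety (segre a b) 2 := by
      rw [← hsv, huniv]
      exact Set.mem_univ p
    have h15 : xRank (segre a b) p ≤ (2 : ℕ) := by
      rw [hrk p]
      exact (xBorderRank_le_iff hne).2 h14
    have h16 := hrank2 2 p ((xRank_le_iff hne).1 h15)
    obtain ⟨c, hc, hrep⟩ := rep_eq w hw0
    have h17 : mat w = mat p.rep * (c⁻¹ • (1 : Matrix (Fin (b + 1)) (Fin (b + 1)) ℂ)) := by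
      rw [Matrix.mul_smul, Matrix.mul_one, hrep, mat_smul, smul_smul, inv_mul_cancel₀ hc, one_smul]
    have h18 : (mat w).rank ≤ (mat p.rep).rank := by
      rw [h17]
      exact Matrix.rank_mul_le_left _ _
    omega

end Pool.Agent.Lib.MP_e005b4_ag.LD
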