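import Pool.Agent.Lib.MP_e005b4_ag.LD.Spec

/-!
# Sections of large degree: the core lemma
-/

set_option autoImplicit false

namespace Pool.Agent.Lib.MP_e005b4_ag.LD

open MvPolynomial Pool.Agent.Lib.MP_e005b4_ag Pool.Agent.Lib.MP_e005b4_ag.GP
open scoped LinearAlgebra.Projectivization

section

variable {ι : Type} [Fintype ι] {d : ℕ}

private theorem Co_map_ev {R R' τ : Type} [CommRing R] [CommRing R'] (θ : R →+* R')
    (c : Ex ι d → R) (x : ι → MvPolynomial τ R) :
    map θ (ev (fun a => C (c a)) x) = ev (fun a => C (θ (c a))) (fun i => map θ (x i)) := by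
  simp [ev, map_sum, map_prod]

private theorem Co_ev_sum {R τ : Type} [CommRing R] {N : ℕ} (β : Fin N → R)
    (G : Fin N → Ex ι d → R) (x : ι → MvPolynomial τ R) :
    ev (fun a => C (∑ i, β i * G i a)) x = ∑ i, C (β i) * ev (fun a => C (G i a)) x := by
  simp only [ev, map_sum, map_mul, Finset.sum_mul, Finset.mul_sum]
  rw [Finset.sum_comm]
  refine Finset.sum_congr rfl fun i _ => Finset.sum_congr rfl fun a _ => ?_
  ring

private theorem Co_ev_scale {R τ : Type} [CommRing R] (r : R) (c : Ex ι d → R)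
    (x : ι → MvPolynomial τ R) :
    ev (fun a => C (c a * r)) x = C r * ev (fun a => C (c a)) x := by
  simp only [ev, map_mul, Finset.mul_sum]
  refine Finset.sum_congr rfl fun a _ => ?_
  ring

private theorem Co_map_sy {R R' κ : Type} [CommRing R] [CommRing R'] (θ : R →+* R')
    (q : κ → MvPolynomial (κ ⊕ Bool) R) (x y : ι → MvPolynomial (κ ⊕ Bool) R) (g : Ex ι d → R)
    (j : κ ⊕ Bool) :
    map θ (sy q x y g j) = sy (fun k => map θ (q k)) (fun i => map θ (x i))
      (fun i => map θ (y i)) (fun a => θ (g a)) j := by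
  rcases j with k | b
  · simp [sy]
  · cases b <;> simp [sy, Co_map_ev]

/-- The Nullstellensatz over `Ω`. -/
private theorem Co_null {Ω τ : Type} [Field Ω] [IsAlgClosed Ω] [Finite τ] (f : τ → MvPolynomial τ Ω)
    (h : ¬ ∃ ξ : τ → Ω, ∀ j, eval ξ (f j) = 0) :
    (1 : MvPolynomial τ Ω) ∈ Ideal.span (Set.range f) := by
  have h1 : zeroLocus Ω (Ideal.span (Set.range f)) = ∅ := by
    rw [zeroLocus_span, Set.eq_empty_iff_forall_notMem]
    intro ξ hξ
    refine h ⟨ξ, fun j => ?_⟩
    have := hξ (f j) (Set.mem_range_self j)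
    rwa [aeval_eq_eval] at this
  have h2 := vanishingIdeal_zeroLocus_eq_radical (k := Ω) (K := Ω) (Ideal.span (Set.range f))
  rw [h1, vanishingIdeal_empty] at h2
  have h3 := Ideal.radical_eq_top.mp h2.symm
  rw [h3]
  trivial

/-- The system has an `Ω`-point, or the ideal of the equations over `A` contains a constant. -/
private theorem Co_const (h2 : StUn) {L Ω κ : Type} [Field L] [Field Ω] [IsAlgClosed Ω]
    [Algebra L Ω] [Fintype κ] (c : Ex ι d → Ω) (q : κ → MvPolynomial (κ ⊕ Bool) L)
    (x y : ι → MvPolynomial (κ ⊕ Bool) L) (A : Subalgebra L (Polynomial Ω)) (t : Ex ι d → A)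
    (ht : ∀ a, (t a : Polynomial Ω) = Polynomial.C (c a) * Polynomial.X)
    (hno : ¬ ∃ ξ : κ ⊕ Bool → Ω, (∀ k, aeval ξ (q k) = 0) ∧ ev c (fun i => aeval ξ (x i)) = 0 ∧
      ev c (fun i => aeval ξ (y i)) = 0) :
    ∃ e : A, e ≠ 0 ∧ C e ∈ Ideal.span (Set.range (sy (fun k => map (algebraMap L A) (q k))
      (fun i => map (algebraMap L A) (x i)) (fun i => map (algebraMap L A) (y i)) t)) := by
  set f := sy (fun k => map (algebraMap L A) (q k))
      (fun i => map (algebraMap L A) (x i)) (fun i => map (algebraMap L A) (y i)) t with hf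
  set fΩ := sy (fun k => map (algebraMap L Ω) (q k))
      (fun i => map (algebraMap L Ω) (x i)) (fun i => map (algebraMap L Ω) (y i)) c with hfΩ
  have h1 : (1 : MvPolynomial (κ ⊕ Bool) Ω) ∈ Ideal.span (Set.range fΩ) := by
    refine Co_null fΩ ?_
    rintro ⟨ξ, hξ⟩
    have hev : ∀ x : ι → MvPolynomial (κ ⊕ Bool) L,
        eval ξ (ev (fun a => C (c a)) (fun i => map (algebraMap L Ω) (x i)))
          = ev c (fun i => aeval ξ (x i)) := by
      intro x
      simp only [ev, map_sum, map_mul, map_prod, map_pow, eval_C, eval_map, aeval_def]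
    refine hno ⟨ξ, fun k => ?_, ?_, ?_⟩
    · have := hξ (Sum.inl k)
      simpa [hfΩ, sy, eval_map, aeval_def] using this
    · have := hξ (Sum.inr true)
      simp only [hfΩ, sy, Sum.elim_inr, cond_true] at this
      rwa [hev] at this
    · have := hξ (Sum.inr false)
      simp only [hfΩ, sy, Sum.elim_inr, cond_false] at this
      rwa [hev] at this
  let Ω' := FractionRing (Polynomial Ω)
  have hinj : Function.Injective (algebraMap A Ω') := by
    have : (algebraMap A Ω') = (algebraMap (Polynomial Ω) Ω').comp A.val.toRingHom := rfl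
    rw [this]
    exact (IsFractionRing.injective (Polynomial Ω) Ω').comp Subtype.val_injective
  let θ : Ω →+* Ω' := (algebraMap (Polynomial Ω) Ω').comp Polynomial.C
  let X' : Ω' := algebraMap (Polynomial Ω) Ω' Polynomial.X
  have hX' : X' ≠ 0 := by
    have := (IsFractionRing.injective (Polynomial Ω) Ω').ne (Polynomial.X_ne_zero (R := Ω))
    rwa [map_zero] at this
  have hθL : θ.comp (algebraMap L Ω) = (algebraMap A Ω').comp (algebraMap L A) := by
    ext l
    rfl
  have hmm : ∀ p : MvPolynomial (κ ⊕ Bool) L, map θ (map (algebraMap L Ω) p)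
      = map (algebraMap A Ω') (map (algebraMap L A) p) := by
    intro p
    rw [map_map, map_map, hθL]
  have hta : ∀ a, algebraMap A Ω' (t a) = θ (c a) * X' := by
    intro a
    change algebraMap (Polynomial Ω) Ω' (t a : Polynomial Ω) = _
    rw [ht, map_mul]
    rfl
  have hmem : ∀ j, map θ (fΩ j) ∈ Ideal.span (Set.range fun j => map (algebraMap A Ω') (f j)) := by
    intro j
    have hj : map (algebraMap A Ω') (f j) ∈
        Ideal.span (Set.range fun j => map (algebraMap A Ω') (f j)) :=
      Ideal.subset_span ⟨j, rfl⟩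
    rw [hf, Co_map_sy] at hj
    rw [hfΩ, Co_map_sy]
    rcases j with k | b
    · change map θ (map (algebraMap L Ω) (q k)) ∈ _
      rw [hmm]
      exact Ideal.subset_span ⟨Sum.inl k, rfl⟩
    · have hk : ∀ x : ι → MvPolynomial (κ ⊕ Bool) L,
          ev (fun a => C (θ (c a))) (fun i => map θ (map (algebraMap L Ω) (x i)))
          = C X'⁻¹ * ev (fun a => C (algebraMap A Ω' (t a)))
            (fun i => map (algebraMap A Ω') (map (algebraMap L A) (x i))) := by
        intro x
        simp only [hta, Co_ev_scale, hmm]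
        rw [← mul_assoc, ← C_mul, inv_mul_cancel₀ hX', C_1, one_mul]
      cases b
      · simp only [sy, Sum.elim_inr, cond_false] at hj ⊢
        rw [hk]
        exact Ideal.mul_mem_left _ _ hj
      · simp only [sy, Sum.elim_inr, cond_true] at hj ⊢
        rw [hk]
        exact Ideal.mul_mem_left _ _ hj
  have hone : (1 : MvPolynomial (κ ⊕ Bool) Ω') ∈
      Ideal.span (Set.range fun j => map (algebraMap A Ω') (f j)) := by
    have h5 := Ideal.mem_map_of_mem (map (σ := κ ⊕ Bool) θ) h1
    rw [map_one, Ideal.map_span] at h5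
    refine (Ideal.span_le.mpr ?_) h5
    rintro _ ⟨_, ⟨j, rfl⟩, rfl⟩
    exact hmem j
  exact h2 A Ω' (κ ⊕ Bool) (κ ⊕ Bool) f hinj hone

/-- The rows of the Jacobian matrices. -/
private theorem Co_row {L κ : Type} [Field L] {N : ℕ}
    (x : ι → MvPolynomial (κ ⊕ Bool) L)
    (G : Fin N → Ex ι d → L) (z : Fin N → κ ⊕ Bool → L)
    (hx : ∀ i j, i ≠ j → ∀ k, eval (z i) (pderiv k (ev (fun a => C (G j a)) x)) = 0)
    (β : Fin N → L) (i : Fin N) (k : κ ⊕ Bool) :
    eval (z i) (pderiv k (ev (fun a => C (∑ j, β j * G j a)) x))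
      = β i * eval (z i) (pderiv k (ev (fun a => C (G i a)) x)) := by
  rw [Co_ev_sum, map_sum, map_sum, Finset.sum_eq_single i]
  · simp [Derivation.leibniz]
  · intro j _ hj
    simp [Derivation.leibniz, hx i j (Ne.symm hj) k]
  · simp

end

theorem lCo (h1 : StNw) (h2 : StUn) (h3 : StGr) : StCo := by
  intro L Ω ι κ _ _ _ _ _ _ _ _ d v N c q x y G z hc hvN hq hx hy hdx hdy hdet
  by_contra hno
  classical
  let φ : MvPolynomial (Ex ι d) L →ₐ[L] Polynomial Ω :=
    aeval (fun a => Polynomial.C (c a) * Polynomial.X : Ex ι d → Polynomial Ω)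
  let A : Subalgebra L (Polynomial Ω) := φ.range
  let t : Ex ι d → A := fun a => φ.rangeRestrict (X a)
  have ht : ∀ a, (t a : Polynomial Ω) = Polynomial.C (c a) * Polynomial.X := by
    intro a
    change φ (X a) = _
    exact aeval_X _ _
  obtain ⟨e, he0, he⟩ := Co_const h2 c q x y A t ht hno
  set f := sy (fun k => map (algebraMap L A) (q k))
      (fun i => map (algebraMap L A) (x i)) (fun i => map (algebraMap L A) (y i)) t with hf
  have hG : LinearIndependent L G := by
    rw [Fintype.linearIndependent_iff]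
    intro b hb i
    by_contra hbi
    refine hdet i (Matrix.det_eq_zero_of_row_eq_zero (Sum.inr true) fun k => ?_)
    have h5 := Co_row x G z hdx b i k
    have h6 : (fun a : Ex ι d => (C (∑ j, b j * G j a) : MvPolynomial (κ ⊕ Bool) L)) = fun _ => 0 := by
      funext a
      have := congrFun hb a
      simp only [Finset.sum_apply, Pi.smul_apply, smul_eq_mul, Pi.zero_apply] at this
      rw [this, C_0]
    rw [h6] at h5
    have h7 : ev (fun _ : Ex ι d => (0 : MvPolynomial (κ ⊕ Bool) L)) x = 0 := by simp [ev]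
    rw [h7, map_zero, map_zero] at h5
    have h8 := (mul_eq_zero.mp h5.symm).resolve_left hbi
    simpa [jac, sy] using h8
  obtain ⟨β, hβ, hβP⟩ := h3 L Ω (Ex ι d) c v N G hc hvN hG
  let w : Ex ι d → L := fun a => ∑ i, β i * G i a
  have hsurj : Function.Surjective (φ.rangeRestrict : MvPolynomial (Ex ι d) L →+* A) :=
    φ.rangeRestrict_surjective
  have hker : RingHom.ker (φ.rangeRestrict : MvPolynomial (Ex ι d) L →+* A)
      ≤ RingHom.ker (eval w) := by
    intro P hP
    rw [RingHom.mem_ker] at hP ⊢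
    refine hβP P ?_
    have := congrArg Subtype.val hP
    exact this
  let ψ : A →+* L := RingHom.liftOfSurjective _ hsurj ⟨eval w, hker⟩
  have hψ : ∀ P, ψ (φ.rangeRestrict P) = eval w P := fun P =>
    RingHom.liftOfSurjective_comp_apply _ hsurj ⟨eval w, hker⟩ P
  have hψt : ∀ a, ψ (t a) = w a := by
    intro a
    rw [hψ, eval_X]
  have hψL : ∀ l : L, ψ (algebraMap L A l) = l := by
    intro l
    have h5 : algebraMap L A l = φ.rangeRestrict (C l) := by
      rw [← MvPolynomial.algebraMap_eq, AlgHom.commutes]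
    rw [h5, hψ, eval_C]
  have hψc : ψ.comp (algebraMap L A) = RingHom.id L := RingHom.ext hψL
  have hmapψ : ∀ p : MvPolynomial (κ ⊕ Bool) L, map ψ (map (algebraMap L A) p) = p := by
    intro p
    rw [map_map, hψc, map_id]
  have hfj : ∀ j, map ψ (f j) = sy q x y w j := by
    intro j
    rw [hf, Co_map_sy]
    simp only [hmapψ, hψt]
  obtain ⟨i, hi⟩ : ∃ i, β i ≠ 0 := by
    by_contra hcon
    push Not at hcon
    exact hβ (funext hcon)
  let Z : κ ⊕ Bool → A := fun s => algebraMap L A (z i s)
  have hZ : ∀ p : MvPolynomial (κ ⊕ Bool) A, ψ (eval Z p) = eval (z i) (map ψ p) := by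
    intro p
    rw [eval_map, ← eval₂_id, hom_eval₂, RingHom.comp_id]
    refine congrArg (fun g => eval₂ ψ g p) (funext fun s => ?_)
    exact hψL _
  have hval : ∀ j, eval Z (f j) ∈ RingHom.ker ψ := by
    intro j
    rw [RingHom.mem_ker, hZ, hfj]
    have hs : ∀ x : ι → MvPolynomial (κ ⊕ Bool) L,
        (∀ i j, eval (z i) (ev (fun a => C (G j a)) x) = 0) →
        eval (z i) (ev (fun a => C (w a)) x) = 0 := by
      intro x hx
      simp only [w]
      rw [Co_ev_sum, map_sum]
      refine Finset.sum_eq_zero fun j _ => ?_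
      rw [map_mul, hx, mul_zero]
    rcases j with k | b
    · exact hq i k
    · cases b
      · exact hs y hy
      · exact hs x hx
  let D : κ ⊕ Bool → L := Sum.elim (fun _ => 1) (fun _ => β i)
  have hjac : jac (sy q x y w) (z i) = Matrix.of fun j k => D j * jac (sy q x y (G i)) (z i) j k := by
    ext j k
    rcases j with s | b
    · simp [jac, sy, D]
    · cases b
      · simpa [jac, sy, D, w] using Co_row y G z hdy β i k
      · simpa [jac, sy, D, w] using Co_row x G z hdx β i k
  have hdet' : (jac (sy q x y w) (z i)).det ≠ 0 := by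
    rw [hjac, Matrix.det_mul_column]
    refine mul_ne_zero ?_ (hdet i)
    rw [Finset.prod_ne_zero_iff]
    rintro (s | b) _
    · simp [D]
    · simpa [D] using hi
  have hψdet : ψ (jac f Z).det = (jac (sy q x y w) (z i)).det := by
    rw [RingHom.map_det]
    congr 1
    ext j k
    simp only [RingHom.mapMatrix_apply, Matrix.map_apply, jac, Matrix.of_apply]
    rw [hZ, ← pderiv_map, hfj]
  have : IsNoetherianRing A := isNoetherianRing_of_surjective _ _
    (φ.rangeRestrict : MvPolynomial (Ex ι d) L →+* A) hsurj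
  refine he0 (h1 A (κ ⊕ Bool) (RingHom.ker ψ) f Z
    (algebraMap L A ((jac (sy q x y w) (z i)).det)⁻¹) e (RingHom.ker_ne_top ψ) hval ?_ he)
  rw [RingHom.mem_ker, map_sub, map_mul, map_one, hψdet, hψL, mul_inv_cancel₀ hdet', sub_self]

end Pool.Agent.Lib.MP_e005b4_ag.LD
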