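import Pool.Agent.Lib.MP_e005b4_ag.LD.SpecB

/-!
# Sections of large degree: the dimension of the secant variety of the Veronese cone
-/

set_option autoImplicit false

namespace Pool.Agent.Lib.MP_e005b4_ag.LD

open MvPolynomial Pool.Agent.Lib.MP_e005b4_ag Pool.Agent.Lib.MP_e005b4_ag.GP
open scoped LinearAlgebra.Projectivization

/-- The coordinates of the linear map `L`. -/
private def tg {n : ℕ} : Option (Fin (n + 1) ⊕ Fin n) → Option (Sym2 (Fin (n + 1)))
  | none => none
  | some (Sum.inl i) => some s(0, i)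
  | some (Sum.inr j) => some s(j.succ, j.succ)

open Classical in
/-- The matrix of the linear map `L`. -/
private noncomputable def Lm (n : ℕ) :
    Matrix (Option (Fin (n + 1) ⊕ Fin n)) (Option (Sym2 (Fin (n + 1)))) ℂ :=
  Matrix.of fun o s => if s = tg o then 1 else 0

private theorem Lm_mulVec {n : ℕ} (w : Option (Sym2 (Fin (n + 1))) → ℂ)
    (o : Option (Fin (n + 1) ⊕ Fin n)) : (Lm n).mulVec w o = w (tg o) := by
  classical
  simp [Lm, Matrix.mulVec, dotProduct]

/-- `vp x c` is in the cone. -/
private theorem vp_mem {n : ℕ} (hVa : StVa) (x : Fin (n + 1) → ℂ) (c : ℂ) :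
    vp x c ∈ cone (verCone n) := by
  rw [(hVa n).1]
  refine ⟨fun o => o.elim c x, ?_⟩
  funext o
  rcases o with _ | s
  · simp [vp, r1]
  · induction s using Sym2.ind with
    | _ i j => simp [vp, r1]

private theorem surj {n : ℕ} (hVa : StVa) (v : Option (Fin (n + 1) ⊕ Fin n) → ℂ)
    (hv : v (some (Sum.inl 0)) ≠ 0) :
    v ∈ (Lm n).mulVec '' Sr (cone (verCone n)) 2 := by
  classical
  set α : ℂ := v (some (Sum.inl 0)) with hα
  set β : Fin (n + 1) → ℂ := fun i => v (some (Sum.inl i)) with hβ
  set γ : Fin n → ℂ := fun j => v (some (Sum.inr j)) with hγ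
  have hr : ∀ j : Fin n, ∃ r : ℂ, r ^ 2 = β j.succ ^ 2 - α * γ j := fun j =>
    IsAlgClosed.exists_pow_nat_eq _ (by norm_num)
  choose r hr using hr
  set g : Fin (n + 1) → ℂ := Fin.cons 1 (fun j => (β j.succ + r j) / α) with hg
  set h : Fin (n + 1) → ℂ := fun i => 2 * β i - α * g i with hh
  have hg0 : g 0 = 1 := rfl
  have hgs : ∀ j : Fin n, g j.succ = (β j.succ + r j) / α := fun j => rfl
  have hβ0 : β 0 = α := rfl
  have hI : Complex.I ^ 2 = -1 := Complex.I_sq
  refine ⟨∑ l : Fin 2, (![vp (fun i => (g i + h i) / 2) (v none),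
    vp (fun i => Complex.I * (g i - h i) / 2) 0] : Fin 2 → _) l,
    ⟨![vp (fun i => (g i + h i) / 2) (v none), vp (fun i => Complex.I * (g i - h i) / 2) 0],
      ?_, rfl⟩, ?_⟩
  · intro l
    fin_cases l
    · exact vp_mem hVa _ _
    · exact vp_mem hVa _ _
  · have hpair : ∀ i j : Fin (n + 1),
        (∑ l : Fin 2, (![vp (fun i => (g i + h i) / 2) (v none),
          vp (fun i => Complex.I * (g i - h i) / 2) 0] : Fin 2 → _) l) (some s(i, j)) =
          (g i * h j + h i * g j) / 2 := by
      intro i j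
      rw [Fin.sum_univ_two, Pi.add_apply]
      simp only [Matrix.cons_val_zero, Matrix.cons_val_one, vp, Sym2.lift_mk]
      linear_combination ((g i - h i) * (g j - h j) / 4) * hI
    funext o
    rw [Lm_mulVec]
    rcases o with _ | i | j
    · simp only [tg]
      rw [Fin.sum_univ_two, Pi.add_apply]
      simp [vp]
    · simp only [tg]
      rw [hpair, hg0]
      have h1 : h 0 = α := by
        simp only [hh]
        rw [hg0, hβ0]
        ring
      rw [h1]
      simp only [hh]
      change (1 * (2 * β i - α * g i) + α * g i) / 2 = β i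
      ring
    · simp only [tg]
      rw [hpair]
      simp only [hh]
      rw [hgs]
      change _ = γ j
      have h2 := hr j
      field_simp
      linear_combination (-2 : ℂ) * h2

theorem lD1 (h1 : StPow) (h2 : StLe) (h3 : StBa) (h4 : StBb) (h5 : StBc) (h6 : StVa)
    (h7 : StVb) : StD1 := by
  classical
  intro n hd
  have hpv := (h6 n).2
  have hne : (verCone n).Nonempty := hpv.2.1
  obtain ⟨hK, hI⟩ := (h3 _ (verCone n) hne).1 hpv
  obtain ⟨hP, hPI⟩ := h1 _ (cone (verCone n)) 2 hK hI
  rw [h5.2.1, (h4 _ (verCone n) hne 2).2] at hd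
  set K := cone (verCone n) with hKdef
  have hSr : Irr (Sr K 2) := by
    rw [Sr_eq]
    exact hPI.image _
  have hScl : Scl (Sr K 2) := Sr_scl hK.scl 2
  have hY : ClCone (clc (Sr K 2)) := hScl.clCone
  have hYI : Irr (clc (Sr K 2)) := hSr.cl hScl
  have hM := h2 _ _ (clc (Sr K 2)) (Lm n) _ hY hYI hd
  have huniv : clc ((Lm n).mulVec '' clc (Sr K 2)) = Set.univ := by
    rw [Set.eq_univ_iff_forall]
    intro v F d hF hz
    have hFX : F * X (some (Sum.inl 0)) = 0 := by
      refine MvPolynomial.funext fun x => ?_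
      rw [map_mul, eval_X, map_zero]
      by_cases hx : x (some (Sum.inl 0)) = 0
      · rw [hx, mul_zero]
      · have hx1 := surj h6 x hx
        have hx2 : x ∈ (Lm n).mulVec '' clc (Sr K 2) :=
          Set.image_mono (subset_clc _) hx1
        rw [hz x hx2, zero_mul]
    have hF0 : F = 0 := by
      rcases mul_eq_zero.1 hFX with h | h
      · exact h
      · exact absurd h (X_ne_zero _)
    rw [hF0, map_zero]
  rw [huniv] at hM
  obtain ⟨M, hM⟩ := hM
  have hinj : Function.Injective M.mulVecLin := by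
    rw [← LinearMap.ker_eq_bot, LinearMap.ker_eq_bot']
    intro y hy
    exact hM y (Set.mem_univ _) hy
  have hfr := LinearMap.finrank_le_finrank_of_injective hinj
  rw [Module.finrank_fintype_fun_eq_card, Module.finrank_fintype_fun_eq_card] at hfr
  simp only [Fintype.card_option, Fintype.card_sum, Fintype.card_fin] at hfr
  omega

end Pool.Agent.Lib.MP_e005b4_ag.LD
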