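import Pool.Agent.Lib.MP_e005b4_ag.LD.SpecB

/-!
# Sections of large degree: the dimension of the secant variety of a Segre variety
-/

set_option autoImplicit false

namespace Pool.Agent.Lib.MP_e005b4_ag.LD

open MvPolynomial Pool.Agent.Lib.MP_e005b4_ag Pool.Agent.Lib.MP_e005b4_ag.GP
open scoped LinearAlgebra.Projectivization

/-- The entries in the first two rows, and the entries of the other rows in the first two
columns. -/
private abbrev Kp (a b : ℕ) : Type := (Fin 2 × Fin (b + 2)) ⊕ (Fin a × Fin 2)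

/-- The position of an entry. -/
private def Ps (a b : ℕ) : Kp a b → Fin (a + 2) × Fin (b + 2)
  | Sum.inl q => (⟨q.1.1, by omega⟩, q.2)
  | Sum.inr q => (⟨q.1.1 + 2, by omega⟩, ⟨q.2.1, by omega⟩)

/-- The projection to these entries. -/
private def Lp (a b : ℕ) : Matrix (Kp a b) (Fin (a + 2) × Fin (b + 2)) ℂ :=
  fun q p => if p = Ps a b q then 1 else 0

private theorem Lp_mulVec (a b : ℕ) (w : Fin (a + 2) × Fin (b + 2) → ℂ) :
    (Lp a b).mulVec w = fun q => w (Ps a b q) := by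
  funext q
  simp [Matrix.mulVec, dotProduct, Lp]

/-- The determinant of the corner. -/
private noncomputable def De (a b : ℕ) : MvPolynomial (Kp a b) ℂ :=
  X (Sum.inl (0, 0)) * X (Sum.inl (1, 1)) - X (Sum.inl (0, 1)) * X (Sum.inl (1, 0))

private theorem De_ne (a b : ℕ) : De a b ≠ 0 := by
  intro h
  have h1 := congrArg (eval (fun q : Kp a b => match q with
    | Sum.inl q => if q.1.1 = q.2.1 then (1 : ℂ) else 0
    | Sum.inr _ => 0)) h
  rw [De, map_sub, map_mul, map_mul, eval_X, eval_X, eval_X, eval_X, map_zero] at h1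
  simp at h1

/-- The completion of the entries to a matrix of rank at most two. -/
private noncomputable def Cm (a b : ℕ) (v : Kp a b → ℂ) : Fin (a + 2) → Fin 2 → ℂ := fun i =>
  if h : i.1 < 2 then (fun t => if t.1 = i.1 then 1 else 0)
  else
    let c0 := v (Sum.inr (⟨i.1 - 2, by omega⟩, 0))
    let c1 := v (Sum.inr (⟨i.1 - 2, by omega⟩, 1))
    let δ := v (Sum.inl (0, 0)) * v (Sum.inl (1, 1)) - v (Sum.inl (0, 1)) * v (Sum.inl (1, 0))
    fun t => if t = 0 then (c0 * v (Sum.inl (1, 1)) - c1 * v (Sum.inl (1, 0))) / δ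
      else (c1 * v (Sum.inl (0, 0)) - c0 * v (Sum.inl (0, 1))) / δ

private noncomputable def Wm (a b : ℕ) (v : Kp a b → ℂ) : Fin (a + 2) × Fin (b + 2) → ℂ := fun p =>
  ∑ t : Fin 2, Cm a b v p.1 t * v (Sum.inl (t, p.2))

private theorem Wm_rank (a b : ℕ) (v : Kp a b → ℂ) : (mat (Wm a b v)).rank ≤ 2 := by
  have h1 : mat (Wm a b v) = (Matrix.of (Cm a b v)) *
      (Matrix.of fun (t : Fin 2) (j : Fin (b + 2)) => v (Sum.inl (t, j))) := by
    ext i j
    rw [Matrix.mul_apply]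
    rfl
  rw [h1]
  refine (Matrix.rank_mul_le_right _ _).trans ?_
  have h2 := Matrix.rank_le_card_height
    (Matrix.of fun (t : Fin 2) (j : Fin (b + 2)) => v (Sum.inl (t, j)))
  rwa [Fintype.card_fin] at h2

private theorem Cm_two (a b : ℕ) (v : Kp a b → ℂ) (i : Fin a) (h : i.1 + 2 < a + 2) (t : Fin 2) :
    Cm a b v ⟨i.1 + 2, h⟩ t =
      if t = 0 then (v (Sum.inr (i, 0)) * v (Sum.inl (1, 1)) -
        v (Sum.inr (i, 1)) * v (Sum.inl (1, 0))) /
        (v (Sum.inl (0, 0)) * v (Sum.inl (1, 1)) - v (Sum.inl (0, 1)) * v (Sum.inl (1, 0)))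
      else (v (Sum.inr (i, 1)) * v (Sum.inl (0, 0)) -
        v (Sum.inr (i, 0)) * v (Sum.inl (0, 1))) /
        (v (Sum.inl (0, 0)) * v (Sum.inl (1, 1)) - v (Sum.inl (0, 1)) * v (Sum.inl (1, 0))) := by
  unfold Cm
  rw [dif_neg (by simp)]
  rfl

private theorem Wm_eq (a b : ℕ) (v : Kp a b → ℂ)
    (hv : v (Sum.inl (0, 0)) * v (Sum.inl (1, 1)) - v (Sum.inl (0, 1)) * v (Sum.inl (1, 0)) ≠ 0) :
    (Lp a b).mulVec (Wm a b v) = v := by
  rw [Lp_mulVec]
  funext q
  rcases q with ⟨t, j⟩ | ⟨i, s⟩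
  · simp only [Wm, Ps, Cm, Fin.sum_univ_two]
    fin_cases t
    · simp
    · simp
  · have h1 : Wm a b v (Ps a b (Sum.inr (i, s))) =
        Cm a b v ⟨i.1 + 2, by omega⟩ 0 * v (Sum.inl (0, ⟨s.1, by omega⟩)) +
        Cm a b v ⟨i.1 + 2, by omega⟩ 1 * v (Sum.inl (1, ⟨s.1, by omega⟩)) := by
      unfold Wm
      rw [Fin.sum_univ_two]
      rfl
    rw [h1, Cm_two, Cm_two, if_pos rfl, if_neg (show (1 : Fin 2) ≠ 0 by decide)]
    fin_cases s
    · change _ * v (Sum.inl (0, 0)) + _ * v (Sum.inl (1, 0)) = v (Sum.inr (i, 0))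
      rw [div_mul_eq_mul_div, div_mul_eq_mul_div, ← add_div, div_eq_iff hv]
      ring
    · change _ * v (Sum.inl (0, 1)) + _ * v (Sum.inl (1, 1)) = v (Sum.inr (i, 1))
      rw [div_mul_eq_mul_div, div_mul_eq_mul_div, ← add_div, div_eq_iff hv]
      ring

theorem lD2 (h1 : StPow) (h2 : StLe) (h3 : StBa) (h4 : StBb) (h5 : StBc) (h6 : StWa)
    (h7 : StWb) : StD2 := by
  classical
  intro a' b' k ha hb hk hD
  obtain ⟨a, rfl⟩ : ∃ a, a' = a + 1 := ⟨a' - 1, by omega⟩
  obtain ⟨b, rfl⟩ : ∃ b, b' = b + 1 := ⟨b' - 1, by omega⟩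
  have hX : IsProjectiveVariety (segre (a + 1) (b + 1)) := (h6 (a + 1) (b + 1)).2
  have hne : (segre (a + 1) (b + 1)).Nonempty := hX.2.1
  obtain ⟨hK, hKi⟩ := (h3 _ _ hne).1 hX
  have hcone := (h4 _ _ hne 2).2
  have hMs : Ms (clc (Sr (cone (segre (a + 1) (b + 1))) 2)) k := by
    rw [← hcone]
    exact (h5.2.1 _ _ _).1 hD
  obtain ⟨hP, hPi⟩ := h1 _ _ 2 hK hKi
  have hSc : Scl (Sr (cone (segre (a + 1) (b + 1))) 2) := Sr_scl hK.scl 2
  have hCl : ClCone (clc (Sr (cone (segre (a + 1) (b + 1))) 2)) := hSc.clCone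
  have hIrr : Irr (clc (Sr (cone (segre (a + 1) (b + 1))) 2)) := by
    refine Irr.cl ?_ hSc
    rw [Sr_eq]
    exact hPi.image _
  have hL := h2 _ _ _ (Lp a b) k hCl hIrr hMs
  -- the closure of the image is everything
  have huniv : ∀ v : Kp a b → ℂ,
      v ∈ clc ((Lp a b).mulVec '' clc (Sr (cone (segre (a + 1) (b + 1))) 2)) := by
    intro v F d _ hF0
    have hz : F * De a b = 0 := by
      refine MvPolynomial.funext fun u => ?_
      rw [map_mul, map_zero]
      by_cases hu : eval u (De a b) = 0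
      · rw [hu, mul_zero]
      · have hu' : u (Sum.inl (0, 0)) * u (Sum.inl (1, 1)) -
            u (Sum.inl (0, 1)) * u (Sum.inl (1, 0)) ≠ 0 := by
          rw [De, map_sub, map_mul, map_mul, eval_X, eval_X, eval_X, eval_X] at hu
          exact hu
        rw [hF0 u ⟨Wm a b u, subset_clc _ (((h7 (a + 1) (b + 1)).1 2 _).2 (Wm_rank a b u)),
          Wm_eq a b u hu'⟩, zero_mul]
    rw [(mul_eq_zero.1 hz).resolve_right (De_ne a b), map_zero]
  obtain ⟨M, hM⟩ := hL
  have hker : LinearMap.ker M.mulVecLin ≠ ⊥ := by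
    refine LinearMap.ker_ne_bot_of_finrank_lt ?_
    rw [Module.finrank_fintype_fun_eq_card, Module.finrank_fintype_fun_eq_card]
    simp only [Fintype.card_sum, Fintype.card_prod, Fintype.card_fin]
    omega
  obtain ⟨v, hv, hv0⟩ := (Submodule.ne_bot_iff _).1 hker
  exact hv0 (hM v (huniv v) hv)

end Pool.Agent.Lib.MP_e005b4_ag.LD
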