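import Pool.Agent.Lib.MP_e005b4_ag.GP.Base

/-!
# Sections of large degree: definitions
-/

set_option autoImplicit false

namespace Pool.Agent.Lib.MP_e005b4_ag.LD

open MvPolynomial Pool.Agent.Lib.MP_e005b4_ag Pool.Agent.Lib.MP_e005b4_ag.GP
open scoped LinearAlgebra.Projectivization

section

variable {ι : Type} [Fintype ι] {d : ℕ}

/-- The exponents of the monomials of degree `d`. -/
abbrev Ex (ι : Type) (d : ℕ) : Type := {a : ι →₀ ℕ // a.degree = d}

instance finite_ex : Finite (Ex ι d) := by
  classical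
  refine Finite.of_injective
    (fun a : Ex ι d => fun i : ι => (⟨a.1 i, Nat.lt_succ_of_le ?_⟩ : Fin (d + 1))) ?_
  · have h := a.2
    rw [Finsupp.degree_eq_sum] at h
    exact (Finset.single_le_sum (f := fun i => a.1 i) (fun i _ => Nat.zero_le _)
      (Finset.mem_univ i)).trans h.le
  · intro a b h
    ext i
    have := congrFun h i
    simpa using congrArg Fin.val this

noncomputable instance fintype_ex : Fintype (Ex ι d) := Fintype.ofFinite _

/-- The value at `x` of the form with the coefficients `c`. -/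
noncomputable def ev {R : Type} [CommSemiring R] (c : Ex ι d → R) (x : ι → R) : R :=
  ∑ a, c a * ∏ i, x i ^ (a.1 i)

/-- The equations `q = 0`, `F(x) = 0`, `F(y) = 0` where `F` has the coefficients `g`. -/
noncomputable def sy {R κ : Type} [CommRing R] (q : κ → MvPolynomial (κ ⊕ Bool) R)
    (x y : ι → MvPolynomial (κ ⊕ Bool) R) (g : Ex ι d → R) :
    κ ⊕ Bool → MvPolynomial (κ ⊕ Bool) R :=
  Sum.elim q fun b => ev (fun a => C (g a)) (bif b then x else y)

/-- The Jacobian matrix at `z`. -/
noncomputable def jac {R τ : Type} [CommRing R] (f : τ → MvPolynomial τ R) (z : τ → R) :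
    Matrix τ τ R :=
  Matrix.of fun i j => eval z (pderiv j (f i))

/-- The transcendence degree of the family `c` over `L` is at least `card S - v`. -/
def BigTr (L : Type) {Ω S : Type} [Field L] [Field Ω] [Algebra L Ω] [Fintype S] (c : S → Ω)
    (v : ℕ) : Prop :=
  ∀ (R : ℕ) (u : Fin R → Ω),
    (∀ a, IsAlgebraic (IntermediateField.adjoin L (Set.range u)) (c a)) → Fintype.card S ≤ R + v

/-- The section of `Z` by the hypersurface `F = 0`. -/
def cut {ι : Type} (Z : Set (PSpace ι)) (F : MvPolynomial ι ℂ) : Set (PSpace ι) :=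
  {p ∈ Z | eval p.rep F = 0}

/-- `p` lies on a line contained in `Z`. -/
def OnLine {ι : Type} (Z : Set (PSpace ι)) (p : PSpace ι) : Prop :=
  ∃ a : ι → ℂ, LinearIndependent ℂ ![p.rep, a] ∧
    ∀ (q : PSpace ι) (s t : ℂ), q.rep = s • p.rep + t • a → q ∈ Z

/-- `p` lies in the space spanned by an irreducible quadric surface
`w ^ 2 = x * y + e * z ^ 2` contained in `Z` (and not on this surface). -/
def OnQuadric {ι : Type} (Z : Set (PSpace ι)) (p : PSpace ι) : Prop :=
  ∃ (a b c : ι → ℂ) (e : ℂ), LinearIndependent ℂ ![p.rep, a, b, c] ∧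
    ∀ (q : PSpace ι) (w x y z : ℂ), q.rep = w • p.rep + x • a + y • b + z • c →
      w ^ 2 = x * y + e * z ^ 2 → q ∈ Z

end

end Pool.Agent.Lib.MP_e005b4_ag.LD
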