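import Pool.Agent.Lib.MP_e005b4_ag.LD.Defs

/-!
# Sections of large degree: the examples

The cone over the second Veronese embedding of projective `n`-space, and the Segre varieties.
-/

set_option autoImplicit false

namespace Pool.Agent.Lib.MP_e005b4_ag.LD

open MvPolynomial Pool.Agent.Lib.MP_e005b4_ag Pool.Agent.Lib.MP_e005b4_ag.GP
open scoped LinearAlgebra.Projectivization

/-- `Y` has dimension `k`. -/
def HasDim {ι : Type} [Fintype ι] (Y : Set (PSpace ι)) (k : ℕ) : Prop :=
  DimLT Y (k + 1) ∧ ¬ DimLT Y k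

/-- All projective tangent spaces of `X` have dimension `k` (so `X` is smooth if it has
dimension `k`). -/
def TanDim {ι : Type} [Fintype ι] (X : Set (PSpace ι)) (k : ℕ) : Prop :=
  ∀ p ∈ X, Module.finrank ℂ (tangentSpace X p) = k + 1

/-- The vector with the coordinates `z i * z j` and `w`. -/
def vp {n : ℕ} (z : Fin (n + 1) → ℂ) (w : ℂ) : Option (Sym2 (Fin (n + 1))) → ℂ
  | none => w
  | some s => Sym2.lift ⟨fun i j => z i * z j, fun _ _ => mul_comm _ _⟩ s

/-- The cone over the second Veronese embedding of projective `n`-space: the points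
`[z i * z j : w]`. -/
def verCone (n : ℕ) : Set (PSpace (Option (Sym2 (Fin (n + 1))))) :=
  {p | ∃ (z : Fin (n + 1) → ℂ) (w : ℂ), p.rep = vp z w}

/-- The Segre variety of the product of projective spaces of dimensions `a` and `b`: the points
`[u i * v j]`. -/
def segre (a b : ℕ) : Set (PSpace (Fin (a + 1) × Fin (b + 1))) :=
  {p | ∃ (u : Fin (a + 1) → ℂ) (v : Fin (b + 1) → ℂ), ∀ i j, p.rep (i, j) = u i * v j}

/-- The symmetric matrix of a vector. -/
def sm {n : ℕ} (w : Option (Sym2 (Fin (n + 1))) → ℂ) : Matrix (Fin (n + 1)) (Fin (n + 1)) ℂ :=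
  Matrix.of fun i j => w (some s(i, j))

/-- The exponents of the monomials of weight `2 d` in `z` (weight 1) and `w` (weight 2). -/
abbrev T1 (n d : ℕ) : Type :=
  {b : Option (Fin (n + 1)) →₀ ℕ // 2 * b none + ∑ i, b (some i) = 2 * d}

/-- The exponents of the monomials of bidegree `(d, e)` in `u` and `v`. -/
abbrev T2 (a b d e : ℕ) : Type :=
  {c : Fin (a + 1) ⊕ Fin (b + 1) →₀ ℕ // ∑ i, c (Sum.inl i) = d ∧ ∑ j, c (Sum.inr j) = e}

instance finite_T1 (n d : ℕ) : Finite (T1 n d) := by
  classical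
  refine Finite.of_injective (fun a : T1 n d => fun i : Option (Fin (n + 1)) =>
    (⟨a.1 i, Nat.lt_succ_of_le ?_⟩ : Fin (2 * d + 1))) ?_
  · have h := a.2
    rcases i with _ | i
    · omega
    · have h1 := Finset.single_le_sum (f := fun i => a.1 (some i)) (fun i _ => Nat.zero_le _)
        (Finset.mem_univ i)
      have h2 : a.1 (some i) ≤ ∑ i, a.1 (some i) := h1
      omega
  · intro a b h
    ext i
    have := congrFun h i
    simpa using congrArg Fin.val this

noncomputable instance fintype_T1 (n d : ℕ) : Fintype (T1 n d) := Fintype.ofFinite _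

instance finite_T2 (a b d e : ℕ) : Finite (T2 a b d e) := by
  classical
  refine Finite.of_injective (fun c : T2 a b d e => fun i : Fin (a + 1) ⊕ Fin (b + 1) =>
    (⟨c.1 i, Nat.lt_succ_of_le ?_⟩ : Fin (d + e + 1))) ?_
  · have h := c.2
    rcases i with i | i
    · have h1 : c.1 (Sum.inl i) ≤ ∑ i, c.1 (Sum.inl i) := Finset.single_le_sum
        (f := fun i => c.1 (Sum.inl i)) (fun i _ => Nat.zero_le _) (Finset.mem_univ i)
      omega
    · have h1 : c.1 (Sum.inr i) ≤ ∑ i, c.1 (Sum.inr i) := Finset.single_le_sum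
        (f := fun i => c.1 (Sum.inr i)) (fun i _ => Nat.zero_le _) (Finset.mem_univ i)
      omega
  · intro a b h
    ext i
    have := congrFun h i
    simpa using congrArg Fin.val this

noncomputable instance fintype_T2 (a b d e : ℕ) : Fintype (T2 a b d e) := Fintype.ofFinite _

/-- The polynomial with the coefficients `g`. -/
noncomputable def pol {R σ : Type} [CommSemiring R] {T : (σ →₀ ℕ) → Prop} [Fintype {t // T t}]
    (g : {t // T t} → R) : MvPolynomial σ R := ∑ t, monomial t.1 (g t)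

/-- The parametrization of `verCone`. -/
noncomputable def r1 (n : ℕ) (o : Option (Sym2 (Fin (n + 1)))) :
    MvPolynomial (Option (Fin (n + 1))) ℂ :=
  match o with
  | none => X none
  | some s => Sym2.lift ⟨fun i j => X (some i) * X (some j), fun _ _ => mul_comm _ _⟩ s

/-- The parametrization of `segre`. -/
noncomputable def r2 (a b : ℕ) (o : Fin (a + 1) × Fin (b + 1)) :
    MvPolynomial (Fin (a + 1) ⊕ Fin (b + 1)) ℂ := X (Sum.inl o.1) * X (Sum.inr o.2)

/-- All zeros of `f` in `U` are regular. -/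
def Reg {σ : Type} (U : Set (σ → ℂ)) (f : MvPolynomial σ ℂ) : Prop :=
  ∀ z ∈ U, eval z f = 0 → ∃ s, eval z (pderiv s f) ≠ 0

/-- The parameters with `z ≠ 0`. -/
def U1 (n : ℕ) : Set (Option (Fin (n + 1)) → ℂ) := {z | ∃ i, z (some i) ≠ 0}

/-- The parameters with `u ≠ 0`, `v ≠ 0`. -/
def U2 (a b : ℕ) : Set (Fin (a + 1) ⊕ Fin (b + 1) → ℂ) :=
  {z | (∃ i, z (Sum.inl i) ≠ 0) ∧ ∃ j, z (Sum.inr j) ≠ 0}

end Pool.Agent.Lib.MP_e005b4_ag.LD
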