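import Pool.Agent.Lib.MP_e005b4_ag.LD.SpecB

/-!
# Sections of large degree: the dimension of the secant variety (helper62)
-/

set_option autoImplicit false

namespace Pool.Agent.Lib.MP_e005b4_ag.LD

open MvPolynomial Pool.Agent.Lib.MP_e005b4_ag Pool.Agent.Lib.MP_e005b4_ag.GP
open scoped LinearAlgebra.Projectivization

private lemma Dm_pw {ι : Type} [Fintype ι] (K : Set (ι → ℂ)) (k : ℕ) (h : Ms K k) :
    Ms (pw K 2) (2 * k) := by
  classical
  obtain ⟨M, hM⟩ := h
  refine ⟨fun r p => if (finProdFinEquiv.symm r).1 = p.1 then M (finProdFinEquiv.symm r).2 p.2 else 0,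
    fun y hy h0 => ?_⟩
  funext p
  obtain ⟨l, i⟩ := p
  have h1 : M.mulVec (fun i => y (l, i)) = 0 := by
    funext j
    have h2 := congrFun h0 (finProdFinEquiv (l, j))
    simp only [Matrix.mulVec, dotProduct, Equiv.symm_apply_apply, Fintype.sum_prod_type,
      Pi.zero_apply] at h2 ⊢
    rw [Finset.sum_eq_single l] at h2
    · simpa using h2
    · intro l' _ hl'
      refine Finset.sum_eq_zero fun i _ => ?_
      rw [if_neg (fun h => hl' h.symm), zero_mul]
    · exact fun h => absurd (Finset.mem_univ l) h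
  exact congrFun (hM _ (hy l) h1) i

theorem lDm (h1 : StPow) (h2 : StLe) (h3 : StBa) (h4 : StBb) (h5 : StBc) : StDm := by
  intro ι _ X k hX hk
  classical
  have hne : X.Nonempty := hX.2.1
  obtain ⟨hC, hI⟩ := (h3 ι X hne).1 hX
  have hMs : Ms (cone X) k := (h5.2.1 ι X k).1 hk
  obtain ⟨hC2, hI2⟩ := h1 ι (cone X) 2 hC hI
  have h6 := h2 ι (Fin 2 × ι) (pw (cone X) 2) (Sg 2) (2 * k) hC2 hI2 (Dm_pw _ _ hMs)
  rw [← Sr_eq, ← (h4 ι X hne 2).2] at h6
  exact (h5.2.1 ι _ _).2 h6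

end Pool.Agent.Lib.MP_e005b4_ag.LD
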