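import Pool.Agent.Lib.MP_e005b4_ag.LD.SpecB

/-!
# Sections of large degree: the dimension of the section of the cone over the Veronese variety
-/

set_option autoImplicit false

namespace Pool.Agent.Lib.MP_e005b4_ag.LD

open MvPolynomial Pool.Agent.Lib.MP_e005b4_ag Pool.Agent.Lib.MP_e005b4_ag.GP
open scoped LinearAlgebra.Projectivization

/-- The value of a form at a point all of whose coordinates except `none` are zero. -/
private lemma E1_eval {κ : Type} [Fintype κ] [DecidableEq κ] (d : ℕ) (F : MvPolynomial (Option κ) ℂ)
    (hF : F.IsHomogeneous d) (x : Option κ → ℂ) (hx : ∀ s, x (some s) = 0) :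
    eval x F = coeff (Finsupp.single none d) F * x none ^ d := by
  classical
  rw [eval_eq', Finset.sum_eq_single (Finsupp.single none d)]
  · have h1 : (∏ i : Option κ, x i ^ (Finsupp.single (none : Option κ) d) i) = x none ^ d := by
      rw [Fintype.prod_option]
      simp
    rw [h1]
  · intro m hm hne
    have hdeg : m.degree = d := by
      by_contra h
      exact (mem_support_iff.mp hm) (hF.coeff_eq_zero h)
    have hs : ∃ s, m (some s) ≠ 0 := by
      by_contra h
      push Not at h
      apply hne
      rw [Finsupp.degree_eq_sum, Fintype.sum_option] at hdeg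
      have h2 : ∑ s, m (some s) = 0 := Finset.sum_eq_zero fun s _ => h s
      rw [h2, add_zero] at hdeg
      ext i
      rcases i with _ | s
      · simp [hdeg]
      · simp [h s]
    obtain ⟨s, hs⟩ := hs
    have h3 : (∏ i : Option κ, x i ^ m i) = 0 := by
      apply Finset.prod_eq_zero (Finset.mem_univ (some s))
      rw [hx s]
      exact zero_pow hs
    rw [h3, mul_zero]
  · intro h
    rw [notMem_support_iff.mp h, zero_mul]

/-- **E1.** The dimension of the section of the cone. -/
theorem lE1 : StE1 := by
  classical
  intro n d F hd hF hc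
  refine ⟨Matrix.of fun i => Pi.single (some s(i, i)) 1, ?_⟩
  rintro p ⟨⟨z, w, hp⟩, hpF⟩ h0
  have hz : ∀ i, z i = 0 := by
    intro i
    have h1 := congrFun h0 i
    simp only [Matrix.mulVec, Matrix.of_apply, single_dotProduct, one_mul, Pi.zero_apply] at h1
    rw [hp] at h1
    simp only [vp, Sym2.lift_mk] at h1
    exact mul_self_eq_zero.mp h1
  have hrep : ∀ s, p.rep (some s) = 0 := by
    intro s
    rw [hp]
    induction s with
    | _ i j => simp [vp, hz]
  have hev := E1_eval d F hF p.rep hrep
  rw [hpF] at hev
  have hw : p.rep none = 0 := by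
    have h2 := (mul_eq_zero.mp hev.symm).resolve_left hc
    exact pow_eq_zero_iff (by omega) |>.mp h2
  apply p.rep_nonzero
  ext o
  rcases o with _ | s
  · exact hw
  · exact hrep s

end Pool.Agent.Lib.MP_e005b4_ag.LD
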