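import Pool.Agent.Lib.MP_e005b4_ag.LD.SpecB

/-! Module E2: the dimension of a section of the Segre variety. -/

set_option autoImplicit false

namespace Pool.Agent.Lib.MP_e005b4_ag.LD

open MvPolynomial Pool.Agent.Lib.MP_e005b4_ag Pool.Agent.Lib.MP_e005b4_ag.GP
open scoped LinearAlgebra.Projectivization

private theorem E2_cut {ι : Type} [Fintype ι] (Z : Set (PSpace ι)) (F : MvPolynomial ι ℂ) (d : ℕ)
    (hd : 1 ≤ d) (hF : F.IsHomogeneous d) (v : ι → ℂ) :
    v ∈ cone (cut Z F) ↔ v ∈ cone Z ∧ eval v F = 0 := by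
  by_cases hv : v = 0
  · subst hv
    refine ⟨fun _ => ⟨zero_mem_cone Z, ?_⟩, fun _ => zero_mem_cone _⟩
    have h := eval_smul_hom hF (c := 0) (v := (0 : ι → ℂ))
    rw [zero_smul, zero_pow (by omega), zero_mul] at h
    exact h
  · rw [mem_cone_iff hv, mem_cone_iff hv]
    unfold cut
    rw [Set.mem_ofPred_eq]
    refine and_congr Iff.rfl ?_
    obtain ⟨a, ha⟩ := Projectivization.exists_smul_eq_mk_rep ℂ v hv
    rw [← ha]
    have h : eval (a • v) F = (a : ℂ) ^ d * eval v F := eval_smul_hom hF (a : ℂ) v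
    rw [h]
    constructor
    · intro h1
      rcases mul_eq_zero.1 h1 with h2 | h2
      · exact absurd h2 (pow_ne_zero _ a.ne_zero)
      · exact h2
    · intro h1
      rw [h1, mul_zero]

private theorem E2_ms (a b : ℕ) (u : Fin (a + 1) → ℂ) (v : Fin (b + 1) → ℂ)
    (h : ∀ k : Fin (a + b + 1), ∑ o : Fin (a + 1) × Fin (b + 1),
      (if o.1.1 + o.2.1 = k.1 then (1 : ℂ) else 0) * (u o.1 * v o.2) = 0) :
    (∀ i, u i = 0) ∨ ∀ j, v j = 0 := by
  classical
  let P : Polynomial ℂ := ∑ i, Polynomial.C (u i) * Polynomial.X ^ i.1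
  let Q : Polynomial ℂ := ∑ j, Polynomial.C (v j) * Polynomial.X ^ j.1
  have hPc : ∀ i, P.coeff i.1 = u i := by
    intro i
    simp only [P, Polynomial.finsetSum_coeff, Polynomial.coeff_C_mul_X_pow]
    rw [Finset.sum_eq_single i]
    · simp
    · intro j _ hj
      rw [if_neg]
      exact fun h => hj (Fin.ext h.symm)
    · intro h
      exact absurd (Finset.mem_univ i) h
  have hQc : ∀ i, Q.coeff i.1 = v i := by
    intro i
    simp only [Q, Polynomial.finsetSum_coeff, Polynomial.coeff_C_mul_X_pow]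
    rw [Finset.sum_eq_single i]
    · simp
    · intro j _ hj
      rw [if_neg]
      exact fun h => hj (Fin.ext h.symm)
    · intro h
      exact absurd (Finset.mem_univ i) h
  have hPQ : P * Q = ∑ o : Fin (a + 1) × Fin (b + 1),
      Polynomial.C (u o.1 * v o.2) * Polynomial.X ^ (o.1.1 + o.2.1) := by
    simp only [P, Q]
    rw [Finset.sum_mul_sum, ← Finset.univ_product_univ, Finset.sum_product]
    refine Finset.sum_congr rfl fun i _ => Finset.sum_congr rfl fun j _ => ?_
    rw [Polynomial.C_mul, pow_add]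
    ring
  have h0 : P * Q = 0 := by
    ext k
    rw [hPQ]
    simp only [Polynomial.finsetSum_coeff, Polynomial.coeff_C_mul_X_pow, Polynomial.coeff_zero]
    by_cases hk : k < a + b + 1
    · have h1 := h ⟨k, hk⟩
      refine Eq.trans (Finset.sum_congr rfl fun o _ => ?_) h1
      simp only
      by_cases h2 : o.1.1 + o.2.1 = k
      · rw [if_pos h2.symm, if_pos h2, one_mul]
      · rw [if_neg (fun h => h2 h.symm), if_neg h2, zero_mul]
    · refine Finset.sum_eq_zero fun o _ => if_neg ?_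
      have h1 := o.1.2
      have h2 := o.2.2
      omega
  rcases mul_eq_zero.1 h0 with h1 | h1
  · left
    intro i
    rw [← hPc i, h1, Polynomial.coeff_zero]
  · right
    intro i
    rw [← hQc i, h1, Polynomial.coeff_zero]

theorem lE2 (h1 : StDim) (h2 : StBa) (h3 : StBc) (h4 : StWa) : StE2 := by
  classical
  intro a b d F hd hF hp
  obtain ⟨p, hpZ, hpF⟩ := hp
  obtain ⟨hc, hvar⟩ := h4 a b
  obtain ⟨hY1, hY2⟩ := (h2 _ (segre a b) ⟨p, hpZ⟩).1 hvar
  have hcut := E2_cut (segre a b) F d hd hF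
  have hMs : Ms (cone (segre a b)) (a + b + 1) := by
    refine ⟨fun k o => if o.1.1 + o.2.1 = k.1 then 1 else 0, fun y hy hM => ?_⟩
    obtain ⟨z, rfl⟩ := (hc y).1 hy
    have hz : ∀ o : Fin (a + 1) × Fin (b + 1), eval z (r2 a b o) = z (Sum.inl o.1) * z (Sum.inr o.2) := by
      intro o
      unfold r2
      rw [map_mul, eval_X, eval_X]
    have h5 := E2_ms a b (fun i => z (Sum.inl i)) (fun j => z (Sum.inr j)) (fun k => by
      have h6 := congrFun hM k
      simp only [Matrix.mulVec, dotProduct, hz, Pi.zero_apply] at h6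
      exact h6)
    funext o
    rw [hz, Pi.zero_apply]
    rcases h5 with h5 | h5
    · rw [h5 o.1, zero_mul]
    · rw [h5 o.2, mul_zero]
  have hB : ClCone (cone (cut (segre a b) F)) := by
    refine ⟨zero_mem_cone _, fun v hv => ?_⟩
    rw [hcut]
    refine ⟨hY1.cl (clc_mono (fun w hw => ((hcut w).1 hw).1) hv), ?_⟩
    exact hv F d hF fun y hy => ((hcut y).1 hy).2
  have hne : cone (cut (segre a b) F) ≠ cone (segre a b) := by
    intro h
    have h5 : p.rep ∈ cone (segre a b) := rep_mem_cone.2 hpZ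
    rw [← h] at h5
    exact hpF ((hcut _).1 h5).2
  obtain ⟨e, he, hMe⟩ := h1 _ _ _ (a + b + 1) hB hY1 hY2 (fun w hw => ((hcut w).1 hw).1) hne hMs
  have he' : e = a + b := by omega
  subst he'
  exact (h3.2.1 _ _ _).2 hMe

end Pool.Agent.Lib.MP_e005b4_ag.LD
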