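import Pool.Agent.Lib.MP_e005b4_ag.LD.SpecB

/-!
# Factors of weighted homogeneous polynomials
-/

set_option autoImplicit false

namespace Pool.Agent.Lib.MP_e005b4_ag.LD

open MvPolynomial

variable {σ : Type}

/-- every variable `X i` is multiplied with `T ^ (w i)` -/
private noncomputable def Fw_phi (w : σ → ℕ) :
    MvPolynomial σ ℂ →ₐ[ℂ] Polynomial (MvPolynomial σ ℂ) :=
  aeval fun i => Polynomial.C (X i) * Polynomial.X ^ (w i)

private lemma Fw_mon (w : σ → ℕ) (s : σ →₀ ℕ) (a : ℂ) :
    Fw_phi w (monomial s a) = Polynomial.monomial (Finsupp.weight w s) (monomial s a) := by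
  rw [Fw_phi, aeval_monomial]
  have h1 : (s.prod fun i k => (Polynomial.C (X i : MvPolynomial σ ℂ) * Polynomial.X ^ (w i)) ^ k) =
      Polynomial.C (s.prod fun i k => (X i : MvPolynomial σ ℂ) ^ k) *
        Polynomial.X ^ (Finsupp.weight w s) := by
    rw [Finsupp.prod, Finsupp.prod, Finsupp.weight_apply, Finsupp.sum, map_prod,
      ← Finset.prod_pow_eq_pow_sum, ← Finset.prod_mul_distrib]
    refine Finset.prod_congr rfl fun i _ => ?_
    rw [mul_pow, ← pow_mul, map_pow, smul_eq_mul, mul_comm (w i)]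
  rw [h1, monomial_eq (s := s), ← Polynomial.C_mul_X_pow_eq_monomial, map_mul, mul_assoc]
  rfl

private lemma Fw_coeff (w : σ → ℕ) (G : MvPolynomial σ ℂ) (k : ℕ) (s : σ →₀ ℕ) :
    coeff s ((Fw_phi w G).coeff k) = if Finsupp.weight w s = k then coeff s G else 0 := by
  classical
  induction G using MvPolynomial.induction_on' with
  | monomial v a =>
    rw [Fw_mon, Polynomial.coeff_monomial, coeff_monomial]
    by_cases hvs : v = s
    · subst hvs
      by_cases h : Finsupp.weight w v = k
      · rw [if_pos h, if_pos h, coeff_monomial]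
      · rw [if_neg h, if_neg h, coeff_zero]
    · rw [if_neg hvs, ite_self]
      split_ifs with h
      · rw [coeff_monomial, if_neg hvs]
      · rw [coeff_zero]
  | add p q hp hq =>
    rw [map_add, Polynomial.coeff_add, coeff_add, hp, hq, coeff_add]
    split_ifs
    · rfl
    · rw [add_zero]

private lemma Fw_ne (w : σ → ℕ) (G : MvPolynomial σ ℂ) (hG : G ≠ 0) : Fw_phi w G ≠ 0 := by
  obtain ⟨s, hs⟩ := ne_zero_iff.1 hG
  intro h
  have h1 := Fw_coeff w G (Finsupp.weight w s) s
  rw [h, Polynomial.coeff_zero, coeff_zero, if_pos rfl] at h1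
  exact hs h1.symm

private lemma Fw_hom (w : σ → ℕ) (G : MvPolynomial σ ℂ)
    (h : (Fw_phi w G).natDegree ≤ (Fw_phi w G).natTrailingDegree) :
    IsWeightedHomogeneous w G (Fw_phi w G).natDegree := by
  intro s hs
  have h1 : (Fw_phi w G).coeff (Finsupp.weight w s) ≠ 0 := by
    intro h0
    have h2 := Fw_coeff w G (Finsupp.weight w s) s
    rw [h0, coeff_zero, if_pos rfl] at h2
    exact hs h2.symm
  exact le_antisymm (Polynomial.le_natDegree_of_ne_zero h1)
    (h.trans (Polynomial.natTrailingDegree_le_of_ne_zero h1))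

theorem lFw : StFw := by
  intro σ w G H m hG hH hGH
  have hP := Fw_ne w G hG
  have hQ := Fw_ne w H hH
  have hc : ∀ k, k ≠ m → (Fw_phi w G * Fw_phi w H).coeff k = 0 := by
    intro k hk
    rw [← map_mul]
    ext s
    rw [Fw_coeff, coeff_zero]
    split_ifs with h1
    · by_contra h2
      exact hk (h1.symm.trans (hGH h2))
    · rfl
  have h1 : (Fw_phi w G * Fw_phi w H).natDegree ≤ m :=
    Polynomial.natDegree_le_iff_coeff_eq_zero.2 fun k hk => hc k hk.ne'
  have h2 : m ≤ (Fw_phi w G * Fw_phi w H).natTrailingDegree :=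
    Polynomial.le_natTrailingDegree (mul_ne_zero hP hQ) fun k hk => hc k hk.ne
  rw [Polynomial.natDegree_mul hP hQ] at h1
  rw [Polynomial.natTrailingDegree_mul hP hQ] at h2
  have h3 := Polynomial.natTrailingDegree_le_natDegree (Fw_phi w G)
  have h4 := Polynomial.natTrailingDegree_le_natDegree (Fw_phi w H)
  exact ⟨(Fw_phi w G).natDegree, (Fw_phi w H).natDegree, by omega,
    Fw_hom w G (by omega), Fw_hom w H (by omega)⟩

end Pool.Agent.Lib.MP_e005b4_ag.LD
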