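import Pool.Agent.Lib.MP_e005b4_ag.LD.Spec

/-!
# Sections of large degree, module Gr

The cone of the specialisations of `c` meets every linear subspace of dimension `N > v`.
-/

set_option autoImplicit false

namespace Pool.Agent.Lib.MP_e005b4_ag.LD

open MvPolynomial Pool.Agent.Lib.MP_e005b4_ag Pool.Agent.Lib.MP_e005b4_ag.GP

section

variable {L Ω S : Type} [Field L] [Field Ω] [Algebra L Ω] [Fintype S]

/-- the homomorphism `X a ↦ c a * X` -/
private noncomputable def Gr_phi (L : Type) [Field L] [Algebra L Ω] (c : S → Ω) :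
    MvPolynomial S L →ₐ[L] Polynomial Ω :=
  aeval (fun a => Polynomial.C (c a) * Polynomial.X : S → Polynomial Ω)

private lemma Gr_coeff (c : S → Ω) (P : MvPolynomial S L) (n : ℕ) :
    (Gr_phi L c P).coeff n = aeval c (homogeneousComponent n P) := by
  classical
  induction P using MvPolynomial.induction_on' with
  | monomial d r =>
    have h1 : Gr_phi L c (monomial d r) =
        Polynomial.C (aeval c (monomial d r)) * Polynomial.X ^ d.degree := by
      unfold Gr_phi
      rw [aeval_monomial, aeval_monomial, Finsupp.prod, Finsupp.prod]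
      simp only [mul_pow, Finset.prod_mul_distrib, Finset.prod_pow_eq_pow_sum]
      rw [Polynomial.algebraMap_apply, map_mul, map_prod]
      simp only [map_pow]
      rw [mul_assoc]
      rfl
    rw [h1, Polynomial.coeff_C_mul_X_pow,
      homogeneousComponent_of_mem (isHomogeneous_monomial r rfl)]
    split_ifs <;> simp
  | add p q hp hq =>
    rw [map_add, Polynomial.coeff_add, hp, hq, map_add, map_add]

private lemma Gr_hom (c : S → Ω) {P : MvPolynomial S L} {k : ℕ} (hP : P.IsHomogeneous k) :
    Gr_phi L c P = Polynomial.C (aeval c P) * Polynomial.X ^ k := by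
  ext n
  rw [Gr_coeff, Polynomial.coeff_C_mul_X_pow, homogeneousComponent_of_mem hP]
  split_ifs <;> simp

/-- a homogeneous element of the ideal of degree `n + 1` -/
private lemma Gr_step (c : S → Ω) {R : ℕ} (m : Fin R → MvPolynomial S L)
    (hm : ∀ j, (m j).IsHomogeneous 1) {μ : MvPolynomial S L} {n : ℕ}
    (hμ : μ.IsHomogeneous (n + 1))
    (hI : μ ∈ RingHom.ker (Gr_phi L c) ⊔ Ideal.span (Set.range m)) :
    ∃ b : Fin R → MvPolynomial S L,
      aeval c μ = ∑ j, aeval c (homogeneousComponent n (b j)) * aeval c (m j) := by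
  obtain ⟨p, hp, q, hq, hpq⟩ := Submodule.mem_sup.1 hI
  obtain ⟨b, hb⟩ := Ideal.mem_span_range_iff_exists_fun.1 hq
  refine ⟨b, ?_⟩
  have h1 : Gr_phi L c μ = ∑ j, Gr_phi L c (b j) * Gr_phi L c (m j) := by
    rw [← hpq, map_add, (RingHom.mem_ker).1 hp, zero_add, ← hb, map_sum]
    simp only [map_mul]
  have h2 := congrArg (fun f => Polynomial.coeff f (n + 1)) h1
  simp only [Polynomial.finset_sum_coeff] at h2
  rw [Gr_coeff, homogeneousComponent_eq_self hμ] at h2
  rw [h2]
  refine Finset.sum_congr rfl fun j _ => ?_
  rw [Gr_hom c (hm j), pow_one, ← mul_assoc, Polynomial.coeff_mul_X, Polynomial.coeff_mul_C,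
    Gr_coeff]

/-- the linear forms which define the span of `G` -/
private lemma Gr_forms {N : ℕ} (G : Fin N → S → L) (hG : LinearIndependent L G) :
    ∃ m : Fin (Fintype.card S - N) → MvPolynomial S L, (∀ j, (m j).IsHomogeneous 1) ∧
      ∀ x : S → L, (∀ j, aeval x (m j) = 0) → ∃ β : Fin N → L, x = fun a => ∑ i, β i * G i a := by
  classical
  have hW : Module.finrank L (Submodule.span L (Set.range G)) = N := by
    rw [finrank_span_eq_card hG, Fintype.card_fin]
  have hq := Submodule.finrank_quotient_add_finrank (Submodule.span L (Set.range G))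
  rw [hW, Module.finrank_fintype_fun_eq_card] at hq
  let e : ((S → L) ⧸ Submodule.span L (Set.range G)) ≃ₗ[L]
      (Fin (Fintype.card S - N) → L) :=
    LinearEquiv.ofFinrankEq _ _ (by rw [Module.finrank_fintype_fun_eq_card, Fintype.card_fin]; omega)
  let M : (S → L) →ₗ[L] (Fin (Fintype.card S - N) → L) :=
    e.toLinearMap ∘ₗ (Submodule.span L (Set.range G)).mkQ
  refine ⟨fun j => ∑ a, C (M (Pi.single a 1) j) * X a, fun j => ?_, fun x hx => ?_⟩
  · exact IsHomogeneous.sum _ _ _ fun a _ => isHomogeneous_C_mul_X _ _
  · have h1 : M x = 0 := by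
      funext j
      have h2 := hx j
      have h3 : x = ∑ a, x a • (Pi.single a 1 : S → L) := by
        funext b
        simp [Finset.sum_apply, Pi.single_apply]
      rw [h3, map_sum, Finset.sum_apply]
      simp only [map_sum, map_mul, aeval_X, aeval_C, Algebra.algebraMap_self, RingHom.id_apply] at h2
      rw [Pi.zero_apply, ← h2]
      refine Finset.sum_congr rfl fun a _ => ?_
      rw [map_smul, Pi.smul_apply, smul_eq_mul, mul_comm]
    have h4 : (Submodule.span L (Set.range G)).mkQ x = 0 := e.injective (by rw [map_zero]; exact h1)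
    rw [Submodule.mkQ_apply, Submodule.Quotient.mk_eq_zero,
      Submodule.mem_span_range_iff_exists_fun] at h4
    obtain ⟨β, hβ⟩ := h4
    refine ⟨β, ?_⟩
    rw [← hβ]
    funext a
    simp [Finset.sum_apply]

/-- all `c a` are algebraic over the field generated by the `u j` -/
private lemma Gr_int (c : S → Ω) {R : ℕ} (m : Fin R → MvPolynomial S L)
    (hm : ∀ j, (m j).IsHomogeneous 1)
    (hrad : ∀ a, X a ∈ (RingHom.ker (Gr_phi L c) ⊔ Ideal.span (Set.range m)).radical) (a : S) :
    IsAlgebraic (IntermediateField.adjoin L (Set.range fun j => aeval c (m j))) (c a) := by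
  classical
  set I := RingHom.ker (Gr_phi L c) ⊔ Ideal.span (Set.range m) with hI
  choose s0 hs0 using hrad
  set s : ℕ := ∑ b, s0 b with hs
  have hXs : ∀ b, (X b : MvPolynomial S L) ^ s ∈ I := fun b =>
    I.pow_mem_of_pow_mem (hs0 b)
      (Finset.single_le_sum (f := s0) (fun _ _ => Nat.zero_le _) (Finset.mem_univ b))
  set D : ℕ := s * Fintype.card S + 1 with hD
  have hmon : ∀ d : S →₀ ℕ, D ≤ d.degree → (monomial d 1 : MvPolynomial S L) ∈ I := by
    intro d hd
    have h1 : ∃ b, s ≤ d b := by
      by_contra hcon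
      push Not at hcon
      have h2 : d.degree ≤ s * Fintype.card S := by
        rw [Finsupp.degree_eq_sum]
        calc ∑ b, d b ≤ ∑ _b : S, s := Finset.sum_le_sum fun b _ => (hcon b).le
          _ = s * Fintype.card S := by
            rw [Finset.sum_const, Finset.card_univ, smul_eq_mul, mul_comm]
      omega
    obtain ⟨b, hb⟩ := h1
    have h2 : (monomial d 1 : MvPolynomial S L) =
        X b ^ s * monomial (d - Finsupp.single b s) 1 := by
      rw [X_pow_eq_monomial, monomial_mul, one_mul,
        add_tsub_cancel_of_le (Finsupp.single_le_iff.2 hb)]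
    rw [h2]
    exact I.mul_mem_right _ (hXs b)
  set T := Algebra.adjoin L (Set.range fun j => aeval c (m j)) with hT
  set F : Set Ω := (fun d : S →₀ ℕ => aeval c (monomial d 1 : MvPolynomial S L)) ''
    {d | d.degree < D} with hF
  have hFfin : F.Finite := by
    refine Set.Finite.image _ ?_
    refine (Set.finite_Icc (0 : S →₀ ℕ) (Finsupp.equivFunOnFinite.symm fun _ => D)).subset ?_
    intro d hd
    refine ⟨fun b => Nat.zero_le _, fun b => ?_⟩
    have h1 : d b ≤ d.degree := by
      rw [Finsupp.degree_eq_sum]
      exact Finset.single_le_sum (f := fun b => d b) (fun _ _ => Nat.zero_le _)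
        (Finset.mem_univ b)
    have h2 : d.degree < D := hd
    simp only [Finsupp.equivFunOnFinite_symm_apply_apply]
    omega
  set NN : Submodule T Ω := Submodule.span T F with hNN
  have hmul : ∀ (r : L) (x : Ω), x ∈ NN → algebraMap L Ω r * x ∈ NN := by
    intro r x hx
    have h1 : algebraMap L Ω r * x = (algebraMap L T r) • x := by
      rw [Algebra.smul_def]
      rfl
    rw [h1]
    exact NN.smul_mem _ hx
  have hmulu : ∀ (j : Fin R) (x : Ω), x ∈ NN → x * aeval c (m j) ∈ NN := by
    intro j x hx
    have hu : aeval c (m j) ∈ T := Algebra.subset_adjoin ⟨j, rfl⟩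
    have h1 : x * aeval c (m j) = (⟨aeval c (m j), hu⟩ : T) • x := by
      rw [Algebra.smul_def, mul_comm]
      rfl
    rw [h1]
    exact NN.smul_mem _ hx
  have hmonN : ∀ n, ∀ d : S →₀ ℕ, d.degree = n →
      aeval c (monomial d 1 : MvPolynomial S L) ∈ NN := by
    intro n
    induction n using Nat.strong_induction_on with
    | _ n ih =>
      intro d hd
      by_cases hn : n < D
      · exact Submodule.subset_span ⟨d, by rw [Set.mem_setOf_eq, hd]; exact hn, rfl⟩
      · obtain ⟨k, rfl⟩ : ∃ k, n = k + 1 := ⟨n - 1, by omega⟩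
        have h1 : (monomial d 1 : MvPolynomial S L).IsHomogeneous (k + 1) :=
          isHomogeneous_monomial 1 hd
        obtain ⟨b, hb⟩ := Gr_step c m hm h1 (hmon d (by omega))
        rw [hb]
        refine NN.sum_mem fun j _ => hmulu j _ ?_
        rw [homogeneousComponent_apply, map_sum]
        refine NN.sum_mem fun d' hd' => ?_
        rw [Finset.mem_filter] at hd'
        have h2 : (monomial d' (coeff d' (b j)) : MvPolynomial S L) =
            C (coeff d' (b j)) * monomial d' 1 := by
          rw [C_mul_monomial, mul_one]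
        rw [h2, map_mul, aeval_C]
        exact hmul _ _ (ih k (by omega) d' hd'.2)
  have hne : NN ≠ ⊥ := by
    intro h
    have h1 : (1 : Ω) ∈ NN := by
      have h2 := hmonN 0 0 (by simp)
      simpa using h2
    rw [h, Submodule.mem_bot] at h1
    exact one_ne_zero h1
  have hfg : NN.FG := Submodule.fg_span hFfin
  have hint : IsIntegral T (c a) := by
    refine isIntegral_of_smul_mem_submodule NN hne hfg (c a) ?_
    intro x hx
    induction hx using Submodule.span_induction with
    | mem x hx =>
      obtain ⟨d, -, rfl⟩ := hx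
      have h1 : c a • aeval c (monomial d 1 : MvPolynomial S L) =
          aeval c (monomial (Finsupp.single a 1 + d) 1 : MvPolynomial S L) := by
        have h2 : (monomial (Finsupp.single a 1 + d) 1 : MvPolynomial S L) =
            X a * monomial d 1 := by
          rw [X, monomial_mul, one_mul]
        rw [h2, map_mul, aeval_X, smul_eq_mul]
      change c a • aeval c (monomial d 1 : MvPolynomial S L) ∈ NN
      rw [h1]
      exact hmonN _ _ rfl
    | zero => simp
    | add x y _ _ hx hy =>
      rw [smul_add]
      exact NN.add_mem hx hy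
    | smul t x _ hx =>
      have h1 : c a • t • x = t • c a • x := by
        rw [smul_eq_mul, smul_eq_mul, Algebra.mul_smul_comm]
      rw [h1]
      exact NN.smul_mem _ hx
  have hle : T ≤ (IntermediateField.adjoin L
      (Set.range fun j => aeval c (m j))).toSubalgebra :=
    IntermediateField.algebra_adjoin_le_adjoin L _
  have h3 : IsIntegral (IntermediateField.adjoin L (Set.range fun j => aeval c (m j)))
      (RingHom.id Ω (c a)) := by
    refine IsIntegral.map_of_comp_eq
      ((Subalgebra.inclusion hle : T →ₐ[L] _) : T →+* (IntermediateField.adjoin L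
        (Set.range fun j => aeval c (m j))).toSubalgebra) (RingHom.id Ω) ?_ hint
    ext x
    rfl
  exact h3.isAlgebraic

end

/-- the cone of the specialisations of `c` meets every linear subspace of dimension `N > v` -/
theorem lGr : StGr := by
  classical
  intro L Ω S _ _ _ _ _ c v N G hB hv hG
  by_contra hcon
  push Not at hcon
  obtain ⟨m, hm, hm0⟩ := Gr_forms G hG
  have hrad : ∀ a, X a ∈ (RingHom.ker (Gr_phi L c) ⊔ Ideal.span (Set.range m)).radical := by
    intro a
    rw [← vanishingIdeal_zeroLocus_eq_radical (K := L), mem_vanishingIdeal_iff]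
    intro x hx
    rw [mem_zeroLocus_iff] at hx
    obtain ⟨β, hβ⟩ := hm0 x fun j => hx _ (Ideal.mem_sup_right (Ideal.subset_span ⟨j, rfl⟩))
    by_cases h0 : β = 0
    · rw [aeval_X, hβ, h0]
      simp
    · obtain ⟨P, hP, hP'⟩ := hcon β h0
      refine absurd ?_ hP'
      have h1 := hx P (Ideal.mem_sup_left ((RingHom.mem_ker).2 hP))
      rw [hβ] at h1
      rw [← h1]
      rfl
  have h1 := hB _ (fun j => aeval c (m j)) fun a => Gr_int c m hm hrad a
  have h2 := hG.fintype_card_le_finrank
  rw [Module.finrank_fintype_fun_eq_card, Fintype.card_fin] at h2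
  omega

end Pool.Agent.Lib.MP_e005b4_ag.LD
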