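import Pool.Agent.Lib.MP_e005b4_ag.LD.SpecB

/-!
# Sections of large degree: a general weighted homogeneous polynomial is irreducible
-/

set_option autoImplicit false

namespace Pool.Agent.Lib.MP_e005b4_ag.LD

open MvPolynomial Pool.Agent.Lib.MP_e005b4_ag Pool.Agent.Lib.MP_e005b4_ag.GP
open scoped LinearAlgebra.Projectivization

private lemma I1_coeff {R σ : Type} [CommSemiring R] {T : (σ →₀ ℕ) → Prop} [Fintype {t // T t}]
    (g : {t // T t} → R) (t : {t // T t}) : coeff t.1 (pol g) = g t := by
  classical
  unfold pol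
  rw [coeff_sum, Finset.sum_eq_single t]
  · rw [coeff_monomial, if_pos rfl]
  · intro s _ hs
    rw [coeff_monomial, if_neg]
    intro h
    exact hs (Subtype.ext h)
  · intro h
    exact absurd (Finset.mem_univ _) h

private lemma I1_coeff_not {R σ : Type} [CommSemiring R] {T : (σ →₀ ℕ) → Prop}
    [Fintype {t // T t}] (g : {t // T t} → R) (m : σ →₀ ℕ) (h : ¬ T m) :
    coeff m (pol g) = 0 := by
  classical
  unfold pol
  rw [coeff_sum]
  apply Finset.sum_eq_zero
  intro s _
  rw [coeff_monomial, if_neg]
  intro h1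
  exact h (h1 ▸ s.2)

/-- The weights. -/
private def I1_wt (n : ℕ) : Option (Fin (n + 1)) → ℕ
  | none => 2
  | some _ => 1

private lemma I1_weight (n : ℕ) (b : Option (Fin (n + 1)) →₀ ℕ) :
    Finsupp.weight (I1_wt n) b = 2 * b none + ∑ i, b (some i) := by
  rw [Finsupp.weight_apply, Finsupp.sum_fintype]
  · rw [Fintype.sum_option]
    simp [I1_wt, mul_comm]
  · intro i
    simp

private lemma I1_hom (n d : ℕ) (g : T1 n d → ℂ) :
    IsWeightedHomogeneous (I1_wt n) (pol g) (2 * d) := by
  intro m hm
  by_contra h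
  apply hm
  apply I1_coeff_not
  rw [I1_weight] at h
  exact h

private lemma I1_pol (n e : ℕ) (G : MvPolynomial (Option (Fin (n + 1))) ℂ)
    (hG : IsWeightedHomogeneous (I1_wt n) G (2 * e)) :
    pol (fun t : T1 n e => coeff t.1 G) = G := by
  ext m
  by_cases h : 2 * m none + ∑ i, m (some i) = 2 * e
  · exact I1_coeff (fun t : T1 n e => coeff t.1 G) ⟨m, h⟩
  · rw [I1_coeff_not _ _ h]
    by_contra h1
    have h2 := hG (fun h3 => h1 h3.symm)
    rw [I1_weight] at h2
    exact h h2

private lemma I1_card (n e e' : ℕ) (hn : 1 ≤ n) (he : 1 ≤ e) (he' : 1 ≤ e') :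
    Fintype.card (T1 n e) + Fintype.card (T1 n e') < Fintype.card (T1 n (e + e')) := by
  classical
  have hz : (0 : Fin (n + 1)) ≠ (⟨1, by omega⟩ : Fin (n + 1)) := by
    intro h
    have := congrArg Fin.val h
    simp at this
  set o : Fin (n + 1) := ⟨1, by omega⟩ with ho
  -- the two exceptional exponents
  let u1 : T1 n (e + e') := ⟨Finsupp.single (some o) (2 * (e + e')), by
    simp [Finsupp.single_apply]⟩
  let u2 : T1 n (e + e') := ⟨Finsupp.single (some o) (2 * (e + e') - 1) +
      Finsupp.single (some (0 : Fin (n + 1))) 1, by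
    simp only [Finsupp.add_apply, Finset.sum_add_distrib, Finsupp.single_apply]
    simp
    omega⟩
  let f1 : T1 n e → T1 n (e + e') := fun b =>
    ⟨b.1 + Finsupp.single (some (0 : Fin (n + 1))) (2 * e'), by
      have := b.2
      simp only [Finsupp.add_apply, Finset.sum_add_distrib, Finsupp.single_apply]
      simp
      omega⟩
  let f2 : T1 n e' → T1 n (e + e') := fun b =>
    ⟨b.1 + Finsupp.single none e, by
      have := b.2
      simp only [Finsupp.add_apply, Finset.sum_add_distrib, Finsupp.single_apply]
      simp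
      omega⟩
  let c : T1 n e' := ⟨Finsupp.single (some (0 : Fin (n + 1))) (2 * e'), by
    simp [Finsupp.single_apply]⟩
  let f : T1 n e ⊕ T1 n e' → T1 n (e + e') :=
    Sum.elim f1 (fun b => if b = c then u1 else f2 b)
  have hf10 : ∀ b, 2 * e' ≤ (f1 b).1 (some 0) := by
    intro b
    show 2 * e' ≤ (b.1 + Finsupp.single (some (0 : Fin (n + 1))) (2 * e')) (some 0)
    rw [Finsupp.add_apply, Finsupp.single_eq_same]
    omega
  have hf2n : ∀ b, e ≤ (f2 b).1 none := by
    intro b
    show e ≤ (b.1 + Finsupp.single none e : Option (Fin (n + 1)) →₀ ℕ) none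
    rw [Finsupp.add_apply, Finsupp.single_eq_same]
    omega
  have hu1n : u1.1 none = 0 := by
    show (Finsupp.single (some o) (2 * (e + e'))) none = 0
    simp
  have hu10 : u1.1 (some 0) = 0 := by
    show (Finsupp.single (some o) (2 * (e + e'))) (some 0) = 0
    rw [Finsupp.single_apply, if_neg]
    intro h
    exact hz (Option.some_injective _ h).symm
  have hu2n : u2.1 none = 0 := by
    show (Finsupp.single (some o) (2 * (e + e') - 1) +
      Finsupp.single (some (0 : Fin (n + 1))) 1 : Option (Fin (n + 1)) →₀ ℕ) none = 0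
    simp
  have hu20 : u2.1 (some 0) = 1 := by
    show (Finsupp.single (some o) (2 * (e + e') - 1) +
      Finsupp.single (some (0 : Fin (n + 1))) 1 : Option (Fin (n + 1)) →₀ ℕ) (some 0) = 1
    rw [Finsupp.add_apply, Finsupp.single_eq_same, Finsupp.single_apply, if_neg]
    intro h
    exact hz (Option.some_injective _ h).symm
  have hi1 : Function.Injective f1 := by
    intro a b h
    have h1 := congrArg Subtype.val h
    exact Subtype.ext (add_right_cancel h1)
  have hi2 : Function.Injective f2 := by
    intro a b h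
    have h1 := congrArg Subtype.val h
    exact Subtype.ext (add_right_cancel h1)
  -- a common element
  have hcom : ∀ (a : T1 n e) (b : T1 n e'), f1 a = f2 b → b = c := by
    intro a b h
    have h1 : a.1 + Finsupp.single (some (0 : Fin (n + 1))) (2 * e') =
      b.1 + Finsupp.single none e := congrArg Subtype.val h
    have hn1 := DFunLike.congr_fun h1 none
    rw [Finsupp.add_apply, Finsupp.add_apply, Finsupp.single_eq_same] at hn1
    have hs1 : (Finsupp.single (some (0 : Fin (n + 1))) (2 * e')) none = 0 := by simp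
    rw [hs1] at hn1
    have ha := a.2
    have hb := b.2
    have han : a.1 none = e := by omega
    have hbn : b.1 none = 0 := by omega
    have hasum : ∑ i, a.1 (some i) = 0 := by omega
    have hai : ∀ i, a.1 (some i) = 0 := by
      intro i
      exact (Finset.sum_eq_zero_iff.1 hasum) i (Finset.mem_univ i)
    apply Subtype.ext
    show b.1 = Finsupp.single (some (0 : Fin (n + 1))) (2 * e')
    ext x
    rcases x with _ | i
    · rw [hbn]; simp
    · have h2 := DFunLike.congr_fun h1 (some i)
      rw [Finsupp.add_apply, Finsupp.add_apply, hai i] at h2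
      have hs2 : (Finsupp.single none e : Option (Fin (n + 1)) →₀ ℕ) (some i) = 0 := by simp
      rw [hs2] at h2
      omega
  have hne1 : ∀ a, f1 a ≠ u1 := by
    intro a h
    have := hf10 a
    rw [h, hu10] at this
    omega
  have hne2 : ∀ b, f2 b ≠ u1 := by
    intro b h
    have := hf2n b
    rw [h, hu1n] at this
    omega
  have hinj : Function.Injective f := by
    rintro (a | a) (b | b) h
    · exact congrArg Sum.inl (hi1 h)
    · exfalso
      change f1 a = (if b = c then u1 else f2 b) at h
      by_cases hb : b = c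
      · rw [if_pos hb] at h
        exact hne1 a h
      · rw [if_neg hb] at h
        exact hb (hcom a b h)
    · exfalso
      change (if a = c then u1 else f2 a) = f1 b at h
      by_cases hb : a = c
      · rw [if_pos hb] at h
        exact hne1 b h.symm
      · rw [if_neg hb] at h
        exact hb (hcom b a h.symm)
    · change (if a = c then u1 else f2 a) = (if b = c then u1 else f2 b) at h
      by_cases ha : a = c
      · by_cases hb : b = c
        · rw [ha, hb]
        · rw [if_pos ha, if_neg hb] at h
          exact absurd h.symm (hne2 b)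
      · by_cases hb : b = c
        · rw [if_neg ha, if_pos hb] at h
          exact absurd h (hne2 a)
        · rw [if_neg ha, if_neg hb] at h
          rw [hi2 h]
  have hnot : u2 ∉ Set.range f := by
    rintro ⟨x, hx⟩
    rcases x with a | b
    · change f1 a = u2 at hx
      have := hf10 a
      rw [hx, hu20] at this
      omega
    · change (if b = c then u1 else f2 b) = u2 at hx
      by_cases hb : b = c
      · rw [if_pos hb] at hx
        rw [← hx, hu10] at hu20
        exact absurd hu20 (by norm_num)
      · rw [if_neg hb] at hx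
        have := hf2n b
        rw [hx, hu2n] at this
        omega
  rw [← Fintype.card_sum]
  exact Fintype.card_lt_of_injective_of_notMem f hinj hnot

private lemma I1_step (h1 : StKM) (n d e : ℕ) (hn : 1 ≤ n) (he : 1 ≤ e) (hed : e + 1 ≤ d) :
    ∃ Φ : MvPolynomial (T1 n d) ℂ, Φ ≠ 0 ∧ ∀ (g : T1 n e → ℂ) (h : T1 n (d - e) → ℂ),
      eval (fun s : T1 n d => coeff s.1 (pol g * pol h)) Φ = 0 := by
  classical
  obtain ⟨Φ, hΦ, hΦ'⟩ := h1 (T1 n d) (T1 n e ⊕ T1 n (d - e))
    (fun s => ∑ a : T1 n e, ∑ b : T1 n (d - e),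
      if a.1 + b.1 = s.1 then X (Sum.inl a) * X (Sum.inr b) else 0) (by
      have h2 := I1_card n e (d - e) hn he (by omega)
      have h3 : e + (d - e) = d := by omega
      rw [h3] at h2
      rw [Fintype.card_sum]
      exact h2)
  refine ⟨Φ, hΦ, ?_⟩
  intro g h
  have h4 := hΦ' (Sum.elim g h)
  rw [← h4]
  congr 2
  funext s
  rw [map_sum]
  unfold pol
  rw [Finset.sum_mul_sum, coeff_sum]
  apply Finset.sum_congr rfl
  intro a _
  rw [coeff_sum, map_sum]
  apply Finset.sum_congr rfl
  intro b _
  rw [monomial_mul, coeff_monomial]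
  split_ifs
  · simp
  · simp

theorem lI1 (h1 : StKM) (h2 : StFw) : StI1 := by
  classical
  intro n d hn hd
  have hE : ∀ e : ℕ, ∃ Φ : MvPolynomial (T1 n d) ℂ, Φ ≠ 0 ∧ (1 ≤ e → e + 1 ≤ d →
      ∀ (g : T1 n e → ℂ) (h : T1 n (d - e) → ℂ),
        eval (fun s : T1 n d => coeff s.1 (pol g * pol h)) Φ = 0) := by
    intro e
    by_cases he : 1 ≤ e ∧ e + 1 ≤ d
    · obtain ⟨Φ, hΦ, hΦ'⟩ := I1_step h1 n d e hn he.1 he.2
      exact ⟨Φ, hΦ, fun _ _ => hΦ'⟩
    · exact ⟨1, one_ne_zero, fun h3 h4 => absurd ⟨h3, h4⟩ he⟩
  choose Φ hΦ0 hΦ using hE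
  let t0 : T1 n d := ⟨Finsupp.single none d, by simp⟩
  refine ⟨X t0 * ∏ e ∈ Finset.range d, Φ e, ?_, ?_⟩
  · exact mul_ne_zero (X_ne_zero _) (Finset.prod_ne_zero_iff.2 (fun e _ => hΦ0 e))
  intro g hg
  rw [map_mul, eval_X, map_prod] at hg
  have hg0 : g t0 ≠ 0 := left_ne_zero_of_mul hg
  have hgΦ : ∀ e ∈ Finset.range d, eval g (Φ e) ≠ 0 :=
    Finset.prod_ne_zero_iff.1 (right_ne_zero_of_mul hg)
  have hct0 : coeff (Finsupp.single none d) (pol g) ≠ 0 := by
    have := I1_coeff g t0
    change coeff (Finsupp.single none d) (pol g) = g t0 at this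
    rw [this]
    exact hg0
  have hunit : ∀ G : MvPolynomial (Option (Fin (n + 1))) ℂ, G ≠ 0 →
      IsWeightedHomogeneous (I1_wt n) G 0 → IsUnit G := by
    intro G hG hw
    have h3 : G = C (coeff 0 G) := by
      ext m
      rw [coeff_C]
      by_cases hm : 0 = m
      · rw [if_pos hm, hm]
      · rw [if_neg hm]
        by_contra h4
        have h5 := hw h4
        rw [I1_weight] at h5
        apply hm
        ext x
        rcases x with _ | i
        · have : m none = 0 := by omega
          rw [this]; rfl
        · have h6 : ∑ i, m (some i) = 0 := by omega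
          have h7 := (Finset.sum_eq_zero_iff.1 h6) i (Finset.mem_univ i)
          rw [h7]; rfl
    rw [h3]
    have h8 : coeff 0 G ≠ 0 := by
      intro h9
      rw [h9, C_0] at h3
      exact hG h3
    exact (isUnit_iff_ne_zero.2 h8).map C
  rw [irreducible_iff]
  constructor
  · intro hu
    have h3 := hu.map (constantCoeff : MvPolynomial (Option (Fin (n + 1))) ℂ →+* ℂ)
    have h4 : constantCoeff (pol g) = 0 := by
      rw [constantCoeff_eq]
      apply I1_coeff_not
      simp
      omega
    rw [h4] at h3
    exact not_isUnit_zero h3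
  · intro G H hGH
    have hG0 : G ≠ 0 := by
      rintro rfl
      rw [hGH, zero_mul] at hct0
      exact hct0 (coeff_zero _)
    have hH0 : H ≠ 0 := by
      rintro rfl
      rw [hGH, mul_zero] at hct0
      exact hct0 (coeff_zero _)
    have hw := I1_hom n d g
    rw [hGH] at hw
    obtain ⟨i, j, hij, hGi, hHj⟩ := h2 _ (I1_wt n) G H (2 * d) hG0 hH0 hw
    have h3 := hct0
    rw [hGH, coeff_mul] at h3
    obtain ⟨x, hx, hx0⟩ := Finset.exists_ne_zero_of_sum_ne_zero h3
    rw [Finset.HasAntidiagonal.mem_antidiagonal] at hx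
    have hx1 := hGi (left_ne_zero_of_mul hx0)
    have hx2 := hHj (right_ne_zero_of_mul hx0)
    rw [I1_weight] at hx1 hx2
    have hxn := DFunLike.congr_fun hx none
    rw [Finsupp.add_apply, Finsupp.single_eq_same] at hxn
    have hxs : ∀ k, x.1 (some k) = 0 ∧ x.2 (some k) = 0 := by
      intro k
      have h4 := DFunLike.congr_fun hx (some k)
      rw [Finsupp.add_apply] at h4
      have h5 : (Finsupp.single none d : Option (Fin (n + 1)) →₀ ℕ) (some k) = 0 := by simp
      rw [h5] at h4
      omega
    have hs1 : ∑ k, x.1 (some k) = 0 := Finset.sum_eq_zero (fun k _ => (hxs k).1)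
    have hs2 : ∑ k, x.2 (some k) = 0 := Finset.sum_eq_zero (fun k _ => (hxs k).2)
    rw [hs1, add_zero] at hx1
    rw [hs2, add_zero] at hx2
    by_cases he0 : x.1 none = 0
    · left
      apply hunit G hG0
      rw [he0, mul_zero] at hx1
      rw [← hx1] at hGi
      exact hGi
    · by_cases hed : x.2 none = 0
      · right
        apply hunit H hH0
        rw [hed, mul_zero] at hx2
        rw [← hx2] at hHj
        exact hHj
      · exfalso
        have h6 : x.2 none = d - x.1 none := by omega
        rw [← hx1] at hGi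
        rw [← hx2, h6] at hHj
        have h7 := hΦ (x.1 none) (by omega) (by omega)
          (fun t : T1 n (x.1 none) => coeff t.1 G)
          (fun t : T1 n (d - x.1 none) => coeff t.1 H)
        rw [I1_pol n _ G hGi, I1_pol n _ H hHj, ← hGH] at h7
        have h8 : (fun s : T1 n d => coeff s.1 (pol g)) = g := by
          funext s
          exact I1_coeff g s
        rw [h8] at h7
        exact hgΦ (x.1 none) (Finset.mem_range.2 (by omega)) h7

end Pool.Agent.Lib.MP_e005b4_ag.LD
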