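import Pool.Agent.Lib.MP_e005b4_ag.LD.SpecB

/-!
# Sections of large degree: general bihomogeneous polynomials are irreducible (seat helper25)
-/

set_option autoImplicit false

namespace Pool.Agent.Lib.MP_e005b4_ag.LD

open MvPolynomial Pool.Agent.Lib.MP_e005b4_ag Pool.Agent.Lib.MP_e005b4_ag.GP
open scoped LinearAlgebra.Projectivization

section general

variable {R R' σ : Type} [CommSemiring R] [CommSemiring R'] {T : (σ →₀ ℕ) → Prop}
  [Fintype {t // T t}]

private lemma I2_coeff (g : {t // T t} → R) (t : {t // T t}) : coeff t.1 (pol g) = g t := by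
  classical
  unfold pol
  rw [coeff_sum, Finset.sum_eq_single t]
  · rw [coeff_monomial, if_pos rfl]
  · intro s _ hs
    rw [coeff_monomial, if_neg]
    intro h
    exact hs (Subtype.ext h)
  · intro h
    exact absurd (Finset.mem_univ t) h

private lemma I2_coeff_not (g : {t // T t} → R) (s : σ →₀ ℕ) (h : ¬ T s) :
    coeff s (pol g) = 0 := by
  classical
  unfold pol
  rw [coeff_sum]
  refine Finset.sum_eq_zero fun t _ => ?_
  rw [coeff_monomial, if_neg]
  intro h'
  rw [← h'] at h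
  exact h t.2

private lemma I2_map (f : R →+* R') (g : {t // T t} → R) :
    map f (pol g) = pol fun t => f (g t) := by
  unfold pol
  rw [map_sum]
  refine Finset.sum_congr rfl fun t _ => ?_
  rw [map_monomial]

private lemma I2_eq_pol (P : MvPolynomial σ R) (h : ∀ s, coeff s P ≠ 0 → T s) :
    P = pol (fun t : {t // T t} => coeff t.1 P) := by
  ext s
  by_cases hs : T s
  · exact (I2_coeff (fun t : {t // T t} => coeff t.1 P) ⟨s, hs⟩).symm
  · rw [I2_coeff_not _ s hs]
    by_contra h'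
    exact hs (h s h')

end general

/-! ### Counting exponents -/

private lemma I2_two {m : ℕ} (f : Fin (m + 1) → ℕ) (z o : Fin (m + 1)) (hzo : z ≠ o) (d e : ℕ)
    (he : e ≤ d) (hs : ∑ k, f k = d) (h0 : d - e ≤ f z) (h1 : e ≤ f o) (k : Fin (m + 1)) :
    f k = if k = z then d - e else if k = o then e else 0 := by
  classical
  have h2 : f z + f o ≤ d := by
    rw [← hs, ← Finset.sum_pair hzo]
    exact Finset.sum_le_sum_of_subset (Finset.subset_univ _)
  by_cases hz : k = z
  · rw [if_pos hz, hz]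
    omega
  · rw [if_neg hz]
    by_cases ho : k = o
    · rw [if_pos ho, ho]
      omega
    · rw [if_neg ho]
      have h3 : f k + (f z + f o) ≤ d := by
        rw [← hs, ← Finset.sum_pair hzo, ← Finset.sum_insert (s := {z, o}) (a := k) (by
          rw [Finset.mem_insert, Finset.mem_singleton]
          rintro (h | h)
          · exact hz h
          · exact ho h)]
        exact Finset.sum_le_sum_of_subset (Finset.subset_univ _)
      omega

variable {a b : ℕ}

/-- the exponent with given `u`-part and `v`-part on two places -/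
private noncomputable def I2_sh (z : Fin (a + 1)) (z' : Fin (b + 1)) (m m' : ℕ) :
    Fin (a + 1) ⊕ Fin (b + 1) →₀ ℕ :=
  Finsupp.single (Sum.inl z) m + Finsupp.single (Sum.inr z') m'

private lemma I2_sh_inl (z : Fin (a + 1)) (z' : Fin (b + 1)) (m m' : ℕ) (k : Fin (a + 1)) :
    I2_sh z z' m m' (Sum.inl k) = if k = z then m else 0 := by
  unfold I2_sh
  rw [Finsupp.add_apply, Finsupp.single_apply, Finsupp.single_apply,
    if_neg (show ¬ (Sum.inr z' : Fin (a + 1) ⊕ Fin (b + 1)) = Sum.inl k from Sum.inr_ne_inl),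
    add_zero]
  by_cases h : k = z
  · rw [if_pos h, if_pos (by rw [h])]
  · rw [if_neg h, if_neg]
    intro h'
    exact h (Sum.inl.inj h').symm

private lemma I2_sh_inr (z : Fin (a + 1)) (z' : Fin (b + 1)) (m m' : ℕ) (k : Fin (b + 1)) :
    I2_sh z z' m m' (Sum.inr k) = if k = z' then m' else 0 := by
  unfold I2_sh
  rw [Finsupp.add_apply, Finsupp.single_apply, Finsupp.single_apply, if_neg (by simp), zero_add]
  by_cases h : k = z'
  · rw [if_pos h, if_pos (by rw [h])]
  · rw [if_neg h, if_neg]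
    intro h'
    exact h (Sum.inr.inj h').symm

private lemma I2_sum_inl (c : Fin (a + 1) ⊕ Fin (b + 1) →₀ ℕ) (z : Fin (a + 1))
    (z' : Fin (b + 1)) (m m' : ℕ) :
    ∑ i, (c + I2_sh z z' m m') (Sum.inl i) = ∑ i, c (Sum.inl i) + m := by
  simp only [Finsupp.add_apply, I2_sh_inl]
  rw [Finset.sum_add_distrib, Finset.sum_ite_eq' Finset.univ z fun _ => m,
    if_pos (Finset.mem_univ _)]

private lemma I2_sum_inr (c : Fin (a + 1) ⊕ Fin (b + 1) →₀ ℕ) (z : Fin (a + 1))
    (z' : Fin (b + 1)) (m m' : ℕ) :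
    ∑ i, (c + I2_sh z z' m m') (Sum.inr i) = ∑ i, c (Sum.inr i) + m' := by
  simp only [Finsupp.add_apply, I2_sh_inr]
  rw [Finset.sum_add_distrib, Finset.sum_ite_eq' Finset.univ z' fun _ => m',
    if_pos (Finset.mem_univ _)]

/-- shift of exponents -/
private noncomputable def I2_mv {d e e' : ℕ} {f f' : ℕ} (h : f + e = d) (h' : f' + e' = d)
    (z : Fin (a + 1)) (z' : Fin (b + 1)) (c : T2 a b f f') : T2 a b d d :=
  ⟨c.1 + I2_sh z z' e e', by
    constructor
    · rw [I2_sum_inl, c.2.1, h]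
    · rw [I2_sum_inr, c.2.2, h']⟩

private lemma I2_mv_inj {d e e' : ℕ} {f f' : ℕ} (h : f + e = d) (h' : f' + e' = d)
    (z : Fin (a + 1)) (z' : Fin (b + 1)) : Function.Injective (I2_mv h h' z z') := by
  intro c c' hc
  have h1 := congrArg Subtype.val hc
  exact Subtype.ext (add_right_cancel h1)

/-- test exponents -/
private noncomputable def I2_te {d : ℕ} (z o : Fin (a + 1)) (z' o' : Fin (b + 1)) (i j : ℕ)
    (hi : i ≤ d) (hj : j ≤ d) : T2 a b d d :=
  ⟨I2_sh z z' i j + I2_sh o o' (d - i) (d - j), by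
    constructor
    · rw [I2_sum_inl, ← zero_add (I2_sh z z' i j), I2_sum_inl]
      simp only [Finsupp.coe_zero, Pi.zero_apply, Finset.sum_const_zero]
      omega
    · rw [I2_sum_inr, ← zero_add (I2_sh z z' i j), I2_sum_inr]
      simp only [Finsupp.coe_zero, Pi.zero_apply, Finset.sum_const_zero]
      omega⟩

private lemma I2_card {d e e' : ℕ} (ha : 1 ≤ a) (hb : 1 ≤ b) (hd : 2 ≤ d) (he : e ≤ d)
    (he' : e' ≤ d) (h00 : ¬ (e = 0 ∧ e' = 0)) (hdd : ¬ (e = d ∧ e' = d)) :
    Fintype.card (T2 a b e e' ⊕ T2 a b (d - e) (d - e')) < Fintype.card (T2 a b d d) := by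
  classical
  obtain ⟨z, hz⟩ : ∃ z : Fin (a + 1), z = 0 := ⟨_, rfl⟩
  obtain ⟨o, ho⟩ : ∃ o : Fin (a + 1), o = ⟨1, by omega⟩ := ⟨_, rfl⟩
  obtain ⟨z', hz'⟩ : ∃ z : Fin (b + 1), z = 0 := ⟨_, rfl⟩
  obtain ⟨o', ho'⟩ : ∃ o : Fin (b + 1), o = ⟨1, by omega⟩ := ⟨_, rfl⟩
  have hzo : z ≠ o := by
    rw [hz, ho]
    intro h
    have := congrArg Fin.val h
    simp at this
  have hzo' : z' ≠ o' := by
    rw [hz', ho']
    intro h
    have := congrArg Fin.val h
    simp at this
  obtain ⟨A, hA⟩ : ∃ A : Finset (T2 a b d d), A = Finset.univ.image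
      (I2_mv (a := a) (b := b) (f := e) (f' := e') (d := d) (e := d - e) (e' := d - e')
        (by omega) (by omega) z z') := ⟨_, rfl⟩
  obtain ⟨B, hB⟩ : ∃ B : Finset (T2 a b d d), B = Finset.univ.image
      (I2_mv (a := a) (b := b) (f := d - e) (f' := d - e') (d := d) (e := e) (e' := e')
        (by omega) (by omega) o o') := ⟨_, rfl⟩
  have cA : A.card = Fintype.card (T2 a b e e') := by
    rw [hA, Finset.card_image_of_injective _ (I2_mv_inj _ _ _ _), Finset.card_univ]
  have cB : B.card = Fintype.card (T2 a b (d - e) (d - e')) := by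
    rw [hB, Finset.card_image_of_injective _ (I2_mv_inj _ _ _ _), Finset.card_univ]
  have mA : ∀ t ∈ A, d - e ≤ t.1 (Sum.inl z) ∧ d - e' ≤ t.1 (Sum.inr z') := by
    intro t ht
    rw [hA, Finset.mem_image] at ht
    obtain ⟨c, _, rfl⟩ := ht
    unfold I2_mv
    simp only [Finsupp.add_apply, I2_sh_inl, I2_sh_inr, if_true]
    omega
  have mB : ∀ t ∈ B, e ≤ t.1 (Sum.inl o) ∧ e' ≤ t.1 (Sum.inr o') := by
    intro t ht
    rw [hB, Finset.mem_image] at ht
    obtain ⟨c, _, rfl⟩ := ht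
    unfold I2_mv
    simp only [Finsupp.add_apply, I2_sh_inl, I2_sh_inr, if_true]
    omega
  have hAB : (A ∩ B).card ≤ 1 := by
    rw [Finset.card_le_one]
    have key : ∀ t ∈ A ∩ B, (∀ k, t.1 (Sum.inl k) = if k = z then d - e else
        if k = o then e else 0) ∧ ∀ k, t.1 (Sum.inr k) = if k = z' then d - e' else
        if k = o' then e' else 0 := by
      intro t ht
      rw [Finset.mem_inter] at ht
      obtain ⟨x1, x2⟩ := mA t ht.1
      obtain ⟨y1, y2⟩ := mB t ht.2
      exact ⟨fun k => I2_two (fun k => t.1 (Sum.inl k)) z o hzo d e he t.2.1 x1 y1 k,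
        fun k => I2_two (fun k => t.1 (Sum.inr k)) z' o' hzo' d e' he' t.2.2 x2 y2 k⟩
    intro t ht t' ht'
    refine Subtype.ext (Finsupp.ext fun s => ?_)
    rcases s with s | s
    · rw [(key t ht).1, (key t' ht').1]
    · rw [(key t ht).2, (key t' ht').2]
  -- two exponents outside of the union
  have hte : ∀ (i j : ℕ) (hi : i ≤ d) (hj : j ≤ d),
      ((d - e < i ∧ j < d - e') ∨ (i < d - e ∧ d - e' < j)) →
      I2_te z o z' o' i j hi hj ∉ A ∪ B := by
    intro i j hi hj hij hm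
    have v1 : (I2_te z o z' o' i j hi hj).1 (Sum.inl z) = i := by
      unfold I2_te
      simp only [Finsupp.add_apply, I2_sh_inl, if_true]
      rw [if_neg hzo, add_zero]
    have v2 : (I2_te z o z' o' i j hi hj).1 (Sum.inr z') = j := by
      unfold I2_te
      simp only [Finsupp.add_apply, I2_sh_inr, if_true]
      rw [if_neg hzo', add_zero]
    have v3 : (I2_te z o z' o' i j hi hj).1 (Sum.inl o) = d - i := by
      unfold I2_te
      simp only [Finsupp.add_apply, I2_sh_inl, if_true]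
      rw [if_neg hzo.symm, zero_add]
    have v4 : (I2_te z o z' o' i j hi hj).1 (Sum.inr o') = d - j := by
      unfold I2_te
      simp only [Finsupp.add_apply, I2_sh_inr, if_true]
      rw [if_neg hzo'.symm, zero_add]
    rcases Finset.mem_union.1 hm with h | h
    · have := mA _ h
      rw [v1, v2] at this
      omega
    · have := mB _ h
      rw [v3, v4] at this
      omega
  have hne : ∀ (i j i' j' : ℕ) (hi : i ≤ d) (hj : j ≤ d) (hi' : i' ≤ d) (hj' : j' ≤ d),
      (i ≠ i' ∨ j ≠ j') → I2_te z o z' o' i j hi hj ≠ I2_te z o z' o' i' j' hi' hj' := by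
    intro i j i' j' hi hj hi' hj' hij h
    have v1 : ∀ (i j : ℕ) (hi : i ≤ d) (hj : j ≤ d),
        (I2_te z o z' o' i j hi hj).1 (Sum.inl z) = i := by
      intro i j hi hj
      unfold I2_te
      simp only [Finsupp.add_apply, I2_sh_inl, if_true]
      rw [if_neg hzo, add_zero]
    have v2 : ∀ (i j : ℕ) (hi : i ≤ d) (hj : j ≤ d),
        (I2_te z o z' o' i j hi hj).1 (Sum.inr z') = j := by
      intro i j hi hj
      unfold I2_te
      simp only [Finsupp.add_apply, I2_sh_inr, if_true]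
      rw [if_neg hzo', add_zero]
    have e1 : i = i' := by rw [← v1 i j hi hj, h, v1]
    have e2 : j = j' := by rw [← v2 i j hi hj, h, v2]
    rcases hij with h | h
    · exact h e1
    · exact h e2
  have hex : ∃ x y : T2 a b d d, x ≠ y ∧ x ∉ A ∪ B ∧ y ∉ A ∪ B := by
    by_cases c1 : 1 ≤ e ∧ e' < d
    · by_cases c2 : e < d ∧ 1 ≤ e'
      · exact ⟨I2_te z o z' o' d 0 le_rfl (Nat.zero_le _), I2_te z o z' o' 0 d (Nat.zero_le _) le_rfl,
          hne _ _ _ _ _ _ _ _ (by omega), hte _ _ _ _ (by omega), hte _ _ _ _ (by omega)⟩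
      · by_cases c3 : e = d
        · exact ⟨I2_te z o z' o' d 0 le_rfl (Nat.zero_le _),
            I2_te z o z' o' (d - 1) 0 (Nat.sub_le _ _) (Nat.zero_le _),
            hne _ _ _ _ _ _ _ _ (by omega), hte _ _ _ _ (by omega), hte _ _ _ _ (by omega)⟩
        · exact ⟨I2_te z o z' o' d 0 le_rfl (Nat.zero_le _),
            I2_te z o z' o' d 1 le_rfl (by omega),
            hne _ _ _ _ _ _ _ _ (by omega), hte _ _ _ _ (by omega), hte _ _ _ _ (by omega)⟩
    · by_cases c3 : e = 0
      · exact ⟨I2_te z o z' o' 0 d (Nat.zero_le _) le_rfl,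
          I2_te z o z' o' 1 d (by omega) le_rfl,
          hne _ _ _ _ _ _ _ _ (by omega), hte _ _ _ _ (by omega), hte _ _ _ _ (by omega)⟩
      · exact ⟨I2_te z o z' o' 0 d (Nat.zero_le _) le_rfl,
          I2_te z o z' o' 0 (d - 1) (Nat.zero_le _) (Nat.sub_le _ _),
          hne _ _ _ _ _ _ _ _ (by omega), hte _ _ _ _ (by omega), hte _ _ _ _ (by omega)⟩
  obtain ⟨x, y, hxy, hx, hy⟩ := hex
  have h5 : ({x, y} : Finset (T2 a b d d)) ⊆ (A ∪ B)ᶜ := by
    intro t ht
    rw [Finset.mem_insert, Finset.mem_singleton] at ht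
    rw [Finset.mem_compl]
    rcases ht with h | h
    · rw [h]
      exact hx
    · rw [h]
      exact hy
  have h6 := Finset.card_le_card h5
  rw [Finset.card_pair hxy] at h6
  have h7 := Finset.card_add_card_compl (A ∪ B)
  have h8 := Finset.card_union_add_card_inter A B
  rw [Fintype.card_sum]
  omega

/-! ### The theorem -/

private lemma I2_weight {a b : ℕ} (c : Fin (a + 1) ⊕ Fin (b + 1) →₀ ℕ) :
    Finsupp.weight (Sum.elim (fun _ => 1) (fun _ => 0) : Fin (a + 1) ⊕ Fin (b + 1) → ℕ) c =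
      ∑ i, c (Sum.inl i) ∧
    Finsupp.weight (Sum.elim (fun _ => 0) (fun _ => 1) : Fin (a + 1) ⊕ Fin (b + 1) → ℕ) c =
      ∑ j, c (Sum.inr j) := by
  constructor
  · rw [Finsupp.weight_apply, Finsupp.sum_fintype _ _ (fun _ => by simp), Fintype.sum_sum_type]
    simp
  · rw [Finsupp.weight_apply, Finsupp.sum_fintype _ _ (fun _ => by simp), Fintype.sum_sum_type]
    simp

/-- General bihomogeneous polynomials are irreducible. -/
theorem lI2 (h1 : StKM) (h2 : StFw) : StI2 := by
  classical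
  intro a b d ha hb hd
  -- the polynomials for the products
  have hpair : ∀ p : ℕ × ℕ, ∃ Ψ : MvPolynomial (T2 a b d d) ℂ, Ψ ≠ 0 ∧
      (p.1 ≤ d → p.2 ≤ d → ¬ (p.1 = 0 ∧ p.2 = 0) → ¬ (p.1 = d ∧ p.2 = d) →
        ∀ (g : T2 a b p.1 p.2 → ℂ) (h : T2 a b (d - p.1) (d - p.2) → ℂ),
          eval (fun t : T2 a b d d => coeff t.1 (pol g * pol h)) Ψ = 0) := by
    rintro ⟨e, e'⟩
    by_cases hc : e ≤ d ∧ e' ≤ d ∧ ¬ (e = 0 ∧ e' = 0) ∧ ¬ (e = d ∧ e' = d)
    · obtain ⟨he, he', h00, hdd⟩ := hc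
      obtain ⟨Ψ, hΨ, hΨ0⟩ := h1 (T2 a b d d) (T2 a b e e' ⊕ T2 a b (d - e) (d - e'))
        (fun t => coeff t.1
          (pol (fun s : T2 a b e e' => (X (Sum.inl s) :
              MvPolynomial (T2 a b e e' ⊕ T2 a b (d - e) (d - e')) ℂ)) *
            pol (fun s : T2 a b (d - e) (d - e') => (X (Sum.inr s) :
              MvPolynomial (T2 a b e e' ⊕ T2 a b (d - e) (d - e')) ℂ))))
        (I2_card ha hb (by omega) he he' h00 hdd)
      refine ⟨Ψ, hΨ, fun _ _ _ _ g h => ?_⟩
      have h3 := hΨ0 (Sum.elim g h)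
      refine Eq.trans ?_ h3
      refine congrArg (fun F => eval F Ψ) (funext fun t => ?_)
      rw [← coeff_map (eval (Sum.elim g h)), map_mul, I2_map, I2_map]
      simp only [eval_X, Sum.elim_inl, Sum.elim_inr]
    · refine ⟨1, one_ne_zero, fun x1 x2 x3 x4 => absurd ⟨x1, x2, x3, x4⟩ hc⟩
  choose Ψ hΨ hΨ0 using hpair
  obtain ⟨t0, -⟩ : ∃ t : T2 a b d d, t = t :=
    ⟨I2_te (0 : Fin (a + 1)) 0 (0 : Fin (b + 1)) 0 0 0 (Nat.zero_le _) (Nat.zero_le _), rfl⟩
  refine ⟨X t0 * ∏ p ∈ Finset.range (d + 1) ×ˢ Finset.range (d + 1), Ψ p,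
    mul_ne_zero (X_ne_zero _) (Finset.prod_ne_zero_iff.2 fun p _ => hΨ p), ?_⟩
  intro g hg
  rw [map_mul, eval_X, map_prod] at hg
  have hg0 : g t0 ≠ 0 := left_ne_zero_of_mul hg
  have hgp : ∀ p ∈ Finset.range (d + 1) ×ˢ Finset.range (d + 1), eval g (Ψ p) ≠ 0 :=
    Finset.prod_ne_zero_iff.1 (right_ne_zero_of_mul hg)
  have hf0 : pol g ≠ 0 := by
    intro h
    apply hg0
    rw [← I2_coeff g t0, h, coeff_zero]
  have ht0 : t0.1 ≠ 0 := by
    intro h
    have h3 := t0.2.1
    rw [h] at h3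
    simp only [Finsupp.coe_zero, Pi.zero_apply, Finset.sum_const_zero] at h3
    omega
  refine ⟨?_, ?_⟩
  · intro hu
    obtain ⟨c, _, hc⟩ := isUnit_iff_eq_C_of_isReduced.1 hu
    apply hg0
    rw [← I2_coeff g t0, hc, coeff_C, if_neg]
    exact fun h => ht0 h.symm
  · intro G H hGH
    have hG : G ≠ 0 := fun h => hf0 (by rw [hGH, h, zero_mul])
    have hH : H ≠ 0 := fun h => hf0 (by rw [hGH, h, mul_zero])
    have hT : ∀ s, coeff s (pol g) ≠ 0 →
        ∑ i, s (Sum.inl i) = d ∧ ∑ j, s (Sum.inr j) = d := by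
      intro s hs
      by_contra h
      exact hs (I2_coeff_not g s h)
    obtain ⟨i1, j1, hij1, hG1, hH1⟩ := h2 _
      (Sum.elim (fun _ => 1) (fun _ => 0) : Fin (a + 1) ⊕ Fin (b + 1) → ℕ) G H d hG hH (by
        rw [← hGH]
        intro s hs
        rw [(I2_weight s).1]
        exact (hT s hs).1)
    obtain ⟨i2, j2, hij2, hG2, hH2⟩ := h2 _
      (Sum.elim (fun _ => 0) (fun _ => 1) : Fin (a + 1) ⊕ Fin (b + 1) → ℕ) G H d hG hH (by
        rw [← hGH]
        intro s hs
        rw [(I2_weight s).2]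
        exact (hT s hs).2)
    have hGT : ∀ s, coeff s G ≠ 0 → ∑ i, s (Sum.inl i) = i1 ∧ ∑ j, s (Sum.inr j) = i2 := by
      intro s hs
      have x1 := hG1 hs
      have x2 := hG2 hs
      rw [(I2_weight s).1] at x1
      rw [(I2_weight s).2] at x2
      exact ⟨x1, x2⟩
    have hHT : ∀ s, coeff s H ≠ 0 → ∑ i, s (Sum.inl i) = d - i1 ∧
        ∑ j, s (Sum.inr j) = d - i2 := by
      intro s hs
      have x1 := hH1 hs
      have x2 := hH2 hs
      rw [(I2_weight s).1] at x1
      rw [(I2_weight s).2] at x2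
      exact ⟨by omega, by omega⟩
    -- bidegree zero means constant
    have hconst : ∀ F : MvPolynomial (Fin (a + 1) ⊕ Fin (b + 1)) ℂ, F ≠ 0 →
        (∀ s, coeff s F ≠ 0 → ∑ i, s (Sum.inl i) = 0 ∧ ∑ j, s (Sum.inr j) = 0) → IsUnit F := by
      intro F hF hFs
      have h3 : F = C (coeff 0 F) := by
        ext s
        rw [coeff_C]
        by_cases hs : (0 : Fin (a + 1) ⊕ Fin (b + 1) →₀ ℕ) = s
        · rw [if_pos hs, ← hs]
        · rw [if_neg hs]
          by_contra h
          obtain ⟨y1, y2⟩ := hFs s h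
          apply hs
          ext q
          rcases q with q | q
          · exact (Finset.sum_eq_zero_iff.1 y1 q (Finset.mem_univ _)).symm
          · exact (Finset.sum_eq_zero_iff.1 y2 q (Finset.mem_univ _)).symm
      rw [h3]
      refine isUnit_iff_eq_C_of_isReduced.2 ⟨coeff 0 F, ?_, rfl⟩
      refine isUnit_iff_ne_zero.2 fun h => hF ?_
      rw [h3, h, C_0]
    by_cases h00 : i1 = 0 ∧ i2 = 0
    · left
      refine hconst G hG fun s hs => ?_
      obtain ⟨x1, x2⟩ := hGT s hs
      exact ⟨by omega, by omega⟩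
    · by_cases hdd : i1 = d ∧ i2 = d
      · right
        refine hconst H hH fun s hs => ?_
        obtain ⟨x1, x2⟩ := hHT s hs
        exact ⟨by omega, by omega⟩
      · exfalso
        have hr : (i1, i2) ∈ Finset.range (d + 1) ×ˢ Finset.range (d + 1) := by
          rw [Finset.mem_product, Finset.mem_range, Finset.mem_range]
          exact ⟨by omega, by omega⟩
        apply hgp (i1, i2) hr
        have h3 := hΨ0 (i1, i2) (by simp only; omega) (by simp only; omega) h00 hdd
          (fun t => coeff t.1 G) (fun t => coeff t.1 H)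
        refine Eq.trans ?_ h3
        refine congrArg (fun F => eval F (Ψ (i1, i2))) (funext fun t => ?_)
        have e1 : (pol fun t : T2 a b i1 i2 => coeff t.1 G) = G := (I2_eq_pol G hGT).symm
        have e2 : (pol fun t : T2 a b (d - i1) (d - i2) => coeff t.1 H) = H :=
          (I2_eq_pol H hHT).symm
        simp only
        rw [e1, e2, ← hGH, I2_coeff g t]

end Pool.Agent.Lib.MP_e005b4_ag.LD
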