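import Pool.Agent.Lib.MP_e005b4_ag.LD.SpecB

/-!
MP_e005b4_ag, package LD, module KM: fewer parameters than coordinates.
-/

set_option autoImplicit false

namespace Pool.Agent.Lib.MP_e005b4_ag.LD

open MvPolynomial Cardinal

theorem lKM : StKM := by
  intro S θ _ _ ψ hlt
  have hna : ¬ AlgebraicIndependent ℂ ψ := by
    intro h
    have h1 := h.cardinalMk_le_trdeg
    rw [MvPolynomial.trdeg_of_isDomain, Cardinal.lift_id', Cardinal.mk_fintype,
      Cardinal.mk_fintype, Nat.cast_le] at h1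
    omega
  rw [algebraicIndependent_iff] at hna
  push Not at hna
  obtain ⟨Φ, h0, hΦ⟩ := hna
  refine ⟨Φ, hΦ, fun t => ?_⟩
  have h1 := congrArg (eval t) h0
  rw [map_zero] at h1
  rw [← h1]
  have h2 : (eval fun s => eval t (ψ s)) = (eval t).comp (aeval ψ : MvPolynomial S ℂ →ₐ[ℂ] _).toRingHom := by
    refine MvPolynomial.ringHom_ext (fun r => ?_) (fun i => ?_)
    · simp
    · simp
  exact DFunLike.congr_fun h2 Φ

end Pool.Agent.Lib.MP_e005b4_ag.LD
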