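import Pool.Agent.Lib.MP_e005b4_ag.LD.Spec

/-!
# Sections of large degree: lines over `L`
-/

set_option autoImplicit false

namespace Pool.Agent.Lib.MP_e005b4_ag.LD

open MvPolynomial Pool.Agent.Lib.MP_e005b4_ag Pool.Agent.Lib.MP_e005b4_ag.GP
open scoped LinearAlgebra.Projectivization

/-- The polynomial of the index `i`. -/
private noncomputable def LL_P {R : Type} [CommRing R] {N : ℕ} (e : ℕ) (M0 : R) (M : Fin N × Bool → R)
    (i : Fin N) : R :=
  M0 ^ e * ∑ b : Bool, M (i, b) * ∏ t ∈ Finset.univ.erase (i, b), M t ^ 2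

private theorem LL_sq {τ L : Type} [CommRing L] (z : τ → L) (A B : MvPolynomial τ L)
    (h : eval z A = 0) : eval z (A ^ 2 * B) = 0 ∧ ∀ k, eval z (pderiv k (A ^ 2 * B)) = 0 := by
  refine ⟨by rw [map_mul, map_pow, h]; ring, fun k => ?_⟩
  rw [pow_two, pderiv_mul, pderiv_mul]
  simp only [map_add, map_mul, h]
  ring

private theorem LL_one {τ L : Type} [CommRing L] (z : τ → L) (A B : MvPolynomial τ L)
    (h : eval z A = 0) (k : τ) : eval z (pderiv k (A * B)) = eval z (pderiv k A) * eval z B := by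
  rw [pderiv_mul]
  simp only [map_add, map_mul, h]
  ring

/-- a factor `M t ^ 2` for `t.1 ≠ j` -/
private theorem LL_van {τ L : Type} [CommRing L] {N : ℕ} (e : ℕ) (z : τ → L) (M0 : MvPolynomial τ L)
    (M : Fin N × Bool → MvPolynomial τ L) (j : Fin N) (t : Fin N × Bool) (ht : t.1 ≠ j)
    (h : eval z (M t) = 0) :
    eval z (LL_P e M0 M j) = 0 ∧ ∀ k, eval z (pderiv k (LL_P e M0 M j)) = 0 := by
  have h1 : ∀ b : Bool, ∏ t' ∈ Finset.univ.erase (j, b), M t' ^ 2 =
      M t ^ 2 * ∏ t' ∈ (Finset.univ.erase (j, b)).erase t, M t' ^ 2 := by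
    intro b
    refine (Finset.mul_prod_erase _ (fun t => M t ^ 2) ?_).symm
    rw [Finset.mem_erase]
    refine ⟨fun h2 => ht ?_, Finset.mem_univ _⟩
    rw [h2]
  have h2 : LL_P e M0 M j = M t ^ 2 * (M0 ^ e * ∑ b : Bool, M (j, b) *
      ∏ t' ∈ (Finset.univ.erase (j, b)).erase t, M t' ^ 2) := by
    unfold LL_P
    simp only [h1, Fintype.sum_bool]
    ring
  rw [h2]
  exact LL_sq z _ _ h

/-- the factor `M (i, b)` -/
private theorem LL_der {τ L : Type} [CommRing L] {N : ℕ} (e : ℕ) (z : τ → L) (M0 : MvPolynomial τ L)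
    (M : Fin N × Bool → MvPolynomial τ L) (i : Fin N) (b : Bool) (h : eval z (M (i, b)) = 0) :
    eval z (LL_P e M0 M i) = 0 ∧ ∀ k, eval z (pderiv k (LL_P e M0 M i)) =
      eval z (pderiv k (M (i, b))) *
        (eval z M0 ^ e * ∏ t ∈ Finset.univ.erase (i, b), eval z (M t) ^ 2) := by
  have h1 : ∏ t' ∈ Finset.univ.erase (i, !b), M t' ^ 2 =
      M (i, b) ^ 2 * ∏ t' ∈ (Finset.univ.erase (i, !b)).erase (i, b), M t' ^ 2 := by
    refine (Finset.mul_prod_erase _ (fun t => M t ^ 2) ?_).symm
    rw [Finset.mem_erase]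
    refine ⟨fun h2 => ?_, Finset.mem_univ _⟩
    have := congrArg Prod.snd h2
    cases b <;> simp at this
  have h2 : LL_P e M0 M i = M (i, b) * (M0 ^ e * ∏ t ∈ Finset.univ.erase (i, b), M t ^ 2) +
      M (i, b) ^ 2 * (M0 ^ e * (M (i, !b) *
        ∏ t' ∈ (Finset.univ.erase (i, !b)).erase (i, b), M t' ^ 2)) := by
    unfold LL_P
    have h3 : ∀ f : Bool → MvPolynomial τ L, ∑ b' : Bool, f b' = f b + f (!b) := by
      intro f
      rw [Fintype.sum_bool]
      cases b
      · rw [Bool.not_false, add_comm]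
      · rw [Bool.not_true]
    rw [h3, h1]
    ring
  obtain ⟨g1, g2⟩ := LL_sq z (M (i, b)) (M0 ^ e * (M (i, !b) *
        ∏ t' ∈ (Finset.univ.erase (i, !b)).erase (i, b), M t' ^ 2)) h
  refine ⟨?_, fun k => ?_⟩
  · rw [h2, map_add, g1, map_mul, h]
    ring
  · rw [h2, map_add, map_add, g2, LL_one z _ _ h]
    simp only [map_mul, map_pow, map_prod, add_zero]

/-- the coefficients of a form determine its values -/
private theorem LL_ev {L A ι : Type} [Field L] [CommRing A] [Algebra L A] [Fintype ι] {d : ℕ}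
    (P : MvPolynomial ι L) (hP : P.IsHomogeneous d) (x : ι → A) :
    ev (fun a : Ex ι d => algebraMap L A (coeff a.1 P)) x = aeval x P := by
  classical
  rw [aeval_def, eval₂_eq']
  unfold ev
  have h1 : ∀ a ∈ P.support, a.degree = d := by
    intro a ha
    have h2 := hP (mem_support_iff.1 ha)
    rw [Finsupp.degree_eq_weight_one]
    exact h2
  have h3 : ∑ a : Ex ι d, algebraMap L A (coeff a.1 P) * ∏ i, x i ^ (a.1 i) =
      ∑ a ∈ (Finset.univ : Finset (Ex ι d)).map ⟨Subtype.val, Subtype.val_injective⟩,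
        algebraMap L A (coeff a P) * ∏ i, x i ^ (a i) := by
    rw [Finset.sum_map]
    rfl
  rw [h3]
  symm
  apply Finset.sum_subset
  · intro a ha
    rw [Finset.mem_map]
    exact ⟨⟨a, h1 a ha⟩, Finset.mem_univ _, rfl⟩
  · intro a _ ha
    rw [notMem_support_iff.1 ha, map_zero, zero_mul]

/-- the parameters -/
private noncomputable def LL_s {L : Type} [Field L] {N : ℕ} (t : Fin N × Bool) : L :=
  bif t.2 then ((t.1 : ℕ) + 1 : L) else -((t.1 : ℕ) + 1 : L)

private theorem LL_s_inj {L : Type} [Field L] [CharZero L] {N : ℕ} (t t' : Fin N × Bool)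
    (h : LL_s (L := L) t = LL_s t') : t = t' := by
  obtain ⟨i, b⟩ := t
  obtain ⟨j, b'⟩ := t'
  unfold LL_s at h
  cases b <;> cases b' <;> simp only [cond_true, cond_false] at h
  · have h1 : ((i : ℕ) : L) = ((j : ℕ) : L) := by
      have := neg_injective h
      exact add_right_cancel this
    have h2 : (i : ℕ) = (j : ℕ) := by exact_mod_cast h1
    rw [Fin.ext h2]
  · exfalso
    have h1 : (((i : ℕ) + 1 + ((j : ℕ) + 1) : ℕ) : L) = 0 := by
      push_cast
      rw [← h]
      ring
    have h2 : (i : ℕ) + 1 + ((j : ℕ) + 1) = 0 := by exact_mod_cast h1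
    omega
  · exfalso
    have h1 : (((i : ℕ) + 1 + ((j : ℕ) + 1) : ℕ) : L) = 0 := by
      push_cast
      rw [h]
      ring
    have h2 : (i : ℕ) + 1 + ((j : ℕ) + 1) = 0 := by exact_mod_cast h1
    omega
  · have h1 : ((i : ℕ) : L) = ((j : ℕ) : L) := add_right_cancel h
    have h2 : (i : ℕ) = (j : ℕ) := by exact_mod_cast h1
    rw [Fin.ext h2]

/-- the linear polynomial of a linear form -/
private noncomputable def LL_lin {L ι : Type} [Field L] [Fintype ι] (l : ι → L) : MvPolynomial ι L :=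
  ∑ i, C (l i) * X i

private theorem LL_lin_hom {L ι : Type} [Field L] [Fintype ι] (l : ι → L) :
    (LL_lin l).IsHomogeneous 1 := by
  unfold LL_lin
  apply IsHomogeneous.sum
  intro i _
  have := (isHomogeneous_C ι (l i)).mul (isHomogeneous_X L i)
  rwa [zero_add] at this

private theorem LL_lin_aeval {L A ι : Type} [Field L] [CommRing A] [Algebra L A] [Fintype ι]
    (l : ι → L) (x : ι → A) : aeval x (LL_lin l) = ∑ i, algebraMap L A (l i) * x i := by
  unfold LL_lin
  rw [map_sum]
  apply Finset.sum_congr rfl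
  intro i _
  rw [map_mul, aeval_C, aeval_X]

private theorem LL_dual {L ι : Type} [Field L] [Fintype ι] (p a : ι → L)
    (h : LinearIndependent L ![p, a]) : ∃ l0 l1 : ι → L, ∑ i, l0 i * p i = 1 ∧ ∑ i, l0 i * a i = 0 ∧
      ∑ i, l1 i * p i = 0 ∧ ∑ i, l1 i * a i = 1 := by
  classical
  obtain ⟨g, hg⟩ := LinearMap.exists_leftInverse_of_injective
    (Fintype.linearCombination L ![p, a])
    (LinearMap.ker_eq_bot.2 (linearIndependent_iff_injective_fintypeLinearCombination.1 h))
  have hp : g p = Pi.single 0 1 := by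
    have := LinearMap.congr_fun hg (Pi.single 0 1)
    rw [LinearMap.comp_apply, Fintype.linearCombination_apply_single] at this
    simpa using this
  have ha : g a = Pi.single 1 1 := by
    have := LinearMap.congr_fun hg (Pi.single 1 1)
    rw [LinearMap.comp_apply, Fintype.linearCombination_apply_single] at this
    simpa using this
  have hs : ∀ (x : ι → L) (r : Fin 2), ∑ i, g (Pi.single i 1) r * x i = g x r := by
    intro x r
    rw [LinearMap.pi_apply_eq_sum_univ g x, Finset.sum_apply]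
    apply Finset.sum_congr rfl
    intro i _
    rw [Pi.smul_apply, smul_eq_mul, mul_comm]
    have e1 : (Pi.single i 1 : ι → L) = fun j => if i = j then 1 else 0 := by
      funext j
      rw [Pi.single_apply]
      simp only [eq_comm]
    rw [e1]
  refine ⟨fun i => g (Pi.single i 1) 0, fun i => g (Pi.single i 1) 1, ?_, ?_, ?_, ?_⟩
  · rw [hs, hp]; simp
  · rw [hs, ha]; simp
  · rw [hs, hp]; simp
  · rw [hs, ha]; simp

private theorem LL_aeval_P {L R ι : Type} [Field L] [CommRing R] [Algebra L R] {N : ℕ} (e : ℕ)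
    (M0 : MvPolynomial ι L) (M : Fin N × Bool → MvPolynomial ι L) (i : Fin N) (x : ι → R) :
    aeval x (LL_P e M0 M i) = LL_P e (aeval x M0) (fun t => aeval x (M t)) i := by
  unfold LL_P
  simp only [map_mul, map_pow, map_sum, map_prod]

private theorem LL_comb {L τ ι : Type} [Field L] [Fintype ι] (l p a : ι → L) (u w : MvPolynomial τ L) :
    aeval (fun i => u * C (p i) + w * C (a i)) (LL_lin l) =
      u * C (∑ i, l i * p i) + w * C (∑ i, l i * a i) := by
  rw [LL_lin_aeval, map_sum, map_sum, Finset.mul_sum, Finset.mul_sum, ← Finset.sum_add_distrib]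
  apply Finset.sum_congr rfl
  intro i _
  rw [MvPolynomial.algebraMap_eq, C_mul, C_mul]
  ring

/-- values and gradients at the point -/
private theorem LL_grad {L τ : Type} [Field L] [CharZero L] {N : ℕ} (e : ℕ) (z : τ → L)
    (u w : MvPolynomial τ L) (i : Fin N) (b : Bool) (hu : eval z u = 1) (hw : eval z w = LL_s (i, b)) :
    (∀ j, eval z (LL_P e u (fun t : Fin N × Bool => w - C (LL_s t) * u) j) = 0) ∧
    (∀ j, i ≠ j → ∀ k, eval z (pderiv k (LL_P e u (fun t : Fin N × Bool => w - C (LL_s t) * u) j)) = 0) ∧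
    ∃ K : L, K ≠ 0 ∧ ∀ k, eval z (pderiv k (LL_P e u (fun t : Fin N × Bool => w - C (LL_s t) * u) i)) =
      (eval z (pderiv k w) - LL_s (i, b) * eval z (pderiv k u)) * K := by
  have hM : ∀ t : Fin N × Bool, eval z (w - C (LL_s t) * u) = LL_s (i, b) - LL_s t := by
    intro t
    rw [map_sub, map_mul, eval_C, hu, hw, mul_one]
  have h0 : eval z ((fun t : Fin N × Bool => w - C (LL_s t) * u) (i, b)) = 0 := by
    rw [hM, sub_self]
  have hj : ∀ j, i ≠ j → _ := fun j hij =>
    LL_van e z u (fun t : Fin N × Bool => w - C (LL_s t) * u) j (i, b) hij h0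
  obtain ⟨g1, g2⟩ := LL_der e z u (fun t : Fin N × Bool => w - C (LL_s t) * u) i b h0
  refine ⟨fun j => ?_, fun j hij => (hj j hij).2, ?_⟩
  · by_cases hij : i = j
    · rw [← hij]
      exact g1
    · exact (hj j hij).1
  · refine ⟨eval z u ^ e * ∏ t ∈ Finset.univ.erase (i, b), eval z (w - C (LL_s t) * u) ^ 2, ?_,
      fun k => (g2 k).trans ?_⟩
    · rw [hu, one_pow, one_mul]
      apply Finset.prod_ne_zero_iff.2
      intro t ht
      rw [hM]
      apply pow_ne_zero
      intro h
      exact (Finset.mem_erase.1 ht).1 (LL_s_inj _ _ (sub_eq_zero.1 h)).symm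
    · congr 1
      rw [map_sub, map_sub, pderiv_mul, pderiv_C, zero_mul, zero_add, map_mul, eval_C]

theorem lLL (h1 : StCo) : StLL := by
  intro L Ω ι _ _ _ _ _ _ _ d v c hc hd p a hpa
  classical
  obtain ⟨l0, l1, e1, e2, e3, e4⟩ := LL_dual p a hpa
  have hs : ∀ (t : Fin (v + 1) × Bool) (q : ι → L), ∑ i, (l1 i - LL_s t * l0 i) * q i =
      ∑ i, l1 i * q i - LL_s t * ∑ i, l0 i * q i := by
    intro t q
    rw [Finset.mul_sum, ← Finset.sum_sub_distrib]
    apply Finset.sum_congr rfl
    intro i _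
    ring
  set P : Fin (v + 1) → MvPolynomial ι L := fun i => LL_P (d - (4 * v + 3)) (LL_lin l0)
    (fun t => LL_lin (fun i => l1 i - LL_s t * l0 i)) i with hPdef
  have hP : ∀ i, (P i).IsHomogeneous d := by
    intro i
    have h2 : ∀ b : Bool, (LL_lin (fun k => l1 k - LL_s (L := L) (i, b) * l0 k) *
        ∏ t ∈ Finset.univ.erase ((i, b) : Fin (v + 1) × Bool),
          LL_lin (fun k => l1 k - LL_s t * l0 k) ^ 2).IsHomogeneous (1 + (2 * (v + 1) * 2 - 2)) := by
      intro b
      refine (LL_lin_hom _).mul ?_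
      have h3 := IsHomogeneous.prod (Finset.univ.erase ((i, b) : Fin (v + 1) × Bool))
        (fun t => LL_lin (fun k => l1 k - LL_s (L := L) t * l0 k) ^ 2) (fun _ => 1 * 2)
        (fun t _ => (LL_lin_hom _).pow 2)
      have h4 : ∑ _t ∈ Finset.univ.erase ((i, b) : Fin (v + 1) × Bool), 1 * 2 =
          2 * (v + 1) * 2 - 2 := by
        rw [Finset.sum_const, Finset.card_erase_of_mem (Finset.mem_univ _), Finset.card_univ,
          Fintype.card_prod, Fintype.card_fin, Fintype.card_bool]
        simp only [smul_eq_mul, one_mul]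
        omega
      rwa [h4] at h3
    have h5 : (P i).IsHomogeneous (1 * (d - (4 * v + 3)) + (1 + (2 * (v + 1) * 2 - 2))) := by
      refine ((LL_lin_hom l0).pow _).mul (IsHomogeneous.sum _ _ _ fun b _ => ?_)
      exact h2 b
    have h6 : 1 * (d - (4 * v + 3)) + (1 + (2 * (v + 1) * 2 - 2)) = d := by omega
    rwa [h6] at h5
  set G : Fin (v + 1) → Ex ι d → L := fun i b => coeff b.1 (P i) with hG
  have hval : ∀ (u w : MvPolynomial (Empty ⊕ Bool) L) (i : Fin (v + 1)),
      ev (fun b => C (G i b)) (fun k => u * C (p k) + w * C (a k)) =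
        LL_P (d - (4 * v + 3)) u (fun t => w - C (LL_s t) * u) i := by
    intro u w i
    have h2 := LL_ev (P i) (hP i) (fun k => u * C (p k) + w * C (a k) : ι → MvPolynomial (Empty ⊕ Bool) L)
    rw [MvPolynomial.algebraMap_eq] at h2
    refine h2.trans ?_
    rw [hPdef]
    simp only
    rw [LL_aeval_P]
    congr 1
    · rw [LL_comb, e1, e2, C_1, C_0]
      ring
    · funext t
      rw [LL_comb, hs, hs, e1, e2, e3, e4]
      simp only [zero_sub, mul_one, mul_zero, sub_zero, C_neg, C_1]
      ring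
  set X0 : MvPolynomial (Empty ⊕ Bool) L := X (Sum.inr false) with hX0
  set X1 : MvPolynomial (Empty ⊕ Bool) L := X (Sum.inr true) with hX1
  set x : ι → MvPolynomial (Empty ⊕ Bool) L := fun k => (1 + X0) * C (p k) + X1 * C (a k) with hx
  set y : ι → MvPolynomial (Empty ⊕ Bool) L := fun k => (1 - X0) * C (p k) + -X1 * C (a k) with hy
  set z : Fin (v + 1) → Empty ⊕ Bool → L := fun i => Sum.elim (fun _ => 0)
    (fun b => bif b then LL_s (i, true) else 0) with hz
  have z0 : ∀ i, eval (z i) X0 = 0 := by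
    intro i
    rw [hX0, eval_X]
    rfl
  have z1 : ∀ i, eval (z i) X1 = LL_s (i, true) := by
    intro i
    rw [hX1, eval_X]
    rfl
  have hneg : ∀ i : Fin (v + 1), LL_s (L := L) (i, false) = -LL_s (i, true) := fun i => rfl
  have gx := fun i : Fin (v + 1) => LL_grad (d - (4 * v + 3)) (z i) (1 + X0) X1 i true
    (by rw [map_add, map_one, z0, add_zero]) (z1 i)
  have gy := fun i : Fin (v + 1) => LL_grad (d - (4 * v + 3)) (z i) (1 - X0) (-X1) i false
    (by rw [map_sub, map_one, z0, sub_zero]) (by rw [map_neg, z1, hneg])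
  have d00 : pderiv (Sum.inr false) X0 = 1 := by rw [hX0, pderiv_X_self]
  have d01 : pderiv (Sum.inr true) X0 = 0 := by
    rw [hX0, pderiv_X_of_ne]
    simp
  have d10 : pderiv (Sum.inr false) X1 = 0 := by
    rw [hX1, pderiv_X_of_ne]
    simp
  have d11 : pderiv (Sum.inr true) X1 = 1 := by rw [hX1, pderiv_X_self]
  obtain ⟨ξ, -, r1, r2⟩ := h1 L Ω ι Empty d v (v + 1) c (fun k => k.elim) x y G z hc (Nat.lt_succ_self v)
    (fun _ k => k.elim)
    (fun i j => by rw [hx, hval]; exact (gx i).1 j)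
    (fun i j => by rw [hy, hval]; exact (gy i).1 j)
    (fun i j hij k => by rw [hx, hval]; exact (gx i).2.1 j hij k)
    (fun i j hij k => by rw [hy, hval]; exact (gy i).2.1 j hij k)
    (fun i => by
      obtain ⟨K, hK, k1⟩ := (gx i).2.2
      obtain ⟨K', hK', k2⟩ := (gy i).2.2
      set ee : Fin 2 ≃ Empty ⊕ Bool := finTwoEquiv.trans (Equiv.emptySum Empty Bool).symm with hee
      rw [← Matrix.det_submatrix_equiv_self ee, Matrix.det_fin_two]
      have q0 : ee 0 = Sum.inr false := rfl
      have q1 : ee 1 = Sum.inr true := rfl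
      simp only [Matrix.submatrix_apply, q0, q1, jac, Matrix.of_apply, sy, Sum.elim_inr, cond_true, cond_false]
      rw [hx, hy, hval, hval, k1, k1, k2, k2]
      simp only [map_add, map_sub, map_neg, map_one, Derivation.map_one_eq_zero, d00, d01, d10, d11, map_zero, hneg]
      have hs0 : LL_s (L := L) (i, true) ≠ 0 := by
        intro h
        have h3 : LL_s (L := L) (i, true) = LL_s (i, false) := by rw [hneg, h, neg_zero]
        have h4 := congrArg Prod.snd (LL_s_inj _ _ h3)
        exact absurd h4 (by simp)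
      have h2 : (2 : L) ≠ 0 := two_ne_zero
      intro h
      apply mul_ne_zero (mul_ne_zero h2 hs0) (mul_ne_zero hK hK')
      linear_combination -h)
  refine ⟨ξ (Sum.inr false), ξ (Sum.inr true), ?_, ?_⟩
  · rw [← r1]
    congr 1
    funext k
    simp only [hx, hX0, hX1, map_add, map_mul, map_one, aeval_X, aeval_C]
  · rw [← r2]
    congr 1
    funext k
    simp only [hy, hX0, hX1, map_add, map_sub, map_neg, map_mul, map_one, aeval_X, aeval_C]
    ring

end Pool.Agent.Lib.MP_e005b4_ag.LD
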