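import Pool.Agent.Lib.MP_e005b4_ag.LD.Spec

/-!
# Ultrapower argument for lines
-/

set_option autoImplicit false

namespace Pool.Agent.Lib.MP_e005b4_ag.LD

open MvPolynomial Pool.Agent.Lib.MP_e005b4_ag Pool.Agent.Lib.MP_e005b4_ag.GP
open scoped LinearAlgebra.Projectivization

/-- Dual linear forms of a linearly independent family. -/
private lemma Ld_dual {K ι : Type} [Field K] [Fintype ι] {n : ℕ} (v : Fin n → ι → K)
    (hv : LinearIndependent K v) :
    ∃ l : Fin n → ι → K, ∀ r t, ∑ k, l r k * v t k = if r = t then 1 else 0 := by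
  classical
  have hinj : LinearMap.ker (Fintype.linearCombination K v) = ⊥ := by
    rw [LinearMap.ker_eq_bot]
    exact linearIndependent_iff_injective_fintypeLinearCombination.mp hv
  obtain ⟨f, hf⟩ := LinearMap.exists_leftInverse_of_injective _ hinj
  refine ⟨fun r k => f (Pi.single k 1) r, fun r t => ?_⟩
  have h1 : f (v t) = Pi.single t 1 := by
    have h2 := LinearMap.congr_fun hf (Pi.single t 1)
    rw [LinearMap.comp_apply, Fintype.linearCombination_apply_single, one_smul] at h2
    exact h2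
  have h3 : v t = ∑ k, v t k • (Pi.single k (1 : K) : ι → K) := by
    ext j
    simp [Finset.sum_apply, Pi.single_apply]
  calc ∑ k, f (Pi.single k 1) r * v t k = (∑ k, v t k • f (Pi.single k 1)) r := by
        rw [Finset.sum_apply]
        exact Finset.sum_congr rfl fun k _ => by rw [Pi.smul_apply, smul_eq_mul, mul_comm]
    _ = f (v t) r := by
        conv_rhs => rw [h3]
        rw [map_sum]
        simp only [map_smul]
    _ = if r = t then 1 else 0 := by
        rw [h1, Pi.single_apply]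

/-- Linear independence from dual forms over an extension field. -/
private lemma Ld_indep {L Ω ι : Type} [Field L] [Field Ω] [Algebra L Ω] [Fintype ι] {n : ℕ}
    (v : Fin n → ι → L) (l : Fin n → ι → Ω)
    (h : ∀ r t, ∑ k, l r k * algebraMap L Ω (v t k) = if r = t then 1 else 0) :
    LinearIndependent L v := by
  rw [Fintype.linearIndependent_iff]
  intro g hg r
  have h1 : ∀ k, ∑ t, g t * v t k = 0 := by
    intro k
    have := congrFun hg k
    simpa [Finset.sum_apply] using this
  have h2 : ∑ k, l r k * algebraMap L Ω (∑ t, g t * v t k) = algebraMap L Ω (g r) := by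
    calc ∑ k, l r k * algebraMap L Ω (∑ t, g t * v t k)
        = ∑ k, ∑ t, algebraMap L Ω (g t) * (l r k * algebraMap L Ω (v t k)) := by
          refine Finset.sum_congr rfl fun k _ => ?_
          rw [map_sum, Finset.mul_sum]
          refine Finset.sum_congr rfl fun t _ => ?_
          rw [map_mul]; ring
      _ = ∑ t, algebraMap L Ω (g t) * ∑ k, l r k * algebraMap L Ω (v t k) := by
          rw [Finset.sum_comm]
          refine Finset.sum_congr rfl fun t _ => ?_
          rw [Finset.mul_sum]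
      _ = algebraMap L Ω (g r) := by
          simp only [h]
          simp
  have h3 : algebraMap L Ω (g r) = 0 := by
    rw [← h2]
    simp [h1]
  exact (map_eq_zero_iff _ (algebraMap L Ω).injective).mp h3

/-- Evaluation commutes with the ultraproduct map. -/
private lemma Ld_ev {I ι Ω : Type} [Fintype ι] [Field Ω] [Algebra ℂ Ω] {d : ℕ}
    (ρ : (I → ℂ) →ₐ[ℂ] Ω) (c : I → Ex ι d → ℂ) (X : I → ι → ℂ) :
    ρ (fun i => ev (c i) (X i)) = ev (fun b => ρ fun i => c i b) (fun k => ρ fun i => X i k) := by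
  have h1 : (fun i => ev (c i) (X i)) =
      ∑ b : Ex ι d, (fun i => c i b) * ∏ k, (fun i => X i k) ^ (b.1 k) := by
    ext i
    simp [ev, Finset.sum_apply, Finset.prod_apply]
  rw [h1]
  simp only [ev, map_sum, map_mul, map_prod, map_pow]

theorem lLd (h1 : StUp) (h2 : StUl) (h3 : StTr) (h4 : StLL) : StLd := by
  classical
  intro ι _ d hd
  by_contra hcon
  have hP0 : ∀ Φ : MvPolynomial (Ex ι d) ℂ, Φ ≠ 0 → ∃ c, eval c Φ ≠ 0 ∧
      ∃ p a : ι → ℂ, LinearIndependent ℂ ![p, a] ∧ ∀ ξ0 ξ1 : ℂ,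
        ev c ((1 + ξ0) • p + ξ1 • a) = 0 → ev c ((1 - ξ0) • p - ξ1 • a) ≠ 0 := by
    intro Φ hΦ
    by_contra h
    apply hcon
    refine ⟨Φ, hΦ, fun c hc p a hpa => ?_⟩
    by_contra h'
    apply h
    refine ⟨c, hc, p, a, hpa, fun ξ0 ξ1 hx hy => h' ⟨ξ0, ξ1, hx, hy⟩⟩
  obtain ⟨I, 𝒰, c, hP, hΦ⟩ := h1 (Ex ι d) _ hP0
  obtain ⟨Ω, _, _, _, ρ, hρs, hρ0⟩ := h2 I 𝒰
  choose p a hlin hno using hP
  choose l hl using fun i => Ld_dual _ (hlin i)
  set cs : Ex ι d → Ω := fun b => ρ fun i => c i b with hcs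
  have halg : AlgebraicIndependent ℂ cs := by
    rw [algebraicIndependent_iff]
    intro Φ h0
    by_contra hne
    have e1 : aeval cs Φ = ρ (fun i => eval (c i) Φ) := by
      have e2 : (fun i => eval (c i) Φ) = aeval (fun b : Ex ι d => fun i => c i b) Φ := by
        ext i
        have e3 := MvPolynomial.comp_aeval_apply (fun b : Ex ι d => fun i => c i b)
          (Pi.evalAlgHom ℂ (fun _ : I => ℂ) i) Φ
        simp only [Pi.evalAlgHom_apply] at e3
        rw [e3, MvPolynomial.aeval_eq_eval]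
      rw [e2]
      exact (MvPolynomial.comp_aeval_apply _ ρ Φ).symm
    rw [e1, hρ0] at h0
    obtain ⟨i, hi1, hi2⟩ := (h0.and (hΦ Φ hne)).exists
    exact hi2 hi1
  -- the vectors over Ω
  let vec : Fin 2 → ι → Ω := fun t k => ρ fun i => (![p i, a i] : Fin 2 → ι → ℂ) t k
  have hcard : Fintype.card (Fin 2 × ι) = 2 * Fintype.card ι := by simp
  let e : Fin 2 × ι ≃ Fin (2 * Fintype.card ι) := Fintype.equivFinOfCardEq hcard
  obtain ⟨L, _, _, _, _, hs, hbig⟩ := h3 Ω (Ex ι d) cs (2 * Fintype.card ι)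
    (fun j => vec (e.symm j).1 (e.symm j).2) halg
  have hw0 : ∀ (t : Fin 2) (k : ι), ∃ x : L, algebraMap L Ω x = vec t k := by
    intro t k
    obtain ⟨x, hx⟩ := hs (e (t, k))
    refine ⟨x, ?_⟩
    rw [hx]
    simp
  choose w hw using hw0
  have hww : (![w 0, w 1] : Fin 2 → ι → L) = w := by
    ext t
    fin_cases t <;> rfl
  have hindL : LinearIndependent L ![w 0, w 1] := by
    rw [hww]
    refine Ld_indep w (fun r k => ρ fun i => l i r k) fun r t => ?_
    simp only [hw]
    have e1 : (∑ k, (fun i => l i r k) * (fun i => (![p i, a i] : Fin 2 → ι → ℂ) t k) :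
        I → ℂ) = fun _ => if r = t then 1 else 0 := by
      ext i
      simp only [Finset.sum_apply, Pi.mul_apply]
      exact hl i r t
    have e2 := congrArg ρ e1
    rw [map_sum] at e2
    simp only [map_mul] at e2
    rw [show (∑ k, (ρ fun i => l i r k) * vec t k) = _ from e2]
    by_cases hrt : r = t
    · simp only [hrt, if_true]
      exact map_one ρ
    · simp only [hrt, if_false]
      exact map_zero ρ
  obtain ⟨ξ0, ξ1, hx, hy⟩ := h4 L Ω ι d (2 * Fintype.card ι) cs hbig (by omega) (w 0) (w 1) hindL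
  obtain ⟨x0, rfl⟩ := hρs ξ0
  obtain ⟨x1, rfl⟩ := hρs ξ1
  have hx' : ρ (fun i => ev (c i) ((1 + x0 i) • p i + x1 i • a i)) = 0 := by
    rw [Ld_ev, ← hx]
    congr 1
    ext k
    rw [hw, hw]
    have e1 : (fun i => ((1 + x0 i) • p i + x1 i • a i) k) =
        (1 + x0) * (fun i => (![p i, a i] : Fin 2 → ι → ℂ) 0 k) +
          x1 * (fun i => (![p i, a i] : Fin 2 → ι → ℂ) 1 k) := by
      ext i
      simp
    rw [e1, map_add, map_mul, map_mul, map_add, map_one]
  have hy' : ρ (fun i => ev (c i) ((1 - x0 i) • p i - x1 i • a i)) = 0 := by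
    rw [Ld_ev, ← hy]
    congr 1
    ext k
    rw [hw, hw]
    have e1 : (fun i => ((1 - x0 i) • p i - x1 i • a i) k) =
        (1 - x0) * (fun i => (![p i, a i] : Fin 2 → ι → ℂ) 0 k) -
          x1 * (fun i => (![p i, a i] : Fin 2 → ι → ℂ) 1 k) := by
      ext i
      simp
    rw [e1, map_sub, map_mul, map_mul, map_sub, map_one]
  rw [hρ0] at hx' hy'
  obtain ⟨i, hi1, hi2⟩ := (hx'.and hy').exists
  exact hno i (x0 i) (x1 i) hi1 hi2

end Pool.Agent.Lib.MP_e005b4_ag.LD
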