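import Pool.Agent.Lib.MP_e005b4_ag.LD.Spec
import Pool.Agent.Lib.MP_e005b4_ag.GP.Spec

/-!
# Sections of large degree: part (A)
-/

set_option autoImplicit false

namespace Pool.Agent.Lib.MP_e005b4_ag.LD

open MvPolynomial Pool.Agent.Lib.MP_e005b4_ag Pool.Agent.Lib.MP_e005b4_ag.GP
open scoped LinearAlgebra.Projectivization

private theorem MA_scl {ι : Type} [Fintype ι] (X : Set (PSpace ι)) : Scl (cone X) :=
  ⟨zero_mem_cone X, fun _ hy c => smul_mem_cone hy c⟩

/-- A point of the cone is a point whose class is in the set. -/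
private theorem MA_mem {ι : Type} [Fintype ι] {Z : Set (PSpace ι)} {v : ι → ℂ}
    (h : ∀ (q : PSpace ι) (k : ℂ), q.rep = k • v → q ∈ Z) : v ∈ cone Z := by
  intro hv
  obtain ⟨k, -, hk⟩ := rep_eq v hv
  exact h _ k hk

/-- The hypothesis on lines for the cone. -/
private theorem MA_line {ι : Type} [Fintype ι] {Z : Set (PSpace ι)}
    (hL : ∀ p ∈ Z, OnLine Z p) (p : ι → ℂ) (hp : p ∈ cone Z) (hp0 : p ≠ 0) :
    ∃ a : ι → ℂ, LinearIndependent ℂ ![p, a] ∧ ∀ s t : ℂ, s • p + t • a ∈ cone Z := by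
  obtain ⟨c, hc, hrep⟩ := rep_eq p hp0
  obtain ⟨a, ha, hZ⟩ := hL _ (hp hp0)
  have hpc : p = c⁻¹ • (Projectivization.mk ℂ p hp0).rep := by
    rw [hrep, smul_smul, inv_mul_cancel₀ hc, one_smul]
  refine ⟨a, ?_, fun s t => MA_mem fun q k hq => ?_⟩
  · have h1 := ha.units_smul ![(Units.mk0 c hc)⁻¹, 1]
    have h2 : (![(Units.mk0 c hc)⁻¹, 1] : Fin 2 → ℂˣ) •
        ![(Projectivization.mk ℂ p hp0).rep, a] = ![p, a] := by
      funext i
      fin_cases i
      · exact hpc.symm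
      · exact one_smul ℂˣ a
    rwa [h2] at h1
  · refine hZ q (k * s * c⁻¹) (k * t) ?_
    rw [hq, smul_add, smul_smul, smul_smul, mul_smul (k * s) c⁻¹, ← hpc]

/-- The hypothesis on quadric surfaces for the cone. -/
private theorem MA_quad {ι : Type} [Fintype ι] (hb : StBb) {Z : Set (PSpace ι)}
    (hne : Z.Nonempty) (hQ : ∀ p, xRank Z p = 2 → OnQuadric Z p) (p : ι → ℂ)
    (hp : p ∈ Sr (cone Z) 2) (hpK : p ∉ cone Z) :
    ∃ (a1 a2 a3 : ι → ℂ) (ε : ℂ), LinearIndependent ℂ ![p, a1, a2, a3] ∧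
      ∀ w ξ0 ξ1 ξ2 : ℂ, w ^ 2 = ξ0 * ξ1 + ε * ξ2 ^ 2 →
        w • p + ξ0 • a1 + ξ1 • a2 + ξ2 • a3 ∈ cone Z := by
  have hp0 : p ≠ 0 := by
    rintro rfl
    exact hpK (zero_mem_cone Z)
  obtain ⟨c, hc, hrep⟩ := rep_eq p hp0
  have hpc : p = c⁻¹ • (Projectivization.mk ℂ p hp0).rep := by
    rw [hrep, smul_smul, inv_mul_cancel₀ hc, one_smul]
  have hr2 : xRank Z (Projectivization.mk ℂ p hp0) = 2 := by
    have h2 : Projectivization.mk ℂ p hp0 ∈ secantSet Z 2 := by
      rw [← mem_cone_iff hp0, (hb ι Z hne 2).1]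
      exact hp
    have h1 : Projectivization.mk ℂ p hp0 ∉ secantSet Z 1 := by
      rw [secantSet_one]
      exact fun h => hpK fun _ => h
    have h3 : xRank Z (Projectivization.mk ℂ p hp0) ≤ (2 : ℕ) := (xRank_le_iff hne).2 h2
    have h4 : ¬ xRank Z (Projectivization.mk ℂ p hp0) ≤ (1 : ℕ) := fun h =>
      h1 ((xRank_le_iff hne).1 h)
    refine le_antisymm h3 ?_
    have h5 : ((1 : ℕ) : ℕ∞) + 1 ≤ xRank Z (Projectivization.mk ℂ p hp0) :=
      Order.add_one_le_of_lt (not_le.1 h4)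
    refine le_trans (le_of_eq ?_) h5
    norm_num
  obtain ⟨a, b, e, ε, hli, hZ⟩ := hQ _ hr2
  refine ⟨c⁻¹ • a, c⁻¹ • b, c⁻¹ • e, ε, ?_, fun w x y z hw => MA_mem fun q k hq => ?_⟩
  · have h1 := hli.units_smul fun _ => (Units.mk0 c hc)⁻¹
    have h2 : (fun _ : Fin 4 => (Units.mk0 c hc)⁻¹) •
        ![(Projectivization.mk ℂ p hp0).rep, a, b, e] = ![p, c⁻¹ • a, c⁻¹ • b, c⁻¹ • e] := by
      funext i
      fin_cases i
      · exact hpc.symm
      · rfl
      · rfl
      · rfl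
    rwa [h2] at h1
  · refine hZ q (k * c⁻¹ * w) (k * c⁻¹ * x) (k * c⁻¹ * y) (k * c⁻¹ * z) ?_ ?_
    · rw [hq]
      conv_lhs => rw [hpc]
      simp only [smul_add, smul_smul]
      congr 1
      · congr 1
        · congr 1
          · congr 1
            ring
          · congr 1
            ring
        · congr 1
          ring
      · congr 1
        ring
    · have h3 : (k * c⁻¹ * w) ^ 2 = (k * c⁻¹) ^ 2 * w ^ 2 := by ring
      rw [h3, hw]
      ring

private theorem MA_eval_zero {ι : Type} [Fintype ι] {F : MvPolynomial ι ℂ} {d : ℕ}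
    (hF : F.IsHomogeneous d) (hd : d ≠ 0) : eval (0 : ι → ℂ) F = 0 := by
  have h := eval_smul_hom hF 0 (0 : ι → ℂ)
  rwa [smul_zero, zero_pow hd, zero_mul] at h

/-- The cone of the section. -/
private theorem MA_cone {ι : Type} [Fintype ι] {F : MvPolynomial ι ℂ} {d : ℕ}
    (hF : F.IsHomogeneous d) (hd : d ≠ 0) (Z : Set (PSpace ι)) :
    cone (cut Z F) = {x | x ∈ cone Z ∧ eval x F = 0} := by
  ext v
  by_cases hv : v = 0
  · subst hv
    exact ⟨fun _ => ⟨zero_mem_cone Z, MA_eval_zero hF hd⟩, fun _ => zero_mem_cone _⟩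
  · rw [mem_cone_iff hv]
    constructor
    · intro h
      exact ⟨fun _ => h.1, (eval_rep_iff hF v hv).1 h.2⟩
    · intro h
      exact ⟨h.1 hv, (eval_rep_iff hF v hv).2 h.2⟩

private theorem MA_zero {ι : Type} [Fintype ι] (K K' : Set (ι → ℂ)) : Sr K 0 = Sr K' 0 := by
  ext v
  constructor
  · rintro ⟨z, -, rfl⟩
    exact ⟨z, fun l => l.elim0, rfl⟩
  · rintro ⟨z, -, rfl⟩
    exact ⟨z, fun l => l.elim0, rfl⟩

private theorem MA_one {ι : Type} [Fintype ι] (K : Set (ι → ℂ)) : Sr K 1 = K := by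
  ext v
  constructor
  · rintro ⟨z, hz, rfl⟩
    rw [Fin.sum_univ_one]
    exact hz 0
  · intro hv
    exact ⟨fun _ => v, fun _ => hv, by rw [Fin.sum_univ_one]⟩

/-- Part (A). -/
theorem lMA (h1 : StSe) (hb : StBb) (hc : StBc) : StMA := by
  intro ι _ d hd
  obtain ⟨Φ, hΦ, hΦF⟩ := h1 ι d hd
  refine ⟨Φ, hΦ, fun F hF hFΦ Z hZ hrk hL hQ => ?_⟩
  have hd0 : d ≠ 0 := by omega
  have hne : Z.Nonempty := hZ.2.1
  have hSe := hΦF F hF hFΦ (cone Z) (MA_scl Z) (MA_line hL) (MA_quad hb hne hQ)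
  have hcone := MA_cone hF hd0 Z
  rw [← hcone] at hSe
  -- the section is nonempty
  have hne' : (cut Z F).Nonempty := by
    obtain ⟨p, hp⟩ := hne
    have h2 : p.rep ∈ Sr (cone (cut Z F)) 2 := by
      rw [hSe 2 le_rfl]
      refine ⟨![p.rep, 0], fun l => ?_, by simp⟩
      fin_cases l
      · exact rep_mem_cone.2 hp
      · exact zero_mem_cone Z
    obtain ⟨z, hz, hsum⟩ := h2
    by_contra hemp
    have h3 : ∀ l, z l = 0 := by
      intro l
      by_contra h
      exact hemp ⟨_, hz l h⟩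
    refine p.rep_nonzero ?_
    rw [hsum]
    exact Finset.sum_eq_zero fun l _ => h3 l
  have hclZ := (hc.1 ι Z hne).1 hrk
  refine ⟨(hc.1 ι (cut Z F) hne').2 fun r => ?_, fun r hr => ?_⟩
  · rcases Nat.lt_or_ge r 2 with hr | hr
    · interval_cases r
      · rw [MA_zero (cone (cut Z F)) (cone Z)]
        exact hclZ 0
      · rw [MA_one]
        intro v hv
        have h2 : v ∈ cone Z := by
          have h3 := hclZ 1
          rw [MA_one] at h3
          refine h3 (clc_mono ?_ hv)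
          rw [hcone]
          exact fun x hx => hx.1
        rw [hcone]
        refine ⟨h2, hv F d hF fun y hy => ?_⟩
        rw [hcone] at hy
        exact hy.2
    · rw [hSe r hr]
      exact hclZ r
  · have h2 : cone (secantSet (cut Z F) r) = cone (secantSet Z r) := by
      rw [(hb ι _ hne' r).1, (hb ι _ hne r).1, hSe r hr]
    ext p
    rw [← rep_mem_cone, h2, rep_mem_cone]

end Pool.Agent.Lib.MP_e005b4_ag.LD
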