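import Pool.Agent.Lib.MP_e005b4_ag.LD.Spec

/-!
# Newton iteration and the intersection theorem of Krull
-/

set_option autoImplicit false

namespace Pool.Agent.Lib.MP_e005b4_ag.LD

open MvPolynomial

/-- Taylor's formula modulo the square of an ideal. -/
private theorem Nw_taylor {A τ : Type} [CommRing A] [Fintype τ] [DecidableEq τ] (I : Ideal A)
    (x h : τ → A) (hh : ∀ i, h i ∈ I) (F : MvPolynomial τ A) :
    eval (x + h) F - eval x F - ∑ i, eval x (pderiv i F) * h i ∈ I ^ 2 ∧
      eval (x + h) F - eval x F ∈ I := by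
  induction F using MvPolynomial.induction_on with
  | C a =>
    simp
  | add p q hp hq =>
    constructor
    · have h1 : eval (x + h) (p + q) - eval x (p + q) -
          ∑ i, eval x (pderiv i (p + q)) * h i =
          (eval (x + h) p - eval x p - ∑ i, eval x (pderiv i p) * h i) +
          (eval (x + h) q - eval x q - ∑ i, eval x (pderiv i q) * h i) := by
        simp only [map_add, add_mul, Finset.sum_add_distrib]
        ring
      rw [h1]
      exact Ideal.add_mem _ hp.1 hq.1
    · have h1 : eval (x + h) (p + q) - eval x (p + q) =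
          (eval (x + h) p - eval x p) + (eval (x + h) q - eval x q) := by
        simp only [map_add]
        ring
      rw [h1]
      exact Ideal.add_mem _ hp.2 hq.2
  | mul_X p j hp =>
    have h0 : ∀ i, eval x (pderiv i (p * X j)) * h i =
        eval x (pderiv i p) * h i * x j + (if i = j then eval x p * h i else 0) := by
      intro i
      rw [Derivation.leibniz, smul_eq_mul, smul_eq_mul, map_add, map_mul, map_mul, eval_X,
        pderiv_X]
      by_cases hij : i = j
      · subst hij
        rw [Pi.single_eq_same, map_one, if_pos rfl]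
        ring
      · rw [Pi.single_eq_of_ne (Ne.symm hij), map_zero, if_neg hij]
        ring
    have hs : ∑ i, eval x (pderiv i (p * X j)) * h i =
        (∑ i, eval x (pderiv i p) * h i) * x j + eval x p * h j := by
      rw [Finset.sum_congr rfl fun i _ => h0 i, Finset.sum_add_distrib, ← Finset.sum_mul]
      simp
    constructor
    · have h1 : eval (x + h) (p * X j) - eval x (p * X j) -
          ∑ i, eval x (pderiv i (p * X j)) * h i =
          (eval (x + h) p - eval x p - ∑ i, eval x (pderiv i p) * h i) * x j +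
          (eval (x + h) p - eval x p) * h j := by
        rw [hs, map_mul, map_mul, eval_X, eval_X, Pi.add_apply]
        ring
      rw [h1, sq]
      refine Ideal.add_mem _ (Ideal.mul_mem_right _ _ ?_) (Ideal.mul_mem_mul hp.2 (hh j))
      rw [← sq]
      exact hp.1
    · have h1 : eval (x + h) (p * X j) - eval x (p * X j) =
          (eval (x + h) p - eval x p) * (x j + h j) + eval x p * h j := by
        rw [map_mul, map_mul, eval_X, eval_X, Pi.add_apply]
        ring
      rw [h1]
      exact Ideal.add_mem _ (Ideal.mul_mem_right _ _ hp.2) (Ideal.mul_mem_left _ _ (hh j))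

/-- Newton iteration. -/
private theorem Nw_newton {A τ : Type} [CommRing A] [Fintype τ] [DecidableEq τ] (𝔪 : Ideal A)
    (f : τ → MvPolynomial τ A) (z : τ → A) (u : A) (h0 : ∀ j, eval z (f j) ∈ 𝔪)
    (hu : (jac f z).det * u - 1 ∈ 𝔪) (k : ℕ) :
    ∃ y : τ → A, (∀ i, y i - z i ∈ 𝔪) ∧ ∀ j, eval y (f j) ∈ 𝔪 ^ (k + 1) := by
  induction k with
  | zero =>
    refine ⟨z, fun i => by rw [sub_self]; exact Ideal.zero_mem _, fun j => ?_⟩
    rw [zero_add, pow_one]
    exact h0 j
  | succ k ih =>
    obtain ⟨y, hy1, hy2⟩ := ih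
    let b : τ → A := fun j => eval y (f j)
    let h : τ → A := fun i => -(u * ((jac f z).adjugate.mulVec b) i)
    have hh : ∀ i, h i ∈ 𝔪 ^ (k + 1) := by
      intro i
      refine Ideal.neg_mem_iff _ |>.2 (Ideal.mul_mem_left _ _ ?_)
      exact Ideal.sum_mem _ fun j _ => Ideal.mul_mem_left _ _ (hy2 j)
    have hkm : 𝔪 ^ (k + 1) ≤ 𝔪 := Ideal.pow_le_self (Nat.succ_ne_zero k)
    refine ⟨y + h, fun i => ?_, fun j => ?_⟩
    · have h1 : (y + h) i - z i = (y i - z i) + h i := by
        rw [Pi.add_apply]
        ring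
      rw [h1]
      exact Ideal.add_mem _ (hy1 i) (hkm (hh i))
    · have hT := (Nw_taylor (𝔪 ^ (k + 1)) y h hh (f j)).1
      have hsq : (𝔪 ^ (k + 1)) ^ 2 ≤ 𝔪 ^ (k + 1 + 1) := by
        rw [← pow_mul]
        exact Ideal.pow_le_pow_right (by omega)
      have hd : ∀ i, (eval y (pderiv i (f j)) - eval z (pderiv i (f j))) * h i ∈
          𝔪 ^ (k + 1 + 1) := by
        intro i
        have h1 := (Nw_taylor 𝔪 z (y - z) (fun i => hy1 i) (pderiv i (f j))).2
        rw [add_sub_cancel] at h1
        rw [pow_succ' 𝔪 (k + 1)]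
        exact Ideal.mul_mem_mul h1 (hh i)
      have hJ : ∑ i, eval z (pderiv i (f j)) * h i = -(u * ((jac f z).det * b j)) := by
        have h1 : (jac f z).mulVec ((jac f z).adjugate.mulVec b) j = (jac f z).det * b j := by
          rw [Matrix.mulVec_mulVec, Matrix.mul_adjugate, Matrix.smul_mulVec, Matrix.one_mulVec]
          rfl
        rw [← h1]
        change _ = -(u * ∑ i, jac f z j i * ((jac f z).adjugate.mulVec b) i)
        rw [Finset.mul_sum, ← Finset.sum_neg_distrib]
        refine Finset.sum_congr rfl fun i _ => ?_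
        change eval z (pderiv i (f j)) * -(u * ((jac f z).adjugate.mulVec b) i) =
          -(u * (eval z (pderiv i (f j)) * ((jac f z).adjugate.mulVec b) i))
        ring
      have h2 : eval (y + h) (f j) =
          (eval (y + h) (f j) - eval y (f j) - ∑ i, eval y (pderiv i (f j)) * h i) +
          ∑ i, (eval y (pderiv i (f j)) - eval z (pderiv i (f j))) * h i -
          ((jac f z).det * u - 1) * b j := by
        have h3 : ∑ i, (eval y (pderiv i (f j)) - eval z (pderiv i (f j))) * h i =
            ∑ i, eval y (pderiv i (f j)) * h i - ∑ i, eval z (pderiv i (f j)) * h i := by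
          rw [← Finset.sum_sub_distrib]
          exact Finset.sum_congr rfl fun i _ => by ring
        rw [h3, hJ]
        change _ = (eval (y + h) (f j) - b j - ∑ i, eval y (pderiv i (f j)) * h i) +
          (∑ i, eval y (pderiv i (f j)) * h i - -(u * ((jac f z).det * b j))) -
          ((jac f z).det * u - 1) * b j
        ring
      rw [h2]
      refine Ideal.sub_mem _ (Ideal.add_mem _ (hsq hT) (Ideal.sum_mem _ fun i _ => hd i)) ?_
      rw [pow_succ' 𝔪 (k + 1)]
      exact Ideal.mul_mem_mul hu (hy2 j)

/-- A transversal zero modulo `𝔪` excludes constants in the ideal of the equations. -/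
theorem lNw : StNw := by
  intro A τ _ _ _ _ _ 𝔪 f z u e hm h0 hu he
  have h1 : ∀ k : ℕ, e ∈ 𝔪 ^ (k + 1) := by
    intro k
    obtain ⟨y, -, hy⟩ := Nw_newton 𝔪 f z u h0 hu k
    have h2 : Ideal.span (Set.range f) ≤ Ideal.comap (eval y) (𝔪 ^ (k + 1)) := by
      rw [Ideal.span_le]
      rintro _ ⟨j, rfl⟩
      exact hy j
    have h3 := h2 he
    rwa [Ideal.mem_comap, eval_C] at h3
  have h2 : e ∈ ⨅ i : ℕ, 𝔪 ^ i := by
    rw [Ideal.mem_iInf]
    intro i
    cases i with
    | zero =>
      rw [pow_zero, Ideal.one_eq_top]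
      exact Submodule.mem_top
    | succ k => exact h1 k
  rw [Ideal.iInf_pow_eq_bot_of_isDomain 𝔪 hm] at h2
  simpa using h2

end Pool.Agent.Lib.MP_e005b4_ag.LD
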