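import Pool.Agent.Lib.MP_e005b4_ag.LD.SpecB

/-!
# Sections of large degree: module P1 (pull back of genericity, Veronese)
-/

set_option autoImplicit false

namespace Pool.Agent.Lib.MP_e005b4_ag.LD

open MvPolynomial Pool.Agent.Lib.MP_e005b4_ag Pool.Agent.Lib.MP_e005b4_ag.GP

/-- the exponent of `r1 n o` -/
private noncomputable def mm (n : ℕ) : Option (Sym2 (Fin (n + 1))) → (Option (Fin (n + 1)) →₀ ℕ)
  | none => Finsupp.single none 1
  | some s => Sym2.lift ⟨fun i j => Finsupp.single (some i) 1 + Finsupp.single (some j) 1,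
      fun _ _ => add_comm _ _⟩ s

private lemma r1_eq (n : ℕ) (o : Option (Sym2 (Fin (n + 1)))) : r1 n o = monomial (mm n o) 1 := by
  rcases o with _ | s
  · rfl
  · induction s using Sym2.ind with
    | _ i j =>
      simp only [r1, mm, Sym2.lift_mk]
      rw [X, X, monomial_mul, one_mul]

private def wt {n : ℕ} (b : Option (Fin (n + 1)) →₀ ℕ) : ℕ := 2 * b none + ∑ i, b (some i)

private lemma wt_add {n : ℕ} (b c : Option (Fin (n + 1)) →₀ ℕ) : wt (b + c) = wt b + wt c := by
  simp only [wt, Finsupp.add_apply, Finset.sum_add_distrib]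
  ring

private lemma wt_none {n : ℕ} : wt (Finsupp.single none 1 : Option (Fin (n + 1)) →₀ ℕ) = 2 := by
  simp [wt]

private lemma wt_some {n : ℕ} (i : Fin (n + 1)) :
    wt (Finsupp.single (some i) 1 : Option (Fin (n + 1)) →₀ ℕ) = 1 := by
  simp [wt, Finsupp.single_apply]

private lemma wt_mm (n : ℕ) (o : Option (Sym2 (Fin (n + 1)))) : wt (mm n o) = 2 := by
  rcases o with _ | s
  · exact wt_none
  · induction s using Sym2.ind with
    | _ i j =>
      simp only [mm, Sym2.lift_mk]
      rw [wt_add, wt_some, wt_some]

private noncomputable def lc (n : ℕ) :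
    (Option (Sym2 (Fin (n + 1))) →₀ ℕ) →ₗ[ℕ] (Option (Fin (n + 1)) →₀ ℕ) :=
  Finsupp.linearCombination ℕ (mm n)

private lemma wt_smul {n : ℕ} (k : ℕ) (b : Option (Fin (n + 1)) →₀ ℕ) : wt (k • b) = k * wt b := by
  simp only [wt, Finsupp.smul_apply, smul_eq_mul, ← Finset.mul_sum]
  ring

private lemma wt_lc (n : ℕ) (a : Option (Sym2 (Fin (n + 1))) →₀ ℕ) :
    wt (lc n a) = 2 * a.degree := by
  induction a using Finsupp.induction_linear with
  | zero => simp [wt]
  | add f g hf hg => rw [map_add, wt_add, hf, hg, map_add]; ring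
  | single o k =>
    rw [lc, Finsupp.linearCombination_single, wt_smul, wt_mm, Finsupp.degree_single]
    ring

private lemma aeval_mon (n : ℕ) (a : Option (Sym2 (Fin (n + 1))) →₀ ℕ) (c : ℂ) :
    aeval (r1 n) (monomial a c) = monomial (lc n a) c := by
  have h1 : aeval (r1 n) (monomial a (1 : ℂ)) = monomial (lc n a) 1 := by
    induction a using Finsupp.induction_linear with
    | zero => simp
    | add f g hf hg =>
      rw [← one_mul (1 : ℂ), ← monomial_mul, map_mul, hf, hg, map_add, monomial_mul]
    | single o k =>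
      rw [← X_pow_eq_monomial, map_pow, aeval_X, r1_eq, monomial_pow, one_pow, lc,
        Finsupp.linearCombination_single]
  have h2 : monomial a c = c • monomial a (1 : ℂ) := by rw [smul_monomial, smul_eq_mul, mul_one]
  rw [h2, map_smul, h1, smul_monomial, smul_eq_mul, mul_one]

private lemma surj (n : ℕ) : ∀ (d : ℕ) (b : Option (Fin (n + 1)) →₀ ℕ), wt b = 2 * d →
    ∃ a : Option (Sym2 (Fin (n + 1))) →₀ ℕ, a.degree = d ∧ lc n a = b := by
  intro d
  induction d with
  | zero =>
    intro b hb
    refine ⟨0, by simp, ?_⟩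
    rw [map_zero]
    have h1 : b none = 0 := by unfold wt at hb; omega
    have h2 : ∑ i, b (some i) = 0 := by unfold wt at hb; omega
    ext o
    rcases o with _ | i
    · rw [h1]; rfl
    · rw [(Finset.sum_eq_zero_iff.1 h2) i (Finset.mem_univ i)]; rfl
  | succ d ih =>
    intro b hb
    have hsub : ∀ (c : Option (Fin (n + 1)) →₀ ℕ) (o : Option (Fin (n + 1))), 0 < c o →
        ∃ c', c = c' + Finsupp.single o 1 := by
      intro c o h
      refine ⟨c - Finsupp.single o 1, ?_⟩
      rw [tsub_add_cancel_of_le]
      exact Finsupp.single_le_iff.2 h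
    have hpos : ∀ c : Option (Fin (n + 1)) →₀ ℕ, 0 < ∑ i, c (some i) → ∃ i, 0 < c (some i) := by
      intro c h
      by_contra hc
      push Not at hc
      rw [Finset.sum_eq_zero fun i _ => Nat.le_zero.1 (hc i)] at h
      exact absurd h (lt_irrefl 0)
    by_cases h0 : 0 < b none
    · obtain ⟨b', rfl⟩ := hsub b none h0
      rw [wt_add, wt_none] at hb
      obtain ⟨a, ha, hab⟩ := ih b' (by omega)
      refine ⟨a + Finsupp.single none 1, by rw [map_add, ha, Finsupp.degree_single], ?_⟩
      rw [map_add, hab, lc, Finsupp.linearCombination_single, one_smul]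
      rfl
    · have h1 : b none = 0 := by omega
      have h2 : 0 < ∑ i, b (some i) := by unfold wt at hb; omega
      obtain ⟨i, hi⟩ := hpos b h2
      obtain ⟨b', rfl⟩ := hsub b (some i) hi
      have h3 : b' none = 0 := by
        rw [Finsupp.add_apply] at h1
        omega
      rw [wt_add, wt_some] at hb
      have h4 : 0 < ∑ i, b' (some i) := by unfold wt at hb; omega
      obtain ⟨j, hj⟩ := hpos b' h4
      obtain ⟨b'', rfl⟩ := hsub b' (some j) hj
      rw [wt_add, wt_some] at hb
      obtain ⟨a, ha, hab⟩ := ih b'' (by omega)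
      refine ⟨a + Finsupp.single (some s(j, i)) 1, by rw [map_add, ha, Finsupp.degree_single], ?_⟩
      rw [map_add, hab, lc, Finsupp.linearCombination_single, one_smul, add_assoc]
      rfl

theorem lP1 : StP1 := by
  classical
  intro n d Φ' hΦ'
  set τ : Ex (Option (Sym2 (Fin (n + 1)))) d → T1 n d := fun a => ⟨lc n a.1, by
    have := wt_lc n a.1
    rw [a.2] at this
    exact this⟩ with hτ
  have hs : ∀ t : T1 n d, ∃ a, τ a = t := by
    intro t
    obtain ⟨a, ha, hab⟩ := surj n d t.1 t.2
    exact ⟨⟨a, ha⟩, Subtype.ext hab⟩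
  choose s hs using hs
  set ψ : T1 n d → MvPolynomial (Ex (Option (Sym2 (Fin (n + 1)))) d) ℂ :=
    fun t => ∑ a with τ a = t, X a with hψ
  refine ⟨aeval ψ Φ', ?_, ?_⟩
  · intro h0
    apply hΦ'
    set χ : Ex (Option (Sym2 (Fin (n + 1)))) d → MvPolynomial (T1 n d) ℂ :=
      fun a => if a = s (τ a) then X (τ a) else 0 with hχ
    have h1 : aeval χ (aeval ψ Φ') = Φ' := by
      have h2 : (aeval χ).comp (aeval ψ) = AlgHom.id ℂ (MvPolynomial (T1 n d) ℂ) := by
        apply MvPolynomial.algHom_ext
        intro t
        rw [AlgHom.comp_apply, aeval_X, AlgHom.id_apply, hψ]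
        simp only [map_sum, aeval_X]
        rw [Finset.sum_eq_single (s t)]
        · rw [hχ]
          simp only [hs, if_true]
        · intro a ha hne
          rw [Finset.mem_filter] at ha
          rw [hχ]
          simp only [ha.2]
          rw [if_neg hne]
        · intro h
          exact absurd (by simp [hs]) h
      have := congrArg (fun f => f Φ') h2
      simpa using this
    rw [← h1, h0, map_zero]
  · intro F hF hne
    refine ⟨fun t => ∑ a with τ a = t, coeff a.1 F, ?_, ?_⟩
    · have h1 : eval (fun a : Ex (Option (Sym2 (Fin (n + 1)))) d => coeff a.1 F) (aeval ψ Φ') =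
          eval (fun t => ∑ a with τ a = t, coeff a.1 F) Φ' := by
        have h2 : (aeval (fun a : Ex (Option (Sym2 (Fin (n + 1)))) d => coeff a.1 F)).comp
            (aeval ψ) = (aeval (fun t => ∑ a with τ a = t, coeff a.1 F) :
              MvPolynomial (T1 n d) ℂ →ₐ[ℂ] ℂ) := by
          apply MvPolynomial.algHom_ext
          intro t
          rw [AlgHom.comp_apply, aeval_X, aeval_X, hψ]
          simp only [map_sum, aeval_X]
        have := congrArg (fun f => f Φ') h2
        simpa [coe_aeval_eq_eval] using this
      rw [← h1]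
      exact hne
    · have hF1 : F = ∑ a : Ex (Option (Sym2 (Fin (n + 1)))) d, monomial a.1 (coeff a.1 F) := by
        ext t
        rw [coeff_sum]
        simp only [coeff_monomial]
        by_cases ht : t.degree = d
        · rw [Finset.sum_eq_single (⟨t, ht⟩ : Ex (Option (Sym2 (Fin (n + 1)))) d)]
          · simp
          · intro a _ ha
            rw [if_neg]
            intro h
            exact ha (Subtype.ext h)
          · intro h
            exact absurd (Finset.mem_univ _) h
        · rw [Finset.sum_eq_zero]
          · by_contra hc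
            apply ht
            have := hF hc
            rw [Finsupp.degree_eq_weight_one]
            exact this
          · intro a _
            rw [if_neg]
            intro h
            exact ht (h ▸ a.2)
      conv_lhs => rw [hF1]
      rw [map_sum]
      simp only [aeval_mon]
      rw [pol, ← Finset.sum_fiberwise Finset.univ τ]
      refine Finset.sum_congr rfl fun t _ => ?_
      rw [map_sum]
      refine Finset.sum_congr rfl fun a ha => ?_
      rw [Finset.mem_filter] at ha
      rw [← ha.2]

end Pool.Agent.Lib.MP_e005b4_ag.LD
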