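import Pool.Agent.Lib.MP_e005b4_ag.LD.SpecB

/-!
# Sections of large degree: pull back of genericity, Segre varieties
-/

set_option autoImplicit false

namespace Pool.Agent.Lib.MP_e005b4_ag.LD

open MvPolynomial Pool.Agent.Lib.MP_e005b4_ag Pool.Agent.Lib.MP_e005b4_ag.GP

/-- A matrix with given margins. -/
private theorem P2_mat (a b : ℕ) : ∀ (d : ℕ) (u : Fin (a + 1) → ℕ) (v : Fin (b + 1) → ℕ),
    ∑ i, u i = d → ∑ j, v j = d → ∃ c : Fin (a + 1) × Fin (b + 1) → ℕ,
      (∀ i, ∑ j, c (i, j) = u i) ∧ ∀ j, ∑ i, c (i, j) = v j := by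
  intro d
  induction d with
  | zero =>
      intro u v hu hv
      refine ⟨fun _ => 0, ?_, ?_⟩
      · intro i
        have h := (Finset.sum_eq_zero_iff.mp hu) i (Finset.mem_univ i)
        simp [h]
      · intro j
        have h := (Finset.sum_eq_zero_iff.mp hv) j (Finset.mem_univ j)
        simp [h]
  | succ d ih =>
      intro u v hu hv
      obtain ⟨i0, -, hi0⟩ := Finset.exists_ne_zero_of_sum_ne_zero
        (show ∑ i, u i ≠ 0 by omega)
      obtain ⟨j0, -, hj0⟩ := Finset.exists_ne_zero_of_sum_ne_zero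
        (show ∑ j, v j ≠ 0 by omega)
      let u' : Fin (a + 1) → ℕ := fun i => u i - if i = i0 then 1 else 0
      let v' : Fin (b + 1) → ℕ := fun j => v j - if j = j0 then 1 else 0
      have hu' : ∀ i, u i = u' i + if i = i0 then 1 else 0 := by
        intro i
        by_cases h : i = i0
        · subst h
          simp only [u', if_true]
          omega
        · simp only [u', if_neg h]
          omega
      have hv' : ∀ j, v j = v' j + if j = j0 then 1 else 0 := by
        intro j
        by_cases h : j = j0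
        · subst h
          simp only [v', if_true]
          omega
        · simp only [v', if_neg h]
          omega
      have hus : ∑ i, u' i = d := by
        have h : ∑ i, u i = ∑ i, u' i + 1 := by
          rw [Finset.sum_congr rfl fun i _ => hu' i, Finset.sum_add_distrib]
          simp
        omega
      have hvs : ∑ j, v' j = d := by
        have h : ∑ j, v j = ∑ j, v' j + 1 := by
          rw [Finset.sum_congr rfl fun j _ => hv' j, Finset.sum_add_distrib]
          simp
        omega
      obtain ⟨c, hc1, hc2⟩ := ih u' v' hus hvs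
      refine ⟨fun o => c o + if o = (i0, j0) then 1 else 0, ?_, ?_⟩
      · intro i
        rw [Finset.sum_add_distrib, hc1, hu' i]
        congr 1
        by_cases h : i = i0
        · subst h
          simp
        · simp [h]
      · intro j
        rw [Finset.sum_add_distrib, hc2, hv' j]
        congr 1
        by_cases h : j = j0
        · subst h
          simp
        · simp [h]

/-- The margins. -/
private noncomputable def P2_t0 {a b : ℕ} (c : Fin (a + 1) × Fin (b + 1) →₀ ℕ) :
    Fin (a + 1) ⊕ Fin (b + 1) →₀ ℕ :=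
  Finsupp.equivFunOnFinite.symm (Sum.elim (fun i => ∑ j, c (i, j)) fun j => ∑ i, c (i, j))

private theorem P2_inl {a b : ℕ} (c : Fin (a + 1) × Fin (b + 1) →₀ ℕ) (i : Fin (a + 1)) :
    P2_t0 c (Sum.inl i) = ∑ j, c (i, j) := rfl

private theorem P2_inr {a b : ℕ} (c : Fin (a + 1) × Fin (b + 1) →₀ ℕ) (j : Fin (b + 1)) :
    P2_t0 c (Sum.inr j) = ∑ i, c (i, j) := rfl

private theorem P2_deg {ι : Type} [Fintype ι] (c : ι →₀ ℕ) : c.degree = ∑ o, c o := by
  rw [Finsupp.degree_eq_sum]

private noncomputable def P2_t {a b d : ℕ} (c : Ex (Fin (a + 1) × Fin (b + 1)) d) :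
    T2 a b d d :=
  ⟨P2_t0 c.1, by
    have h := c.2
    rw [P2_deg, Fintype.sum_prod_type] at h
    refine ⟨Eq.trans rfl h, ?_⟩
    rw [Finset.sum_comm] at h
    exact Eq.trans rfl h⟩

private theorem P2_surj {a b d : ℕ} (t : T2 a b d d) :
    ∃ c : Ex (Fin (a + 1) × Fin (b + 1)) d, P2_t c = t := by
  obtain ⟨c, hc1, hc2⟩ := P2_mat a b d (fun i => t.1 (Sum.inl i)) (fun j => t.1 (Sum.inr j))
    t.2.1 t.2.2
  refine ⟨⟨Finsupp.equivFunOnFinite.symm c, ?_⟩, ?_⟩
  · rw [P2_deg, Fintype.sum_prod_type]
    have h : ∀ i, ∑ j, (Finsupp.equivFunOnFinite.symm c) (i, j) = t.1 (Sum.inl i) :=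
      fun i => hc1 i
    rw [Finset.sum_congr rfl fun i _ => h i]
    exact t.2.1
  · apply Subtype.ext
    apply Finsupp.ext
    intro s
    rcases s with i | j
    · exact hc1 i
    · exact hc2 j

private theorem P2_mono {a b : ℕ} (c : Fin (a + 1) × Fin (b + 1) →₀ ℕ) (k : ℂ) :
    aeval (r2 a b) (monomial c k) = monomial (P2_t0 c) k := by
  rw [aeval_monomial, monomial_eq, MvPolynomial.algebraMap_eq]
  congr 1
  rw [Finsupp.prod_fintype _ _ fun i => pow_zero _, Finsupp.prod_fintype _ _ fun i => pow_zero _,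
    Fintype.prod_sum_type]
  simp only [P2_inl, P2_inr, r2, mul_pow, Finset.prod_mul_distrib]
  rw [Fintype.prod_prod_type, Fintype.prod_prod_type]
  congr 1
  · refine Finset.prod_congr rfl fun i _ => ?_
    exact Finset.prod_pow_eq_pow_sum (M := MvPolynomial (Fin (a + 1) ⊕ Fin (b + 1)) ℂ)
      Finset.univ (fun j => c (i, j)) (X (Sum.inl i))
  · rw [Finset.prod_comm]
    refine Finset.prod_congr rfl fun j _ => ?_
    exact Finset.prod_pow_eq_pow_sum (M := MvPolynomial (Fin (a + 1) ⊕ Fin (b + 1)) ℂ)
      Finset.univ (fun i => c (i, j)) (X (Sum.inr j))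

private theorem P2_sum {ι : Type} [Fintype ι] {d : ℕ} {F : MvPolynomial ι ℂ}
    (hF : F.IsHomogeneous d) : ∑ c : Ex ι d, monomial c.1 (coeff c.1 F) = F := by
  classical
  have h1 : (∑ c : Ex ι d, monomial c.1 (coeff c.1 F)) =
      ∑ c ∈ (Finset.univ : Finset (Ex ι d)).map (Function.Embedding.subtype _),
        monomial c (coeff c F) := by
    rw [Finset.sum_map]
    rfl
  rw [h1]
  conv_rhs => rw [← support_sum_monomial_coeff F]
  symm
  apply Finset.sum_subset
  · intro c hc
    rw [Finset.mem_map]
    refine ⟨⟨c, ?_⟩, Finset.mem_univ _, rfl⟩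
    have h2 := hF (mem_support_iff.mp hc)
    rw [Finsupp.degree_eq_weight_one]
    exact h2
  · intro c _ hc
    rw [notMem_support_iff.mp hc, monomial_zero]

theorem lP2 : StP2 := by
  classical
  intro a b d Φ' hΦ'
  choose s hs using fun t : T2 a b d d => P2_surj t
  refine ⟨aeval (fun t : T2 a b d d => ∑ c with P2_t c = t, X c) Φ', ?_, ?_⟩
  · intro h0
    apply hΦ'
    have h1 : aeval (fun c : Ex (Fin (a + 1) × Fin (b + 1)) d =>
        if c = s (P2_t c) then (X (P2_t c) : MvPolynomial (T2 a b d d) ℂ) else 0)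
        (aeval (fun t : T2 a b d d => ∑ c with P2_t c = t,
          (X c : MvPolynomial (Ex (Fin (a + 1) × Fin (b + 1)) d) ℂ)) Φ') = Φ' := by
      rw [← AlgHom.comp_apply]
      have h2 : (aeval (fun c : Ex (Fin (a + 1) × Fin (b + 1)) d =>
          if c = s (P2_t c) then (X (P2_t c) : MvPolynomial (T2 a b d d) ℂ) else 0)).comp
          (aeval (fun t : T2 a b d d => ∑ c with P2_t c = t,
            (X c : MvPolynomial (Ex (Fin (a + 1) × Fin (b + 1)) d) ℂ))) =
          AlgHom.id ℂ (MvPolynomial (T2 a b d d) ℂ) := by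
        apply MvPolynomial.algHom_ext
        intro t
        rw [AlgHom.comp_apply, aeval_X, map_sum, AlgHom.id_apply]
        rw [Finset.sum_eq_single (s t)]
        · rw [aeval_X, hs t, if_pos rfl]
        · intro c hc hne
          rw [Finset.mem_filter] at hc
          rw [aeval_X, hc.2, if_neg hne]
        · intro hn
          exact absurd (Finset.mem_filter.mpr ⟨Finset.mem_univ (s t), hs t⟩) hn
      rw [h2, AlgHom.id_apply]
    rw [h0, map_zero] at h1
    exact h1.symm
  · intro F hF hne
    refine ⟨fun t => ∑ c with P2_t c = t, coeff c.1 F, ?_, ?_⟩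
    · have h1 : eval (fun c : Ex (Fin (a + 1) × Fin (b + 1)) d => coeff c.1 F)
          (aeval (fun t : T2 a b d d => ∑ c with P2_t c = t,
            (X c : MvPolynomial (Ex (Fin (a + 1) × Fin (b + 1)) d) ℂ)) Φ') =
          eval (fun t => ∑ c with P2_t c = t, coeff c.1 F) Φ' := by
        have h2 : ((aeval (fun c : Ex (Fin (a + 1) × Fin (b + 1)) d => coeff c.1 F)).comp
            (aeval (fun t : T2 a b d d => ∑ c with P2_t c = t,
              (X c : MvPolynomial (Ex (Fin (a + 1) × Fin (b + 1)) d) ℂ)))) =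
            (aeval (fun t : T2 a b d d => ∑ c with P2_t c = t, coeff c.1 F) :
              MvPolynomial (T2 a b d d) ℂ →ₐ[ℂ] ℂ) := by
          apply MvPolynomial.algHom_ext
          intro t
          rw [AlgHom.comp_apply, aeval_X, aeval_X, map_sum]
          refine Finset.sum_congr rfl fun c _ => ?_
          rw [aeval_X]
        have h3 := DFunLike.congr_fun h2 Φ'
        rw [AlgHom.comp_apply] at h3
        exact h3
      rw [h1] at hne
      exact hne
    · conv_lhs => rw [← P2_sum hF]
      rw [map_sum]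
      unfold pol
      simp only [P2_mono, map_sum]
      rw [← Finset.sum_fiberwise (s := Finset.univ)
        (g := fun c : Ex (Fin (a + 1) × Fin (b + 1)) d => P2_t c)]
      refine Finset.sum_congr rfl fun t _ => ?_
      refine Finset.sum_congr rfl fun c hc => ?_
      rw [Finset.mem_filter] at hc
      rw [← hc.2]
      rfl

end Pool.Agent.Lib.MP_e005b4_ag.LD
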