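import Pool.Agent.Lib.MP_e005b4_ag.LD.Spec

/-!
# MP_e005b4_ag, LD: quadric surfaces over `L`, explicit forms
-/

set_option autoImplicit false

namespace Pool.Agent.Lib.MP_e005b4_ag.LD

open MvPolynomial

/-- The coefficients of a form of degree `d` give its values. -/
theorem QL_ev_coeff {ι L R : Type} [Fintype ι] [Field L] [CommRing R] [Algebra L R] {d : ℕ}
    (P : MvPolynomial ι L) (hP : P.IsHomogeneous d) (x : ι → R) :
    ev (fun a : Ex ι d => algebraMap L R (coeff a.1 P)) x = aeval x P := by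
  classical
  rw [aeval_def, eval₂_eq']
  unfold ev
  have h1 : ∑ a : Ex ι d, algebraMap L R (coeff a.1 P) * ∏ i, x i ^ (a.1 i) =
      ∑ a ∈ (Finset.univ : Finset (Ex ι d)).map (Function.Embedding.subtype _),
        algebraMap L R (coeff a P) * ∏ i, x i ^ (a i) := by
    rw [Finset.sum_map]
    rfl
  rw [h1]
  symm
  refine Finset.sum_subset ?_ ?_
  · intro a ha
    rw [Finset.mem_map]
    have hd : a.degree = d := by
      have h2 := hP (mem_support_iff.1 ha)
      rw [← h2, Finsupp.degree_eq_weight_one]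
      rfl
    exact ⟨⟨a, hd⟩, Finset.mem_univ _, rfl⟩
  · intro a _ ha
    rw [mem_support_iff, not_not] at ha
    rw [ha, map_zero, zero_mul]

section

variable {L ι : Type} [Field L] [Fintype ι]

/-- The linear form with the coefficients `l`. -/
noncomputable def QL_lin (l : ι → L) : MvPolynomial ι L := ∑ i, C (l i) * X i

theorem QL_lin_hom (l : ι → L) : (QL_lin l).IsHomogeneous 1 := by
  unfold QL_lin
  refine IsHomogeneous.sum _ _ _ fun i _ => ?_
  have h := (isHomogeneous_C ι (l i)).mul (isHomogeneous_X L i)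
  rwa [zero_add] at h

/-- The ring of the three variables. -/
abbrev QL_R (L : Type) [Field L] : Type := MvPolynomial (Unit ⊕ Bool) L

/-- The sign. -/
def QL_e (L : Type) [Field L] (b : Bool) : L := if b then 1 else -1

/-- The point of the family. -/
noncomputable def QL_x (p a1 a2 a3 : ι → L) (b : Bool) (i : ι) : QL_R L :=
  C (p i) + C (QL_e L b) * (X (Sum.inl ()) * C (a1 i) + X (Sum.inr false) * C (a2 i) +
    X (Sum.inr true) * C (a3 i))

theorem QL_aeval_lin (l p a1 a2 a3 : ι → L) (b : Bool) :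
    aeval (QL_x p a1 a2 a3 b) (QL_lin l) =
      C (∑ i, l i * p i) + C (QL_e L b) * (X (Sum.inl ()) * C (∑ i, l i * a1 i) +
        X (Sum.inr false) * C (∑ i, l i * a2 i) + X (Sum.inr true) * C (∑ i, l i * a3 i)) := by
  unfold QL_lin QL_x
  simp only [map_sum, map_mul, aeval_X, algHom_C, algebraMap_eq, Finset.mul_sum,
    ← Finset.sum_add_distrib]
  refine Finset.sum_congr rfl fun i _ => ?_
  ring

/-- The dual linear forms. -/
theorem QL_dual (v : Fin 4 → ι → L) (hv : LinearIndependent L v) :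
    ∃ l : Fin 4 → ι → L, ∀ r t, ∑ i, l r i * v t i = if r = t then 1 else 0 := by
  classical
  have hinj : Function.Injective (Fintype.linearCombination L v) :=
    hv.fintypeLinearCombination_injective
  obtain ⟨g, hg⟩ := LinearMap.exists_leftInverse_of_injective (Fintype.linearCombination L v)
    (LinearMap.ker_eq_bot.2 hinj)
  refine ⟨fun r i => g (Pi.single i 1) r, fun r t => ?_⟩
  have h1 : g (v t) = Pi.single t 1 := by
    have h2 := LinearMap.congr_fun hg (Pi.single t 1)
    rw [LinearMap.comp_apply, Fintype.linearCombination_apply_single, one_smul] at h2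
    exact h2
  have h3 : v t = ∑ i, v t i • (Pi.single i 1 : ι → L) := pi_eq_sum_univ' (v t)
  have h4 : g (v t) r = ∑ i, v t i * g (Pi.single i 1) r := by
    conv_lhs => rw [h3]
    rw [map_sum, Finset.sum_apply]
    refine Finset.sum_congr rfl fun i _ => ?_
    rw [map_smul, Pi.smul_apply, smul_eq_mul]
  rw [Finset.sum_congr rfl fun i _ => mul_comm _ _, ← h4, h1, Pi.single_apply]

/-- The parameters. -/
noncomputable def QL_s (L : Type) [Field L] {N : ℕ} (τ : Fin N × Bool) : L :=
  QL_e L τ.2 * ((τ.1 : ℕ) + 1 : L)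

theorem QL_s_ne [CharZero L] {N : ℕ} (τ : Fin N × Bool) : QL_s L τ ≠ 0 := by
  have h : ((τ.1 : ℕ) + 1 : L) ≠ 0 := Nat.cast_add_one_ne_zero _
  unfold QL_s QL_e
  split_ifs
  · rwa [one_mul]
  · rw [neg_one_mul]
    exact neg_ne_zero.2 h

theorem QL_s_inj [CharZero L] {N : ℕ} {τ τ' : Fin N × Bool} (h : QL_s L τ = QL_s L τ') :
    τ = τ' := by
  obtain ⟨i, b⟩ := τ
  obtain ⟨j, b'⟩ := τ'
  have key : ∀ m n : ℕ, ((m : L) + 1 = n + 1 → m = n) ∧ ((m : L) + 1 ≠ -(n + 1)) := by
    intro m n
    constructor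
    · intro h
      exact_mod_cast add_right_cancel h
    · intro h
      have h1 : ((m + n + 2 : ℕ) : L) = 0 := by
        push_cast
        linear_combination h
      have h2 : m + n + 2 = 0 := by exact_mod_cast h1
      omega
  cases b <;> cases b'
  · simp only [QL_s, QL_e, Bool.false_eq_true, if_false, neg_one_mul, neg_inj] at h
    rw [Fin.ext ((key i j).1 h)]
  · simp only [QL_s, QL_e, Bool.false_eq_true, if_false, if_true, neg_one_mul, one_mul] at h
    exact absurd h.symm (key j i).2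
  · simp only [QL_s, QL_e, Bool.false_eq_true, if_false, if_true, neg_one_mul, one_mul] at h
    exact absurd h (key i j).2
  · simp only [QL_s, QL_e, if_true, one_mul] at h
    rw [Fin.ext ((key i j).1 h)]

/-- The form. -/
noncomputable def QL_P {N : ℕ} (l0 l1 l3 : ι → L) (m : ℕ) (i : Fin N) : MvPolynomial ι L :=
  QL_lin (fun t => l1 t - QL_s L (i, true) * l0 t) * QL_lin l0 ^ m *
      ∏ τ ∈ Finset.univ.erase (i, true), QL_lin (fun t => l1 t - QL_s L τ * l0 t) ^ 2 +
    QL_lin l3 * QL_lin l0 ^ m *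
      ∏ τ ∈ Finset.univ.erase (i, false), QL_lin (fun t => l1 t - QL_s L τ * l0 t) ^ 2

theorem QL_P_hom {v d : ℕ} (hd : 4 * v + 3 ≤ d) (l0 l1 l3 : ι → L) (i : Fin (v + 1)) :
    (QL_P l0 l1 l3 (d - (4 * v + 3)) i).IsHomogeneous d := by
  have hprod : ∀ τ0 : Fin (v + 1) × Bool, (∏ τ ∈ Finset.univ.erase τ0,
      QL_lin (fun t => l1 t - QL_s L τ * l0 t) ^ 2).IsHomogeneous (2 * (2 * v + 1)) := by
    intro τ0
    have h := IsHomogeneous.prod (Finset.univ.erase τ0)
      (fun τ => QL_lin (fun t => l1 t - QL_s L τ * l0 t) ^ 2) (fun _ => 1 * 2)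
      fun τ _ => (QL_lin_hom _).pow 2
    rw [Finset.sum_const, Finset.card_erase_of_mem (Finset.mem_univ _), Finset.card_univ,
      Fintype.card_prod, Fintype.card_fin, Fintype.card_bool, smul_eq_mul] at h
    have he : ((v + 1) * 2 - 1) * (1 * 2) = 2 * (2 * v + 1) := by omega
    rwa [he] at h
  have hdeg : 1 + 1 * (d - (4 * v + 3)) + 2 * (2 * v + 1) = d := by omega
  unfold QL_P
  refine IsHomogeneous.add ?_ ?_
  · have h := ((QL_lin_hom (fun t => l1 t - QL_s L (i, true) * l0 t)).mul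
      ((QL_lin_hom l0).pow (d - (4 * v + 3)))).mul (hprod (i, true))
    rwa [hdeg] at h
  · have h := ((QL_lin_hom l3).mul ((QL_lin_hom l0).pow (d - (4 * v + 3)))).mul (hprod (i, false))
    rwa [hdeg] at h

/-- The factors. -/
noncomputable def QL_W (L : Type) [Field L] {N : ℕ} (b : Bool) (τ : Fin N × Bool) : QL_R L :=
  C (QL_e L b) * X (Sum.inl ()) - C (QL_s L τ)

/-- The restricted form. -/
noncomputable def QL_pol (L : Type) [Field L] {N : ℕ} (b : Bool) (i : Fin N) : QL_R L :=
  QL_W L b (i, true) * ∏ τ ∈ Finset.univ.erase (i, true), QL_W L b τ ^ 2 +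
    C (QL_e L b) * X (Sum.inr true) * ∏ τ ∈ Finset.univ.erase (i, false), QL_W L b τ ^ 2

theorem QL_aeval_P {N : ℕ} (p a1 a2 a3 l0 l1 l3 : ι → L) (m : ℕ)
    (h00 : ∑ i, l0 i * p i = 1) (h01 : ∑ i, l0 i * a1 i = 0) (h02 : ∑ i, l0 i * a2 i = 0)
    (h03 : ∑ i, l0 i * a3 i = 0) (h10 : ∑ i, l1 i * p i = 0) (h11 : ∑ i, l1 i * a1 i = 1)
    (h12 : ∑ i, l1 i * a2 i = 0) (h13 : ∑ i, l1 i * a3 i = 0) (h30 : ∑ i, l3 i * p i = 0)
    (h31 : ∑ i, l3 i * a1 i = 0) (h32 : ∑ i, l3 i * a2 i = 0) (h33 : ∑ i, l3 i * a3 i = 1)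
    (b : Bool) (i : Fin N) :
    aeval (QL_x p a1 a2 a3 b) (QL_P l0 l1 l3 m i) = QL_pol L b i := by
  have e0 : aeval (QL_x p a1 a2 a3 b) (QL_lin l0) = 1 := by
    rw [QL_aeval_lin, h00, h01, h02, h03]
    simp
  have e3 : aeval (QL_x p a1 a2 a3 b) (QL_lin l3) = C (QL_e L b) * X (Sum.inr true) := by
    rw [QL_aeval_lin, h30, h31, h32, h33]
    simp
  have es : ∀ τ : Fin N × Bool,
      aeval (QL_x p a1 a2 a3 b) (QL_lin fun t => l1 t - QL_s L τ * l0 t) = QL_W L b τ := by
    intro τ
    have hs : ∀ (w : ι → L) , ∑ t, (l1 t - QL_s L τ * l0 t) * w t =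
        ∑ t, l1 t * w t - QL_s L τ * ∑ t, l0 t * w t := by
      intro w
      rw [Finset.mul_sum, ← Finset.sum_sub_distrib]
      refine Finset.sum_congr rfl fun t _ => ?_
      ring
    rw [QL_aeval_lin, hs, hs, hs, hs, h00, h01, h02, h03, h10, h11, h12, h13]
    unfold QL_W
    simp only [mul_one, mul_zero, sub_zero, zero_sub, map_neg, map_one, map_zero, add_zero]
    ring
  unfold QL_P QL_pol
  simp only [map_add, map_mul, map_pow, map_prod, e0, e3, es, one_pow, mul_one]

/-- The base points. -/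
noncomputable def QL_z (L : Type) [Field L] {N : ℕ} (i : Fin N) : Unit ⊕ Bool → L :=
  Sum.elim (fun _ => QL_s L (i, true)) fun b => bif b then 0 else (QL_s L (i, true))⁻¹

theorem QL_eval_W {N : ℕ} (i : Fin N) (b : Bool) (τ : Fin N × Bool) :
    eval (QL_z L i) (QL_W L b τ) = QL_s L (i, b) - QL_s L τ := by
  unfold QL_W
  rw [map_sub, map_mul, eval_C, eval_C, eval_X]
  unfold QL_z QL_s QL_e
  simp

theorem QL_van {N : ℕ} (i : Fin N) (b : Bool) (S : Finset (Fin N × Bool)) (h : (i, b) ∈ S)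
    (U : QL_R L) : eval (QL_z L i) (U * ∏ τ ∈ S, QL_W L b τ ^ 2) = 0 ∧
      ∀ k, eval (QL_z L i) (pderiv k (U * ∏ τ ∈ S, QL_W L b τ ^ 2)) = 0 := by
  have h0 : eval (QL_z L i) (QL_W L b (i, b)) = 0 := by rw [QL_eval_W, sub_self]
  rw [← Finset.mul_prod_erase S _ h]
  generalize ∏ τ ∈ S.erase (i, b), QL_W L b τ ^ 2 = Q
  generalize QL_W L b (i, b) = W at h0 ⊢
  constructor
  · rw [map_mul, map_mul, map_pow, h0]
    ring
  · intro k
    have e1 : U * (W ^ 2 * Q) = W * (W * (U * Q)) := by ring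
    rw [e1, pderiv_mul, pderiv_mul]
    simp only [map_add, map_mul, h0]
    ring

theorem QL_grad {N : ℕ} (i : Fin N) (U V : QL_R L) (h : eval (QL_z L i) U = 0)
    (k : Unit ⊕ Bool) : eval (QL_z L i) (pderiv k (U * V)) =
      eval (QL_z L i) (pderiv k U) * eval (QL_z L i) V := by
  rw [pderiv_mul, map_add, map_mul, map_mul, h]
  ring

theorem QL_prod_ne [CharZero L] {N : ℕ} (i : Fin N) (b : Bool) :
    eval (QL_z L i) (∏ τ ∈ Finset.univ.erase (i, b), QL_W L b τ ^ 2) ≠ 0 := by
  rw [map_prod]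
  refine Finset.prod_ne_zero_iff.2 fun τ hτ => ?_
  rw [map_pow, QL_eval_W]
  refine pow_ne_zero 2 (sub_ne_zero.2 fun h => ?_)
  exact (Finset.mem_erase.1 hτ).1 (QL_s_inj h).symm

theorem QL_other {N : ℕ} {i j : Fin N} (hij : i ≠ j) (b : Bool) :
    eval (QL_z L i) (QL_pol L b j) = 0 ∧ ∀ k, eval (QL_z L i) (pderiv k (QL_pol L b j)) = 0 := by
  have h1 := QL_van (L := L) i b (Finset.univ.erase (j, true))
    (Finset.mem_erase.2 ⟨fun h => hij (Prod.ext_iff.1 h).1, Finset.mem_univ _⟩)
    (QL_W L b (j, true))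
  have h2 := QL_van (L := L) i b (Finset.univ.erase (j, false))
    (Finset.mem_erase.2 ⟨fun h => hij (Prod.ext_iff.1 h).1, Finset.mem_univ _⟩)
    (C (QL_e L b) * X (Sum.inr true))
  unfold QL_pol
  constructor
  · rw [map_add, h1.1, h2.1, add_zero]
  · intro k
    rw [map_add, map_add, h1.2 k, h2.2 k, add_zero]

theorem QL_self_true {N : ℕ} (i : Fin N) :
    eval (QL_z L i) (QL_pol L true i) = 0 ∧ ∀ k, eval (QL_z L i) (pderiv k (QL_pol L true i)) =
      (if k = Sum.inl () then 1 else 0) *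
        eval (QL_z L i) (∏ τ ∈ Finset.univ.erase (i, true), QL_W L true τ ^ 2) := by
  have h2 := QL_van (L := L) i true (Finset.univ.erase (i, false))
    (Finset.mem_erase.2 ⟨by simp, Finset.mem_univ _⟩) (C (QL_e L true) * X (Sum.inr true))
  have h0 : eval (QL_z L i) (QL_W L true (i, true)) = 0 := by rw [QL_eval_W, sub_self]
  unfold QL_pol
  constructor
  · rw [map_add, h2.1, map_mul, h0, zero_mul, add_zero]
  · intro k
    rw [map_add, map_add, h2.2 k, add_zero, QL_grad i _ _ h0]
    congr 1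
    unfold QL_W QL_e
    rw [map_sub, pderiv_C, sub_zero, if_pos rfl, C_1, one_mul, pderiv_X]
    by_cases hk : k = Sum.inl ()
    · subst hk
      simp
    · rw [if_neg hk, Pi.single_eq_of_ne (Ne.symm hk), map_zero]

theorem QL_self_false {N : ℕ} (i : Fin N) :
    eval (QL_z L i) (QL_pol L false i) = 0 ∧ ∀ k, eval (QL_z L i) (pderiv k (QL_pol L false i)) =
      (if k = Sum.inr true then -1 else 0) *
        eval (QL_z L i) (∏ τ ∈ Finset.univ.erase (i, false), QL_W L false τ ^ 2) := by
  have h2 := QL_van (L := L) i false (Finset.univ.erase (i, true))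
    (Finset.mem_erase.2 ⟨by simp, Finset.mem_univ _⟩) (QL_W L false (i, true))
  have h0 : eval (QL_z L i) (C (QL_e L false) * X (Sum.inr true)) = 0 := by
    rw [map_mul, eval_X]
    unfold QL_z
    simp
  unfold QL_pol
  constructor
  · rw [map_add, h2.1, map_mul, h0, zero_mul, add_zero]
  · intro k
    rw [map_add, map_add, h2.2 k, zero_add, QL_grad i _ _ h0]
    congr 1
    rw [pderiv_C_mul, pderiv_X]
    unfold QL_e
    by_cases hk : k = Sum.inr true
    · subst hk
      simp
    · rw [if_neg hk, Pi.single_eq_of_ne (Ne.symm hk), mul_zero, map_zero]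

end

theorem lQL (h1 : StCo) : StQL := by
  intro L Ω ι _ _ _ _ _ _ _ d v c hc hd p a1 a2 a3 ε hli
  obtain ⟨l, hl⟩ := QL_dual ![p, a1, a2, a3] hli
  have hl' : ∀ r, ∑ i, l r i * p i = (if r = 0 then 1 else 0) ∧
      ∑ i, l r i * a1 i = (if r = 1 then 1 else 0) ∧
      ∑ i, l r i * a2 i = (if r = 2 then 1 else 0) ∧
      ∑ i, l r i * a3 i = (if r = 3 then 1 else 0) :=
    fun r => ⟨hl r 0, hl r 1, hl r 2, hl r 3⟩
  obtain ⟨h00, h01, h02, h03⟩ := hl' 0
  obtain ⟨h10, h11, h12, h13⟩ := hl' 1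
  obtain ⟨h30, h31, h32, h33⟩ := hl' 3
  have hP : ∀ (b : Bool) (i : Fin (v + 1)),
      ev (fun a : Ex ι d => C (coeff a.1 (QL_P (l 0) (l 1) (l 3) (d - (4 * v + 3)) i)))
        (QL_x p a1 a2 a3 b) = QL_pol L b i := by
    intro b i
    have e1 := QL_ev_coeff (QL_P (l 0) (l 1) (l 3) (d - (4 * v + 3)) i)
      (QL_P_hom hd (l 0) (l 1) (l 3) i) (QL_x p a1 a2 a3 b)
    rw [QL_aeval_P p a1 a2 a3 (l 0) (l 1) (l 3) (d - (4 * v + 3)) (by simpa using h00)
      (by simpa using h01) (by simpa using h02) (by simpa using h03) (by simpa using h10)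
      (by simpa using h11) (by simpa using h12) (by simpa using h13) (by simpa using h30)
      (by simpa using h31) (by simpa using h32) (by simpa using h33) b i] at e1
    exact e1
  have hval : ∀ (b : Bool) (i j : Fin (v + 1)), eval (QL_z L i) (QL_pol L b j) = 0 := by
    intro b i j
    by_cases hij : i = j
    · subst hij
      cases b
      · exact (QL_self_false i).1
      · exact (QL_self_true i).1
    · exact (QL_other hij b).1
  have hs : ∀ i : Fin (v + 1), QL_s L (i, true) ≠ 0 := fun i => QL_s_ne _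
  obtain ⟨ξ, hξ1, hξ2, hξ3⟩ := h1 L Ω ι Unit d v (v + 1) c
    (fun _ => X (Sum.inl ()) * X (Sum.inr false) + C ε * X (Sum.inr true) ^ 2 - 1)
    (QL_x p a1 a2 a3 true) (QL_x p a1 a2 a3 false)
    (fun i a => coeff a.1 (QL_P (l 0) (l 1) (l 3) (d - (4 * v + 3)) i)) (QL_z L) hc
    (Nat.lt_succ_self v)
    (by
      intro i _
      simp only [map_sub, map_add, map_mul, map_pow, eval_X, eval_C, map_one]
      unfold QL_z
      simp only [Sum.elim_inl, Sum.elim_inr, cond_false, cond_true]
      rw [mul_inv_cancel₀ (hs i)]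
      ring)
    (by
      intro i j
      rw [hP]
      exact hval true i j)
    (by
      intro i j
      rw [hP]
      exact hval false i j)
    (by
      intro i j hij k
      rw [hP]
      exact (QL_other hij true).2 k)
    (by
      intro i j hij k
      rw [hP]
      exact (QL_other hij false).2 k)
    (by
      intro i hdet
      obtain ⟨w, hw, hJ⟩ := Matrix.exists_mulVec_eq_zero_iff.2 hdet
      have hrow : ∀ r, ∑ k, jac (sy (fun _ : Unit => X (Sum.inl ()) * X (Sum.inr false) +
          C ε * X (Sum.inr true) ^ 2 - 1) (QL_x p a1 a2 a3 true) (QL_x p a1 a2 a3 false)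
          (fun a => coeff a.1 (QL_P (l 0) (l 1) (l 3) (d - (4 * v + 3)) i))) (QL_z L i) r k *
            w k = 0 := fun r => congrFun hJ r
      have r1 := hrow (Sum.inr true)
      have r2 := hrow (Sum.inr false)
      have r0 := hrow (Sum.inl ())
      simp only [jac, Matrix.of_apply, sy, Sum.elim_inr, Sum.elim_inl, cond_true, cond_false, hP]
        at r0 r1 r2
      simp only [(QL_self_true i).2, Fintype.sum_sum_type, Finset.univ_unique,
        Finset.sum_singleton, Fintype.sum_bool, PUnit.default_eq_unit, if_true, reduceCtorEq,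
        if_false, zero_mul, add_zero, one_mul] at r1
      simp only [(QL_self_false i).2, Fintype.sum_sum_type, Finset.univ_unique,
        Finset.sum_singleton, Fintype.sum_bool, reduceCtorEq, Sum.inr.injEq, Bool.false_eq_true,
        if_true, if_false, zero_mul, add_zero, zero_add] at r2
      have w0 : w (Sum.inl ()) = 0 := (mul_eq_zero.1 r1).resolve_left (QL_prod_ne i true)
      have w2 : w (Sum.inr true) = 0 :=
        (mul_eq_zero.1 r2).resolve_left (mul_ne_zero (neg_ne_zero.2 one_ne_zero)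
          (QL_prod_ne i false))
      simp only [Fintype.sum_sum_type, Finset.univ_unique, Finset.sum_singleton,
        Fintype.sum_bool, PUnit.default_eq_unit, w0, w2, mul_zero, zero_add] at r0
      have e1 : eval (QL_z L i) (pderiv (Sum.inr false) (X (Sum.inl ()) * X (Sum.inr false) +
          C ε * X (Sum.inr true) ^ 2 - 1 : QL_R L)) = QL_s L (i, true) := by
        rw [map_sub, map_add, pderiv_mul, pderiv_C_mul, pderiv_pow, pderiv_X, pderiv_X, pderiv_X,
          ← C_1, pderiv_C]
        simp [QL_z]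
      rw [e1] at r0
      have w1 : w (Sum.inr false) = 0 := (mul_eq_zero.1 r0).resolve_left (hs i)
      apply hw
      funext k
      rcases k with k | k
      · exact w0
      · cases k
        · exact w1
        · exact w2)
  refine ⟨ξ (Sum.inl ()), ξ (Sum.inr false), ξ (Sum.inr true), ?_, ?_, ?_⟩
  · have h2 := hξ1 ()
    simp only [map_sub, map_add, map_mul, map_pow, aeval_X, algHom_C, map_one] at h2
    exact sub_eq_zero.1 h2
  · refine Eq.trans (congrArg (ev c) ?_) hξ2
    funext i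
    simp only [QL_x, QL_e, map_add, map_mul, aeval_X, algHom_C, if_true, map_one, one_mul]
    ring
  · refine Eq.trans (congrArg (ev c) ?_) hξ3
    funext i
    simp only [QL_x, QL_e, map_add, map_mul, aeval_X, algHom_C, Bool.false_eq_true, if_false,
      map_neg, map_one]
    ring

end Pool.Agent.Lib.MP_e005b4_ag.LD
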