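import Pool.Agent.Lib.MP_e005b4_ag.LD.SpecB

/-!
# Sections of large degree: a general weighted polynomial is nonsingular
-/

set_option autoImplicit false

namespace Pool.Agent.Lib.MP_e005b4_ag.LD

open MvPolynomial Pool.Agent.Lib.MP_e005b4_ag Pool.Agent.Lib.MP_e005b4_ag.GP

/-- The weights. -/
private def wtv {n : ℕ} : Option (Fin (n + 1)) → ℕ
  | none => 2
  | some _ => 1

private lemma wtv_sum {n : ℕ} (t : Option (Fin (n + 1)) → ℕ) :
    ∑ s, wtv s * t s = 2 * t none + ∑ i, t (some i) := by
  rw [Fintype.sum_option]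
  simp [wtv]

private lemma wtv_le {n d : ℕ} (hd : 1 ≤ d) (s : Option (Fin (n + 1))) : wtv s ≤ 2 * d := by
  rcases s with _ | i <;> simp only [wtv] <;> omega

private lemma eval_mono {n : ℕ} (z : Option (Fin (n + 1)) → ℂ) (t : Option (Fin (n + 1)) →₀ ℕ)
    (a : ℂ) : eval z (monomial t a) = a * ∏ s, z s ^ t s := by
  rw [eval_monomial, Finsupp.prod_fintype _ _ (fun i => pow_zero _)]

private lemma scal {n : ℕ} (z : Option (Fin (n + 1)) → ℂ) (c : ℂ)
    (t : Option (Fin (n + 1)) →₀ ℕ) :
    ∏ s, (c ^ wtv s * z s) ^ t s = c ^ (∑ s, wtv s * t s) * ∏ s, z s ^ t s := by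
  simp_rw [mul_pow, ← pow_mul]
  rw [Finset.prod_mul_distrib, Finset.prod_pow_eq_pow_sum]

/-- Weighted homogeneity of the value. -/
private lemma scal_eval {n d : ℕ} (z : Option (Fin (n + 1)) → ℂ) (c : ℂ) (t : T1 n d) (a : ℂ) :
    eval (fun s => c ^ wtv s * z s) (monomial t.1 a) = c ^ (2 * d) * eval z (monomial t.1 a) := by
  rw [eval_mono, eval_mono, scal, wtv_sum, t.2]
  ring

/-- Weighted homogeneity of the derivatives. -/
private lemma scal_der {n d : ℕ} (z : Option (Fin (n + 1)) → ℂ) (c : ℂ)
    (t : Option (Fin (n + 1)) →₀ ℕ) (ht : 2 * t none + ∑ i, t (some i) = 2 * d) (a : ℂ)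
    (s : Option (Fin (n + 1))) :
    c ^ wtv s * eval (fun s => c ^ wtv s * z s) (pderiv s (monomial t a)) =
      c ^ (2 * d) * eval z (pderiv s (monomial t a)) := by
  rw [pderiv_monomial, eval_mono, eval_mono, scal]
  by_cases h : t s = 0
  · rw [h]; simp
  · have hle : Finsupp.single s 1 ≤ t := by
      rw [Finsupp.single_le_iff]
      omega
    have h1 : (t - Finsupp.single s 1) + Finsupp.single s 1 = t := tsub_add_cancel_of_le hle
    have h3 : ∑ s', wtv s' * (Finsupp.single s 1 : Option (Fin (n + 1)) →₀ ℕ) s' = wtv s := by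
      rw [Finset.sum_eq_single s]
      · simp
      · intro b _ hb
        rw [Finsupp.single_apply, if_neg (Ne.symm hb), mul_zero]
      · intro h; exact absurd (Finset.mem_univ _) h
    have h2 : wtv s + ∑ s', wtv s' * (t - Finsupp.single s 1 : Option (Fin (n + 1)) →₀ ℕ) s' =
        2 * d := by
      rw [← ht, ← wtv_sum]
      have h4 : ∑ s', wtv s' * t s' = ∑ s', wtv s' *
          ((t - Finsupp.single s 1) + Finsupp.single s 1 : Option (Fin (n + 1)) →₀ ℕ) s' := by
        rw [h1]
      rw [h4]
      simp only [Finsupp.coe_add, Pi.add_apply, mul_add, Finset.sum_add_distrib]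
      rw [h3, add_comm]
    rw [← h2, pow_add]
    ring

private lemma split {T B : Type} [Fintype T] [Fintype B] [DecidableEq T] (β : B → T)
    (hβ : Function.Injective β) (F : T → ℂ) [∀ t, Decidable (t ∈ Set.range β)] :
    ∑ t, F t = (∑ t, if t ∈ Set.range β then 0 else F t) + ∑ s, F (β s) := by
  classical
  have h1 : ∑ s, F (β s) = ∑ t, if t ∈ Set.range β then F t else 0 := by
    rw [← Finset.sum_filter]
    rw [← Finset.sum_image (s := Finset.univ) (g := β) (f := F) (fun x _ y _ h => hβ h)]
    refine Finset.sum_congr ?_ (fun _ _ => rfl)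
    ext t
    simp
  rw [h1, ← Finset.sum_add_distrib]
  refine Finset.sum_congr rfl fun t _ => ?_
  split_ifs <;> simp

/-- The exponents which are solved for. -/
private noncomputable def bet {n d : ℕ} (hd : 1 ≤ d) (i0 : Fin (n + 1))
    (s : Option (Fin (n + 1))) : T1 n d :=
  ⟨Finsupp.single (some i0) (2 * d - wtv s) + Finsupp.single s 1, by
    rw [← wtv_sum]
    simp only [Finsupp.coe_add, Pi.add_apply, mul_add, Finset.sum_add_distrib]
    rw [Finset.sum_eq_single (some i0), Finset.sum_eq_single s]
    · have h5 := wtv_le hd s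
      have h6 : wtv (some i0 : Option (Fin (n + 1))) = 1 := rfl
      rw [Finsupp.single_eq_same, Finsupp.single_eq_same, h6]
      omega
    · intro b _ hb
      rw [Finsupp.single_apply, if_neg (Ne.symm hb), mul_zero]
    · intro h; exact absurd (Finset.mem_univ _) h
    · intro b _ hb
      rw [Finsupp.single_apply, if_neg (Ne.symm hb), mul_zero]
    · intro h; exact absurd (Finset.mem_univ _) h⟩

private lemma bet_apply {n d : ℕ} (hd : 1 ≤ d) (i0 : Fin (n + 1))
    (s t : Option (Fin (n + 1))) (ht : t ≠ some i0) :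
    (bet hd i0 s).1 t = if s = t then 1 else 0 := by
  simp only [bet, Finsupp.coe_add, Pi.add_apply, Finsupp.single_apply]
  rw [if_neg (Ne.symm ht), zero_add]

private lemma bet_inj {n d : ℕ} (hd : 1 ≤ d) (i0 : Fin (n + 1)) :
    Function.Injective (bet (n := n) hd i0) := by
  intro s s' h
  by_contra hne
  by_cases hs : s = some i0
  · have hs' : s' ≠ some i0 := fun h' => hne (hs.trans h'.symm)
    have h1 := bet_apply hd i0 s s' hs'
    have h2 := bet_apply hd i0 s' s' hs'
    rw [h, h2] at h1
    simp [hne] at h1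
  · have h1 := bet_apply hd i0 s s hs
    have h2 := bet_apply hd i0 s' s hs
    rw [h, h2] at h1
    simp [Ne.symm hne] at h1

private lemma bet_mono {n d : ℕ} (hd : 1 ≤ d) (i0 : Fin (n + 1)) (s : Option (Fin (n + 1))) :
    (monomial (bet hd i0 s).1 1 : MvPolynomial (Option (Fin (n + 1))) ℂ) =
      X (some i0) ^ (2 * d - wtv s) * X s := by
  rw [X_pow_eq_monomial, X, monomial_mul, mul_one]
  rfl

private lemma bet_eval {n d : ℕ} (hd : 1 ≤ d) (i0 : Fin (n + 1)) (s : Option (Fin (n + 1)))
    (z : Option (Fin (n + 1)) → ℂ) (hz : z (some i0) = 1) :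
    eval z (monomial (bet hd i0 s).1 1) = z s := by
  rw [bet_mono]
  simp [hz]

private lemma bet_der {n d : ℕ} (hd : 1 ≤ d) (i0 : Fin (n + 1)) (s t : Option (Fin (n + 1)))
    (z : Option (Fin (n + 1)) → ℂ) (hz : z (some i0) = 1) (ht : t ≠ some i0) :
    eval z (pderiv t (monomial (bet hd i0 s).1 1)) = if s = t then 1 else 0 := by
  rw [bet_mono, pderiv_mul, pderiv_pow, pderiv_X_of_ne (Ne.symm ht), mul_zero, zero_mul, zero_add,
    map_mul, map_pow, eval_X, hz, one_pow, one_mul]
  by_cases h : s = t
  · subst h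
    simp
  · rw [pderiv_X_of_ne h]
    simp [h]

/-- The set of singular polynomials with a singular point with nonzero coordinate `some i0`. -/
private lemma main {n d : ℕ} (h1 : StKM) (hd : 1 ≤ d) (i0 : Fin (n + 1)) :
    ∃ Φ : MvPolynomial (T1 n d) ℂ, Φ ≠ 0 ∧ ∀ (g : T1 n d → ℂ) (z : Option (Fin (n + 1)) → ℂ),
      z (some i0) = 1 → eval z (pol g) = 0 → (∀ s, eval z (pderiv s (pol g)) = 0) →
        eval g Φ = 0 := by
  classical
  let β := bet (d := d) hd i0
  have hβ : Function.Injective β := bet_inj hd i0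
  let θ := {t : T1 n d // t ∉ Set.range β} ⊕ {s : Option (Fin (n + 1)) // s ≠ some i0}
  let Z : Option (Fin (n + 1)) → MvPolynomial θ ℂ := fun s =>
    if h : s ≠ some i0 then X (Sum.inr ⟨s, h⟩) else 1
  let G : T1 n d → MvPolynomial θ ℂ := fun t =>
    if h : t ∉ Set.range β then X (Sum.inl ⟨t, h⟩) else 0
  let Dp : (T1 n d → MvPolynomial (Option (Fin (n + 1))) ℂ) → MvPolynomial θ ℂ := fun q =>
    ∑ t, G t * bind₁ Z (q t)
  let m : T1 n d → MvPolynomial (Option (Fin (n + 1))) ℂ := fun t => monomial t.1 1
  let E : Option (Fin (n + 1)) → MvPolynomial θ ℂ := fun s =>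
    if s = some i0 then
      (∑ s', if s' = some i0 then 0 else Dp (fun t => pderiv s' (m t)) * Z s') - Dp m
    else - Dp (fun t => pderiv s (m t))
  have hcard : Fintype.card θ < Fintype.card (T1 n d) := by
    refine Fintype.card_lt_of_injective_of_notMem
      (Sum.elim (fun t => t.1) (fun s => β s.1) : θ → T1 n d) ?_ (b := β (some i0)) ?_
    · rintro (⟨t, ht⟩ | ⟨s, hs⟩) (⟨t', ht'⟩ | ⟨s', hs'⟩) h
      · simp only [Sum.elim_inl] at h
        subst h; rfl
      · simp only [Sum.elim_inl, Sum.elim_inr] at h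
        exact absurd ⟨s', h.symm⟩ ht
      · simp only [Sum.elim_inl, Sum.elim_inr] at h
        exact absurd ⟨s, h⟩ ht'
      · simp only [Sum.elim_inr] at h
        have := hβ h
        subst this; rfl
    · rintro ⟨(⟨t, ht⟩ | ⟨s, hs⟩), h⟩
      · simp only [Sum.elim_inl] at h
        exact ht ⟨_, h.symm⟩
      · simp only [Sum.elim_inr] at h
        exact hs (hβ h)
  obtain ⟨Φ, hΦ, hv⟩ := h1 (T1 n d) θ (Function.extend β E G) hcard
  refine ⟨Φ, hΦ, fun g z hz hf hder => ?_⟩
  let p : θ → ℂ := Sum.elim (fun t => g t.1) (fun s => z s.1)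
  have hZ : ∀ s, eval p (Z s) = z s := by
    intro s
    by_cases h : s = some i0
    · simp only [Z, h, ne_eq, not_true_eq_false, dite_false, map_one, hz]
    · simp only [Z, ne_eq, h, not_false_eq_true, dite_true, eval_X, p, Sum.elim_inr]
  have hG : ∀ t, eval p (G t) = if t ∈ Set.range β then 0 else g t := by
    intro t
    by_cases h : t ∈ Set.range β
    · simp only [G, h, not_true_eq_false, dite_false, map_zero, if_true]
    · simp only [G, h, not_false_eq_true, dite_true, eval_X, p, Sum.elim_inl, if_false]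
  have hDp : ∀ q, eval p (Dp q) + ∑ s, g (β s) * eval z (q (β s)) = ∑ t, g t * eval z (q t) := by
    intro q
    rw [split β hβ (fun t => g t * eval z (q t))]
    congr 1
    simp only [Dp, map_sum, map_mul]
    refine Finset.sum_congr rfl fun t _ => ?_
    have h2 : eval p (bind₁ Z (q t)) = eval z (q t) := by
      have h3 : (fun s => eval p (Z s)) = z := funext hZ
      have h4 := eval₂Hom_bind₁ (RingHom.id ℂ) p Z (q t)
      have h5 : (eval p) (bind₁ Z (q t)) = eval (fun s => eval p (Z s)) (q t) := h4
      rw [h5, h3]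
    rw [hG, h2]
    split_ifs <;> simp
  have hpol : ∀ t, monomial t.1 (g t) = C (g t) * m t := by
    intro t
    simp only [m, C_mul_monomial, mul_one]
  have hval : ∑ t, g t * eval z (m t) = 0 := by
    rw [← hf, pol, map_sum]
    refine Finset.sum_congr rfl fun t _ => ?_
    rw [hpol, map_mul, eval_C]
  have hders : ∀ s, ∑ t, g t * eval z (pderiv s (m t)) = 0 := by
    intro s
    rw [← hder s, pol, map_sum, map_sum]
    refine Finset.sum_congr rfl fun t _ => ?_
    rw [hpol, pderiv_C_mul, map_mul, eval_C]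
  have hB : ∀ s, s ≠ some i0 → g (β s) = - eval p (Dp fun t => pderiv s (m t)) := by
    intro s hs
    have h2 := hDp (fun t => pderiv s (m t))
    rw [hders s] at h2
    have h3 : ∑ s', g (β s') * eval z (pderiv s (m (β s'))) = g (β s) := by
      rw [Finset.sum_eq_single s]
      · have := bet_der hd i0 s s z hz hs
        simp only [if_true] at this
        change g (β s) * eval z (pderiv s (monomial (bet hd i0 s).1 1)) = _
        rw [this, mul_one]
      · intro b _ hb
        have := bet_der hd i0 b s z hz hs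
        rw [if_neg hb] at this
        change g (β b) * eval z (pderiv s (monomial (bet hd i0 b).1 1)) = _
        rw [this, mul_zero]
      · intro h; exact absurd (Finset.mem_univ _) h
    rw [h3] at h2
    linear_combination h2
  have hA : g (β (some i0)) = eval p (E (some i0)) := by
    have h2 := hDp m
    rw [hval] at h2
    have h3 : ∑ s', g (β s') * eval z (m (β s')) = ∑ s', g (β s') * z s' := by
      refine Finset.sum_congr rfl fun s _ => ?_
      have := bet_eval hd i0 s z hz
      change g (β s) * eval z (monomial (bet hd i0 s).1 1) = _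
      rw [this]
    have h4 : ∑ s', g (β s') * z s' = g (β (some i0)) +
        ∑ s', (if s' = some i0 then 0 else g (β s') * z s') := by
      rw [← Finset.add_sum_erase _ _ (Finset.mem_univ (some i0)), hz, mul_one]
      congr 1
      rw [← Finset.add_sum_erase _ (fun s' => if s' = some i0 then 0 else g (β s') * z s')
        (Finset.mem_univ (some i0)), if_pos rfl, zero_add]
      refine Finset.sum_congr rfl fun s hs => ?_
      rw [if_neg (Finset.ne_of_mem_erase hs)]
    have h5 : eval p (E (some i0)) =
        (∑ s', if s' = some i0 then 0 else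
          eval p (Dp fun t => pderiv s' (m t)) * z s') - eval p (Dp m) := by
      simp only [E, if_true, map_sub, map_sum]
      congr 1
      refine Finset.sum_congr rfl fun s _ => ?_
      split_ifs with h
      · simp
      · rw [map_mul, hZ]
    have h6 : ∑ s', (if s' = some i0 then 0 else g (β s') * z s') =
        - ∑ s', (if s' = some i0 then 0 else eval p (Dp fun t => pderiv s' (m t)) * z s') := by
      rw [← Finset.sum_neg_distrib]
      refine Finset.sum_congr rfl fun s _ => ?_
      split_ifs with h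
      · simp
      · rw [hB s h]; ring
    rw [h3, h4, h6] at h2
    rw [h5]
    linear_combination h2
  have hg : (fun s => eval p (Function.extend β E G s)) = g := by
    funext t
    by_cases h : ∃ s, β s = t
    · obtain ⟨s, rfl⟩ := h
      rw [hβ.extend_apply]
      by_cases hs : s = some i0
      · rw [hs, hA]
      · rw [hB s hs]
        simp only [E, hs, if_false, map_neg]
    · rw [Function.extend_apply' _ _ _ h, hG, if_neg]
      exact h
  rw [← hg]
  exact hv p

/-- A general weighted homogeneous polynomial is nonsingular. -/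
theorem lS1 (h1 : StKM) : StS1 := by
  classical
  intro n d hd
  choose Φ hΦ hm using fun i0 : Fin (n + 1) => main (n := n) h1 hd i0
  refine ⟨∏ i, Φ i, Finset.prod_ne_zero_iff.mpr fun i _ => hΦ i, fun g hg => ?_⟩
  rintro z ⟨i0, hi0⟩ hz
  by_contra hcon
  push Not at hcon
  have hgi : eval g (Φ i0) ≠ 0 := by
    rw [map_prod] at hg
    exact (Finset.prod_ne_zero_iff.mp hg) i0 (Finset.mem_univ _)
  apply hgi
  set c : ℂ := z (some i0) with hc
  let z' : Option (Fin (n + 1)) → ℂ := fun s => z s / c ^ wtv s
  have hzz : (fun s => c ^ wtv s * z' s) = z := by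
    funext s
    simp only [z']
    field_simp
  have hc2 : c ^ (2 * d) ≠ 0 := pow_ne_zero _ hi0
  refine hm i0 g z' ?_ ?_ ?_
  · simp only [z', wtv, pow_one]
    exact div_self hi0
  · have h2 : c ^ (2 * d) * eval z' (pol g) = eval z (pol g) := by
      rw [pol, map_sum, map_sum, Finset.mul_sum]
      refine Finset.sum_congr rfl fun t _ => ?_
      rw [← scal_eval, hzz]
    rw [hz] at h2
    exact (mul_eq_zero.mp h2).resolve_left hc2
  · intro s
    have h2 : c ^ (2 * d) * eval z' (pderiv s (pol g)) =
        c ^ wtv s * eval z (pderiv s (pol g)) := by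
      rw [pol, map_sum, map_sum, map_sum, Finset.mul_sum, Finset.mul_sum]
      refine Finset.sum_congr rfl fun t _ => ?_
      rw [← scal_der z' c t.1 t.2, hzz]
    rw [hcon s, mul_zero] at h2
    exact (mul_eq_zero.mp h2).resolve_left hc2

end Pool.Agent.Lib.MP_e005b4_ag.LD
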