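import Pool.Agent.Lib.MP_e005b4_ag.LD.SpecB

/-!
# Sections of large degree: module S2 (general bihomogeneous polynomial is nonsingular)

The coefficients of a polynomial with a singular zero `z`, `z (inl i0) = z (inr j0) = 1`, are the values
of polynomials in `z` and the coefficients outside of a set `B` of `a + b + 1` exponents: solve the
linear equations `f(z) = 0`, `∂ f(z) = 0` for the coefficients in `B`.
-/

set_option autoImplicit false

namespace Pool.Agent.Lib.MP_e005b4_ag.LD

open MvPolynomial Pool.Agent.Lib.MP_e005b4_ag Pool.Agent.Lib.MP_e005b4_ag.GP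

private noncomputable def dm {a b : ℕ} (c : Fin (a + 1) ⊕ Fin (b + 1) →₀ ℕ)
    (s : Fin (a + 1) ⊕ Fin (b + 1)) : Fin (a + 1) ⊕ Fin (b + 1) →₀ ℕ := c - Finsupp.single s 1

private lemma sll {a b : ℕ} (i : Fin (a + 1)) (m : ℕ) :
    ∑ k, (Finsupp.single (Sum.inl i) m : Fin (a + 1) ⊕ Fin (b + 1) →₀ ℕ) (Sum.inl k) = m := by
  classical
  rw [Finset.sum_eq_single i]
  · exact Finsupp.single_eq_same
  · intro k _ hk
    rw [Finsupp.single_apply, if_neg]
    intro h
    exact hk (Sum.inl.inj h).symm
  · intro h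
    exact absurd (Finset.mem_univ _) h

private lemma srr {a b : ℕ} (j : Fin (b + 1)) (m : ℕ) :
    ∑ k, (Finsupp.single (Sum.inr j) m : Fin (a + 1) ⊕ Fin (b + 1) →₀ ℕ) (Sum.inr k) = m := by
  classical
  rw [Finset.sum_eq_single j]
  · exact Finsupp.single_eq_same
  · intro k _ hk
    rw [Finsupp.single_apply, if_neg]
    intro h
    exact hk (Sum.inr.inj h).symm
  · intro h
    exact absurd (Finset.mem_univ _) h

private lemma slr {a b : ℕ} (i : Fin (a + 1)) (m : ℕ) :
    ∑ k, (Finsupp.single (Sum.inl i) m : Fin (a + 1) ⊕ Fin (b + 1) →₀ ℕ) (Sum.inr k) = 0 :=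
  Finset.sum_eq_zero fun k _ => Finsupp.single_eq_of_ne (by simp)

private lemma srl {a b : ℕ} (j : Fin (b + 1)) (m : ℕ) :
    ∑ k, (Finsupp.single (Sum.inr j) m : Fin (a + 1) ⊕ Fin (b + 1) →₀ ℕ) (Sum.inl k) = 0 :=
  Finset.sum_eq_zero fun k _ => Finsupp.single_eq_of_ne (by simp)

private lemma eval_pol2 {a b d e : ℕ} (g : T2 a b d e → ℂ) (z : Fin (a + 1) ⊕ Fin (b + 1) → ℂ) :
    eval z (pol g) = ∑ t, g t * ∏ r, z r ^ t.1 r := by
  rw [pol, map_sum]
  refine Finset.sum_congr rfl fun t _ => ?_
  rw [eval_monomial, Finsupp.prod_fintype _ _ (fun _ => pow_zero _)]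

private lemma eval_dpol2 {a b d e : ℕ} (g : T2 a b d e → ℂ) (z : Fin (a + 1) ⊕ Fin (b + 1) → ℂ)
    (s : Fin (a + 1) ⊕ Fin (b + 1)) :
    eval z (pderiv s (pol g)) =
      ∑ t, g t * (t.1 s : ℂ) * ∏ r, z r ^ dm t.1 s r := by
  rw [pol, map_sum, map_sum]
  refine Finset.sum_congr rfl fun t _ => ?_
  rw [pderiv_monomial, eval_monomial, Finsupp.prod_fintype _ _ (fun _ => pow_zero _)]
  rfl

/-- scaling -/
private lemma prod_scale {a b : ℕ} (c : Fin (a + 1) ⊕ Fin (b + 1) → ℕ)
    (z : Fin (a + 1) ⊕ Fin (b + 1) → ℂ) (x y : ℂ) :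
    ∏ r, (z r * Sum.elim (fun _ => x) (fun _ => y) r) ^ c r =
      (∏ r, z r ^ c r) * (x ^ (∑ i, c (Sum.inl i)) * y ^ (∑ j, c (Sum.inr j))) := by
  simp only [mul_pow, Finset.prod_mul_distrib, Fintype.prod_sum_type, Sum.elim_inl, Sum.elim_inr,
    Finset.prod_pow_eq_pow_sum]

/-- the chosen exponents -/
private noncomputable def Bx {a b : ℕ} (d : ℕ) (i0 : Fin (a + 1)) (j0 : Fin (b + 1)) :
    Fin (a + 1) ⊕ Fin (b + 1) → (Fin (a + 1) ⊕ Fin (b + 1) →₀ ℕ)
  | Sum.inl i => Finsupp.single (Sum.inl i0) (d - 1) + Finsupp.single (Sum.inl i) 1 +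
      Finsupp.single (Sum.inr j0) d
  | Sum.inr j => Finsupp.single (Sum.inl i0) d + Finsupp.single (Sum.inr j0) (d - 1) +
      Finsupp.single (Sum.inr j) 1

private def bs {a b : ℕ} (i0 : Fin (a + 1)) (j0 : Fin (b + 1)) :
    Fin (a + 1) ⊕ Fin (b + 1) → Fin (a + 1) ⊕ Fin (b + 1) :=
  Sum.elim (fun _ => Sum.inl i0) (fun _ => Sum.inr j0)

private lemma Bx_mem {a b : ℕ} {d : ℕ} (hd : 1 ≤ d) (i0 : Fin (a + 1)) (j0 : Fin (b + 1))
    (s : Fin (a + 1) ⊕ Fin (b + 1)) :
    ∑ i, Bx d i0 j0 s (Sum.inl i) = d ∧ ∑ j, Bx d i0 j0 s (Sum.inr j) = d := by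
  rcases s with i | j
  · constructor
    · simp only [Bx, Finsupp.add_apply, Finset.sum_add_distrib, sll, srl]
      omega
    · simp only [Bx, Finsupp.add_apply, Finset.sum_add_distrib, slr, srr]
      omega
  · constructor
    · simp only [Bx, Finsupp.add_apply, Finset.sum_add_distrib, sll, srl]
      omega
    · simp only [Bx, Finsupp.add_apply, Finset.sum_add_distrib, slr, srr]
      omega

private lemma Bx_other {a b : ℕ} (d : ℕ) (i0 : Fin (a + 1)) (j0 : Fin (b + 1))
    (s r : Fin (a + 1) ⊕ Fin (b + 1)) (h1 : r ≠ Sum.inl i0) (h2 : r ≠ Sum.inr j0) :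
    Bx d i0 j0 s r = if s = r then 1 else 0 := by
  rcases s with i | j
  · simp [Bx, Finsupp.single_apply, h1.symm, h2.symm]
  · simp [Bx, Finsupp.single_apply, h1.symm, h2.symm]

theorem lS2 (h1 : StKM) : StS2 := by
  classical
  intro a b d hd
  have key : ∀ (i0 : Fin (a + 1)) (j0 : Fin (b + 1)), ∃ Φ : MvPolynomial (T2 a b d d) ℂ, Φ ≠ 0 ∧
      ∀ g : T2 a b d d → ℂ, eval g Φ ≠ 0 → ∀ z : Fin (a + 1) ⊕ Fin (b + 1) → ℂ,
        z (Sum.inl i0) ≠ 0 → z (Sum.inr j0) ≠ 0 → eval z (pol g) = 0 →
        ∃ s, eval z (pderiv s (pol g)) ≠ 0 := by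
    intro i0 j0
    -- the exponents
    let B : Fin (a + 1) ⊕ Fin (b + 1) → T2 a b d d := fun s => ⟨Bx d i0 j0 s, Bx_mem hd i0 j0 s⟩
    have hne : ∀ s, s ≠ bs i0 j0 s → s ≠ Sum.inl i0 ∧ s ≠ Sum.inr j0 := by
      intro s hs
      constructor
      · rintro rfl
        exact hs rfl
      · rintro rfl
        exact hs rfl
    have hB1 : ∀ s, s ≠ bs i0 j0 s → (B s).1 s = 1 := by
      intro s hs
      show Bx d i0 j0 s s = 1
      rw [Bx_other d i0 j0 s s (hne s hs).1 (hne s hs).2, if_pos rfl]
    have hB0 : ∀ s, s ≠ bs i0 j0 s → ∀ s', s' ≠ s → (B s').1 s = 0 := by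
      intro s hs s' hss
      show Bx d i0 j0 s' s = 0
      rw [Bx_other d i0 j0 s' s (hne s hs).1 (hne s hs).2, if_neg hss]
    -- the parameters
    let P : T2 a b d d → Prop := fun t => t ∈ Set.range B
    let θ : Type := {t : T2 a b d d // ¬ P t} ⊕ {s : Fin (a + 1) ⊕ Fin (b + 1) // s ≠ bs i0 j0 s}
    let ζ : Fin (a + 1) ⊕ Fin (b + 1) → MvPolynomial θ ℂ := fun s =>
      if h : s ≠ bs i0 j0 s then X (Sum.inr ⟨s, h⟩) else 1
    let γ : T2 a b d d → MvPolynomial θ ℂ := fun t =>
      if h : ¬ P t then X (Sum.inl ⟨t, h⟩) else 0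
    let D : Fin (a + 1) ⊕ Fin (b + 1) → MvPolynomial θ ℂ := fun s =>
      ∑ t, γ t * C (t.1 s : ℂ) * ∏ r, ζ r ^ dm t.1 s r
    let ψ' : T2 a b d d → MvPolynomial θ ℂ := fun t =>
      if h : ¬ P t then X (Sum.inl ⟨t, h⟩) else
        - ∑ s, if s ≠ bs i0 j0 s then C (t.1 s : ℂ) * D s else 0
    let B0 : T2 a b d d := B (Sum.inl i0)
    let ψ : T2 a b d d → MvPolynomial θ ℂ := fun t =>
      if t = B0 then - ∑ t' ∈ Finset.univ.erase B0, ψ' t' * ∏ r, ζ r ^ t'.1 r else ψ' t
    have hcard : Fintype.card θ < Fintype.card (T2 a b d d) := by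
      have e1 : Fintype.card θ = Fintype.card {t : T2 a b d d // ¬ P t} +
          Fintype.card {s : Fin (a + 1) ⊕ Fin (b + 1) // s ≠ bs i0 j0 s} := Fintype.card_sum
      have e2 : Fintype.card (T2 a b d d) = Fintype.card {t : T2 a b d d // P t} +
          Fintype.card {t : T2 a b d d // ¬ P t} := by
        rw [← Fintype.card_sum]
        exact Fintype.card_congr (Equiv.sumCompl P).symm
      have e3 : Fintype.card {s : Fin (a + 1) ⊕ Fin (b + 1) // s ≠ bs i0 j0 s} <
          Fintype.card {t : T2 a b d d // P t} := by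
        refine Fintype.card_lt_of_injective_of_notMem
          (fun s => (⟨B s.1, s.1, rfl⟩ : {t : T2 a b d d // P t})) ?_
          (b := ⟨B0, Sum.inl i0, rfl⟩) ?_
        · intro s s' hss
          have h2 : B s.1 = B s'.1 := congrArg Subtype.val hss
          by_contra hc
          have h3 : s'.1 ≠ s.1 := fun h => hc (Subtype.ext h.symm)
          have h4 := hB0 s.1 s.2 s'.1 h3
          rw [← h2, hB1 s.1 s.2] at h4
          exact one_ne_zero h4
        · rintro ⟨s, hs⟩
          have h2 : B s.1 = B0 := congrArg Subtype.val hs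
          have h4 := hB0 s.1 s.2 (Sum.inl i0) (hne s.1 s.2).1.symm
          have h5 := hB1 s.1 s.2
          rw [h2] at h5
          rw [h5] at h4
          exact one_ne_zero h4
      omega
    obtain ⟨Φ, hΦ, hv⟩ := h1 (T2 a b d d) θ ψ hcard
    refine ⟨Φ, hΦ, ?_⟩
    intro g hg z hz1 hz2 hz0
    by_contra hcon
    push Not at hcon
    apply hg
    -- the normalised point
    set x : ℂ := (z (Sum.inl i0))⁻¹ with hx
    set y : ℂ := (z (Sum.inr j0))⁻¹ with hy
    set w : Fin (a + 1) ⊕ Fin (b + 1) → ℂ := fun r => z r * Sum.elim (fun _ => x) (fun _ => y) r with hw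
    have hw1 : w (Sum.inl i0) = 1 := by
      rw [hw]
      simp only [Sum.elim_inl]
      exact mul_inv_cancel₀ hz1
    have hw2 : w (Sum.inr j0) = 1 := by
      rw [hw]
      simp only [Sum.elim_inr]
      exact mul_inv_cancel₀ hz2
    have hwb : ∀ s, ¬ s ≠ bs i0 j0 s → w s = 1 := by
      intro s hs
      rw [not_not] at hs
      rcases s with i | j
      · rw [hs]
        exact hw1
      · rw [hs]
        exact hw2
    have hone : ∀ c : Fin (a + 1) ⊕ Fin (b + 1) →₀ ℕ,
        (∀ r, r ≠ Sum.inl i0 → r ≠ Sum.inr j0 → c r = 0) → ∏ r, w r ^ c r = 1 := by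
      intro c hc
      refine Finset.prod_eq_one fun r _ => ?_
      by_cases h2 : r = Sum.inl i0
      · rw [h2, hw1, one_pow]
      by_cases h3 : r = Sum.inr j0
      · rw [h3, hw2, one_pow]
      rw [hc r h2 h3, pow_zero]
    -- the equations
    have E0 : ∑ t, g t * ∏ r, w r ^ t.1 r = 0 := by
      have h2 : ∀ t : T2 a b d d, g t * ∏ r, w r ^ t.1 r =
          (g t * ∏ r, z r ^ t.1 r) * (x ^ d * y ^ d) := by
        intro t
        rw [hw, prod_scale, t.2.1, t.2.2]
        ring
      rw [Finset.sum_congr rfl fun t _ => h2 t, ← Finset.sum_mul, ← eval_pol2, hz0, zero_mul]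
    have Es : ∀ s, ∑ t, g t * (t.1 s : ℂ) * ∏ r, w r ^ dm t.1 s r = 0 := by
      intro s
      obtain ⟨κ, hκ⟩ : ∃ κ : ℂ, ∀ t : T2 a b d d, g t * (t.1 s : ℂ) *
          ∏ r, w r ^ dm t.1 s r =
          (g t * (t.1 s : ℂ) * ∏ r, z r ^ dm t.1 s r) * κ := by
        rcases s with i | j
        · refine ⟨x ^ (d - 1) * y ^ d, fun t => ?_⟩
          by_cases ht : t.1 (Sum.inl i) = 0
          · rw [ht]
            simp
          have hle : Finsupp.single (Sum.inl i) 1 ≤ t.1 :=
            Finsupp.single_le_iff.2 (Nat.one_le_iff_ne_zero.2 ht)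
          have h5 : dm t.1 (Sum.inl i) + Finsupp.single (Sum.inl i) 1 = t.1 :=
            tsub_add_cancel_of_le hle
          have h3 : ∑ k, dm t.1 (Sum.inl i) (Sum.inl k) = d - 1 := by
            have h4 := t.2.1
            rw [← h5] at h4
            simp only [Finsupp.add_apply, Finset.sum_add_distrib] at h4
            rw [sll] at h4
            omega
          have h4 : ∑ k, dm t.1 (Sum.inl i) (Sum.inr k) = d := by
            have h4 := t.2.2
            rw [← h5] at h4
            simp only [Finsupp.add_apply, Finset.sum_add_distrib] at h4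
            rw [slr] at h4
            omega
          rw [hw, prod_scale, h3, h4]
          ring
        · refine ⟨x ^ d * y ^ (d - 1), fun t => ?_⟩
          by_cases ht : t.1 (Sum.inr j) = 0
          · rw [ht]
            simp
          have hle : Finsupp.single (Sum.inr j) 1 ≤ t.1 :=
            Finsupp.single_le_iff.2 (Nat.one_le_iff_ne_zero.2 ht)
          have h5 : dm t.1 (Sum.inr j) + Finsupp.single (Sum.inr j) 1 = t.1 :=
            tsub_add_cancel_of_le hle
          have h3 : ∑ k, dm t.1 (Sum.inr j) (Sum.inl k) = d := by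
            have h4 := t.2.1
            rw [← h5] at h4
            simp only [Finsupp.add_apply, Finset.sum_add_distrib] at h4
            rw [srl] at h4
            omega
          have h4 : ∑ k, dm t.1 (Sum.inr j) (Sum.inr k) = d - 1 := by
            have h4 := t.2.2
            rw [← h5] at h4
            simp only [Finsupp.add_apply, Finset.sum_add_distrib] at h4
            rw [srr] at h4
            omega
          rw [hw, prod_scale, h3, h4]
          ring
      rw [Finset.sum_congr rfl fun t _ => hκ t, ← Finset.sum_mul, ← eval_dpol2, hcon s, zero_mul]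
    -- the value of the parameters
    let p : θ → ℂ := Sum.elim (fun t => g t.1) (fun s => w s.1)
    have pζ : ∀ s, eval p (ζ s) = w s := by
      intro s
      by_cases hs : s ≠ bs i0 j0 s
      · show eval p (if h : s ≠ bs i0 j0 s then X (Sum.inr ⟨s, h⟩) else 1) = w s
        rw [dif_pos hs, eval_X]
        rfl
      · show eval p (if h : s ≠ bs i0 j0 s then X (Sum.inr ⟨s, h⟩) else 1) = w s
        rw [dif_neg hs, map_one, hwb s hs]
    have pγ : ∀ t, eval p (γ t) = if P t then 0 else g t := by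
      intro t
      by_cases ht : P t
      · show eval p (if h : ¬ P t then X (Sum.inl ⟨t, h⟩) else 0) = _
        rw [dif_neg (not_not.2 ht), if_pos ht, map_zero]
      · show eval p (if h : ¬ P t then X (Sum.inl ⟨t, h⟩) else 0) = _
        rw [dif_pos ht, if_neg ht, eval_X]
        rfl
    have pD : ∀ s, s ≠ bs i0 j0 s → eval p (D s) = - g (B s) := by
      intro s hs
      have h2 : eval p (D s) = ∑ t, (if P t then 0 else g t) * (t.1 s : ℂ) *
          ∏ r, w r ^ dm t.1 s r := by
        show eval p (∑ t, γ t * C (t.1 s : ℂ) * ∏ r, ζ r ^ dm t.1 s r) = _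
        rw [map_sum]
        refine Finset.sum_congr rfl fun t _ => ?_
        rw [map_mul, map_mul, pγ, eval_C, map_prod]
        congr 1
        exact Finset.prod_congr rfl fun r _ => by rw [map_pow, pζ]
      have h3 : ∑ t, (if P t then g t else 0) * (t.1 s : ℂ) *
          ∏ r, w r ^ dm t.1 s r = g (B s) := by
        rw [Finset.sum_eq_single (B s)]
        · rw [if_pos ⟨s, rfl⟩, hB1 s hs, hone]
          · simp
          · intro r hr1 hr2
            rw [dm, Finsupp.tsub_apply]
            show Bx d i0 j0 s r - _ = 0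
            rw [Bx_other d i0 j0 s r hr1 hr2, Finsupp.single_apply]
            exact Nat.sub_self _
        · intro t _ ht
          by_cases hP : P t
          · obtain ⟨s', rfl⟩ := hP
            have : s' ≠ s := fun h => ht (by rw [h])
            rw [hB0 s hs s' this]
            simp
          · rw [if_neg hP]
            simp
        · intro h
          exact absurd (Finset.mem_univ _) h
      have h4 := Es s
      have h5 : ∑ t, (if P t then 0 else g t) * (t.1 s : ℂ) *
          ∏ r, w r ^ dm t.1 s r + ∑ t, (if P t then g t else 0) * (t.1 s : ℂ) *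
          ∏ r, w r ^ dm t.1 s r = 0 := by
        refine Eq.trans ?_ h4
        rw [← Finset.sum_add_distrib]
        refine Finset.sum_congr rfl fun t _ => ?_
        split_ifs <;> ring
      rw [h2]
      rw [h3] at h5
      linear_combination h5
    have pψ' : ∀ t, t ≠ B0 → eval p (ψ' t) = g t := by
      intro t ht
      by_cases hP : P t
      · show eval p (if h : ¬ P t then X (Sum.inl ⟨t, h⟩) else
          - ∑ s, if s ≠ bs i0 j0 s then C (t.1 s : ℂ) * D s else 0) = g t
        rw [dif_neg (not_not.2 hP)]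
        obtain ⟨s, rfl⟩ := hP
        have hs : s ≠ bs i0 j0 s := by
          intro hs
          apply ht
          rcases s with i | j
          · rw [hs]
            rfl
          · rw [hs]
            apply Subtype.ext
            show Finsupp.single (Sum.inl i0) d + Finsupp.single (Sum.inr j0) (d - 1) +
              Finsupp.single (Sum.inr j0) 1 = Finsupp.single (Sum.inl i0) (d - 1) +
              Finsupp.single (Sum.inl i0) 1 + Finsupp.single (Sum.inr j0) d
            rw [add_assoc, ← Finsupp.single_add, ← Finsupp.single_add, Nat.sub_add_cancel hd]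
        rw [map_neg, map_sum, Finset.sum_eq_single s]
        · rw [if_pos hs, map_mul, eval_C, hB1 s hs, pD s hs]
          simp
        · intro s' _ hss
          by_cases hs' : s' ≠ bs i0 j0 s'
          · rw [if_pos hs', hB0 s' hs' s hss.symm]
            simp
          · rw [if_neg hs', map_zero]
        · intro h
          exact absurd (Finset.mem_univ _) h
      · show eval p (if h : ¬ P t then X (Sum.inl ⟨t, h⟩) else
          - ∑ s, if s ≠ bs i0 j0 s then C (t.1 s : ℂ) * D s else 0) = g t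
        rw [dif_pos hP, eval_X]
        rfl
    have pψ : (fun t => eval p (ψ t)) = g := by
      funext t
      by_cases ht : t = B0
      · show eval p (if t = B0 then - ∑ t' ∈ Finset.univ.erase B0, ψ' t' * ∏ r, ζ r ^ t'.1 r
          else ψ' t) = g t
        rw [if_pos ht, map_neg, map_sum]
        have h2 : ∑ t' ∈ Finset.univ.erase B0, eval p (ψ' t' * ∏ r, ζ r ^ t'.1 r) =
            ∑ t' ∈ Finset.univ.erase B0, g t' * ∏ r, w r ^ t'.1 r := by
          refine Finset.sum_congr rfl fun t' ht' => ?_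
          rw [map_mul, pψ' t' (Finset.ne_of_mem_erase ht'), map_prod]
          congr 1
          exact Finset.prod_congr rfl fun r _ => by rw [map_pow, pζ]
        have h3 := Finset.add_sum_erase Finset.univ
          (fun t : T2 a b d d => g t * ∏ r, w r ^ t.1 r) (Finset.mem_univ B0)
        rw [E0] at h3
        have h4 : ∏ r, w r ^ B0.1 r = 1 := by
          refine hone _ fun r hr1 hr2 => ?_
          show Bx d i0 j0 (Sum.inl i0) r = 0
          rw [Bx_other d i0 j0 _ r hr1 hr2, if_neg hr1.symm]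
        rw [h2, ht]
        simp only [h4] at h3
        linear_combination -h3
      · show eval p (if t = B0 then - ∑ t' ∈ Finset.univ.erase B0, ψ' t' * ∏ r, ζ r ^ t'.1 r
          else ψ' t) = g t
        rw [if_neg ht]
        exact pψ' t ht
    have := hv p
    rw [pψ] at this
    exact this
  choose Φ hΦ0 hΦ using key
  refine ⟨∏ i0, ∏ j0, Φ i0 j0, ?_, ?_⟩
  · exact Finset.prod_ne_zero_iff.2 fun i _ => Finset.prod_ne_zero_iff.2 fun j _ => hΦ0 i j
  · intro g hg z hz h0
    obtain ⟨⟨i, hi⟩, ⟨j, hj⟩⟩ := hz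
    rw [map_prod] at hg
    have h2 := Finset.prod_ne_zero_iff.1 hg i (Finset.mem_univ i)
    rw [map_prod] at h2
    have h3 := Finset.prod_ne_zero_iff.1 h2 j (Finset.mem_univ j)
    exact hΦ i j g h3 z hi hj h0

end Pool.Agent.Lib.MP_e005b4_ag.LD
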