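import Pool.Agent.Lib.MP_e005b4_ag.LD.Spec

/-!
# Sections of large degree: the cones
-/

set_option autoImplicit false

namespace Pool.Agent.Lib.MP_e005b4_ag.LD

open MvPolynomial Pool.Agent.Lib.MP_e005b4_ag Pool.Agent.Lib.MP_e005b4_ag.GP

private theorem Se_ev {ι : Type} [Fintype ι] {d : ℕ} {F : MvPolynomial ι ℂ}
    (hF : F.IsHomogeneous d) (x : ι → ℂ) :
    ev (fun a : Ex ι d => coeff a.1 F) x = eval x F := by
  classical
  rw [ev, MvPolynomial.eval_eq']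
  have h1 : (∑ a : Ex ι d, coeff a.1 F * ∏ i, x i ^ (a.1 i)) =
      ∑ a ∈ (Finset.univ : Finset (Ex ι d)).map (Function.Embedding.subtype _),
        coeff a F * ∏ i, x i ^ (a i) := by
    rw [Finset.sum_map]
    rfl
  rw [h1]
  symm
  apply Finset.sum_subset
  · intro a ha
    rw [Finset.mem_map]
    refine ⟨⟨a, ?_⟩, Finset.mem_univ _, rfl⟩
    have h2 := hF (mem_support_iff.mp ha)
    rw [Finsupp.degree_eq_weight_one]
    exact h2
  · intro a _ ha
    rw [notMem_support_iff.mp ha, zero_mul]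

private theorem Se_two {ι : Type} (K : Set (ι → ℂ)) (p : ι → ℂ) :
    p ∈ Sr K 2 ↔ ∃ x ∈ K, ∃ y ∈ K, p = x + y := by
  constructor
  · rintro ⟨z, hz, rfl⟩
    exact ⟨z 0, hz 0, z 1, hz 1, by rw [Fin.sum_univ_two]⟩
  · rintro ⟨x, hx, y, hy, rfl⟩
    refine ⟨![x, y], ?_, ?_⟩
    · intro l
      fin_cases l
      · exact hx
      · exact hy
    · rw [Fin.sum_univ_two]
      rfl

private theorem Se_succ {ι : Type} (K : Set (ι → ℂ)) (r : ℕ) (p : ι → ℂ) :
    p ∈ Sr K (r + 1) ↔ ∃ x ∈ Sr K r, ∃ y ∈ K, p = x + y := by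
  constructor
  · rintro ⟨z, hz, rfl⟩
    exact ⟨_, ⟨fun l => z l.castSucc, fun l => hz _, rfl⟩, z (Fin.last r), hz _,
      by rw [Fin.sum_univ_castSucc]⟩
  · rintro ⟨x, ⟨z, hz, rfl⟩, y, hy, rfl⟩
    refine ⟨Fin.snoc z y, ?_, ?_⟩
    · intro l
      refine Fin.lastCases ?_ (fun l => ?_) l
      · simpa using hy
      · simpa using hz l
    · rw [Fin.sum_univ_castSucc]
      simp

theorem lSe (h1 : StQd) (h2 : StLd) : StSe := by
  intro ι _ d hd
  obtain ⟨Φ1, hΦ1, hq⟩ := h1 ι d hd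
  obtain ⟨Φ2, hΦ2, hl⟩ := h2 ι d (by omega)
  refine ⟨Φ1 * Φ2, mul_ne_zero hΦ1 hΦ2, ?_⟩
  intro F hF hΦ K hK hline hquad
  rw [map_mul] at hΦ
  have hA := hq _ (left_ne_zero_of_mul hΦ)
  have hB := hl _ (right_ne_zero_of_mul hΦ)
  simp only [Se_ev hF] at hA hB
  have hd0 : d ≠ 0 := by omega
  set K' : Set (ι → ℂ) := {x | x ∈ K ∧ eval x F = 0} with hK'
  have hsm : ∀ y ∈ K', ∀ c : ℂ, c • y ∈ K' := by
    intro y hy c
    exact ⟨hK.smul y hy.1 c, by rw [eval_smul_hom hF, hy.2, mul_zero]⟩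
  have hz0 : (0 : ι → ℂ) ∈ K' := by
    refine ⟨hK.zero, ?_⟩
    have h := eval_smul_hom hF (0 : ℂ) (0 : ι → ℂ)
    rw [zero_smul, zero_pow hd0, zero_mul] at h
    exact h
  have hhalf : ∀ p x y : ι → ℂ, x ∈ K' → y ∈ K' → x + y = (2 : ℂ) • p → p ∈ Sr K' 2 := by
    intro p x y hx hy hxy
    rw [Se_two]
    refine ⟨(1 / 2 : ℂ) • x, hsm x hx _, (1 / 2 : ℂ) • y, hsm y hy _, ?_⟩
    rw [← smul_add, hxy, smul_smul]
    norm_num
  have key : ∀ p ∈ Sr K 2, p ∈ Sr K' 2 := by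
    intro p hp
    by_cases hp0 : p = 0
    · rw [hp0, Se_two]
      exact ⟨0, hz0, 0, hz0, by rw [add_zero]⟩
    by_cases hpK : p ∈ K
    · obtain ⟨a, ha, hspan⟩ := hline p hpK hp0
      obtain ⟨ξ0, ξ1, e1, e2⟩ := hB p a ha
      refine hhalf p _ _ ⟨hspan _ _, e1⟩ ⟨?_, e2⟩ ?_
      · have h := hspan (1 - ξ0) (-ξ1)
        rw [neg_smul, ← sub_eq_add_neg] at h
        exact h
      · funext i
        simp only [Pi.add_apply, Pi.sub_apply, Pi.smul_apply, smul_eq_mul]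
        ring
    · obtain ⟨a1, a2, a3, ε, hlin, hspan⟩ := hquad p hp hpK
      obtain ⟨ξ0, ξ1, ξ2, e0, e1, e2⟩ := hA p a1 a2 a3 ε hlin
      refine hhalf p _ _ ⟨?_, e1⟩ ⟨?_, e2⟩ ?_
      · have h := hspan 1 ξ0 ξ1 ξ2 (by rw [e0]; norm_num)
        rw [one_smul] at h
        exact h
      · have h := hspan 1 (-ξ0) (-ξ1) (-ξ2) (by
          have h3 : -ξ0 * -ξ1 + ε * (-ξ2) ^ 2 = ξ0 * ξ1 + ε * ξ2 ^ 2 := by ring
          rw [h3, e0]; norm_num)
        have h4 : (1 : ℂ) • p + -ξ0 • a1 + -ξ1 • a2 + -ξ2 • a3 =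
            p - ξ0 • a1 - ξ1 • a2 - ξ2 • a3 := by
          funext i
          simp only [Pi.add_apply, Pi.sub_apply, Pi.smul_apply, smul_eq_mul]
          ring
        rw [h4] at h
        exact h
      · funext i
        simp only [Pi.add_apply, Pi.sub_apply, Pi.smul_apply, smul_eq_mul]
        ring
  intro r hr
  apply Set.Subset.antisymm
  · rintro v ⟨z, hz, rfl⟩
    exact ⟨z, fun l => (hz l).1, rfl⟩
  · induction r, hr using Nat.le_induction with
    | base => exact key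
    | succ r hr ih =>
        intro p hp
        rw [Se_succ] at hp
        obtain ⟨x, hx, y, hy, rfl⟩ := hp
        have hx' := ih hx
        obtain ⟨r', rfl⟩ : ∃ r', r = r' + 1 := ⟨r - 1, by omega⟩
        rw [Se_succ] at hx'
        obtain ⟨x', hx'', u, hu, rfl⟩ := hx'
        have h3 : u + y ∈ Sr K 2 := by
          rw [Se_two]
          exact ⟨u, hu.1, y, hy, rfl⟩
        have h4 := key _ h3
        rw [Se_two] at h4
        obtain ⟨a, ha, b, hb, hab⟩ := h4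
        rw [Se_succ]
        refine ⟨x' + a, ?_, b, hb, ?_⟩
        · rw [Se_succ]
          exact ⟨x', hx'', a, ha, rfl⟩
        · rw [add_assoc, hab, add_assoc]

end Pool.Agent.Lib.MP_e005b4_ag.LD
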