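import Pool.Agent.Lib.MP_e005b4_ag.LD.Defs

/-!
# Sections of large degree: statements of the core modules

Each statement `StX` is proved in the module `LD/X.lean` as `theorem lX : StX` (`lNw`, `lUn`, ...);
the other statements used in the proof are hypotheses of that theorem, for example
`theorem lCo (h1 : StNw) (h2 : StUn) (h3 : StGr) : StCo`. All modules are independent.
`Ex ι d`: exponents of degree `d`; `ev c x`: the value at `x` of the form with the coefficients `c`;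
`sy q x y g`: the system `q = 0`, `F_g(x) = 0`, `F_g(y) = 0`; `jac`: Jacobian matrix; `BigTr L c v`: the
family `c` has transcendence degree at least `card S - v` over `L`. See `LD/Defs.lean`.
-/

set_option autoImplicit false

namespace Pool.Agent.Lib.MP_e005b4_ag.LD

open MvPolynomial Pool.Agent.Lib.MP_e005b4_ag Pool.Agent.Lib.MP_e005b4_ag.GP
open scoped LinearAlgebra.Projectivization

/-- **Nw.** A transversal zero modulo `𝔪` excludes constants in the ideal of the equations.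
PROOF. (0) Taylor: if `h i ∈ I` for all `i` then `eval (x + h) F - eval x F - ∑ i, eval x (∂_i F) * h i`
is in `I ^ 2` and `eval (x + h) F - eval x F ∈ I` (`MvPolynomial.induction_on`: constants, sums, products
with a variable). (1) For every `k ≥ 1` there is `z_k` with `z_k i - z i ∈ 𝔪` and
`eval z_k (f j) ∈ 𝔪 ^ k`: `z_1 = z`; given `z_k` put `b = (eval z_k (f j))_j`,
`h = - u • (jac f z).adjugate.mulVec b` (entries in `𝔪 ^ k`), `z_{k+1} = z_k + h`. By (0) with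
`I = 𝔪 ^ k` (`2 k ≥ k + 1`) `eval z_{k+1} (f j)` is, modulo `𝔪 ^ (k + 1)`, the `j`-th entry of
`b - u • (jac f z_k * adjugate (jac f z)).mulVec b`; `jac f z_k = jac f z` modulo `𝔪`, so this is
`(1 - u * det (jac f z)) * b j` modulo `𝔪 * 𝔪 ^ k`, so in `𝔪 ^ (k + 1)`. (2) `e = ∑ j, g j * f j`
(`C e` in the span), evaluate at `z_k`: `e ∈ 𝔪 ^ k` for all `k`, so `e = 0` by Krull
(`Ideal.iInf_pow_eq_bot_of_isDomain`). -/
def StNw : Prop := ∀ (A τ : Type) [CommRing A] [IsDomain A] [IsNoetherianRing A] [Fintype τ]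
  [DecidableEq τ] (𝔪 : Ideal A) (f : τ → MvPolynomial τ A) (z : τ → A) (u e : A), 𝔪 ≠ ⊤ →
  (∀ j, eval z (f j) ∈ 𝔪) → (jac f z).det * u - 1 ∈ 𝔪 → C e ∈ Ideal.span (Set.range f) → e = 0

/-- **Un.** PROOF. `K = FractionRing A` is a subfield of `Ω`. Let `ρ : Ω → K` be `K`-linear with
`ρ 1 = 1` (`LinearMap.exists_leftInverse_of_injective` for `K → Ω`), and `R : MvPolynomial τ Ω →
MvPolynomial τ K` the coefficientwise application; `R (g * map f) = R g * map f` for `f` with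
coefficients in `A` (check on monomials). Apply `R` to `1 = ∑ j, g j * map (f j)`
(`Ideal.mem_span_range_iff_exists_fun`) and clear the denominators of the finitely many coefficients
(`IsLocalization.exist_integer_multiples_of_finset`). -/
def StUn : Prop := ∀ (A Ω τ κ : Type) [CommRing A] [IsDomain A] [Field Ω] [Algebra A Ω] [Fintype κ]
  (f : κ → MvPolynomial τ A), Function.Injective (algebraMap A Ω) →
  (1 : MvPolynomial τ Ω) ∈ Ideal.span (Set.range fun j => map (algebraMap A Ω) (f j)) →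
  ∃ e : A, e ≠ 0 ∧ C e ∈ Ideal.span (Set.range f)

/-- **Gr.** The cone of the specialisations of `c` meets every linear subspace of dimension `N > v`.
PROOF. `φ = aeval (fun a => C (c a) * X) : MvPolynomial S L → Polynomial Ω`, `𝔭 = ker φ`: prime; the
coefficient of `X ^ n` in `φ P` is `aeval c (homogeneousComponent n P)`, so with `P` all homogeneous
components of `P` are in `𝔭`. Suppose there is no such `β`, i.e. the zero locus of `𝔭` in `S → L` meets
`W = span (range G)` at most in `0`. Let `m_1, ..., m_R`, `R = card S - N`, be linear forms on `S → L`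
whose common zeros are `W` (basis of the dual annihilator, `Subspace.finrank_dualAnnihilator_...`).
`I = 𝔭 ⊔ span {m_j}` is homogeneous and its zero locus is contained in `{0}`. By the Nullstellensatz
(`MvPolynomial.vanishingIdeal_zeroLocus_eq_radical`) some power `X a ^ s`, `s ≥ 1`, is in `I` for all
`a`, so all monomials of degree `D = s * card S + 1` are in `I`: `μ = p_μ + ∑ j, b_{μ j} * m_j` with
`p_μ ∈ 𝔭` and, taking homogeneous components, `b_{μ j}` homogeneous of degree `D - 1`. Let `T` be the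
subalgebra of `Polynomial Ω` generated over `L` by the `φ (m_j)`. By induction on the degree `φ` of every
monomial is in the `T`-span of the finitely many `φ μ`, `deg μ < D` (a monomial of degree `≥ D` is a
monomial of degree `D` times another one). So `φ (X a) = c a * X` is integral over `T`
(`IsIntegral.of_mem_of_fg` or the determinant trick, `T`-submodule spanned by these is a ring). Put
`X = 1` (`Polynomial.aeval 1` / `eval 1`): `c a` is integral over the subalgebra generated by the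
`u j = ∑ a, m_j a • c a`, so algebraic over `L (u)`. `BigTr` gives `card S ≤ card S - N + v`, but
`N ≤ card S` (linear independence) and `N > v`. -/
def StGr : Prop := ∀ (L Ω S : Type) [Field L] [IsAlgClosed L] [Field Ω] [Algebra L Ω] [Fintype S]
  (c : S → Ω) (v N : ℕ) (G : Fin N → S → L), BigTr L c v → v < N → LinearIndependent L G →
  ∃ β : Fin N → L, β ≠ 0 ∧ ∀ P : MvPolynomial S L,
    aeval (fun a => Polynomial.C (c a) * Polynomial.X : S → Polynomial Ω) P = 0 →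
      eval (fun a => ∑ i, β i * G i a) P = 0

/-- **Co** (uses `StNw`, `StUn`, `StGr`). The core lemma. PROOF. `τ = κ ⊕ Bool`, `S = Ex ι d`.
Suppose there is no `ξ`. By the Nullstellensatz over `Ω`
(`MvPolynomial.vanishingIdeal_zeroLocus_eq_radical`) `1 = ∑ k, g k * q k + g' * F(x) + g'' * F(y)` in
`MvPolynomial τ Ω`, where `F(x) = ev (C ∘ c) x` etc. Let `A` be the range of
`φ = aeval (fun a => C (c a) * X) : MvPolynomial S L →ₐ[L] Polynomial Ω` (a subalgebra; a domain, and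
noetherian as a quotient of a polynomial ring) and `t a = φ (X a) = c a * X ∈ A`,
`f = sy (map q) (map x) (map y) t : τ → MvPolynomial τ A`. Over `Polynomial Ω` we have
`ev (C ∘ t) x = X * ev (C ∘ c) x`, so `C X = ∑ k, (X g k) q k + g' (X F(x)) + g'' (X F(y))` is in the span
of the images of the `f j`; in `Ω' = FractionRing (Polynomial Ω)` `X` is a unit, so `1` is in the span,
and `StUn` gives `e ∈ A`, `e ≠ 0`, with `C e ∈ span (range f)`. The `G j` are linearly independent: if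
`∑ j, b j • G j = 0` then differentiate `∑ j, b j * ev (C ∘ G j) x = 0` at `z i`: `b i` times row
`inr true` of `jac (sy q x y (G i)) (z i)` is zero, so `b i = 0`. `StGr` gives `β`; let
`w = ∑ i, β i • G i` and `ψ : A →ₐ[L] L` with `ψ (t a) = w a` (well defined by the property of `β`:
`Ideal.Quotient.liftₐ` / kernel of the range restriction), `𝔪 = ker ψ ≠ ⊤`. Choose `i` with `β i ≠ 0`
and `Z = algebraMap L A ∘ z i`. `ψ (eval Z (f k)) = eval (z i) (q k) = 0`,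
`ψ (eval Z (f (inr true))) = ∑ j, β j * eval (z i) (ev (C ∘ G j) x) = 0`, the same for `y`. The image
of the matrix `jac f Z` under `ψ` is `jac (sy q x y w) (z i)`; its rows are those of
`jac (sy q x y (G i)) (z i)`, the rows `inr _` multiplied by `β i` (the other `j` contribute zero), so
`ψ (det (jac f Z)) = β i ^ 2 * det (jac (sy q x y (G i)) (z i)) ≠ 0`. With `u` the inverse of this
number in `L ⊆ A`: `det (jac f Z) * u - 1 ∈ 𝔪`. `StNw` gives `e = 0`, a contradiction. -/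
def StCo : Prop := ∀ (L Ω ι κ : Type) [Field L] [IsAlgClosed L] [Field Ω] [IsAlgClosed Ω]
  [Algebra L Ω] [Fintype ι] [Fintype κ] [DecidableEq κ] (d v N : ℕ) (c : Ex ι d → Ω)
  (q : κ → MvPolynomial (κ ⊕ Bool) L) (x y : ι → MvPolynomial (κ ⊕ Bool) L)
  (G : Fin N → Ex ι d → L) (z : Fin N → κ ⊕ Bool → L),
  BigTr L c v → v < N → (∀ i k, eval (z i) (q k) = 0) →
  (∀ i j, eval (z i) (ev (fun a => C (G j a)) x) = 0) →
  (∀ i j, eval (z i) (ev (fun a => C (G j a)) y) = 0) →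
  (∀ i j, i ≠ j → ∀ k, eval (z i) (pderiv k (ev (fun a => C (G j a)) x)) = 0) →
  (∀ i j, i ≠ j → ∀ k, eval (z i) (pderiv k (ev (fun a => C (G j a)) y)) = 0) →
  (∀ i, (jac (sy q x y (G i)) (z i)).det ≠ 0) →
  ∃ ξ : κ ⊕ Bool → Ω, (∀ k, aeval ξ (q k) = 0) ∧ ev c (fun i => aeval ξ (x i)) = 0 ∧
    ev c (fun i => aeval ξ (y i)) = 0

/-- **QL** (uses `StCo`). Quadric surfaces over `L`. PROOF. `N = v + 1`. Linear forms on `ι → L`:
`l0, l1, l3` with `l0 p = 1`, `l1 a1 = 1`, `l3 a3 = 1` and zero at the other ones of the four vectors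
`p, a1, a2, a3` (linear independence: extend to a basis, dual basis; write a linear form as
`x ↦ ∑ i, l i * x i`). Parameters `σ(j, b) = ± (j + 1)`, `(j, b) ∈ Fin N × Bool` (`+` for `true`), all
different and nonzero (characteristic zero), `s i = σ(i, true) = i + 1`. With
`Λ_σ = ∑ i, C (l1 i - σ * l0 i) * X i`, `Λ0`, `Λ3` the linear polynomials of `l0`, `l3`:
`P_i = Λ_{s i} * Λ0 ^ (d - (4 v + 3)) * ∏_{σ ≠ s i} Λ_σ ^ 2
  + Λ3 * Λ0 ^ (d - (4 v + 3)) * ∏_{σ ≠ - s i} Λ_σ ^ 2`,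
homogeneous of degree `1 + (d - (4 v + 3)) + 2 (2 N - 1) = d`; `G i a = coeff a P_i`, so
`ev (C ∘ G i) x = aeval x P_i` (expand `P_i` in monomials; only exponents of degree `d` occur).
`κ = Unit`, variables `ξ0 = X (inl ())`, `ξ1 = X (inr false)`, `ξ2 = X (inr true)`,
`q = ξ0 * ξ1 + C ε * ξ2 ^ 2 - 1`, `x = p + ξ0 a1 + ξ1 a2 + ξ2 a3`, `y = p - ξ0 a1 - ξ1 a2 - ξ2 a3`,
`z i = (s i, (s i)⁻¹, 0)`. `Λ_σ(x) = ξ0 - σ`, `Λ0(x) = 1`, `Λ3(x) = ξ2`, `Λ_σ(y) = - ξ0 - σ`,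
`Λ0(y) = 1`, `Λ3(y) = - ξ2`. So `P_i(x) = (ξ0 - s_i) ∏_{σ ≠ s_i} (ξ0 - σ)^2 + ξ2 ∏_{σ ≠ - s_i}
(ξ0 - σ)^2` and `P_i(y) = (- ξ0 - s_i) ∏_{σ ≠ s_i} (ξ0 + σ)^2 - ξ2 ∏_{σ ≠ - s_i} (ξ0 + σ)^2`. At
`z i`: values zero (in `P_i(y)` the first product contains `σ = - s_i`). Gradients at `z i`: of
`P_i(x)`: `(∏_{σ ≠ s_i} (s_i - σ)^2, 0, 0)`; of `P_i(y)`: `(0, 0, - ∏_{σ ≠ - s_i} (s_i + σ)^2)` (the
first summand contains the factor `(ξ0 - s_i)^2`); of `q`: `(s_i⁻¹, s_i, 0)`. So the Jacobian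
determinant is, up to sign, `s_i` times two nonzero squares. For `j ≠ i`, `P_j(x)` is divisible by
`(ξ0 - s_i)^2` (take `σ = s_i`, different from `± s_j`) and `P_j(y)` by `(ξ0 - s_i)^2`
(`σ = - s_i`), so values and gradients at `z i` vanish. -/
def StQL : Prop := ∀ (L Ω ι : Type) [Field L] [IsAlgClosed L] [CharZero L] [Field Ω] [IsAlgClosed Ω]
  [Algebra L Ω] [Fintype ι] (d v : ℕ) (c : Ex ι d → Ω), BigTr L c v → 4 * v + 3 ≤ d →
  ∀ (p a1 a2 a3 : ι → L) (ε : L), LinearIndependent L ![p, a1, a2, a3] →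
  ∃ ξ0 ξ1 ξ2 : Ω, ξ0 * ξ1 + algebraMap L Ω ε * ξ2 ^ 2 = 1 ∧
    ev c (fun i => algebraMap L Ω (p i) + ξ0 * algebraMap L Ω (a1 i) + ξ1 * algebraMap L Ω (a2 i)
      + ξ2 * algebraMap L Ω (a3 i)) = 0 ∧
    ev c (fun i => algebraMap L Ω (p i) - ξ0 * algebraMap L Ω (a1 i) - ξ1 * algebraMap L Ω (a2 i)
      - ξ2 * algebraMap L Ω (a3 i)) = 0

/-- **LL** (uses `StCo`). Lines over `L`. PROOF. As `StQL`, with `κ = Empty`, `ξ0 = X (inr false)`,
`ξ1 = X (inr true)`, `x = (1 + ξ0) p + ξ1 a`, `y = (1 - ξ0) p - ξ1 a`, `z i = (0, s i)`, `N = v + 1`,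
linear forms `l0 p = 1`, `l0 a = 0`, `l1 p = 0`, `l1 a = 1`, `Λ_σ = l1 - σ l0`,
`P_i = Λ0 ^ (d - (4 v + 3)) * (Λ_{s i} * ∏_{σ ≠ s i} Λ_σ ^ 2 + Λ_{- s i} * ∏_{σ ≠ - s i} Λ_σ ^ 2)`.
`Λ_σ(x) = ξ1 - σ (1 + ξ0)`, `Λ_σ(y) = - ξ1 - σ (1 - ξ0)`, `Λ0(x) = 1 + ξ0`, `Λ0(y) = 1 - ξ0`. At `z i`:
`P_i(x) = 0` (the second summand contains `Λ_{s i} ^ 2`) with gradient
`∏_{σ ≠ s_i} (s_i - σ)^2 * (- s_i, 1)`, `P_i(y) = 0` (the first summand contains `Λ_{- s i} ^ 2`) with
gradient `∏_{σ ≠ - s_i} (s_i + σ)^2 * (- s_i, - 1)`: the determinant is a nonzero multiple of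
`2 s_i`. For `j ≠ i` both summands of `P_j` contain `Λ_{s i} ^ 2 * Λ_{- s i} ^ 2`, so the values and
gradients of `P_j(x)`, `P_j(y)` at `z i` vanish. -/
def StLL : Prop := ∀ (L Ω ι : Type) [Field L] [IsAlgClosed L] [CharZero L] [Field Ω] [IsAlgClosed Ω]
  [Algebra L Ω] [Fintype ι] (d v : ℕ) (c : Ex ι d → Ω), BigTr L c v → 4 * v + 3 ≤ d →
  ∀ (p a : ι → L), LinearIndependent L ![p, a] →
  ∃ ξ0 ξ1 : Ω,
    ev c (fun i => (1 + ξ0) * algebraMap L Ω (p i) + ξ1 * algebraMap L Ω (a i)) = 0 ∧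
    ev c (fun i => (1 - ξ0) * algebraMap L Ω (p i) - ξ1 * algebraMap L Ω (a i)) = 0

/-- **Tr.** The field `L`. PROOF. `K = IntermediateField.adjoin ℂ (Set.range s)`,
`L = algebraicClosure K Ω` (algebraically closed since `Ω` is). If all `c a` are algebraic over `L (u)`
then they are algebraic over `ℂ (s, u)` (`L` is algebraic over `K`; transitivity), so
`card S ≤ trdeg` of the algebraic closure of `ℂ (s, u)`, which is at most `v + R` (as in
`GP/Le.lean`: `AlgebraicIndependent.cardinalMk_le_trdeg`, `trdeg_le_cardinalMk`, `Algebra.trdeg_le...`).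
-/
def StTr : Prop := ∀ (Ω S : Type) [Field Ω] [IsAlgClosed Ω] [Algebra ℂ Ω] [Fintype S] (c : S → Ω)
  (v : ℕ) (s : Fin v → Ω), AlgebraicIndependent ℂ c →
  ∃ (L : Type) (_ : Field L) (_ : IsAlgClosed L) (_ : CharZero L) (_ : Algebra L Ω),
    (∀ j, ∃ t : L, algebraMap L Ω t = s j) ∧ BigTr L c v

/-- **Ul.** Ultrapowers of the complex numbers. PROOF. `Ω = Filter.Germ (𝒰 : Filter I) ℂ`
(a field: `Filter.Germ.instField`) or the quotient of `I → ℂ` by the maximal ideal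
`{a | ∀ᶠ i in 𝒰, a i = 0}`. Algebraically closed (`IsAlgClosed.of_exists_root`): a monic polynomial over
`Ω` of degree `n ≥ 1` has representatives of its coefficients; the monic complex polynomials of degree
`n` have roots `r i`, and `r` is a root. -/
def StUl : Prop := ∀ (I : Type) (𝒰 : Ultrafilter I),
  ∃ (Ω : Type) (_ : Field Ω) (_ : IsAlgClosed Ω) (_ : Algebra ℂ Ω) (ρ : (I → ℂ) →ₐ[ℂ] Ω),
    Function.Surjective ρ ∧ ∀ a : I → ℂ, ρ a = 0 ↔ ∀ᶠ i in 𝒰, a i = 0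

/-- **Up.** PROOF. `I = {Φ // Φ ≠ 0}`, `c Φ` a point with `eval (c Φ) Φ ≠ 0` and `P (c Φ)`. The sets
`D Φ = {Ψ | Φ ∣ Ψ}` have the finite intersection property (`Φ Φ' ∈ D Φ ∩ D Φ'`); take an ultrafilter
which contains all of them (`Ultrafilter.of` of the filter generated by them). For `Ψ ∈ D Φ`:
`eval (c Ψ) Ψ ≠ 0`, so `eval (c Ψ) Φ ≠ 0`. -/
def StUp : Prop := ∀ (S : Type) (P : (S → ℂ) → Prop),
  (∀ Φ : MvPolynomial S ℂ, Φ ≠ 0 → ∃ c, eval c Φ ≠ 0 ∧ P c) →
  ∃ (I : Type) (𝒰 : Ultrafilter I) (c : I → S → ℂ), (∀ i, P (c i)) ∧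
    ∀ Φ : MvPolynomial S ℂ, Φ ≠ 0 → ∀ᶠ i in 𝒰, eval (c i) Φ ≠ 0

/-- **Qd** (uses `StUp`, `StUl`, `StTr`, `StQL`). Quadric surfaces, general `F`. PROOF. Otherwise
`StUp` with `P c` = there are a linearly independent family `p, a1, a2, a3` and `ε` for which there is
no `ξ`. Let `Ω`, `ρ` be as in `StUl`; `c* a = ρ (fun i => c i a)` is algebraically independent over `ℂ`
(`aeval c* Φ = ρ (fun i => eval (c i) Φ)`, an algebra homomorphism). Choose the data
`p i, a1 i, a2 i, a3 i, ε i` and also dual linear forms (rows of a matrix `l : Fin 4 → ι → ℂ` with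
`∑ k, l r k * (vector t) k = if r = t then 1 else 0`), and take the images under `ρ`; the images of the four
vectors are linearly independent over `Ω` by the dual forms. `v = 4 card ι + 1`, `s` = all the
coordinates of `p, a1, a2, a3` and `ε` (`16 card ι + 7 = 4 v + 3`), `L` from `StTr`, the
vectors and `ε` come from `L` and are linearly independent over `L`. `StQL` gives `ξ0, ξ1, ξ2` in `Ω`,
choose representatives: all three equations hold for `𝒰`-almost all `i` (an identity in `Ω` is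
`ρ (something) = 0`), contradiction. -/
def StQd : Prop := ∀ (ι : Type) [Fintype ι] (d : ℕ), 16 * Fintype.card ι + 7 ≤ d →
  ∃ Φ : MvPolynomial (Ex ι d) ℂ, Φ ≠ 0 ∧ ∀ c : Ex ι d → ℂ, eval c Φ ≠ 0 →
    ∀ (p a1 a2 a3 : ι → ℂ) (ε : ℂ), LinearIndependent ℂ ![p, a1, a2, a3] →
      ∃ ξ0 ξ1 ξ2 : ℂ, ξ0 * ξ1 + ε * ξ2 ^ 2 = 1 ∧
        ev c (p + ξ0 • a1 + ξ1 • a2 + ξ2 • a3) = 0 ∧ ev c (p - ξ0 • a1 - ξ1 • a2 - ξ2 • a3) = 0

/-- **Ld** (uses `StUp`, `StUl`, `StTr`, `StLL`). Lines, general `F`. PROOF. As `StQd`, with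
`v = 2 card ι`, `8 card ι + 3 = 4 v + 3`. -/
def StLd : Prop := ∀ (ι : Type) [Fintype ι] (d : ℕ), 8 * Fintype.card ι + 3 ≤ d →
  ∃ Φ : MvPolynomial (Ex ι d) ℂ, Φ ≠ 0 ∧ ∀ c : Ex ι d → ℂ, eval c Φ ≠ 0 →
    ∀ (p a : ι → ℂ), LinearIndependent ℂ ![p, a] →
      ∃ ξ0 ξ1 : ℂ, ev c ((1 + ξ0) • p + ξ1 • a) = 0 ∧ ev c ((1 - ξ0) • p - ξ1 • a) = 0

/-- **Se** (uses `StQd`, `StLd`). The cones. PROOF. `Φ` = the product of the two polynomials; for
`F` homogeneous of degree `d` and `c a = coeff a F`, `ev c x = eval x F` (only exponents of degree `d` occur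
in `F`). Let `K' = {x ∈ K | eval x F = 0}`; `K'` is `Scl` (`d ≥ 1`), `Sr K' r ⊆ Sr K r`. `r = 2`: let
`p ∈ Sr K 2`. `p = 0`: `0 + 0`. `p ∈ K`, `p ≠ 0`: `a` from the hypothesis; `StLd` for `p`, `a` gives
`x = (1 + ξ0) p + ξ1 a`, `y = (1 - ξ0) p - ξ1 a` in `K'`, `p = x / 2 + y / 2`. `p ∉ K`: `a1, a2, a3, ε`;
`StQd` gives `x, y = p ± (ξ0 a1 + ξ1 a2 + ξ2 a3)`, in `K` by the hypothesis with `w = 1` and `ξ` or
`- ξ`; `p = x / 2 + y / 2`. `r + 1 ≥ 3`: `p = z_1 + ... + z_{r+1}`; the sum of the first `r` is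
`x_1 + ... + x_r` with `x_i ∈ K'` (induction), and `x_r + z_{r+1} ∈ Sr K 2` is a sum of two elements
of `K'`. -/
def StSe : Prop := ∀ (ι : Type) [Fintype ι] (d : ℕ), 16 * Fintype.card ι + 7 ≤ d →
  ∃ Φ : MvPolynomial (Ex ι d) ℂ, Φ ≠ 0 ∧ ∀ F : MvPolynomial ι ℂ, F.IsHomogeneous d →
    eval (fun a : Ex ι d => coeff a.1 F) Φ ≠ 0 → ∀ K : Set (ι → ℂ), Scl K →
      (∀ p ∈ K, p ≠ 0 → ∃ a : ι → ℂ, LinearIndependent ℂ ![p, a] ∧ ∀ s t : ℂ, s • p + t • a ∈ K) →
      (∀ p ∈ Sr K 2, p ∉ K → ∃ (a1 a2 a3 : ι → ℂ) (ε : ℂ), LinearIndependent ℂ ![p, a1, a2, a3] ∧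
        ∀ w ξ0 ξ1 ξ2 : ℂ, w ^ 2 = ξ0 * ξ1 + ε * ξ2 ^ 2 →
          w • p + ξ0 • a1 + ξ1 • a2 + ξ2 • a3 ∈ K) →
      ∀ r, 2 ≤ r → Sr {x | x ∈ K ∧ eval x F = 0} r = Sr K r

/-- **MA** (uses `StSe`, `GP.StBb`, `GP.StBc` as hypotheses `hb`, `hc`). Part (A). PROOF. Let
`K = cone Z` (`cone Z` is closed and `Scl`). `OnLine` and `OnQuadric` give the hypotheses of `StSe`
(a nonzero `p ∈ cone Z` is a multiple of some `q.rep`, `q ∈ Z`; for the quadric scale the data; a point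
`p ∉ K` of `Sr K 2` has `xRank = 2`: `xRank ≤ 2` by `StBb`, and `xRank ≥ 2` since it is not in
`secantSet Z 1`, which has the cone `Sr K 1 = K`). `cone (cut Z F) = {x ∈ K | eval x F = 0}` (`F`
homogeneous of degree `d ≥ 1`). `cut Z F` is nonempty (`Z` is nonempty; the line through a point of `Z`
contains a zero of `F` by `StSe` with `r = 2`, or directly). By `StBc` for `Z`:
`clc (Sr K r) ⊆ Sr K r` for all `r`; so `clc (Sr K' r) ⊆ Sr K' r` for `r ≥ 2` by `StSe`, for `r = 0`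
(`{0}`) and for `r = 1` (`Sr K' 1 = K'` is closed: `K` is closed and `F` is one more equation; GP
`ClCone`). `StBc` for `cut Z F`. The last claim: `StBb` and `StSe`. -/
def StMA : Prop := ∀ (ι : Type) [Fintype ι] (d : ℕ), 16 * Fintype.card ι + 7 ≤ d →
  ∃ Φ : MvPolynomial (Ex ι d) ℂ, Φ ≠ 0 ∧ ∀ F : MvPolynomial ι ℂ, F.IsHomogeneous d →
    eval (fun a : Ex ι d => coeff a.1 F) Φ ≠ 0 → ∀ Z : Set (PSpace ι), IsProjectiveVariety Z →
      (∀ p, xRank Z p = xBorderRank Z p) → (∀ p ∈ Z, OnLine Z p) →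
      (∀ p, xRank Z p = 2 → OnQuadric Z p) →
      (∀ p, xRank (cut Z F) p = xBorderRank (cut Z F) p) ∧
      ∀ r, 2 ≤ r → secantSet (cut Z F) r = secantSet Z r

end Pool.Agent.Lib.MP_e005b4_ag.LD
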