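import Pool.Agent.Lib.MP_e005b4_ag.LD.DefsB
import Pool.Agent.Lib.MP_e005b4_ag.LD.Spec
import Pool.Agent.Lib.MP_e005b4_ag.GP.Spec

/-!
# Sections of large degree: statements of the modules on the examples

As in `LD/Spec.lean`: `StX` is proved in `LD/X.lean` as `theorem lX : StX`, the other statements used are
hypotheses. `pol g` is the polynomial with the coefficients `g` (a function on the exponents `T1 n d` of
weight `2 d`, resp. `T2 a b d d` of bidegree `(d, d)`); `r1 n`, `r2 a b` are the parametrizations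
`(z, w) ↦ (z i z j, w)` of the cone `verCone n` over the second Veronese embedding and
`(u, v) ↦ (u i v j)` of the Segre variety; `Reg U f`: all zeros of `f` in `U` are regular. See
`LD/DefsB.lean`.
-/

set_option autoImplicit false

namespace Pool.Agent.Lib.MP_e005b4_ag.LD

open MvPolynomial Pool.Agent.Lib.MP_e005b4_ag Pool.Agent.Lib.MP_e005b4_ag.GP
open scoped LinearAlgebra.Projectivization

/-- **KM.** Fewer parameters than coordinates. PROOF. The family `ψ` is not algebraically independent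
over `ℂ`: otherwise `card S ≤ trdeg (MvPolynomial θ ℂ) = card θ`
(`AlgebraicIndependent.cardinalMk_le_trdeg`, `MvPolynomial.trdeg_of_isDomain` or
`Algebra.trdeg` of a polynomial ring, `trdeg_le_cardinalMk` for the generators `X i`). So
`aeval ψ Φ = 0` for some `Φ ≠ 0`; evaluate at `t`. -/
def StKM : Prop := ∀ (S θ : Type) [Fintype S] [Fintype θ] (ψ : S → MvPolynomial θ ℂ),
  Fintype.card θ < Fintype.card S → ∃ Φ : MvPolynomial S ℂ, Φ ≠ 0 ∧
    ∀ t : θ → ℂ, eval (fun s => eval t (ψ s)) Φ = 0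

/-- **Fw.** Factors of weighted homogeneous polynomials. PROOF. Let `i0 ≤ i1` be the smallest and the
largest weight with a nonzero weighted homogeneous component of `G`, `j0 ≤ j1` for `H`. The components
of `G * H` of weight `i0 + j0` and `i1 + j1` are the products of the extreme components, so nonzero
(no zero divisors); so `i0 + j0 = m = i1 + j1`, `i0 = i1`, `j0 = j1`. -/
def StFw : Prop := ∀ (σ : Type) (w : σ → ℕ) (G H : MvPolynomial σ ℂ) (m : ℕ), G ≠ 0 → H ≠ 0 →
  IsWeightedHomogeneous w (G * H) m →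
  ∃ i j, i + j = m ∧ IsWeightedHomogeneous w G i ∧ IsWeightedHomogeneous w H j

/-- **I1** (uses `StKM`, `StFw`). PROOF. Weights `wt none = 2`, `wt (some i) = 1`: the polynomials
`pol g`, `g : T1 n e → ℂ`, are the weighted homogeneous ones of weight `2 e`. For `1 ≤ e ≤ d - 1` the
coefficients of the product `pol g * pol h` (`g` on `T1 n e`, `h` on `T1 n (d - e)`) are polynomials in
`(g, h)`, and `card (T1 n e) + card (T1 n (d - e)) < card (T1 n d)`: the maps
`b ↦ b + 2 (d - e) single (some 0)` and `b ↦ b + e single none` into `T1 n d` are injective; their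
images have only one common element, and the two exponents `2 d single (some 1)` and
`(2 d - 1) single (some 1) + single (some 0)` are in neither image. So `StKM` gives `Φ_e ≠ 0` which
vanishes at the coefficients of all these products. `Φ = X_{t0} * ∏_e Φ_e`, `t0 = d single none`. Let
`Φ(g) ≠ 0`: `pol g` is not zero and not a unit (the coefficient of `w ^ d` is not zero, `d ≥ 1`). If
`pol g = G * H` then `G`, `H` are weighted homogeneous (`StFw`); put `z = 0`: the product
`G(0, w) H(0, w) = g t0 * w ^ d` is not zero, so `G(0, w)` is a nonzero multiple of a power `w ^ e` and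
`G` has the weight `2 e`, `H` the weight `2 (d - e)`, `0 ≤ e ≤ d`; `1 ≤ e ≤ d - 1` is excluded by
`Φ_e`; `e = 0`: `G` is a constant, a unit; `e = d`: `H` is. -/
def StI1 : Prop := ∀ n d : ℕ, 1 ≤ n → 2 ≤ d → ∃ Φ : MvPolynomial (T1 n d) ℂ, Φ ≠ 0 ∧
  ∀ g : T1 n d → ℂ, eval g Φ ≠ 0 → Irreducible (pol g)

/-- **I2** (uses `StKM`, `StFw`). PROOF. As `StI1` with the two gradings (degree in `u`, degree in `v`;
`StFw` twice): a factorization of `pol g ≠ 0` is into factors of bidegrees `(e, e')`,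
`(d - e, d - e')`; if it is `(0, 0)` or `(d, d)` one factor is a constant. For the other pairs
`card (T2 a b e e') + card (T2 a b (d - e) (d - e')) < card (T2 a b d d)`: add
`(d - e) single (inl 0) + (d - e') single (inr 0)`, resp. `e single (inl 1) + e' single (inr 1)`
(injective, one common element of the images); the exponents with `u`-part
`i single 0 + (d - i) single 1`, `v`-part `j single 0 + (d - j) single 1` and `i > d - e`, `j < d - e'`
or `i < d - e`, `j > d - e'` are in neither image, and there are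
`e (d - e') + (d - e) e' ≥ 2` of them (`d ≥ 3`; it is enough to exhibit two in each case). `Φ` = the
product of the polynomials of `StKM` and of one variable (so that `pol g ≠ 0`). Not a unit: `pol g` is
homogeneous of degree `2 d > 0`. -/
def StI2 : Prop := ∀ a b d : ℕ, 1 ≤ a → 1 ≤ b → 3 ≤ d → ∃ Φ : MvPolynomial (T2 a b d d) ℂ, Φ ≠ 0 ∧
  ∀ g : T2 a b d d → ℂ, eval g Φ ≠ 0 → Irreducible (pol g)

/-- **S1** (uses `StKM`). PROOF. For `i0 : Fin (n + 1)` let `B i0 ⊆ T1 n d` be the `n + 2` exponents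
`2 d [i0]`, `(2 d - 1) [i0] + [i]` (`i ≠ i0`), `(2 d - 2) [i0] + [none]`. Parameters: the coefficients
outside `B i0` (`h`, extended by zero to `B i0`), `ζ i` (`i ≠ i0`), `ω`: their number is
`card (T1 n d) - (n + 2) + n + 1 < card (T1 n d)`. The coefficients of
`bind₁ (some i ↦ X (some i) - C (ζ i) X (some i0) (i ≠ i0), some i0 ↦ X (some i0),
none ↦ X none - C ω X (some i0) ^ 2) (pol h)` are polynomials in the parameters; it is again of weight
`2 d`. `StKM`: `Φ_{i0}`; `Φ = ∏ Φ_{i0}`. Let `f = pol g`, `Φ(g) ≠ 0`, and suppose that all partial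
derivatives vanish at a zero `z` of `f` with `z (some i0) ≠ 0`. By weighted homogeneity
(`f (t z', t ^ 2 w) = t ^ (2 d) f (z', w)`, and the same for the derivatives) we may assume
`z (some i0) = 1`. `ζ i = z (some i)`, `ω = z none`; the polynomial
`h = bind₁ (some i ↦ X (some i) + C (ζ i) X (some i0), none ↦ X none + C ω X (some i0) ^ 2) f` has weight
`2 d` and all its partial derivatives and its value vanish at the point `[i0]` (chain rule), which says
that its coefficients in `B i0` are zero; and `f` is obtained from `h` by the inverse substitution, so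
`Φ_{i0}(g) = 0`. -/
def StS1 : Prop := ∀ n d : ℕ, 1 ≤ d → ∃ Φ : MvPolynomial (T1 n d) ℂ, Φ ≠ 0 ∧
  ∀ g : T1 n d → ℂ, eval g Φ ≠ 0 → Reg (U1 n) (pol g)

/-- **S2** (uses `StKM`). PROOF. As `StS1`, for pairs `(i0, j0)`: `B` = the `1 + a + b` exponents
`d [inl i0] + d [inr j0]`, `(d - 1) [inl i0] + [inl i] + d [inr j0]` (`i ≠ i0`),
`d [inl i0] + (d - 1) [inr j0] + [inr j]` (`j ≠ j0`); the substitutions
`u i ↦ u i - ζ i u i0` (`i ≠ i0`), `v j ↦ v j - η j v j0` (`j ≠ j0`) have `a + b` parameters; a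
singular zero with `u i0 ≠ 0`, `v j0 ≠ 0` may be scaled to `u i0 = 1`, `v j0 = 1`. -/
def StS2 : Prop := ∀ a b d : ℕ, 1 ≤ d → ∃ Φ : MvPolynomial (T2 a b d d) ℂ, Φ ≠ 0 ∧
  ∀ g : T2 a b d d → ℂ, eval g Φ ≠ 0 → Reg (U2 a b) (pol g)

/-- **P1.** PROOF. For an exponent `a` of degree `d` on `Option (Sym2 (Fin (n + 1)))` the image of
`monomial a 1` under `aeval (r1 n)` is `monomial (τ a) 1` with `τ a : T1 n d`
(`τ a = ∑ o, a o • m o`, `m none = [none]`, `m (some s(i, j)) = [some i] + [some j]`). `τ` is surjective: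
`b : T1 n d`; `b none ≤ d`; by induction on `d - b none` the multiset of the `z`-variables of `b`, of
even size `2 (d - b none)`, is a sum of pairs. `g t = ∑_{τ a = t} coeff a F`, `aeval (r1 n) F = pol g`
(`F` is the sum of its monomials of degree `d`). `Φ = aeval (fun t => ∑_{τ a = t} X a) Φ'`; it is not
zero: with a section `s` of `τ` and the substitution `X a ↦ X (τ a)` if `a = s (τ a)`, `0` otherwise, it
becomes `Φ'`. -/
def StP1 : Prop := ∀ (n d : ℕ) (Φ' : MvPolynomial (T1 n d) ℂ), Φ' ≠ 0 →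
  ∃ Φ : MvPolynomial (Ex (Option (Sym2 (Fin (n + 1)))) d) ℂ, Φ ≠ 0 ∧
    ∀ F : MvPolynomial (Option (Sym2 (Fin (n + 1)))) ℂ, F.IsHomogeneous d →
      eval (fun a : Ex (Option (Sym2 (Fin (n + 1)))) d => coeff a.1 F) Φ ≠ 0 →
        ∃ g : T1 n d → ℂ, eval g Φ' ≠ 0 ∧ aeval (r1 n) F = pol g

/-- **P2.** PROOF. As `StP1`: `τ a` has the margins of the matrix `a` of size `(a + 1) × (b + 1)`; for
given margins with the same sum `d` there is such a matrix (induction on `d`: take away one unit in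
a row and in a column). -/
def StP2 : Prop := ∀ (a b d : ℕ) (Φ' : MvPolynomial (T2 a b d d) ℂ), Φ' ≠ 0 →
  ∃ Φ : MvPolynomial (Ex (Fin (a + 1) × Fin (b + 1)) d) ℂ, Φ ≠ 0 ∧
    ∀ F : MvPolynomial (Fin (a + 1) × Fin (b + 1)) ℂ, F.IsHomogeneous d →
      eval (fun c : Ex (Fin (a + 1) × Fin (b + 1)) d => coeff c.1 F) Φ ≠ 0 →
        ∃ g : T2 a b d d → ℂ, eval g Φ' ≠ 0 ∧ aeval (r2 a b) F = pol g

/-- **Xi.** PROOF. Closed: the equations of `Z` and `F`. Irreducible: let `G`, `H` be homogeneous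
with `G H = 0` on `cut Z F`, `f = aeval φ F`. If `f(z) = 0` then `w = φ(z)` is in `cone Z` and
`F(w) = 0`; if `w ≠ 0` then `w` is a multiple of `p.rep` for a point `p` of `cut Z F`, so
`G(w) H(w) = 0`; if `w = 0` then `G(0) H(0) = 0` because the degree of `G H` is positive or `G H` is a
constant which vanishes at a point of the nonempty set. So `aeval φ G * aeval φ H` vanishes on the zeros
of `f`, some power of it is divisible by `f` (Nullstellensatz), and `f` is prime
(`Irreducible.prime`): `f ∣ aeval φ G` or `f ∣ aeval φ H`. In the first case `G = 0` on `cut Z F`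
(every point of it is `φ(z)` with `f(z) = F(φ(z)) = 0`). -/
def StXi : Prop := ∀ (ι σ : Type) [Fintype ι] [Fintype σ] (φ : ι → MvPolynomial σ ℂ)
  (Z : Set (PSpace ι)) (d : ℕ) (F : MvPolynomial ι ℂ), 1 ≤ d → F.IsHomogeneous d →
  IsZariskiClosed Z → (∀ w : ι → ℂ, w ∈ cone Z ↔ ∃ z : σ → ℂ, w = fun i => eval z (φ i)) →
  Irreducible (aeval φ F) → (cut Z F).Nonempty → IsProjectiveVariety (cut Z F)

/-- **Va.** PROOF. `fun o => eval z (r1 n o) = vp (z ∘ some) (z none)`. First claim: `mem_cone_setOf`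
(`Sec/Var.lean`; `c • vp z w = vp (√c • z) (c * w)`). Closed: the equations
`X s(i, j) * X s(k, l) - X s(i, k) * X s(j, l)`; a symmetric matrix with these relations is `z z^T` with
`z = (row i0) / √(entry i0 i0)` (if all diagonal entries are zero the matrix is zero). Irreducible:
`irred_of_param`. -/
def StVa : Prop := ∀ n : ℕ,
  (∀ w, w ∈ cone (verCone n) ↔ ∃ z : Option (Fin (n + 1)) → ℂ, w = fun o => eval z (r1 n o)) ∧
  IsProjectiveVariety (verCone n)

/-- **Vb** (uses `StVa`). PROOF. `sm w` is symmetric; `sm (vp z w) = z z^T` has rank at most one, and the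
rank is subadditive (`mat_rank_add_le`). Conversely `sym_decomp` (`Ver/Sym.lean`, `W = ⊤`):
`sm w = ∑_{k < r} x k (x k)^T`, `w = vp (x 0) (w none) + ∑_{k ≥ 1} vp (x k) 0`. Rank equals border rank:
`rank_eq_of_secant` and `rank_le_of_closure_idx` (`Ver/Sym.lean`) with `idx i j = some s(i, j)`, as
in `ver_two` (`r = 0`: both sets are empty). -/
def StVb : Prop := ∀ n : ℕ,
  (∀ r, 1 ≤ r → ∀ w, w ∈ Sr (cone (verCone n)) r ↔ (sm w).rank ≤ r) ∧
  ∀ p, xRank (verCone n) p = xBorderRank (verCone n) p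

/-- **Vc** (uses `StVa`, `StVb`). PROOF. `p.rep = vp z w`. If `z ≠ 0`: `a = vp 0 1`,
`s • vp z w + t • a = vp (√s • z) (s w + t)`; if `z = 0`: `w ≠ 0`, `a = vp z' 0` with any `z' ≠ 0`.
Quadric: the rank is `2`, so `sm p.rep = x x^T + y y^T` has rank `2` (rank `≤ 1` would give
`p ∈ verCone n`); `x, y` are linearly independent, so are `g = x + i y`, `h = x - i y`, and
`2 sm p.rep = g h^T + h g^T`. `a = vp g 0 / 2`, `b = vp h 0 / 2`, `c = vp 0 1`, `e = 0`:
`vp (s g + t h) w' = (2 s t) p.rep + (2 s ^ 2) a + (2 t ^ 2) b + (w' - 2 s t p.rep none) c`; given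
`w ^ 2 = x y` choose `s`, `t` with `2 s ^ 2 = x`, `2 s t = w`, `2 t ^ 2 = y`. The four vectors are linearly
independent (matrices `g h^T + h g^T`, `g g^T`, `h h^T` and the last coordinate). -/
def StVc : Prop := ∀ n : ℕ, (∀ p ∈ verCone n, OnLine (verCone n) p) ∧
  ∀ p, xRank (verCone n) p = 2 → OnQuadric (verCone n) p

/-- **Wa.** PROOF. `segre a b` is `segreSec 0` of `Sec/SegreVar.lean` (closed: `segreSec_closed`;
cone: `mem_cone_segreSec`); irreducible: `irred_of_param` with `r2 a b`. -/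
def StWa : Prop := ∀ a b : ℕ,
  (∀ w, w ∈ cone (segre a b) ↔
    ∃ z : Fin (a + 1) ⊕ Fin (b + 1) → ℂ, w = fun o => eval z (r2 a b o)) ∧
  IsProjectiveVariety (segre a b)

/-- **Wb** (uses `StWa`). PROOF. `segre_decomp` with `B' = 0` (`Sec/Segre.lean`), subadditivity of the
rank; rank equals border rank: `segreSec_rank` with `B = 0` (`Sec/SegreVar.lean`). -/
def StWb : Prop := ∀ a b : ℕ,
  (∀ r w, w ∈ Sr (cone (segre a b)) r ↔ (mat w).rank ≤ r) ∧
  ∀ p, xRank (segre a b) p = xBorderRank (segre a b) p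

/-- **Wc** (uses `StWa`, `StWb`). PROOF. `p.rep = u ⊗ v`: `a = u ⊗ v'` with `v, v'` linearly independent
(`b ≥ 1`). Quadric: `mat p.rep = u1 ⊗ v1 + u2 ⊗ v2` has rank `2`, `u1, u2` and `v1, v2` are linearly
independent; `a = u1 ⊗ v2`, `b = u2 ⊗ v1`, `c = u1 ⊗ v1 - u2 ⊗ v2`, `e = 1`:
`w p + x a + y b + z c = (w + z) u1 ⊗ v1 + x u1 ⊗ v2 + y u2 ⊗ v1 + (w - z) u2 ⊗ v2` has the determinant
`w ^ 2 - z ^ 2 - x y = 0`, so it is of the form `(α u1 + β u2) ⊗ (γ v1 + δ v2)`. -/
def StWc : Prop := ∀ a b : ℕ, 1 ≤ b → (∀ p ∈ segre a b, OnLine (segre a b) p) ∧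
  ∀ p, xRank (segre a b) p = 2 → OnQuadric (segre a b) p

/-- **T1T** (uses `StVa`). The tangent spaces. PROOF. Let `f = aeval (r1 n) F`, `p ∈ cut`,
`p.rep = φ(z)` with `φ = r1 n`, `f(z) = 0`, and `D : (Option (Fin (n + 1)) → ℂ) → _` the differential of
`φ` at `z`: `D h = (z i h j + z j h i, h none)`. `z ∘ some ≠ 0`: otherwise `p.rep = (0, w)`, `w ≠ 0`, and
`F(0, w) = coeff (d [none]) F * w ^ d ≠ 0`. So `z i0 ≠ 0` for some `i0` and `D` is injective. Claim:
the tangent space is `D (ker df_z)`; as `df_z ≠ 0` (`Reg`) its dimension is `n + 2 - 1`. (⊇) `G`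
homogeneous vanishing on the section: `aeval φ G` vanishes at the zeros of `f` (for a zero with
`φ(z') ≠ 0` take the point; `φ(z') = 0` only for `z' = 0`, and there `G(0) = 0` or `G = 0` is a
constant), so `f ∣ aeval φ G` (irreducible, Nullstellensatz), `d(aeval φ G)_z = e(z) df_z`, and the
chain rule gives `dG_p (D h) = e(z) df_z(h) = 0`. (⊆) let `v` be in the tangent space; use the quadrics
`X s(i, j) X s(k, l) - X s(i, k) X s(j, l)`: with `v' = (v s(i, j))` one gets from
`i = j = i0` (`z i0 ≠ 0`): `z i0 ^ 2 v' k l + z k z l v' i0 i0 = z i0 (z k v' i0 l + z l v' i0 k)`, which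
says `v' k l = z k h l + z l h k` with `h l = (v' i0 l - z l v' i0 i0 / (2 z i0)) / z i0`; so
`v = D h`, and `dF_p (D h) = df_z (h) = 0`. -/
def StT1T : Prop := ∀ (n d : ℕ) (F : MvPolynomial (Option (Sym2 (Fin (n + 1)))) ℂ), 1 ≤ d →
  F.IsHomogeneous d → coeff (Finsupp.single none d) F ≠ 0 → Irreducible (aeval (r1 n) F) →
  Reg (U1 n) (aeval (r1 n) F) → TanDim (cut (verCone n) F) n

/-- **T2T** (uses `StWa`). The tangent spaces. PROOF. As `StT1T`: `p.rep = u ⊗ v`, `u ≠ 0`, `v ≠ 0`,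
`D (h, k) = u ⊗ k + h ⊗ v` with the kernel spanned by `(u, - v)`, which is in `ker df` (Euler's formula
for the bidegree `(d, d)`: `df (u, - v) = d f - d f = 0`), so the tangent space `D (ker df)` has the
dimension `(a + b + 2) - 1 - 1 = a + b`. (⊆) from the quadrics
`X (i, j) X (k, l) - X (i, l) X (k, j)` with `u i ≠ 0`, `v j ≠ 0`. (⊇) zeros `(u', v')` of `f` with
`u' = 0` or `v' = 0` are sent to `0`. -/
def StT2T : Prop := ∀ (a b d k : ℕ) (F : MvPolynomial (Fin (a + 1) × Fin (b + 1)) ℂ), 1 ≤ d →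
  F.IsHomogeneous d → Irreducible (aeval (r2 a b) F) → Reg (U2 a b) (aeval (r2 a b) F) →
  k + 1 = a + b → TanDim (cut (segre a b) F) k

/-- **Dm** (uses `GP.StPow`, `GP.StLe`, `GP.StBa`, `GP.StBb`, `GP.StBc`). PROOF. `K = cone X`: `Ms K k`;
two copies of the `k` forms: `Ms (pw K 2) (2 k)`. `Sr K 2 = Sg 2 (pw K 2)` (`Sr_eq`), `StLe`. -/
def StDm : Prop := ∀ (ι : Type) [Fintype ι] (X : Set (PSpace ι)) (k : ℕ), IsProjectiveVariety X →
  DimLT X k → DimLT (secantVariety X 2) (2 * k)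

/-- **D1** (uses `StVa`, `StVb`, `GP.StPow`, `GP.StLe`, `GP.StBa`, `GP.StBb`, `GP.StBc`). PROOF. Let
`K = cone (verCone n)` and `Y = clc (Sr K 2)`, a closed irreducible cone, `Ms Y (2 n + 1)`. The linear map
`L w = (w s(0, 0), (w s(0, i))_{i ≥ 1}, (w s(i, i))_{i ≥ 1}, w none)` onto `ℂ ^ (2 n + 2)` (index set e.g.
`Option (Fin (n + 1) ⊕ Fin n)`): every vector whose first coordinate `α` is not zero is in
`L (Sr K 2)`: take `w = (g h^T + h g^T) / 2` (rank `≤ 2`) with `g 0 = 1`, `h 0 = α`,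
`h i = 2 β i - α g i` and `g i` a root of `g i (2 β i - α g i) = γ i`. So `clc (L '' Y)` is everything
(a form which vanishes where `α ≠ 0` is zero). `StLe`: `Ms Set.univ (2 n + 1)` in `ℂ ^ (2 n + 2)`,
but `2 n + 1` linear forms in `2 n + 2` variables have a common zero `≠ 0`. -/
def StD1 : Prop := ∀ n : ℕ, ¬ DimLT (secantVariety (verCone n) 2) (2 * n + 1)

/-- **D2** (uses `StWa`, `StWb`, `GP.StPow`, `GP.StLe`, `GP.StBa`, `GP.StBb`, `GP.StBc`). PROOF. As
`StD1`: `L w` = the entries `(i, j)` with `i ≤ 1` or `j ≤ 1`, their number is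
`(a + 1) (b + 1) - (a - 1) (b - 1) = 2 (a + b)`; if the corner `A` (the first two rows and columns) is
invertible, the matrix with the blocks `A, B, C, C A⁻¹ B` has rank `2`. -/
def StD2 : Prop := ∀ a b k : ℕ, 1 ≤ a → 1 ≤ b → k + 1 = 2 * (a + b) →
  ¬ DimLT (secantVariety (segre a b) 2) k

/-- **E1.** PROOF. The `n + 1` forms `X s(i, i)`: if `p.rep = vp z w` and all `z i ^ 2 = 0` then `z = 0`,
`p.rep = (0, w)`, `F(0, w) = coeff * w ^ d` (`F` homogeneous of degree `d`), so `w = 0`. -/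
def StE1 : Prop := ∀ (n d : ℕ) (F : MvPolynomial (Option (Sym2 (Fin (n + 1)))) ℂ), 1 ≤ d →
  F.IsHomogeneous d → coeff (Finsupp.single none d) F ≠ 0 → DimLT (cut (verCone n) F) (n + 1)

/-- **E2** (uses `StWa`, `GP.StDim`, `GP.StBa`, `GP.StBc`). PROOF. `Ms (cone (segre a b)) (a + b + 1)`:
the forms `∑_{i + j = k} X (i, j)`, `k ≤ a + b`: on `u ⊗ v` they are the coefficients of the product of
the polynomials `∑ u i T ^ i`, `∑ v j T ^ j`. `cone (cut (segre a b) F)` is a closed cone, contained in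
`cone (segre a b)` and different from it; `StDim`. -/
def StE2 : Prop := ∀ (a b d : ℕ) (F : MvPolynomial (Fin (a + 1) × Fin (b + 1)) ℂ), 1 ≤ d →
  F.IsHomogeneous d → (∃ p ∈ segre a b, eval p.rep F ≠ 0) → DimLT (cut (segre a b) F) (a + b)

/-- **B1** (uses `StMA`, `StI1`, `StS1`, `StP1`, `StXi`, `StVa`, `StVb`, `StVc`, `StT1T`, `StDm`, `StD1`,
`StE1`). PROOF. `Φ` = the product of the polynomial of `StMA`, of those of `StP1` for `StI1` and `StS1`,
and of the variable of the exponent `d [none]`. `Z = verCone n`, `X = cut Z F`. By `StMA` (hypotheses: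
`StVa`, `StVb`, `StVc`) `secantSet X 2 = secantSet Z 2`, which is not empty, so `X` is not empty, and
`secantVariety X 2 = secantVariety Z 2` (both are the closures). `StXi`, `StT1T`. Dimension:
`DimLT X (n + 1)` (`StE1`), so `DimLT (secantVariety X 2) (2 n + 2)` (`StDm`), not `(2 n + 1)` (`StD1`);
`DimLT X n` would give `DimLT (secantVariety X 2) (2 n)`. `Spans X`: every point is in
`secantSet X (n + 2)` (`StVb`). `n ≥ 2`: a point with the matrix `diag (1, 1, 1, 0, ...)` is not in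
`secantVariety Z 2` (`StVb`: rank = border rank). -/
def StB1 : Prop := ∀ n d : ℕ, 1 ≤ n →
  16 * Fintype.card (Option (Sym2 (Fin (n + 1)))) + 7 ≤ d →
  ∃ Φ : MvPolynomial (Ex (Option (Sym2 (Fin (n + 1)))) d) ℂ, Φ ≠ 0 ∧
    ∀ F : MvPolynomial (Option (Sym2 (Fin (n + 1)))) ℂ, F.IsHomogeneous d →
      eval (fun a : Ex (Option (Sym2 (Fin (n + 1)))) d => coeff a.1 F) Φ ≠ 0 →
        IsProjectiveVariety (cut (verCone n) F) ∧ TanDim (cut (verCone n) F) n ∧
        HasDim (cut (verCone n) F) n ∧ HasDim (secantVariety (cut (verCone n) F) 2) (2 * n + 1) ∧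
        Spans (cut (verCone n) F) ∧ (2 ≤ n → secantVariety (cut (verCone n) F) 2 ≠ Set.univ) ∧
        ∀ p, xRank (cut (verCone n) F) p = xBorderRank (cut (verCone n) F) p

/-- **B2** (uses `StMA`, `StI2`, `StS2`, `StP2`, `StXi`, `StWa`, `StWb`, `StWc`, `StT2T`, `StDm`, `StD2`,
`StE2`). PROOF. As `StB1`. For `StE2`: `aeval (r2 a b) F = pol g` is irreducible, so not zero, so some
value `F(u ⊗ v)` is not zero. `a, b ≥ 2`: a matrix of rank `3`. -/
def StB2 : Prop := ∀ a b k d : ℕ, 1 ≤ a → 1 ≤ b → k + 1 = a + b →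
  16 * Fintype.card (Fin (a + 1) × Fin (b + 1)) + 7 ≤ d →
  ∃ Φ : MvPolynomial (Ex (Fin (a + 1) × Fin (b + 1)) d) ℂ, Φ ≠ 0 ∧
    ∀ F : MvPolynomial (Fin (a + 1) × Fin (b + 1)) ℂ, F.IsHomogeneous d →
      eval (fun c : Ex (Fin (a + 1) × Fin (b + 1)) d => coeff c.1 F) Φ ≠ 0 →
        IsProjectiveVariety (cut (segre a b) F) ∧ TanDim (cut (segre a b) F) k ∧
        HasDim (cut (segre a b) F) k ∧ HasDim (secantVariety (cut (segre a b) F) 2) (2 * k + 1) ∧
        Spans (cut (segre a b) F) ∧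
        (2 ≤ a → 2 ≤ b → secantVariety (cut (segre a b) F) 2 ≠ Set.univ) ∧
        ∀ p, xRank (cut (segre a b) F) p = xBorderRank (cut (segre a b) F) p

end Pool.Agent.Lib.MP_e005b4_ag.LD
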