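import Pool.Agent.Lib.MP_e005b4_ag.LD.SpecB

/-!
# Sections of large degree: the tangent spaces of the sections of the cone (helper62)
-/

set_option autoImplicit false

namespace Pool.Agent.Lib.MP_e005b4_ag.LD

open MvPolynomial Pool.Agent.Lib.MP_e005b4_ag Pool.Agent.Lib.MP_e005b4_ag.GP
open scoped LinearAlgebra.Projectivization

section

variable {ι σ : Type} [Fintype ι]

omit [Fintype ι] in
private lemma T1T_eval (φ : ι → MvPolynomial σ ℂ) (G : MvPolynomial ι ℂ) (z : σ → ℂ) :
    eval z (aeval φ G) = eval (fun o => eval z (φ o)) G := by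
  have h1 : (eval z : MvPolynomial σ ℂ →+* ℂ).comp
      (aeval φ : MvPolynomial ι ℂ →ₐ[ℂ] MvPolynomial σ ℂ).toRingHom = eval (fun o => eval z (φ o)) := by
    refine MvPolynomial.ringHom_ext (fun c => ?_) fun k => ?_
    · simp
    · simp
  exact RingHom.congr_fun h1 G

/-- The chain rule. -/
private lemma T1T_chain (φ : ι → MvPolynomial σ ℂ) (G : MvPolynomial ι ℂ) (j : σ) :
    pderiv j (aeval φ G) = ∑ o, aeval φ (pderiv o G) * pderiv j (φ o) := by
  classical
  induction G using MvPolynomial.induction_on with
  | C c => simp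
  | add p q hp hq =>
    simp only [map_add, hp, hq, add_mul, Finset.sum_add_distrib]
  | mul_X p n hp =>
    simp only [map_mul, aeval_X, pderiv_mul, hp, map_add, pderiv_X, add_mul, Finset.sum_add_distrib]
    congr 1
    · rw [Finset.sum_mul]
      exact Finset.sum_congr rfl fun o _ => by ring
    · rw [Finset.sum_eq_single n]
      · rw [Pi.single_eq_same, map_one, mul_one]
      · intro o _ ho
        rw [Pi.single_eq_of_ne ho.symm, map_zero, mul_zero, zero_mul]
      · exact fun h => absurd (Finset.mem_univ n) h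

/-- The Nullstellensatz for an irreducible polynomial. -/
private lemma T1T_dvd [Finite σ] {f g : MvPolynomial σ ℂ} (hf : Irreducible f)
    (h : ∀ z, eval z f = 0 → eval z g = 0) : f ∣ g := by
  have h1 : g ∈ vanishingIdeal ℂ (zeroLocus ℂ (Ideal.span {f})) := by
    rw [mem_vanishingIdeal_iff]
    intro x hx
    rw [mem_zeroLocus_iff] at hx
    have h2 := hx f (Ideal.subset_span rfl)
    rw [aeval_eq_eval] at h2 ⊢
    exact h x h2
  rw [vanishingIdeal_zeroLocus_eq_radical] at h1
  obtain ⟨n, hn⟩ := h1
  exact hf.prime.dvd_of_dvd_pow (Ideal.mem_span_singleton.1 hn)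

variable [Fintype σ]

/-- The differential of `φ` at `z`. -/
private noncomputable def T1T_D (φ : ι → MvPolynomial σ ℂ) (z : σ → ℂ) : (σ → ℂ) →ₗ[ℂ] (ι → ℂ) where
  toFun h := fun o => ∑ j, eval z (pderiv j (φ o)) * h j
  map_add' h k := by
    funext o
    simp only [Pi.add_apply, mul_add, Finset.sum_add_distrib]
  map_smul' c h := by
    funext o
    simp only [Pi.smul_apply, smul_eq_mul, RingHom.id_apply, Finset.mul_sum]
    exact Finset.sum_congr rfl fun j _ => by ring

/-- The differential of `f` at `z`. -/
private noncomputable def T1T_l (f : MvPolynomial σ ℂ) (z : σ → ℂ) : (σ → ℂ) →ₗ[ℂ] ℂ where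
  toFun h := ∑ j, eval z (pderiv j f) * h j
  map_add' h k := by
    simp only [Pi.add_apply, mul_add, Finset.sum_add_distrib]
  map_smul' c h := by
    simp only [Pi.smul_apply, smul_eq_mul, RingHom.id_apply, Finset.mul_sum]
    exact Finset.sum_congr rfl fun j _ => by ring

omit [Fintype ι] in
private lemma T1T_D_apply (φ : ι → MvPolynomial σ ℂ) (z h : σ → ℂ) (o : ι) :
    T1T_D φ z h o = T1T_l (φ o) z h := rfl

private lemma T1T_comp (φ : ι → MvPolynomial σ ℂ) (G : MvPolynomial ι ℂ) (z : σ → ℂ) (h : σ → ℂ) :
    ∑ o, eval (fun o => eval z (φ o)) (pderiv o G) * T1T_D φ z h o = T1T_l (aeval φ G) z h := by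
  change ∑ o, eval (fun o => eval z (φ o)) (pderiv o G) * ∑ j, eval z (pderiv j (φ o)) * h j =
    ∑ j, eval z (pderiv j (aeval φ G)) * h j
  simp only [T1T_chain, map_sum, map_mul, T1T_eval, Finset.mul_sum, Finset.sum_mul]
  rw [Finset.sum_comm]
  exact Finset.sum_congr rfl fun j _ => Finset.sum_congr rfl fun o _ => by ring

/-- The image of the kernel of the differential is contained in the tangent space. -/
private lemma T1T_sup (φ : ι → MvPolynomial σ ℂ) (X : Set (PSpace ι)) (F : MvPolynomial ι ℂ)
    (hne : X.Nonempty) (hf : Irreducible (aeval φ F))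
    (h0 : ∀ z : σ → ℂ, eval z (aeval φ F) = 0 → (fun o => eval z (φ o)) ∈ cone X)
    (p : PSpace ι) (z : σ → ℂ) (hp : p.rep = fun o => eval z (φ o)) (hz : eval z (aeval φ F) = 0)
    (h : σ → ℂ) (hh : T1T_l (aeval φ F) z h = 0) : T1T_D φ z h ∈ tangentSpace X p := by
  intro G d hG hGX
  have h1 : aeval φ F ∣ aeval φ G := T1T_dvd hf fun z' hz' => by
    rw [T1T_eval]
    exact vanish_on_cone hne hG hGX _ (h0 z' hz')
  obtain ⟨e, he⟩ := h1
  rw [hp, T1T_comp, he]
  change ∑ j, eval z (pderiv j (aeval φ F * e)) * h j = 0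
  have h2 : ∀ j, eval z (pderiv j (aeval φ F * e)) * h j =
      eval z e * (eval z (pderiv j (aeval φ F)) * h j) := by
    intro j
    rw [pderiv_mul, map_add, map_mul, map_mul, hz]
    ring
  rw [Finset.sum_congr rfl fun j _ => h2 j, ← Finset.mul_sum]
  change eval z e * T1T_l (aeval φ F) z h = 0
  rw [hh, mul_zero]

omit [Fintype ι] in
/-- Dimension of the image of the kernel. -/
private lemma T1T_dim (φ : ι → MvPolynomial σ ℂ) (f : MvPolynomial σ ℂ) (z : σ → ℂ)
    (hD : LinearMap.ker (T1T_D φ z) ≤ LinearMap.ker (T1T_l f z))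
    (hf : ∃ s, eval z (pderiv s f) ≠ 0) :
    Module.finrank ℂ ((LinearMap.ker (T1T_l f z)).map (T1T_D φ z)) +
      Module.finrank ℂ (LinearMap.ker (T1T_D φ z)) + 1 = Fintype.card σ := by
  classical
  have h1 : LinearMap.range (T1T_l f z) = ⊤ := by
    rw [LinearMap.range_eq_top]
    obtain ⟨s, hs⟩ := hf
    intro c
    refine ⟨Pi.single s (c / eval z (pderiv s f)), ?_⟩
    change ∑ j, eval z (pderiv j f) * (Pi.single s (c / eval z (pderiv s f)) : σ → ℂ) j = c
    rw [Finset.sum_eq_single s]
    · rw [Pi.single_eq_same, mul_div_cancel₀ _ hs]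
    · intro j _ hj
      rw [Pi.single_eq_of_ne hj, mul_zero]
    · exact fun h => absurd (Finset.mem_univ s) h
  have h2 := LinearMap.finrank_range_add_finrank_ker (T1T_l f z)
  rw [h1, finrank_top, Module.finrank_self, Module.finrank_fintype_fun_eq_card] at h2
  have h3 := LinearMap.finrank_range_add_finrank_ker
    ((T1T_D φ z).domRestrict (LinearMap.ker (T1T_l f z)))
  rw [LinearMap.range_domRestrict, LinearMap.ker_domRestrict,
    (Submodule.comapSubtypeEquivOfLe hD).finrank_eq] at h3
  omega

private lemma T1T_l_mul (f g : MvPolynomial σ ℂ) (z h : σ → ℂ) :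
    T1T_l (f * g) z h = T1T_l f z h * eval z g + eval z f * T1T_l g z h := by
  change ∑ j, eval z (pderiv j (f * g)) * h j =
    (∑ j, eval z (pderiv j f) * h j) * eval z g + eval z f * ∑ j, eval z (pderiv j g) * h j
  rw [Finset.sum_mul, Finset.mul_sum, ← Finset.sum_add_distrib]
  refine Finset.sum_congr rfl fun j _ => ?_
  rw [pderiv_mul, map_add, map_mul, map_mul]
  ring

private lemma T1T_l_sub (f g : MvPolynomial σ ℂ) (z h : σ → ℂ) :
    T1T_l (f - g) z h = T1T_l f z h - T1T_l g z h := by
  change ∑ j, eval z (pderiv j (f - g)) * h j =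
    (∑ j, eval z (pderiv j f) * h j) - ∑ j, eval z (pderiv j g) * h j
  rw [← Finset.sum_sub_distrib]
  refine Finset.sum_congr rfl fun j _ => ?_
  rw [map_sub, map_sub]
  ring

private lemma T1T_l_X (i : σ) (z h : σ → ℂ) : T1T_l (X i) z h = h i := by
  classical
  change ∑ j, eval z (pderiv j (X i)) * h j = h i
  rw [Finset.sum_eq_single i]
  · rw [pderiv_X, Pi.single_eq_same, map_one, one_mul]
  · intro j _ hj
    rw [pderiv_X, Pi.single_eq_of_ne hj.symm, map_zero, zero_mul]
  · exact fun h => absurd (Finset.mem_univ i) h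

end

private lemma T1T_r1_some (n : ℕ) (k l : Fin (n + 1)) :
    r1 n (some s(k, l)) = X (some k) * X (some l) := rfl

private lemma T1T_r1_none (n : ℕ) : r1 n none = X none := rfl

private lemma T1T_none (n : ℕ) (z h : Option (Fin (n + 1)) → ℂ) :
    T1T_D (r1 n) z h none = h none := by
  rw [T1T_D_apply, T1T_r1_none, T1T_l_X]

private lemma T1T_some (n : ℕ) (z h : Option (Fin (n + 1)) → ℂ) (k l : Fin (n + 1)) :
    T1T_D (r1 n) z h (some s(k, l)) = z (some k) * h (some l) + z (some l) * h (some k) := by
  rw [T1T_D_apply, T1T_r1_some, T1T_l_mul, T1T_l_X, T1T_l_X, eval_X, eval_X]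
  ring

theorem lT1T (h1 : StVa) : StT1T := by
  intro n d F hd hF hc hirr hreg p hp
  classical
  obtain ⟨hcone, -⟩ := h1 n
  have h0 : ∀ z', eval z' (aeval (r1 n) F) = 0 →
      (fun o => eval z' (r1 n o)) ∈ cone (cut (verCone n) F) := by
    intro z' hz' hne
    refine ⟨(hcone _).2 ⟨z', rfl⟩ hne, ?_⟩
    rw [eval_rep_iff hF, ← T1T_eval]
    exact hz'
  have hpar : ∀ q ∈ cut (verCone n) F, ∃ z : Option (Fin (n + 1)) → ℂ,
      q.rep = fun o => eval z (r1 n o) := fun q hq => (hcone q.rep).1 (rep_mem_cone.2 hq.1)
  obtain ⟨z, hz⟩ := hpar p hp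
  have hsome : ∀ (z : Option (Fin (n + 1)) → ℂ) (i j : Fin (n + 1)),
      eval z (r1 n (some s(i, j))) = z (some i) * z (some j) := by
    intro z i j
    rw [T1T_r1_some, map_mul, eval_X, eval_X]
  have hnone : ∀ z : Option (Fin (n + 1)) → ℂ, eval z (r1 n none) = z none := by
    intro z
    rw [T1T_r1_none, eval_X]
  have hps : ∀ i j, p.rep (some s(i, j)) = z (some i) * z (some j) := fun i j => by
    rw [hz]; exact hsome z i j
  have hfz : eval z (aeval (r1 n) F) = 0 := by
    rw [T1T_eval, ← hz]
    exact hp.2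
  have hz0 : ∃ i, z (some i) ≠ 0 := by
    by_contra hno
    push Not at hno
    have hs0 : ∀ s, p.rep (some s) = 0 := by
      intro s
      induction s using Sym2.ind with
      | _ i j => rw [hps, hno, zero_mul]
    have hn0 : p.rep none ≠ 0 := by
      intro h
      refine p.rep_nonzero (funext fun o => ?_)
      rcases o with _ | s
      · exact h
      · exact hs0 s
    have h2 : eval p.rep F = coeff (Finsupp.single none d) F * p.rep none ^ d := by
      rw [eval_eq', Finset.sum_eq_single (Finsupp.single none d)]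
      · rw [Fintype.prod_eq_single none]
        · rw [Finsupp.single_eq_same]
        · intro o ho
          rw [Finsupp.single_eq_of_ne ho, pow_zero]
      · intro m hm hmne
        have h3 : ∃ s, m (some s) ≠ 0 := by
          by_contra hno2
          push Not at hno2
          have h4 : m = Finsupp.single none (m none) := by
            ext o
            rcases o with _ | s
            · rw [Finsupp.single_eq_same]
            · rw [hno2, Finsupp.single_eq_of_ne (by simp)]
          have h5 : m.degree = d := by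
            by_contra hne
            exact (mem_support_iff.mp hm) (hF.coeff_eq_zero hne)
          rw [h4, Finsupp.degree_single] at h5
          exact hmne (by rw [h4, h5])
        obtain ⟨s, hs⟩ := h3
        rw [Finset.prod_eq_zero (Finset.mem_univ (some s)) (by rw [hs0, zero_pow hs]), mul_zero]
      · intro h
        rw [notMem_support_iff.mp h, zero_mul]
    have h3 := hp.2
    rw [h2] at h3
    exact mul_ne_zero hc (pow_ne_zero d hn0) h3
  have hmem : ∀ (v : Option (Sym2 (Fin (n + 1))) → ℂ), v ∈ tangentSpace (cut (verCone n) F) p ↔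
      ∀ (G : MvPolynomial (Option (Sym2 (Fin (n + 1)))) ℂ) (e : ℕ), G.IsHomogeneous e →
        (∀ q ∈ cut (verCone n) F, eval q.rep G = 0) → T1T_l G p.rep v = 0 := fun v => Iff.rfl
  obtain ⟨i0, hi0⟩ := hz0
  have hker : LinearMap.ker (T1T_D (r1 n) z) = ⊥ := by
    rw [LinearMap.ker_eq_bot']
    intro h hh
    have e1 : h none = 0 := by
      have := congrFun hh none
      rwa [T1T_none] at this
    have e2 : ∀ k l, z (some k) * h (some l) + z (some l) * h (some k) = 0 := by
      intro k l
      have := congrFun hh (some s(k, l))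
      rwa [T1T_some] at this
    have e3 : h (some i0) = 0 := by
      have h4 := e2 i0 i0
      have h5 : (2 * z (some i0)) * h (some i0) = 0 := by linear_combination h4
      rcases mul_eq_zero.1 h5 with h6 | h6
      · exact absurd h6 (mul_ne_zero two_ne_zero hi0)
      · exact h6
    funext o
    rcases o with _ | l
    · exact e1
    · have h4 := e2 i0 l
      rw [e3, mul_zero, add_zero] at h4
      exact (mul_eq_zero.1 h4).resolve_left hi0
  have htan : tangentSpace (cut (verCone n) F) p =
      (LinearMap.ker (T1T_l (aeval (r1 n) F) z)).map (T1T_D (r1 n) z) := by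
    apply le_antisymm
    · intro v hv
      rw [hmem] at hv
      have hq : ∀ i j k l : Fin (n + 1), v (some s(i, j)) * (z (some k) * z (some l)) +
          (z (some i) * z (some j)) * v (some s(k, l)) =
          v (some s(i, k)) * (z (some j) * z (some l)) +
          (z (some i) * z (some k)) * v (some s(j, l)) := by
        intro i j k l
        have h2 := hv (X (some s(i, j)) * X (some s(k, l)) - X (some s(i, k)) * X (some s(j, l)))
          (1 + 1) (((isHomogeneous_X _ _).mul (isHomogeneous_X _ _)).sub
            ((isHomogeneous_X _ _).mul (isHomogeneous_X _ _))) (by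
          intro q hq
          obtain ⟨z', hz'⟩ := hpar q hq
          rw [hz', map_sub, map_mul, map_mul, eval_X, eval_X, eval_X, eval_X, hsome, hsome, hsome,
            hsome]
          ring)
        rw [T1T_l_sub, T1T_l_mul, T1T_l_mul, T1T_l_X, T1T_l_X, T1T_l_X, T1T_l_X, eval_X, eval_X,
          eval_X, eval_X, hps, hps, hps, hps] at h2
        linear_combination h2
      obtain ⟨h, hh1, hh2⟩ : ∃ h : Option (Fin (n + 1)) → ℂ, h none = v none ∧
          ∀ l, h (some l) = v (some s(i0, l)) / z (some i0) -
            z (some l) * v (some s(i0, i0)) / (2 * z (some i0) ^ 2) :=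
        ⟨fun j => match j with
          | none => v none
          | some l => v (some s(i0, l)) / z (some i0) -
            z (some l) * v (some s(i0, i0)) / (2 * z (some i0) ^ 2), rfl, fun l => rfl⟩
      have hD : T1T_D (r1 n) z h = v := by
        funext o
        rcases o with _ | s
        · rw [T1T_none, hh1]
        · induction s using Sym2.ind with
          | _ k l =>
            rw [T1T_some, hh2, hh2]
            have h3 := hq i0 i0 k l
            field_simp
            linear_combination (-2) * h3
      refine ⟨h, ?_, hD⟩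
      change T1T_l (aeval (r1 n) F) z h = 0
      rw [← T1T_comp, hD, ← hz]
      exact hv F d hF fun q hq => hq.2
    · rintro _ ⟨h, hh, rfl⟩
      exact T1T_sup (r1 n) _ F ⟨p, hp⟩ hirr h0 p z hz hfz h hh
  have hdim := T1T_dim (r1 n) (aeval (r1 n) F) z (by rw [hker]; exact bot_le) (hreg z ⟨i0, hi0⟩ hfz)
  rw [htan]
  rw [hker, finrank_bot, Fintype.card_option, Fintype.card_fin] at hdim
  omega

end Pool.Agent.Lib.MP_e005b4_ag.LD
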