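import Pool.Agent.Lib.MP_e005b4_ag.LD.SpecB

/-!
# Sections of large degree: the tangent spaces of the sections of the Segre varieties (helper62)
-/

set_option autoImplicit false

namespace Pool.Agent.Lib.MP_e005b4_ag.LD

open MvPolynomial Pool.Agent.Lib.MP_e005b4_ag Pool.Agent.Lib.MP_e005b4_ag.GP
open scoped LinearAlgebra.Projectivization

section

variable {ι σ : Type} [Fintype ι]

omit [Fintype ι] in
private lemma T2T_eval (φ : ι → MvPolynomial σ ℂ) (G : MvPolynomial ι ℂ) (z : σ → ℂ) :
    eval z (aeval φ G) = eval (fun o => eval z (φ o)) G := by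
  have h1 : (eval z : MvPolynomial σ ℂ →+* ℂ).comp
      (aeval φ : MvPolynomial ι ℂ →ₐ[ℂ] MvPolynomial σ ℂ).toRingHom = eval (fun o => eval z (φ o)) := by
    refine MvPolynomial.ringHom_ext (fun c => ?_) fun k => ?_
    · simp
    · simp
  exact RingHom.congr_fun h1 G

/-- The chain rule. -/
private lemma T2T_chain (φ : ι → MvPolynomial σ ℂ) (G : MvPolynomial ι ℂ) (j : σ) :
    pderiv j (aeval φ G) = ∑ o, aeval φ (pderiv o G) * pderiv j (φ o) := by
  classical
  induction G using MvPolynomial.induction_on with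
  | C c => simp
  | add p q hp hq =>
    simp only [map_add, hp, hq, add_mul, Finset.sum_add_distrib]
  | mul_X p n hp =>
    simp only [map_mul, aeval_X, pderiv_mul, hp, map_add, pderiv_X, add_mul, Finset.sum_add_distrib]
    congr 1
    · rw [Finset.sum_mul]
      exact Finset.sum_congr rfl fun o _ => by ring
    · rw [Finset.sum_eq_single n]
      · rw [Pi.single_eq_same, map_one, mul_one]
      · intro o _ ho
        rw [Pi.single_eq_of_ne ho.symm, map_zero, mul_zero, zero_mul]
      · exact fun h => absurd (Finset.mem_univ n) h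

/-- The Nullstellensatz for an irreducible polynomial. -/
private lemma T2T_dvd [Finite σ] {f g : MvPolynomial σ ℂ} (hf : Irreducible f)
    (h : ∀ z, eval z f = 0 → eval z g = 0) : f ∣ g := by
  have h1 : g ∈ vanishingIdeal ℂ (zeroLocus ℂ (Ideal.span {f})) := by
    rw [mem_vanishingIdeal_iff]
    intro x hx
    rw [mem_zeroLocus_iff] at hx
    have h2 := hx f (Ideal.subset_span rfl)
    rw [aeval_eq_eval] at h2 ⊢
    exact h x h2
  rw [vanishingIdeal_zeroLocus_eq_radical] at h1
  obtain ⟨n, hn⟩ := h1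
  exact hf.prime.dvd_of_dvd_pow (Ideal.mem_span_singleton.1 hn)

variable [Fintype σ]

/-- The differential of `φ` at `z`. -/
private noncomputable def T2T_D (φ : ι → MvPolynomial σ ℂ) (z : σ → ℂ) : (σ → ℂ) →ₗ[ℂ] (ι → ℂ) where
  toFun h := fun o => ∑ j, eval z (pderiv j (φ o)) * h j
  map_add' h k := by
    funext o
    simp only [Pi.add_apply, mul_add, Finset.sum_add_distrib]
  map_smul' c h := by
    funext o
    simp only [Pi.smul_apply, smul_eq_mul, RingHom.id_apply, Finset.mul_sum]
    exact Finset.sum_congr rfl fun j _ => by ring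

/-- The differential of `f` at `z`. -/
private noncomputable def T2T_l (f : MvPolynomial σ ℂ) (z : σ → ℂ) : (σ → ℂ) →ₗ[ℂ] ℂ where
  toFun h := ∑ j, eval z (pderiv j f) * h j
  map_add' h k := by
    simp only [Pi.add_apply, mul_add, Finset.sum_add_distrib]
  map_smul' c h := by
    simp only [Pi.smul_apply, smul_eq_mul, RingHom.id_apply, Finset.mul_sum]
    exact Finset.sum_congr rfl fun j _ => by ring

omit [Fintype ι] in
private lemma T2T_D_apply (φ : ι → MvPolynomial σ ℂ) (z h : σ → ℂ) (o : ι) :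
    T2T_D φ z h o = T2T_l (φ o) z h := rfl

private lemma T2T_comp (φ : ι → MvPolynomial σ ℂ) (G : MvPolynomial ι ℂ) (z : σ → ℂ) (h : σ → ℂ) :
    ∑ o, eval (fun o => eval z (φ o)) (pderiv o G) * T2T_D φ z h o = T2T_l (aeval φ G) z h := by
  change ∑ o, eval (fun o => eval z (φ o)) (pderiv o G) * ∑ j, eval z (pderiv j (φ o)) * h j =
    ∑ j, eval z (pderiv j (aeval φ G)) * h j
  simp only [T2T_chain, map_sum, map_mul, T2T_eval, Finset.mul_sum, Finset.sum_mul]
  rw [Finset.sum_comm]
  exact Finset.sum_congr rfl fun j _ => Finset.sum_congr rfl fun o _ => by ring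

/-- The image of the kernel of the differential is contained in the tangent space. -/
private lemma T2T_sup (φ : ι → MvPolynomial σ ℂ) (X : Set (PSpace ι)) (F : MvPolynomial ι ℂ)
    (hne : X.Nonempty) (hf : Irreducible (aeval φ F))
    (h0 : ∀ z : σ → ℂ, eval z (aeval φ F) = 0 → (fun o => eval z (φ o)) ∈ cone X)
    (p : PSpace ι) (z : σ → ℂ) (hp : p.rep = fun o => eval z (φ o)) (hz : eval z (aeval φ F) = 0)
    (h : σ → ℂ) (hh : T2T_l (aeval φ F) z h = 0) : T2T_D φ z h ∈ tangentSpace X p := by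
  intro G d hG hGX
  have h1 : aeval φ F ∣ aeval φ G := T2T_dvd hf fun z' hz' => by
    rw [T2T_eval]
    exact vanish_on_cone hne hG hGX _ (h0 z' hz')
  obtain ⟨e, he⟩ := h1
  rw [hp, T2T_comp, he]
  change ∑ j, eval z (pderiv j (aeval φ F * e)) * h j = 0
  have h2 : ∀ j, eval z (pderiv j (aeval φ F * e)) * h j =
      eval z e * (eval z (pderiv j (aeval φ F)) * h j) := by
    intro j
    rw [pderiv_mul, map_add, map_mul, map_mul, hz]
    ring
  rw [Finset.sum_congr rfl fun j _ => h2 j, ← Finset.mul_sum]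
  change eval z e * T2T_l (aeval φ F) z h = 0
  rw [hh, mul_zero]

omit [Fintype ι] in
/-- Dimension of the image of the kernel. -/
private lemma T2T_dim (φ : ι → MvPolynomial σ ℂ) (f : MvPolynomial σ ℂ) (z : σ → ℂ)
    (hD : LinearMap.ker (T2T_D φ z) ≤ LinearMap.ker (T2T_l f z))
    (hf : ∃ s, eval z (pderiv s f) ≠ 0) :
    Module.finrank ℂ ((LinearMap.ker (T2T_l f z)).map (T2T_D φ z)) +
      Module.finrank ℂ (LinearMap.ker (T2T_D φ z)) + 1 = Fintype.card σ := by
  classical
  have h1 : LinearMap.range (T2T_l f z) = ⊤ := by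
    rw [LinearMap.range_eq_top]
    obtain ⟨s, hs⟩ := hf
    intro c
    refine ⟨Pi.single s (c / eval z (pderiv s f)), ?_⟩
    change ∑ j, eval z (pderiv j f) * (Pi.single s (c / eval z (pderiv s f)) : σ → ℂ) j = c
    rw [Finset.sum_eq_single s]
    · rw [Pi.single_eq_same, mul_div_cancel₀ _ hs]
    · intro j _ hj
      rw [Pi.single_eq_of_ne hj, mul_zero]
    · exact fun h => absurd (Finset.mem_univ s) h
  have h2 := LinearMap.finrank_range_add_finrank_ker (T2T_l f z)
  rw [h1, finrank_top, Module.finrank_self, Module.finrank_fintype_fun_eq_card] at h2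
  have h3 := LinearMap.finrank_range_add_finrank_ker
    ((T2T_D φ z).domRestrict (LinearMap.ker (T2T_l f z)))
  rw [LinearMap.range_domRestrict, LinearMap.ker_domRestrict,
    (Submodule.comapSubtypeEquivOfLe hD).finrank_eq] at h3
  omega

private lemma T2T_l_mul (f g : MvPolynomial σ ℂ) (z h : σ → ℂ) :
    T2T_l (f * g) z h = T2T_l f z h * eval z g + eval z f * T2T_l g z h := by
  change ∑ j, eval z (pderiv j (f * g)) * h j =
    (∑ j, eval z (pderiv j f) * h j) * eval z g + eval z f * ∑ j, eval z (pderiv j g) * h j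
  rw [Finset.sum_mul, Finset.mul_sum, ← Finset.sum_add_distrib]
  refine Finset.sum_congr rfl fun j _ => ?_
  rw [pderiv_mul, map_add, map_mul, map_mul]
  ring

private lemma T2T_l_sub (f g : MvPolynomial σ ℂ) (z h : σ → ℂ) :
    T2T_l (f - g) z h = T2T_l f z h - T2T_l g z h := by
  change ∑ j, eval z (pderiv j (f - g)) * h j =
    (∑ j, eval z (pderiv j f) * h j) - ∑ j, eval z (pderiv j g) * h j
  rw [← Finset.sum_sub_distrib]
  refine Finset.sum_congr rfl fun j _ => ?_
  rw [map_sub, map_sub]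
  ring

private lemma T2T_l_X (i : σ) (z h : σ → ℂ) : T2T_l (X i) z h = h i := by
  classical
  change ∑ j, eval z (pderiv j (X i)) * h j = h i
  rw [Finset.sum_eq_single i]
  · rw [pderiv_X, Pi.single_eq_same, map_one, one_mul]
  · intro j _ hj
    rw [pderiv_X, Pi.single_eq_of_ne hj.symm, map_zero, zero_mul]
  · exact fun h => absurd (Finset.mem_univ i) h

end

private lemma T2T_r2 (a b : ℕ) (o : Fin (a + 1) × Fin (b + 1)) :
    r2 a b o = X (Sum.inl o.1) * X (Sum.inr o.2) := rfl

private lemma T2T_val (a b : ℕ) (z : Fin (a + 1) ⊕ Fin (b + 1) → ℂ) (o : Fin (a + 1) × Fin (b + 1)) :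
    eval z (r2 a b o) = z (Sum.inl o.1) * z (Sum.inr o.2) := by
  rw [T2T_r2, map_mul, eval_X, eval_X]

private lemma T2T_Dval (a b : ℕ) (z h : Fin (a + 1) ⊕ Fin (b + 1) → ℂ)
    (o : Fin (a + 1) × Fin (b + 1)) :
    T2T_D (r2 a b) z h o = h (Sum.inl o.1) * z (Sum.inr o.2) + z (Sum.inl o.1) * h (Sum.inr o.2) := by
  rw [T2T_D_apply, T2T_r2, T2T_l_mul, T2T_l_X, T2T_l_X, eval_X, eval_X]

theorem lT2T (h1 : StWa) : StT2T := by
  intro a b d k F hd hF hirr hreg hk p hp
  classical
  obtain ⟨hcone, -⟩ := h1 a b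
  have h0 : ∀ z', eval z' (aeval (r2 a b) F) = 0 →
      (fun o => eval z' (r2 a b o)) ∈ cone (cut (segre a b) F) := by
    intro z' hz' hne
    refine ⟨(hcone _).2 ⟨z', rfl⟩ hne, ?_⟩
    rw [eval_rep_iff hF, ← T2T_eval]
    exact hz'
  have hpar : ∀ q ∈ cut (segre a b) F, ∃ z : Fin (a + 1) ⊕ Fin (b + 1) → ℂ,
      q.rep = fun o => eval z (r2 a b o) := fun q hq => (hcone q.rep).1 (rep_mem_cone.2 hq.1)
  obtain ⟨z, hz⟩ := hpar p hp
  have hps : ∀ i j, p.rep (i, j) = z (Sum.inl i) * z (Sum.inr j) := fun i j => by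
    rw [hz]; exact T2T_val a b z (i, j)
  have hfz : eval z (aeval (r2 a b) F) = 0 := by
    rw [T2T_eval, ← hz]
    exact hp.2
  have hz0 : ∃ i0 j0, z (Sum.inl i0) ≠ 0 ∧ z (Sum.inr j0) ≠ 0 := by
    by_contra hno
    push Not at hno
    refine p.rep_nonzero (funext fun o => ?_)
    obtain ⟨i, j⟩ := o
    rw [hps]
    by_cases h : z (Sum.inl i) = 0
    · rw [h, zero_mul]; rfl
    · rw [hno i j h, mul_zero]; rfl
  obtain ⟨i0, j0, hi0, hj0⟩ := hz0
  have hmem : ∀ (v : Fin (a + 1) × Fin (b + 1) → ℂ), v ∈ tangentSpace (cut (segre a b) F) p ↔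
      ∀ (G : MvPolynomial (Fin (a + 1) × Fin (b + 1)) ℂ) (e : ℕ), G.IsHomogeneous e →
        (∀ q ∈ cut (segre a b) F, eval q.rep G = 0) → T2T_l G p.rep v = 0 := fun v => Iff.rfl
  have hker : LinearMap.ker (T2T_D (r2 a b) z) =
      Submodule.span ℂ {Sum.elim (fun i => z (Sum.inl i)) (fun j => -z (Sum.inr j))} := by
    ext h
    rw [LinearMap.mem_ker, Submodule.mem_span_singleton]
    constructor
    · intro hh
      have e2 : ∀ i j, h (Sum.inl i) * z (Sum.inr j) + z (Sum.inl i) * h (Sum.inr j) = 0 := by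
        intro i j
        have := congrFun hh (i, j)
        rwa [T2T_Dval] at this
      have e3 : ∀ j, h (Sum.inr j) = -(h (Sum.inl i0) / z (Sum.inl i0)) * z (Sum.inr j) := by
        intro j
        have h4 := e2 i0 j
        field_simp
        linear_combination h4
      refine ⟨h (Sum.inl i0) / z (Sum.inl i0), ?_⟩
      funext o
      rcases o with i | j
      · rw [Pi.smul_apply, Sum.elim_inl, smul_eq_mul]
        have h4 := e2 i j0
        rw [e3 j0] at h4
        have h5 : z (Sum.inr j0) * (h (Sum.inl i) -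
            h (Sum.inl i0) / z (Sum.inl i0) * z (Sum.inl i)) = 0 := by
          linear_combination h4
        have h6 := (mul_eq_zero.1 h5).resolve_left hj0
        exact (sub_eq_zero.1 h6).symm
      · rw [Pi.smul_apply, Sum.elim_inr, smul_eq_mul, e3 j]
        ring
    · rintro ⟨c, rfl⟩
      funext o
      rw [T2T_Dval, Pi.smul_apply, Pi.smul_apply, Sum.elim_inl, Sum.elim_inr, smul_eq_mul, smul_eq_mul,
        Pi.zero_apply]
      ring
  have hlcomp : ∀ h, T2T_l (aeval (r2 a b) F) z h = T2T_l F p.rep (T2T_D (r2 a b) z h) := by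
    intro h
    rw [← T2T_comp, hz]
    rfl
  have htan : tangentSpace (cut (segre a b) F) p =
      (LinearMap.ker (T2T_l (aeval (r2 a b) F) z)).map (T2T_D (r2 a b) z) := by
    apply le_antisymm
    · intro v hv
      rw [hmem] at hv
      have hq : ∀ (k : Fin (a + 1)) (l : Fin (b + 1)),
          v (i0, j0) * (z (Sum.inl k) * z (Sum.inr l)) +
          (z (Sum.inl i0) * z (Sum.inr j0)) * v (k, l) =
          v (i0, l) * (z (Sum.inl k) * z (Sum.inr j0)) +
          (z (Sum.inl i0) * z (Sum.inr l)) * v (k, j0) := by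
        intro k l
        have h2 := hv (X (i0, j0) * X (k, l) - X (i0, l) * X (k, j0))
          (1 + 1) (((isHomogeneous_X _ _).mul (isHomogeneous_X _ _)).sub
            ((isHomogeneous_X _ _).mul (isHomogeneous_X _ _))) (by
          intro q hq
          obtain ⟨z', hz'⟩ := hpar q hq
          rw [hz', map_sub, map_mul, map_mul, eval_X, eval_X, eval_X, eval_X, T2T_val, T2T_val,
            T2T_val, T2T_val]
          ring)
        rw [T2T_l_sub, T2T_l_mul, T2T_l_mul, T2T_l_X, T2T_l_X, T2T_l_X, T2T_l_X, eval_X, eval_X,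
          eval_X, eval_X, hps, hps, hps, hps] at h2
        linear_combination h2
      have hD : T2T_D (r2 a b) z (Sum.elim
          (fun k => v (k, j0) / z (Sum.inr j0) -
            v (i0, j0) * z (Sum.inl k) / (z (Sum.inl i0) * z (Sum.inr j0)))
          (fun l => v (i0, l) / z (Sum.inl i0))) = v := by
        funext o
        obtain ⟨k, l⟩ := o
        rw [T2T_Dval, Sum.elim_inl, Sum.elim_inr]
        have h3 := hq k l
        field_simp
        linear_combination -h3
      refine ⟨_, ?_, hD⟩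
      change T2T_l (aeval (r2 a b) F) z _ = 0
      rw [hlcomp, hD]
      exact hv F d hF fun q hq => hq.2
    · rintro _ ⟨h, hh, rfl⟩
      exact T2T_sup (r2 a b) _ F ⟨p, hp⟩ hirr h0 p z hz hfz h hh
  have hdim := T2T_dim (r2 a b) (aeval (r2 a b) F) z (fun h hh => by
    rw [LinearMap.mem_ker] at hh ⊢
    rw [hlcomp, hh, map_zero]) (hreg z ⟨⟨i0, hi0⟩, ⟨j0, hj0⟩⟩ hfz)
  have hne : (Sum.elim (fun i => z (Sum.inl i)) (fun j => -z (Sum.inr j)) :
      Fin (a + 1) ⊕ Fin (b + 1) → ℂ) ≠ 0 := fun h => hi0 (congrFun h (Sum.inl i0))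
  rw [htan]
  rw [hker, finrank_span_singleton hne, Fintype.card_sum, Fintype.card_fin, Fintype.card_fin] at hdim
  omega

end Pool.Agent.Lib.MP_e005b4_ag.LD
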