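import Pool.Agent.Lib.MP_e005b4_ag.LD.Spec

/-!
# Sections of large degree: the field `L`
-/

set_option autoImplicit false

namespace Pool.Agent.Lib.MP_e005b4_ag.LD

open MvPolynomial Pool.Agent.Lib.MP_e005b4_ag Pool.Agent.Lib.MP_e005b4_ag.GP

/-- change of the base field along an inclusion -/
private theorem Tr_map {A B Ω : Type} [CommRing A] [CommRing B] [Field Ω] [Algebra A Ω] [Algebra B Ω]
    (φ : A →+* B) (hφ : Function.Injective φ)
    (h : ∀ a, algebraMap B Ω (φ a) = algebraMap A Ω a) {x : Ω} (hx : IsAlgebraic A x) :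
    IsAlgebraic B x := by
  obtain ⟨p, hp, hpx⟩ := hx
  refine ⟨p.map φ, ?_, ?_⟩
  · rwa [Ne, Polynomial.map_eq_zero_iff hφ]
  · rw [Polynomial.aeval_def, Polynomial.eval₂_map]
    have h2 : (algebraMap B Ω).comp φ = algebraMap A Ω := RingHom.ext h
    rw [h2, ← Polynomial.aeval_def]
    exact hpx

theorem lTr : StTr := by
  classical
  intro Ω S _ _ _ _ c v s hc
  let K : IntermediateField ℂ Ω := IntermediateField.adjoin ℂ (Set.range s)
  let L : IntermediateField K Ω := algebraicClosure K Ω
  have hL : IsAlgClosed L := (algebraicClosure.isAlgClosure K Ω).1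
  have hchar : CharZero Ω := charZero_of_injective_algebraMap (algebraMap ℂ Ω).injective
  have hchar2 : CharZero L := by
    have : Function.Injective (algebraMap L Ω) := (algebraMap L Ω).injective
    exact (RingHom.charZero_iff this).2 hchar
  refine ⟨L, inferInstance, hL, hchar2, inferInstance, ?_, ?_⟩
  · intro j
    have h1 : s j ∈ K := IntermediateField.subset_adjoin ℂ _ ⟨j, rfl⟩
    exact ⟨algebraMap K L ⟨s j, h1⟩, rfl⟩
  intro R u hu
  let T : Set Ω := Set.range s ∪ Set.range u
  let K' : IntermediateField ℂ Ω := IntermediateField.adjoin ℂ T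
  have hKK : K ≤ K' := IntermediateField.adjoin.mono ℂ _ _ Set.subset_union_left
  let W : IntermediateField K' Ω := algebraicClosure K' Ω
  -- L is contained in W
  have hLW : ∀ x : Ω, x ∈ L → x ∈ W := by
    intro x hx
    rw [mem_algebraicClosure_iff] at hx ⊢
    exact Tr_map (IntermediateField.inclusion hKK).toRingHom
      (IntermediateField.inclusion hKK).injective (fun a => rfl) hx
  have huW : ∀ i, u i ∈ W := by
    intro i
    have h1 : u i ∈ K' := IntermediateField.subset_adjoin ℂ _ (Or.inr ⟨i, rfl⟩)
    exact (algebraMap K' W ⟨u i, h1⟩).2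
  have hadj : ∀ x : Ω, x ∈ IntermediateField.adjoin L (Set.range u) → x ∈ W := by
    intro x hx
    have h2 : (IntermediateField.adjoin L (Set.range u)).toSubfield ≤ W.toSubfield := by
      rw [IntermediateField.adjoin_toSubfield, Subfield.closure_le]
      rintro y (⟨t, rfl⟩ | ⟨i, rfl⟩)
      · exact hLW _ t.2
      · exact huW i
    exact h2 hx
  have hcW : ∀ a, c a ∈ W := by
    intro a
    let φ : IntermediateField.adjoin L (Set.range u) →+* W :=
      { toFun := fun x => ⟨x.1, hadj x.1 x.2⟩
        map_one' := rfl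
        map_mul' := fun _ _ => rfl
        map_zero' := rfl
        map_add' := fun _ _ => rfl }
    have h3 : IsAlgebraic W (c a) := Tr_map φ φ.injective (fun _ => rfl) (hu a)
    have h4 : algebraicClosure W Ω = ⊥ := algebraicClosure.algebraicClosure_eq_bot K' Ω
    have h5 : c a ∈ algebraicClosure W Ω := mem_algebraicClosure_iff.2 h3
    rw [h4, IntermediateField.mem_bot] at h5
    obtain ⟨w, hw⟩ := h5
    rw [← hw]
    exact w.2
  -- ranks in the matroid of algebraic independence
  have hcl : Set.range c ⊆ (AlgebraicIndependent.matroid ℂ Ω).closure T := by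
    rintro _ ⟨a, rfl⟩
    rw [AlgebraicIndependent.matroid_closure_eq]
    have h3 := hcW a
    rw [mem_algebraicClosure_iff, IntermediateField.isAlgebraic_adjoin_iff] at h3
    exact h3
  have hind : (AlgebraicIndependent.matroid ℂ Ω).Indep (Set.range c) := by
    rw [AlgebraicIndependent.matroid_indep_iff]
    exact hc.to_subtype_range
  have h5 := hind.encard_le_eRk_of_subset hcl
  rw [Matroid.eRk_closure_eq] at h5
  have h6 := h5.trans (Matroid.eRk_le_encard _ T)
  have h7 : T.encard ≤ (v : ℕ∞) + R := by
    refine (Set.encard_union_le _ _).trans ?_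
    have h8 : ∀ {n : ℕ} (f : Fin n → Ω), (Set.range f).encard ≤ n := by
      intro n f
      rw [← Set.image_univ]
      refine (Set.encard_image_le _ _).trans ?_
      simp
    exact add_le_add (h8 s) (h8 u)
  have h9 : (Set.range c).encard = Fintype.card S := by
    rw [← Set.image_univ, hc.injective.encard_image]
    simp
  rw [h9] at h6
  have h10 : (Fintype.card S : ℕ∞) ≤ ((v + R : ℕ) : ℕ∞) := by
    push_cast
    exact h6.trans h7
  have h11 : Fintype.card S ≤ v + R := by exact_mod_cast h10
  omega

end Pool.Agent.Lib.MP_e005b4_ag.LD
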