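import Pool.Agent.Lib.MP_e005b4_ag.LD.Spec

/-!
# Sections of large degree: ultrapowers of the complex numbers
-/

set_option autoImplicit false

namespace Pool.Agent.Lib.MP_e005b4_ag.LD

open Filter

/-- The ideal of the functions which vanish almost everywhere. -/
def Ul_ideal {I : Type} (𝒰 : Ultrafilter I) : Ideal (I → ℂ) where
  carrier := {a | ∀ᶠ i in (𝒰 : Filter I), a i = 0}
  add_mem' := by
    intro a b ha hb
    filter_upwards [ha, hb] with i h1 h2
    rw [Pi.add_apply, h1, h2, add_zero]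
  zero_mem' := Filter.Eventually.of_forall fun _ => rfl
  smul_mem' := by
    intro c a ha
    filter_upwards [ha] with i h1
    rw [smul_eq_mul, Pi.mul_apply, h1, mul_zero]

theorem Ul_mem {I : Type} (𝒰 : Ultrafilter I) (a : I → ℂ) :
    a ∈ Ul_ideal 𝒰 ↔ ∀ᶠ i in (𝒰 : Filter I), a i = 0 := Iff.rfl

theorem Ul_max {I : Type} (𝒰 : Ultrafilter I) : (Ul_ideal 𝒰).IsMaximal := by
  rw [Ideal.isMaximal_iff]
  constructor
  · intro h
    rw [Ul_mem] at h
    have h2 : ∀ᶠ _i in (𝒰 : Filter I), False := by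
      filter_upwards [h] with i hi
      exact one_ne_zero hi
    rw [Filter.eventually_false_iff_eq_bot] at h2
    exact 𝒰.neBot.ne h2
  · intro J x hIJ hx hxJ
    have h1 : ∀ᶠ i in (𝒰 : Filter I), x i ≠ 0 := by
      rw [Ul_mem] at hx
      exact Ultrafilter.eventually_not.mpr hx
    have h2 : (1 : I → ℂ) - (fun i => (x i)⁻¹) * x ∈ J := by
      apply hIJ
      rw [Ul_mem]
      filter_upwards [h1] with i hi
      rw [Pi.sub_apply, Pi.mul_apply, Pi.one_apply, inv_mul_cancel₀ hi, sub_self]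
    have h3 := J.add_mem h2 (J.mul_mem_left (fun i => (x i)⁻¹) hxJ)
    rwa [sub_add_cancel] at h3

theorem Ul_root {I : Type} (𝒰 : Ultrafilter I)
    (p : Polynomial ((I → ℂ) ⧸ Ul_ideal 𝒰)) (hp : p.Monic) (hn : p.natDegree ≠ 0) :
    ∃ x, p.eval x = 0 := by
  classical
  set n := p.natDegree with hndef
  have hsur : ∀ k : ℕ, ∃ c : I → ℂ, Ideal.Quotient.mk (Ul_ideal 𝒰) c = p.coeff k :=
    fun k => Ideal.Quotient.mk_surjective _
  choose c hc using hsur
  let c' : ℕ → I → ℂ := fun k => if k = n then 1 else c k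
  have hc' : ∀ k, Ideal.Quotient.mk (Ul_ideal 𝒰) (c' k) = p.coeff k := by
    intro k
    by_cases hk : k = n
    · simp only [c', if_pos hk]
      rw [map_one, hk]
      exact hp.coeff_natDegree.symm
    · simp only [c', if_neg hk]
      exact hc k
  have hroot : ∀ i : I, ∃ r : ℂ, ∑ k ∈ Finset.range (n + 1), c' k i * r ^ k = 0 := by
    intro i
    let P : Polynomial ℂ := ∑ k ∈ Finset.range (n + 1), Polynomial.C (c' k i) * Polynomial.X ^ k
    have hPc : P.coeff n = 1 := by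
      simp only [P, Polynomial.finsetSum_coeff, Polynomial.coeff_C_mul_X_pow]
      rw [Finset.sum_ite_eq, if_pos (Finset.mem_range.mpr (Nat.lt_succ_self n))]
      simp [c']
    have hdeg : P.degree ≠ 0 := by
      intro h
      rw [Polynomial.eq_C_of_degree_eq_zero h, Polynomial.coeff_C, if_neg hn] at hPc
      exact zero_ne_one hPc
    obtain ⟨r, hr⟩ := IsAlgClosed.exists_root P hdeg
    refine ⟨r, ?_⟩
    rw [Polynomial.IsRoot.def] at hr
    simp only [P, Polynomial.eval_finsetSum, Polynomial.eval_mul, Polynomial.eval_C,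
      Polynomial.eval_pow, Polynomial.eval_X] at hr
    exact hr
  choose r hr using hroot
  refine ⟨Ideal.Quotient.mk (Ul_ideal 𝒰) r, ?_⟩
  rw [Polynomial.eval_eq_sum_range]
  have h1 : ∑ k ∈ Finset.range (p.natDegree + 1),
      p.coeff k * (Ideal.Quotient.mk (Ul_ideal 𝒰) r) ^ k =
      Ideal.Quotient.mk (Ul_ideal 𝒰) (∑ k ∈ Finset.range (n + 1), c' k * r ^ k) := by
    rw [map_sum]
    refine Finset.sum_congr rfl fun k _ => ?_
    rw [map_mul, map_pow, hc']
  rw [h1]
  have h2 : (∑ k ∈ Finset.range (n + 1), c' k * r ^ k) = 0 := by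
    funext i
    rw [Finset.sum_apply]
    simpa using hr i
  rw [h2, map_zero]

theorem lUl : StUl := by
  intro I 𝒰
  haveI := Ul_max 𝒰
  letI : Field ((I → ℂ) ⧸ Ul_ideal 𝒰) := Ideal.Quotient.field (Ul_ideal 𝒰)
  refine ⟨(I → ℂ) ⧸ Ul_ideal 𝒰, inferInstance, ?_, inferInstance,
    Ideal.Quotient.mkₐ ℂ (Ul_ideal 𝒰), Ideal.Quotient.mkₐ_surjective _ _, ?_⟩
  · apply IsAlgClosed.of_exists_root
    intro p hp hirr
    exact Ul_root 𝒰 p hp hirr.natDegree_pos.ne'
  · intro a
    rw [Ideal.Quotient.mkₐ_eq_mk, Ideal.Quotient.eq_zero_iff_mem, Ul_mem]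

end Pool.Agent.Lib.MP_e005b4_ag.LD
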