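import Pool.Agent.Lib.MP_e005b4_ag.LD.Spec

/-!
# Sections of large degree: the unit ideal descends from a field
-/

set_option autoImplicit false

namespace Pool.Agent.Lib.MP_e005b4_ag.LD

open MvPolynomial

section

variable {K Ω τ : Type} [Field K] [Field Ω] [Algebra K Ω]

/-- Coefficientwise application of a linear map. -/
private noncomputable def Un_R (ρ : Ω →ₗ[K] K) (p : MvPolynomial τ Ω) : MvPolynomial τ K :=
  ∑ m ∈ p.support, monomial m (ρ (coeff m p))

private lemma Un_coeff (ρ : Ω →ₗ[K] K) (p : MvPolynomial τ Ω) (n : τ →₀ ℕ) :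
    coeff n (Un_R ρ p) = ρ (coeff n p) := by
  classical
  rw [Un_R, coeff_sum]
  simp only [coeff_monomial]
  rw [Finset.sum_ite_eq']
  split_ifs with h
  · rfl
  · rw [notMem_support_iff.mp h, map_zero]

private lemma Un_mul (ρ : Ω →ₗ[K] K) (g : MvPolynomial τ Ω) (f : MvPolynomial τ K) :
    Un_R ρ (g * map (algebraMap K Ω) f) = Un_R ρ g * f := by
  classical
  ext n
  rw [Un_coeff, coeff_mul, coeff_mul, map_sum]
  refine Finset.sum_congr rfl fun x _ => ?_
  rw [coeff_map, Un_coeff, mul_comm, ← Algebra.smul_def, map_smul, smul_eq_mul, mul_comm]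

private lemma Un_sum {κ : Type} [Fintype κ] (ρ : Ω →ₗ[K] K) (g : κ → MvPolynomial τ Ω) :
    Un_R ρ (∑ j, g j) = ∑ j, Un_R ρ (g j) := by
  ext n
  rw [Un_coeff, coeff_sum, coeff_sum, map_sum]
  exact Finset.sum_congr rfl fun j _ => (Un_coeff ρ (g j) n).symm

private lemma Un_one (ρ : Ω →ₗ[K] K) (h : ρ 1 = 1) : Un_R ρ (1 : MvPolynomial τ Ω) = 1 := by
  classical
  ext n
  rw [Un_coeff, coeff_one, coeff_one]
  split_ifs
  · exact h
  · exact map_zero ρ

end

attribute [local instance] MvPolynomial.algebraMvPolynomial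

theorem lUn : StUn := by
  intro A Ω τ κ _ _ _ _ _ f hinj h1
  haveI : FaithfulSMul A Ω := (faithfulSMul_iff_algebraMap_injective A Ω).mpr hinj
  letI : Algebra (FractionRing A) Ω := FractionRing.liftAlgebra A Ω
  haveI : IsScalarTower A (FractionRing A) Ω := FractionRing.isScalarTower_liftAlgebra A Ω
  obtain ⟨g, hg⟩ := Ideal.mem_span_range_iff_exists_fun.mp h1
  obtain ⟨ρ, hρ⟩ := LinearMap.exists_leftInverse_of_injective
    (Algebra.linearMap (FractionRing A) Ω)
    (LinearMap.ker_eq_bot.mpr (algebraMap (FractionRing A) Ω).injective)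
  have hρ1 : ρ 1 = 1 := by
    have h2 := congrArg (fun φ => φ (1 : FractionRing A)) hρ
    simpa using h2
  have hK : ∑ j, Un_R ρ (g j) * map (algebraMap A (FractionRing A)) (f j) = 1 := by
    have h2 := congrArg (Un_R ρ) hg
    rw [Un_one ρ hρ1, Un_sum] at h2
    rw [← h2]
    refine Finset.sum_congr rfl fun j _ => ?_
    rw [← Un_mul, map_map, ← IsScalarTower.algebraMap_eq]
  obtain ⟨b, hb⟩ := IsLocalization.exist_integer_multiples_of_finite
    ((nonZeroDivisors A).map (C : A →+* MvPolynomial τ A))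
    (fun j : κ => (Un_R ρ (g j) : MvPolynomial τ (FractionRing A)))
  obtain ⟨_, s, hs, rfl⟩ := b
  choose h hh using hb
  refine ⟨s, nonZeroDivisors.ne_zero hs, Ideal.mem_span_range_iff_exists_fun.mpr ⟨h, ?_⟩⟩
  apply MvPolynomial.map_injective _ (IsFractionRing.injective A (FractionRing A))
  rw [map_sum]
  have h3 : ∀ j, map (algebraMap A (FractionRing A)) (h j) =
      map (algebraMap A (FractionRing A)) (C s) * Un_R ρ (g j) := fun j => hh j
  simp only [map_mul, h3]
  have h4 : ∀ j, map (algebraMap A (FractionRing A)) (C s : MvPolynomial τ A) * Un_R ρ (g j) *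
      map (algebraMap A (FractionRing A)) (f j) =
      map (algebraMap A (FractionRing A)) (C s : MvPolynomial τ A) * (Un_R ρ (g j) *
      map (algebraMap A (FractionRing A)) (f j)) := fun j => mul_assoc _ _ _
  simp only [h4]
  rw [← Finset.mul_sum, hK, mul_one]

end Pool.Agent.Lib.MP_e005b4_ag.LD
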