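import Pool.Agent.Lib.MP_e005b4_ag.LD.Spec

set_option autoImplicit false

/-!
# Sections of large degree: an ultrafilter on the nonzero polynomials
-/

namespace Pool.Agent.Lib.MP_e005b4_ag.LD

open MvPolynomial Filter

/-- **Up.**  Points where `P` holds and which avoid, eventually, every hypersurface. -/
theorem lUp : StUp := by
  intro S P h
  let I : Type := {Φ : MvPolynomial S ℂ // Φ ≠ 0}
  have hc : ∀ i : I, ∃ c : S → ℂ, eval c i.1 ≠ 0 ∧ P c := fun i => h i.1 i.2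
  choose c hc1 hc2 using hc
  let F : I → Filter I := fun Φ => 𝓟 {Ψ : I | Φ.1 ∣ Ψ.1}
  have : Nonempty I := ⟨⟨1, one_ne_zero⟩⟩
  have hd : Directed (· ≥ ·) F := by
    intro a b
    refine ⟨⟨a.1 * b.1, mul_ne_zero a.2 b.2⟩, ?_, ?_⟩
    · show 𝓟 _ ≤ 𝓟 _
      rw [Filter.principal_mono]
      intro Ψ hΨ
      exact (Dvd.intro _ rfl).trans hΨ
    · show 𝓟 _ ≤ 𝓟 _
      rw [Filter.principal_mono]
      intro Ψ hΨ
      exact (Dvd.intro_left _ rfl).trans hΨ
  have hb : NeBot (iInf F) := by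
    refine Filter.iInf_neBot_of_directed' hd fun a => ?_
    exact Filter.principal_neBot_iff.mpr ⟨a, dvd_refl _⟩
  refine ⟨I, Ultrafilter.of (iInf F), c, hc2, fun Φ hΦ => ?_⟩
  have h1 : {Ψ : I | Φ ∣ Ψ.1} ∈ (Ultrafilter.of (iInf F) : Filter I) := by
    refine (Ultrafilter.of_le (iInf F)) ?_
    exact (iInf_le F (⟨Φ, hΦ⟩ : I)) (Filter.mem_principal_self _)
  refine Filter.mem_of_superset h1 ?_
  rintro Ψ ⟨G, hG⟩
  show eval (c Ψ) Φ ≠ 0
  intro h0
  refine hc1 Ψ ?_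
  rw [hG, map_mul, h0, zero_mul]

end Pool.Agent.Lib.MP_e005b4_ag.LD
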