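import Pool.Agent.Lib.MP_e005b4_ag.LD.SpecB
import Pool.Agent.Lib.MP_e005b4_ag.Sec.Var

/-!
# Sections of large degree: the cone over the second Veronese embedding
-/

set_option autoImplicit false

namespace Pool.Agent.Lib.MP_e005b4_ag.LD

open MvPolynomial Pool.Agent.Lib.MP_e005b4_ag Pool.Agent.Lib.MP_e005b4_ag.GP
open scoped LinearAlgebra.Projectivization

private theorem Va_eval (n : ℕ) (z : Option (Fin (n + 1)) → ℂ) :
    (fun o => eval z (r1 n o)) = vp (fun i => z (some i)) (z none) := by
  funext o
  rcases o with _ | s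
  · have h1 : r1 n none = X none := rfl
    have h2 : vp (fun i => z (some i)) (z none) none = z none := rfl
    rw [h1, h2, eval_X]
  · induction s using Sym2.ind with
    | _ i j =>
      have h1 : r1 n (some s(i, j)) = X (some i) * X (some j) := rfl
      have h2 : vp (fun i => z (some i)) (z none) (some s(i, j)) = z (some i) * z (some j) := rfl
      rw [h1, h2, map_mul, eval_X, eval_X]

private theorem Va_zero (n : ℕ) : (0 : Option (Sym2 (Fin (n + 1))) → ℂ) = vp 0 0 := by
  funext o
  rcases o with _ | s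
  · rfl
  · induction s using Sym2.ind with
    | _ i j =>
      show (0 : ℂ) = 0 * 0
      rw [mul_zero]

private theorem Va_smul (n : ℕ) (c s : ℂ) (hs : c = s * s) (z : Fin (n + 1) → ℂ) (w : ℂ) :
    c • vp z w = vp (fun i => s * z i) (c * w) := by
  funext o
  rcases o with _ | t
  · rfl
  · induction t using Sym2.ind with
    | _ i j =>
      show c * (z i * z j) = s * z i * (s * z j)
      rw [hs]
      ring

private theorem Va_cone (n : ℕ) (w : Option (Sym2 (Fin (n + 1))) → ℂ) :
    w ∈ cone (verCone n) ↔ ∃ (z : Fin (n + 1) → ℂ) (c : ℂ), w = vp z c := by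
  refine mem_cone_setOf (P := fun w => ∃ (z : Fin (n + 1) → ℂ) (c : ℂ), w = vp z c) ?_ ?_
  · exact ⟨0, 0, Va_zero n⟩
  · rintro c w ⟨z, c', rfl⟩
    obtain ⟨s, hs⟩ := IsAlgClosed.exists_eq_mul_self c
    exact ⟨fun i => s * z i, c * c', Va_smul n c s hs z c'⟩

private theorem Va_param (n : ℕ) (z : Fin (n + 1) → ℂ) (c : ℂ) :
    ∃ y : Option (Fin (n + 1)) → ℂ, vp z c = fun o => eval y (r1 n o) := by
  refine ⟨fun o => o.elim c z, ?_⟩
  rw [Va_eval]
  rfl

private theorem Va_closed (n : ℕ) : IsZariskiClosed (verCone n) := by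
  refine ⟨{F | ∃ i j k l : Fin (n + 1), F = X (some s(i, j)) * X (some s(k, l)) -
    X (some s(i, k)) * X (some s(j, l))}, ?_, fun p => ?_⟩
  · rintro F ⟨i, j, k, l, rfl⟩
    exact ⟨2, ((isHomogeneous_X ℂ _).mul (isHomogeneous_X ℂ _)).sub
      ((isHomogeneous_X ℂ _).mul (isHomogeneous_X ℂ _))⟩
  · constructor
    · rintro ⟨z, w, h⟩ F ⟨i, j, k, l, rfl⟩
      have h1 : ∀ i j : Fin (n + 1), p.rep (some s(i, j)) = z i * z j := by
        intro i j
        rw [h]
        rfl
      rw [map_sub, map_mul, map_mul, eval_X, eval_X, eval_X, eval_X, h1, h1, h1, h1]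
      ring
    · intro h
      obtain ⟨m, hm⟩ : ∃ m : Fin (n + 1) → Fin (n + 1) → ℂ, ∀ i j, m i j = p.rep (some s(i, j)) :=
        ⟨fun i j => p.rep (some s(i, j)), fun _ _ => rfl⟩
      have hrel : ∀ i j k l, m i j * m k l = m i k * m j l := by
        intro i j k l
        have h1 := h _ ⟨i, j, k, l, rfl⟩
        rw [map_sub, map_mul, map_mul, eval_X, eval_X, eval_X, eval_X, ← hm, ← hm, ← hm, ← hm,
          sub_eq_zero] at h1
        exact h1
      by_cases h0 : ∀ i, m i i = 0
      · refine ⟨0, p.rep none, ?_⟩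
        funext o
        rcases o with _ | t
        · rfl
        · induction t using Sym2.ind with
          | _ i j =>
            show p.rep (some s(i, j)) = 0 * 0
            have h1 := hrel i j i j
            rw [h0 i, zero_mul] at h1
            rw [← hm, mul_zero]
            exact mul_self_eq_zero.1 h1
      · push Not at h0
        obtain ⟨i0, hi0⟩ := h0
        obtain ⟨s, hs⟩ := IsAlgClosed.exists_eq_mul_self (m i0 i0)
        have hs0 : s ≠ 0 := by
          rintro rfl
          exact hi0 (by rw [hs, mul_zero])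
        refine ⟨fun i => m i0 i / s, p.rep none, ?_⟩
        funext o
        rcases o with _ | t
        · rfl
        · induction t using Sym2.ind with
          | _ i j =>
            show p.rep (some s(i, j)) = m i0 i / s * (m i0 j / s)
            rw [← hm, div_mul_div_comm, eq_div_iff (mul_ne_zero hs0 hs0), ← hs, mul_comm,
              hrel i0 i0 i j]

private theorem Va_nonempty (n : ℕ) : (verCone n).Nonempty := by
  have hne : (vp (fun _ => 1) 0 : Option (Sym2 (Fin (n + 1))) → ℂ) ≠ 0 := by
    intro h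
    have h1 := congrFun h (some s(0, 0))
    have h2 : (1 : ℂ) * 1 = 0 := h1
    rw [mul_one] at h2
    exact one_ne_zero h2
  refine ⟨Projectivization.mk ℂ _ hne, ?_⟩
  rw [← mem_cone_iff hne, Va_cone]
  exact ⟨_, _, rfl⟩

/-- The cone over the second Veronese embedding is a projective variety with a parametrization. -/
theorem lVa : StVa := by
  intro n
  have hcone : ∀ w, w ∈ cone (verCone n) ↔
      ∃ z : Option (Fin (n + 1)) → ℂ, w = fun o => eval z (r1 n o) := by
    intro w
    rw [Va_cone]
    constructor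
    · rintro ⟨z, c, rfl⟩
      exact Va_param n z c
    · rintro ⟨z, rfl⟩
      exact ⟨_, _, Va_eval n z⟩
  refine ⟨hcone, Va_closed n, irred_of_param (Va_nonempty n) (r1 n) (fun x => ?_)
    (fun F d _ h p hp => ?_)⟩
  · rw [hcone]
    exact ⟨x, rfl⟩
  · obtain ⟨z, w, hz⟩ := hp
    obtain ⟨y, hy⟩ := Va_param n z w
    rw [hz, hy]
    exact h y

end Pool.Agent.Lib.MP_e005b4_ag.LD
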