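import Pool.Agent.Lib.MP_e005b4_ag.LD.SpecB
import Pool.Agent.Lib.MP_e005b4_ag.Ver.Sym

/-!
# The cone over the second Veronese embedding: ranks and border ranks
-/

set_option autoImplicit false

namespace Pool.Agent.Lib.MP_e005b4_ag.LD

open MvPolynomial Matrix Pool.Agent.Lib.MP_e005b4_ag Pool.Agent.Lib.MP_e005b4_ag.GP
open scoped LinearAlgebra.Projectivization

private theorem Vb_cone (h1 : StVa) (n : ℕ) (w : Option (Sym2 (Fin (n + 1))) → ℂ) :
    w ∈ cone (verCone n) ↔ ∃ x : Fin (n + 1) → ℂ, ∀ i j, w (some s(i, j)) = x i * x j := by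
  rw [(h1 n).1 w]
  constructor
  · rintro ⟨z, rfl⟩
    refine ⟨fun i => z (some i), fun i j => ?_⟩
    simp [r1]
  · rintro ⟨x, hx⟩
    refine ⟨fun o => o.elim (w none) x, ?_⟩
    funext o
    rcases o with _ | s
    · simp [r1]
    · induction s using Sym2.ind with
      | _ i j =>
        rw [hx]
        simp [r1]

private theorem Vb_rank_sum {n r : ℕ} (h1 : StVa) (z : Fin r → Option (Sym2 (Fin (n + 1))) → ℂ)
    (hz : ∀ l, z l ∈ cone (verCone n)) (s : Finset (Fin r)) :
    (sm (∑ l ∈ s, z l)).rank ≤ s.card := by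
  classical
  induction s using Finset.induction_on with
  | empty =>
    have h3 : sm (∑ k ∈ (∅ : Finset (Fin r)), z k) = 0 := by
      ext i j
      simp [sm]
    rw [h3]
    simp
  | insert k s hk ih =>
    rw [Finset.card_insert_of_notMem hk]
    obtain ⟨y, hy⟩ := (Vb_cone h1 n _).1 (hz k)
    have h3 : sm (∑ k ∈ insert k s, z k) = vecMulVec y y + sm (∑ k ∈ s, z k) := by
      ext i j
      rw [Matrix.add_apply, sm, sm, Matrix.of_apply, Matrix.of_apply, Finset.sum_insert hk,
        Pi.add_apply, hy]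
      rfl
    rw [h3]
    refine (mat_rank_add_le _ _).trans ?_
    have h4 := Matrix.rank_vecMulVec_le y y
    omega

private theorem Vb_first (h1 : StVa) (n r : ℕ) (hr : 1 ≤ r)
    (w : Option (Sym2 (Fin (n + 1))) → ℂ) :
    w ∈ Sr (cone (verCone n)) r ↔ (sm w).rank ≤ r := by
  classical
  constructor
  · rintro ⟨z, hz, rfl⟩
    have h3 := Vb_rank_sum h1 z hz Finset.univ
    rwa [Finset.card_univ, Fintype.card_fin] at h3
  · intro hw
    have hsym : (sm w)ᵀ = sm w := by
      ext i j
      simp only [sm, Matrix.transpose_apply, Matrix.of_apply]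
      rw [Sym2.eq_swap]
    obtain ⟨x, -, hsum⟩ := sym_decomp ⊤ r (sm w) hsym hw fun _ => Submodule.mem_top
    refine ⟨fun k => vp (x k) (if k = ⟨0, hr⟩ then w none else 0), fun k => ?_, ?_⟩
    · rw [Vb_cone h1]
      exact ⟨x k, fun i j => rfl⟩
    · funext o
      rw [Finset.sum_apply]
      rcases o with _ | s
      · simp [vp]
      · induction s using Sym2.ind with
        | _ i j =>
          have h4 := congrFun (congrFun hsum i) j
          rw [Matrix.sum_apply] at h4
          exact h4

theorem lVb (h1 : StVa) : StVb := by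
  intro n
  refine ⟨Vb_first h1 n, rank_eq_of_secant fun r p hp => ?_⟩
  rcases Nat.eq_zero_or_pos r with rfl | hr
  · exfalso
    have h2 := hp 1 0 (isHomogeneous_one _ _) fun q hq => ?_
    · rw [map_one] at h2
      exact one_ne_zero h2
    · exfalso
      obtain ⟨z, -, hz⟩ := exists_sum_of_mem_secantSet hq
      exact q.rep_nonzero (by rw [hz]; simp)
  · have h2 : (sm p.rep).rank ≤ r := by
      refine rank_le_of_closure_idx (fun i j => some s(i, j)) (fun q hq => ?_) hp
      obtain ⟨z, hz, hsum⟩ := exists_sum_of_mem_secantSet hq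
      exact (Vb_first h1 n r hr q.rep).1 ⟨z, hz, hsum⟩
    obtain ⟨z, hz, hsum⟩ := (Vb_first h1 n r hr p.rep).2 h2
    exact mem_secantSet_of_sum' z hz p hsum

end Pool.Agent.Lib.MP_e005b4_ag.LD
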