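import Pool.Agent.Lib.MP_e005b4_ag.LD.SpecB
import Pool.Agent.Lib.MP_e005b4_ag.Ver.Sym

/-!
# Sections of large degree: lines and quadrics on the cone over the Veronese variety
-/

set_option autoImplicit false

namespace Pool.Agent.Lib.MP_e005b4_ag.LD

open MvPolynomial Pool.Agent.Lib.MP_e005b4_ag Pool.Agent.Lib.MP_e005b4_ag.GP
open scoped LinearAlgebra.Projectivization

private lemma Vc_ext {n : ℕ} {v v' : Option (Sym2 (Fin (n + 1))) → ℂ} (h0 : v none = v' none)
    (h1 : ∀ i j, v (some s(i, j)) = v' (some s(i, j))) : v = v' := by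
  funext o
  rcases o with _ | s
  · exact h0
  · induction s with
    | _ i j => exact h1 i j

private lemma Vc_none {n : ℕ} (z : Fin (n + 1) → ℂ) (w : ℂ) : vp z w none = w := rfl

private lemma Vc_some {n : ℕ} (z : Fin (n + 1) → ℂ) (w : ℂ) (i j : Fin (n + 1)) :
    vp z w (some s(i, j)) = z i * z j := rfl

private lemma Vc_rank {ι : Type} [Fintype ι] {X : Set (PSpace ι)} {p : PSpace ι}
    (h : xRank X p = 2) : p ∈ secantSet X 2 ∧ p ∉ X := by
  have hge : ∀ r, p ∈ secantSet X r → 2 ≤ r := by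
    intro r hr
    have h1 : xRank X p ≤ (r : ℕ∞) := iInf₂_le r hr
    rw [h] at h1
    exact_mod_cast h1
  constructor
  · by_contra hno
    have h3 : (3 : ℕ∞) ≤ xRank X p := by
      refine le_iInf₂ fun r hr => ?_
      have h4 := hge r hr
      have h5 : r ≠ 2 := fun h => hno (h ▸ hr)
      exact_mod_cast (by omega : 3 ≤ r)
    rw [h] at h3
    exact absurd h3 (by norm_num)
  · intro hp
    have := hge 1 (by rw [secantSet_one]; exact hp)
    omega

private lemma Vc_line {n : ℕ} {p : PSpace (Option (Sym2 (Fin (n + 1))))} (hp : p ∈ verCone n) :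
    OnLine (verCone n) p := by
  obtain ⟨z, w, hp⟩ := hp
  by_cases hz : ∃ i, z i ≠ 0
  · obtain ⟨i, hi⟩ := hz
    refine ⟨vp 0 1, ?_, ?_⟩
    · rw [LinearIndependent.pair_iff]
      intro s t hst
      rw [hp] at hst
      have h1 := congrFun hst (some s(i, i))
      have h2 := congrFun hst none
      simp only [Pi.add_apply, Pi.smul_apply, Vc_some, Vc_none, smul_eq_mul, Pi.zero_apply,
        mul_zero, add_zero, mul_one] at h1 h2
      have hs : s = 0 := (mul_eq_zero.mp h1).resolve_right (mul_ne_zero hi hi)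
      rw [hs, zero_mul, zero_add] at h2
      exact ⟨hs, h2⟩
    · intro q s t hq
      obtain ⟨σ, hσ⟩ := IsAlgClosed.exists_pow_nat_eq s (n := 2) (by norm_num)
      refine ⟨σ • z, s * w + t, ?_⟩
      rw [hq, hp]
      apply Vc_ext
      · simp only [Pi.add_apply, Pi.smul_apply, Vc_none, smul_eq_mul, mul_one]
      · intro i j
        simp only [Pi.add_apply, Pi.smul_apply, Vc_some, smul_eq_mul, Pi.zero_apply, mul_zero,
          add_zero]
        rw [← hσ]
        ring
  · push Not at hz
    have hw : w ≠ 0 := by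
      rintro rfl
      apply p.rep_nonzero
      rw [hp]
      apply Vc_ext
      · rfl
      · intro i j
        rw [Vc_some, hz i, zero_mul]
        rfl
    refine ⟨vp 1 0, ?_, ?_⟩
    · rw [LinearIndependent.pair_iff]
      intro s t hst
      rw [hp] at hst
      have h1 := congrFun hst (some s(0, 0))
      have h2 := congrFun hst none
      simp only [Pi.add_apply, Pi.smul_apply, Vc_some, Vc_none, smul_eq_mul, Pi.zero_apply,
        mul_zero, add_zero, mul_one, hz 0, Pi.one_apply, zero_add] at h1 h2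
      exact ⟨(mul_eq_zero.mp h2).resolve_right hw, h1⟩
    · intro q s t hq
      obtain ⟨σ, hσ⟩ := IsAlgClosed.exists_pow_nat_eq t (n := 2) (by norm_num)
      refine ⟨σ • 1, s * w, ?_⟩
      rw [hq, hp]
      apply Vc_ext
      · simp only [Pi.add_apply, Pi.smul_apply, Vc_none, smul_eq_mul, mul_zero, add_zero]
      · intro i j
        simp only [Pi.add_apply, Pi.smul_apply, Vc_some, smul_eq_mul, hz i, Pi.one_apply, zero_mul,
          mul_zero, zero_add, mul_one]
        rw [← hσ]
        ring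

/-- Two vectors one of which is a multiple of the other. -/
private lemma Vc_dep {n : ℕ} {p : PSpace (Option (Sym2 (Fin (n + 1))))} {y : Fin (n + 1) → ℂ}
    {c w1 w2 : ℂ} (h : p.rep = vp (c • y) w1 + vp y w2) : p ∈ verCone n := by
  obtain ⟨γ, hγ⟩ := IsAlgClosed.exists_pow_nat_eq (c ^ 2 + 1) (n := 2) (by norm_num)
  refine ⟨γ • y, w1 + w2, ?_⟩
  rw [h]
  apply Vc_ext
  · simp only [Pi.add_apply, Vc_none]
  · intro i j
    simp only [Pi.add_apply, Pi.smul_apply, Vc_some, smul_eq_mul]
    linear_combination (-(y i * y j)) * hγ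

private lemma Vc_quad {n : ℕ} {p : PSpace (Option (Sym2 (Fin (n + 1))))} {x y : Fin (n + 1) → ℂ}
    {w1 w2 : ℂ} (hp : p.rep = vp x w1 + vp y w2) (hn : p ∉ verCone n) :
    OnQuadric (verCone n) p := by
  have hxy : ∀ s t : ℂ, s • x + t • y = 0 → s = 0 ∧ t = 0 := by
    intro s t hst
    by_contra hno
    by_cases hs : s = 0
    · have ht : t ≠ 0 := fun ht => hno ⟨hs, ht⟩
      have hy : y = (0 : ℂ) • x := by
        rw [hs, zero_smul, zero_add] at hst
        rw [zero_smul]
        exact (smul_eq_zero.mp hst).resolve_left ht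
      apply hn
      apply Vc_dep (y := x) (c := 0) (w1 := w2) (w2 := w1)
      rw [← hy, hp]
      exact add_comm _ _
    · have hx : x = (-(t / s)) • y := by
        have h1 : s • x = (-t) • y := by
          rw [neg_smul]
          exact eq_neg_of_add_eq_zero_left hst
        have h2 : s⁻¹ • (s • x) = x := by rw [smul_smul, inv_mul_cancel₀ hs, one_smul]
        rw [← h2, h1, smul_smul]
        congr 1
        field_simp
      apply hn
      apply Vc_dep (y := y) (c := -(t / s)) (w1 := w1) (w2 := w2)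
      rw [← hx]
      exact hp
  obtain ⟨G, hG⟩ : ∃ G : Fin (n + 1) → ℂ, ∀ i, G i = (x i + Complex.I * y i) / 2 :=
    ⟨_, fun _ => rfl⟩
  obtain ⟨H, hH⟩ : ∃ H : Fin (n + 1) → ℂ, ∀ i, H i = x i - Complex.I * y i := ⟨_, fun _ => rfl⟩
  have hI : Complex.I ^ 2 = -1 := Complex.I_sq
  have hM : ∀ i j, p.rep (some s(i, j)) = G i * H j + H i * G j := by
    intro i j
    rw [hp]
    simp only [Pi.add_apply, Vc_some, hG, hH]
    linear_combination (y i * y j) * hI
  have hGH : ∀ s t : ℂ, (∀ i, s * G i + t * H i = 0) → s = 0 ∧ t = 0 := by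
    intro s t hst
    have h1 : (s / 2 + t) • x + (Complex.I * (s / 2 - t)) • y = 0 := by
      funext i
      simp only [Pi.add_apply, Pi.smul_apply, smul_eq_mul, Pi.zero_apply]
      rw [← hst i, hG, hH]
      ring
    obtain ⟨h2, h3⟩ := hxy _ _ h1
    have h4 : s / 2 - t = 0 := (mul_eq_zero.mp h3).resolve_left Complex.I_ne_zero
    constructor
    · linear_combination h2 + h4
    · linear_combination (1 / 2 : ℂ) * h2 - (1 / 2 : ℂ) * h4
  refine ⟨vp G 0, vp H 0, vp 0 1, 0, ?_, ?_⟩
  · rw [Fintype.linearIndependent_iff]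
    intro g hg
    rw [Fin.sum_univ_four] at hg
    simp only [Matrix.cons_val_zero, Matrix.cons_val_one, Matrix.cons_val] at hg
    have h1 : ∀ i j, (g 0 * H j + g 1 * G j) * G i + (g 0 * G j + g 2 * H j) * H i = 0 := by
      intro i j
      have h2 := congrFun hg (some s(i, j))
      simp only [Pi.add_apply, Pi.smul_apply, Vc_some, smul_eq_mul, Pi.zero_apply, hM] at h2
      linear_combination h2
    have h2 : ∀ j, g 0 * H j + g 1 * G j = 0 ∧ g 0 * G j + g 2 * H j = 0 := fun j =>
      hGH _ _ fun i => h1 i j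
    have h3 := hGH (g 1) (g 0) fun i => by linear_combination (h2 i).1
    have h4 := hGH (g 0) (g 2) fun i => (h2 i).2
    have h5 := congrFun hg none
    simp only [Pi.add_apply, Pi.smul_apply, Vc_none, smul_eq_mul, Pi.zero_apply, mul_zero,
      mul_one, add_zero] at h5
    rw [h4.1, zero_mul, zero_add] at h5
    intro i
    fin_cases i
    · exact h4.1
    · exact h3.1
    · exact h4.2
    · exact h5
  · intro q w a b c hq hw
    rw [zero_mul, add_zero] at hw
    obtain ⟨s, hs⟩ := IsAlgClosed.exists_pow_nat_eq a (n := 2) (by norm_num)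
    obtain ⟨t, ht, hst⟩ : ∃ t : ℂ, t ^ 2 = b ∧ s * t = w := by
      obtain ⟨t, ht⟩ := IsAlgClosed.exists_pow_nat_eq b (n := 2) (by norm_num)
      have h1 : (s * t) ^ 2 = w ^ 2 := by rw [mul_pow, hs, ht, hw]
      rcases sq_eq_sq_iff_eq_or_eq_neg.mp h1 with h2 | h2
      · exact ⟨t, ht, h2⟩
      · exact ⟨-t, by rw [neg_sq]; exact ht, by rw [mul_neg, h2, neg_neg]⟩
    refine ⟨fun i => s * G i + t * H i, w * p.rep none + c, ?_⟩
    rw [hq]
    apply Vc_ext
    · simp only [Pi.add_apply, Pi.smul_apply, Vc_none, smul_eq_mul, mul_zero, mul_one, add_zero]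
    · intro i j
      simp only [Pi.add_apply, Pi.smul_apply, Vc_some, smul_eq_mul, Pi.zero_apply, mul_zero,
        add_zero, hM]
      rw [← hst, ← hs, ← ht]
      ring

/-- **Vc.** Lines and quadrics on the cone over the Veronese variety. -/
theorem lVc (h1 : StVa) (_h2 : StVb) : StVc := by
  intro n
  refine ⟨fun p hp => Vc_line hp, fun p hp => ?_⟩
  obtain ⟨h3, h4⟩ := Vc_rank hp
  obtain ⟨z, hz, hsum⟩ := exists_sum_of_mem_secantSet h3
  rw [Fin.sum_univ_two] at hsum
  obtain ⟨z0, hz0⟩ := ((h1 n).1 _).1 (hz 0)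
  obtain ⟨z1, hz1⟩ := ((h1 n).1 _).1 (hz 1)
  have he : ∀ z' : Option (Fin (n + 1)) → ℂ,
      (fun o => eval z' (r1 n o)) = vp (fun i => z' (some i)) (z' none) := by
    intro z'
    apply Vc_ext
    · simp only [r1, eval_X]
      rfl
    · intro i j
      simp only [r1, Sym2.lift_mk, map_mul, eval_X]
      rfl
  rw [hz0, hz1, he, he] at hsum
  exact Vc_quad hsum h4

end Pool.Agent.Lib.MP_e005b4_ag.LD
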