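import Pool.Agent.Lib.MP_e005b4_ag.LD.SpecB
import Pool.Agent.Lib.MP_e005b4_ag.Sec.SegreVar

/-!
# Segre varieties: closed and irreducible
-/

set_option autoImplicit false

namespace Pool.Agent.Lib.MP_e005b4_ag.LD

open MvPolynomial Pool.Agent.Lib.MP_e005b4_ag Pool.Agent.Lib.MP_e005b4_ag.GP
open scoped LinearAlgebra.Projectivization

theorem Wa_eq (a b : ℕ) :
    segre a b = segreSec (0 : Matrix (Fin (a + 1)) (Fin (b + 1)) ℂ) := by
  ext p
  constructor
  · rintro ⟨u, v, h⟩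
    exact ⟨u, v, h, by simp⟩
  · rintro ⟨u, v, h, -⟩
    exact ⟨u, v, h⟩

theorem Wa_cone (a b : ℕ) (w : Fin (a + 1) × Fin (b + 1) → ℂ) :
    w ∈ cone (segre a b) ↔
      ∃ z : Fin (a + 1) ⊕ Fin (b + 1) → ℂ, w = fun o => eval z (r2 a b o) := by
  rw [Wa_eq, mem_cone_segreSec]
  constructor
  · rintro ⟨u, v, h, -⟩
    refine ⟨Sum.elim u v, ?_⟩
    funext ⟨i, j⟩
    rw [h]
    simp only [r2, map_mul, eval_X, Sum.elim_inl, Sum.elim_inr]
  · rintro ⟨z, rfl⟩
    refine ⟨fun i => z (Sum.inl i), fun j => z (Sum.inr j), fun i j => ?_, by simp⟩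
    simp only [r2, map_mul, eval_X]

theorem lWa : StWa := by
  intro a b
  refine ⟨Wa_cone a b, ?_, ?_⟩
  · rw [Wa_eq]
    exact segreSec_closed _
  · have h1 : (fun _ : Fin (a + 1) × Fin (b + 1) => (1 : ℂ)) ≠ 0 := by
      intro h
      exact one_ne_zero (congrFun h (0, 0))
    have hne : (segre a b).Nonempty := by
      refine ⟨Projectivization.mk ℂ _ h1, ?_⟩
      rw [← mem_cone_iff h1, Wa_cone]
      refine ⟨fun _ => 1, ?_⟩
      funext o
      simp only [r2, map_mul, eval_X, mul_one]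
    refine irred_of_param hne (r2 a b) (fun x => (Wa_cone a b _).2 ⟨x, rfl⟩) ?_
    rintro F d - hvan p ⟨u, v, h⟩
    have h2 : p.rep = fun o => eval (Sum.elim u v) (r2 a b o) := by
      funext ⟨i, j⟩
      rw [h]
      simp only [r2, map_mul, eval_X, Sum.elim_inl, Sum.elim_inr]
    rw [h2]
    exact hvan _

end Pool.Agent.Lib.MP_e005b4_ag.LD
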