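import Pool.Agent.Lib.MP_e005b4_ag.LD.SpecB
import Pool.Agent.Lib.MP_e005b4_ag.Sec.SegreVar

/-!
# Sections of large degree: rank and border rank for the Segre varieties
-/

set_option autoImplicit false

namespace Pool.Agent.Lib.MP_e005b4_ag.LD

open MvPolynomial Pool.Agent.Lib.MP_e005b4_ag Pool.Agent.Lib.MP_e005b4_ag.GP Matrix
open scoped LinearAlgebra.Projectivization

theorem Wb_segre_eq (a b : ℕ) :
    segre a b = segreSec (0 : Matrix (Fin (a + 1)) (Fin (b + 1)) ℂ) := by
  ext p
  constructor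
  · rintro ⟨u, v, h⟩
    refine ⟨u, v, h, ?_⟩
    simp
  · rintro ⟨u, v, h, -⟩
    exact ⟨u, v, h⟩

theorem Wb_mem_cone (a b : ℕ) (w : Fin (a + 1) × Fin (b + 1) → ℂ) :
    w ∈ cone (segre a b) ↔ ∃ (u : Fin (a + 1) → ℂ) (v : Fin (b + 1) → ℂ),
      ∀ i j, w (i, j) = u i * v j := by
  rw [Wb_segre_eq, mem_cone_segreSec]
  constructor
  · rintro ⟨u, v, h, -⟩
    exact ⟨u, v, h⟩
  · rintro ⟨u, v, h⟩
    refine ⟨u, v, h, ?_⟩
    simp

theorem Wb_mem_Sr (a b r : ℕ) (w : Fin (a + 1) × Fin (b + 1) → ℂ) :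
    w ∈ Sr (cone (segre a b)) r ↔ (mat w).rank ≤ r := by
  constructor
  · rintro ⟨z, hz, hsum⟩
    rw [hsum, mat_sum]
    have h2 : ∀ s : Finset (Fin r), (∑ k ∈ s, mat (z k)).rank ≤ s.card := by
      classical
      intro s
      induction s using Finset.induction_on with
      | empty => simp
      | insert k s hk ih =>
        rw [Finset.sum_insert hk, Finset.card_insert_of_notMem hk]
        refine (mat_rank_add_le _ _).trans ?_
        have h3 : (mat (z k)).rank ≤ 1 := by
          obtain ⟨u, v, h4⟩ := (Wb_mem_cone a b _).1 (hz k)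
          have h5 : mat (z k) = vecMulVec u v := by
            ext i j
            exact h4 i j
          rw [h5]
          exact Matrix.rank_vecMulVec_le u v
        omega
    have h3 := h2 Finset.univ
    rwa [Finset.card_univ, Fintype.card_fin] at h3
  · intro h
    obtain ⟨u, v, -, hsum⟩ := segre_decomp (0 : Matrix (Fin (b + 1)) (Fin (a + 1)) ℂ) r (mat w) h
      (by rw [Matrix.mul_zero, Matrix.trace_zero])
    refine ⟨fun k ij => u k ij.1 * v k ij.2, fun k => ?_, ?_⟩
    · rw [Wb_mem_cone]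
      exact ⟨u k, v k, fun i j => rfl⟩
    · funext ⟨i, j⟩
      have h4 := congrFun (congrFun hsum i) j
      rw [Matrix.sum_apply] at h4
      rw [Finset.sum_apply]
      exact h4

/-- **Wb.** Sums of points of the cone over the Segre variety, rank and border rank. -/
theorem lWb (_h1 : StWa) : StWb := by
  intro a b
  refine ⟨fun r w => Wb_mem_Sr a b r w, fun p => ?_⟩
  rw [Wb_segre_eq]
  exact segreSec_rank 0 p

end Pool.Agent.Lib.MP_e005b4_ag.LD
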