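import Pool.Agent.Lib.MP_e005b4_ag.LD.SpecB
import Pool.Agent.Lib.MP_e005b4_ag.Sec.SegreVar

/-!
# Sections of large degree: lines and quadric surfaces on the Segre varieties
-/

set_option autoImplicit false

namespace Pool.Agent.Lib.MP_e005b4_ag.LD

open MvPolynomial Pool.Agent.Lib.MP_e005b4_ag Pool.Agent.Lib.MP_e005b4_ag.GP
open scoped LinearAlgebra.Projectivization

/-- A two by two matrix of determinant zero is a product. -/
theorem Wc_two (A x y D : ℂ) (h : A * D = x * y) :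
    ∃ α β γ δ : ℂ, α * γ = A ∧ α * δ = x ∧ β * γ = y ∧ β * δ = D := by
  by_cases hA : A = 0
  · subst hA
    have h1 : x * y = 0 := by rw [← h, zero_mul]
    rcases mul_eq_zero.1 h1 with hx | hy
    · refine ⟨0, 1, y, D, ?_, ?_, ?_, ?_⟩
      · ring
      · rw [hx]; ring
      · ring
      · ring
    · refine ⟨x, D, 0, 1, ?_, ?_, ?_, ?_⟩
      · ring
      · ring
      · rw [hy]; ring
      · ring
  · refine ⟨A, y, 1, x / A, ?_, ?_, ?_, ?_⟩
    · ring
    · field_simp
    · ring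
    · field_simp
      linear_combination (-1 : ℂ) * h

theorem Wc_mem_cone {a b : ℕ} {w : Fin (a + 1) × Fin (b + 1) → ℂ} (h : w ∈ cone (segre a b)) :
    ∃ (u : Fin (a + 1) → ℂ) (v : Fin (b + 1) → ℂ), ∀ i j, w (i, j) = u i * v j := by
  have h1 : segre a b = segreSec (0 : Matrix (Fin (a + 1)) (Fin (b + 1)) ℂ) := by
    ext p
    constructor
    · rintro ⟨u, v, h⟩
      refine ⟨u, v, h, ?_⟩
      simp
    · rintro ⟨u, v, h, -⟩
      exact ⟨u, v, h⟩
  rw [h1, mem_cone_segreSec] at h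
  obtain ⟨u, v, h2, -⟩ := h
  exact ⟨u, v, h2⟩

theorem Wc_line (a b : ℕ) (hb : 1 ≤ b) (p : PSpace (Fin (a + 1) × Fin (b + 1)))
    (hp : p ∈ segre a b) : OnLine (segre a b) p := by
  obtain ⟨u, v, huv⟩ := hp
  have hex : ∃ i0 j0, p.rep (i0, j0) ≠ 0 := by
    by_contra hno
    push Not at hno
    apply p.rep_nonzero
    funext ⟨i, j⟩
    exact hno i j
  obtain ⟨i0, j0, h0⟩ := hex
  rw [huv] at h0
  have hu : u i0 ≠ 0 := fun h => h0 (by rw [h, zero_mul])
  have hv : v j0 ≠ 0 := fun h => h0 (by rw [h, mul_zero])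
  have h4 : ∃ j1 : Fin (b + 1), j1 ≠ j0 := by
    rcases Nat.eq_zero_or_pos j0.1 with h | h
    · exact ⟨⟨1, by omega⟩, fun h' => by
        have := congrArg Fin.val h'
        simp at this
        omega⟩
    · exact ⟨⟨0, by omega⟩, fun h' => by
        have := congrArg Fin.val h'
        simp at this
        omega⟩
  obtain ⟨j1, hj1⟩ := h4
  refine ⟨fun ij => u ij.1 * (Pi.single j1 1 : Fin (b + 1) → ℂ) ij.2, ?_, ?_⟩
  · rw [LinearIndependent.pair_iff]
    intro s t hst
    have h5 := congrFun hst (i0, j0)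
    simp only [Pi.add_apply, Pi.smul_apply, smul_eq_mul, Pi.zero_apply, huv,
      Pi.single_eq_of_ne hj1.symm, mul_zero, add_zero] at h5
    have hs : s = 0 := by
      rcases mul_eq_zero.1 h5 with h6 | h6
      · exact h6
      · exact absurd h6 (mul_ne_zero hu hv)
    refine ⟨hs, ?_⟩
    have h7 := congrFun hst (i0, j1)
    simp only [Pi.add_apply, Pi.smul_apply, smul_eq_mul, Pi.zero_apply, hs, zero_mul, zero_add,
      Pi.single_eq_same, mul_one] at h7
    rcases mul_eq_zero.1 h7 with h6 | h6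
    · exact h6
    · exact absurd h6 hu
  · intro q s t hq
    refine ⟨u, fun j => s * v j + t * (Pi.single j1 1 : Fin (b + 1) → ℂ) j, fun i j => ?_⟩
    have h5 := congrFun hq (i, j)
    rw [h5, Pi.add_apply, Pi.smul_apply, Pi.smul_apply, smul_eq_mul, smul_eq_mul, huv]
    ring

/-- Two tensors whose sum is not decomposable: the vectors are linearly independent. -/
theorem Wc_indep {m n : ℕ} (u1 u2 : Fin m → ℂ) (v1 v2 : Fin n → ℂ)
    (h : ¬ ∃ (u : Fin m → ℂ) (v : Fin n → ℂ), ∀ i j, u1 i * v1 j + u2 i * v2 j = u i * v j)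
    (s t : ℂ) (hst : ∀ i, s * u1 i + t * u2 i = 0) : s = 0 ∧ t = 0 := by
  have hs : s = 0 := by
    by_contra hs
    apply h
    refine ⟨u2, fun j => -(t / s) * v1 j + v2 j, fun i j => ?_⟩
    have h1 : u1 i = -(t / s) * u2 i := by
      have := hst i
      field_simp
      linear_combination this
    rw [h1]
    ring
  refine ⟨hs, ?_⟩
  by_contra ht
  apply h
  refine ⟨u1, v1, fun i j => ?_⟩
  have h1 := hst i
  rw [hs, zero_mul, zero_add] at h1
  rcases mul_eq_zero.1 h1 with h2 | h2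
  · exact absurd h2 ht
  · rw [h2]
    ring

theorem Wc_quadric (h1 : StWa) (a b : ℕ) (p : PSpace (Fin (a + 1) × Fin (b + 1)))
    (hp : xRank (segre a b) p = 2) : OnQuadric (segre a b) p := by
  have hne : (segre a b).Nonempty := (h1 a b).2.2.1
  have h2 : p ∈ secantSet (segre a b) 2 := (xRank_le_iff hne).1 (le_of_eq hp)
  have h3 : p ∉ segre a b := by
    intro h
    have h4 : p ∈ secantSet (segre a b) 1 := by
      rw [secantSet_one]
      exact h
    have h5 := (xRank_le_iff hne).2 h4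
    rw [hp] at h5
    exact absurd h5 (by norm_num)
  obtain ⟨z, hz, hsum⟩ := exists_sum_of_mem_secantSet h2
  obtain ⟨u1, v1, hz1⟩ := Wc_mem_cone (hz 0)
  obtain ⟨u2, v2, hz2⟩ := Wc_mem_cone (hz 1)
  have hrep : ∀ i j, p.rep (i, j) = u1 i * v1 j + u2 i * v2 j := by
    intro i j
    rw [hsum, Finset.sum_apply, Fin.sum_univ_two, hz1, hz2]
  have hno : ¬ ∃ (u : Fin (a + 1) → ℂ) (v : Fin (b + 1) → ℂ),
      ∀ i j, u1 i * v1 j + u2 i * v2 j = u i * v j := by
    rintro ⟨u, v, h⟩
    exact h3 ⟨u, v, fun i j => by rw [hrep, h]⟩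
  have hu := Wc_indep u1 u2 v1 v2 hno
  have hv := Wc_indep v1 v2 u1 u2 (fun ⟨v, u, h⟩ => hno ⟨u, v, fun i j => by
    have := h j i
    linear_combination this⟩)
  refine ⟨fun ij => u1 ij.1 * v2 ij.2, fun ij => u2 ij.1 * v1 ij.2,
    fun ij => u1 ij.1 * v1 ij.2 - u2 ij.1 * v2 ij.2, 1, ?_, ?_⟩
  · rw [Fintype.linearIndependent_iff]
    intro g hg
    rw [Fin.sum_univ_four] at hg
    have h4 : ∀ i j, u1 i * ((g 0 + g 3) * v1 j + g 1 * v2 j) +
        u2 i * (g 2 * v1 j + (g 0 - g 3) * v2 j) = 0 := by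
      intro i j
      have h5 := congrFun hg (i, j)
      simp only [Matrix.cons_val, Pi.add_apply, Pi.smul_apply, smul_eq_mul, Pi.zero_apply,
        hrep] at h5
      linear_combination h5
    have h6 : ∀ j, (g 0 + g 3) * v1 j + g 1 * v2 j = 0 ∧ g 2 * v1 j + (g 0 - g 3) * v2 j = 0 := by
      intro j
      exact hu _ _ fun i => by
        have := h4 i j
        linear_combination this
    have h7 := hv _ _ fun j => (h6 j).1
    have h8 := hv _ _ fun j => (h6 j).2
    have h9 : g 0 = 0 := by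
      linear_combination (1 / 2 : ℂ) * h7.1 + (1 / 2 : ℂ) * h8.2
    have h10 : g 3 = 0 := by
      linear_combination (1 / 2 : ℂ) * h7.1 - (1 / 2 : ℂ) * h8.2
    intro i
    fin_cases i
    · exact h9
    · exact h7.2
    · exact h8.1
    · exact h10
  · intro q w x y z hq hw
    obtain ⟨α, β, γ, δ, hA, hx, hy, hD⟩ := Wc_two (w + z) x y (w - z) (by
      linear_combination hw)
    refine ⟨fun i => α * u1 i + β * u2 i, fun j => γ * v1 j + δ * v2 j, fun i j => ?_⟩
    have h5 := congrFun hq (i, j)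
    rw [h5]
    simp only [Pi.add_apply, Pi.smul_apply, smul_eq_mul, hrep]
    linear_combination (-(u1 i * v1 j)) * hA - (u1 i * v2 j) * hx - (u2 i * v1 j) * hy -
      (u2 i * v2 j) * hD

/-- **Wc.** Lines and quadric surfaces on the Segre varieties. -/
theorem lWc (h1 : StWa) (_h2 : StWb) : StWc := by
  intro a b hb
  exact ⟨fun p hp => Wc_line a b hb p hp, fun p hp => Wc_quadric h1 a b p hp⟩

end Pool.Agent.Lib.MP_e005b4_ag.LD
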