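import Pool.Agent.Lib.MP_e005b4_ag.LD.SpecB
import Pool.Agent.Lib.MP_e005b4_ag.Sec.Var

/-!
# Sections of large degree: irreducible hypersurface sections
-/

set_option autoImplicit false

namespace Pool.Agent.Lib.MP_e005b4_ag.LD

open MvPolynomial Pool.Agent.Lib.MP_e005b4_ag Pool.Agent.Lib.MP_e005b4_ag.GP
open scoped LinearAlgebra.Projectivization

private theorem Xi_eval {ι σ : Type} (φ : ι → MvPolynomial σ ℂ) (H : MvPolynomial ι ℂ)
    (x : σ → ℂ) : eval x (aeval φ H) = eval (fun i => eval x (φ i)) H :=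
  MvPolynomial.eval₂Hom_bind₁ (RingHom.id ℂ) x φ H

theorem lXi : StXi := by
  intro ι σ _ _ φ Z d F hd hF hZ hcone hirr hne
  have hclosed : IsZariskiClosed (cut Z F) := by
    obtain ⟨S, hS, hSZ⟩ := hZ
    refine ⟨insert F S, ?_, ?_⟩
    · intro G hG
      rcases Set.mem_insert_iff.mp hG with h | h
      · exact ⟨d, by rw [h]; exact hF⟩
      · exact hS G h
    · intro p
      constructor
      · rintro ⟨hp, hpF⟩ G hG
        rcases Set.mem_insert_iff.mp hG with h | h
        · rw [h]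
          exact hpF
        · exact (hSZ p).mp hp G h
      · intro h
        exact ⟨(hSZ p).mpr fun G hG => h G (Set.mem_insert_of_mem _ hG),
          h F (Set.mem_insert _ _)⟩
  refine ⟨hclosed, hne, ?_⟩
  intro G H e1 e2 hG hH hGH
  -- zeros of the pull back
  have h1 : ∀ z : σ → ℂ, eval z (aeval φ F) = 0 →
      eval z (aeval φ (G * H)) = 0 := by
    intro z hz
    rw [Xi_eval] at hz ⊢
    refine vanish_on_cone hne (hG.mul hH) ?_ _ ?_
    · intro p hp
      rw [map_mul]
      exact hGH p hp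
    · intro hw
      refine ⟨(hcone _).mpr ⟨z, rfl⟩ hw, ?_⟩
      exact (eval_rep_iff hF _ hw).mpr hz
  have hprime : Prime (aeval φ F) := hirr.prime
  have hP : (Ideal.span {aeval φ F} : Ideal (MvPolynomial σ ℂ)).IsPrime :=
    (Ideal.span_singleton_prime hprime.ne_zero).mpr hprime
  have h2 : aeval φ (G * H) ∈ vanishingIdeal ℂ
      (zeroLocus ℂ (Ideal.span {aeval φ F} : Ideal (MvPolynomial σ ℂ))) := by
    rw [mem_vanishingIdeal_iff]
    intro x hx
    rw [mem_zeroLocus_iff] at hx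
    have h3 := hx _ (Ideal.mem_span_singleton_self _)
    rw [aeval_eq_eval] at h3 ⊢
    exact h1 x h3
  rw [IsPrime.vanishingIdeal_zeroLocus, Ideal.mem_span_singleton, map_mul] at h2
  have h4 : ∀ K : MvPolynomial ι ℂ, aeval φ F ∣ aeval φ K → ∀ p ∈ cut Z F, eval p.rep K = 0 := by
    rintro K ⟨M, hM⟩ p ⟨hpZ, hpF⟩
    obtain ⟨z, hz⟩ := (hcone p.rep).mp (rep_mem_cone.mpr hpZ)
    have h5 : eval z (aeval φ F) = 0 := by
      rw [Xi_eval, ← hz]
      exact hpF
    have h6 : eval z (aeval φ K) = 0 := by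
      rw [hM, map_mul, h5, zero_mul]
    rw [Xi_eval, ← hz] at h6
    exact h6
  rcases hprime.dvd_or_dvd h2 with h | h
  · exact Or.inl (h4 G h)
  · exact Or.inr (h4 H h)

end Pool.Agent.Lib.MP_e005b4_ag.LD
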